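import Pool.Agent.RLT.St2

/-!
# MP_5e85fc_lc, project RLT: statements, part 3 (the language, the final assembly)
-/

set_option autoImplicit false

namespace Pool.Agent.RLT

open Pool.Agent.Heads

/-- The run of a real-time deterministic pushdown machine on a word (configurations: state,
stack). -/
def run {α Q Γ : Type} (stp : α → Q → Option Γ → Q × Op Γ) (w : List α) (c : Q × List Γ) :
    Q × List Γ :=
  w.foldl (fun c a => ((stp a c.1 c.2.head?).1, (stp a c.1 c.2.head?).2.apply c.2)) c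

/-- RTP (200 lines). Proof: the automaton with the states `Option Q` (`none` accepting), start
`some q₀`; on the left endmarker it moves right without stack operation; on a letter `a` in state
`some q` with top symbol `g` it makes `stp a q g` and moves right; on the right endmarker in state
`some q` with top symbol `g` it goes to `none` without moving if `fin q g = true` and has no move
otherwise; no move in state `none`. Copy the file `Pool/Agent/Lib_helper16/Det/EvPDA.lean`, which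
does exactly this for one special `stp` (on main). -/
def S_RTP : Prop := ∀ (α Q Γ : Type) [Finite Q] [Finite Γ]
  (stp : α → Q → Option Γ → Q × Op Γ) (q₀ : Q) (fin : Q → Option Γ → Bool),
  ∃ Mc : PDA α 1, Mc.Det ∧
    Mc.lang = {w | fin (run stp w (q₀, [])).1 (run stp w (q₀, [])).2.head? = true} ∧
    ∀ w t c, Mc.Reach w t c → c.pos 0 = min t (w.length + 1) ∧ t ≤ w.length + 2

/-- The alphabet. `dig d`: add `d` to the current digit modulo `M`; `nxt`: next run; `psh`: push `1` if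
the number of the run is at most the digit; `fin`: end of the digit; `opn`: push a marker; `ent`: next
entry of the table; `unt`: push `1` if the entry is selected; `cls`: end of the table; `chk`: pop one
`1`; `pad`: nothing. -/
inductive Lt (M : ℕ) where
  | dig (d : Fin M)
  | nxt
  | psh
  | fin
  | opn
  | ent
  | unt
  | cls
  | chk
  | pad

/-- States: digit, number of the run, mode (`none`: no entry of the table is selected, `some true`:
the present entry is selected, `some false`: another entry has been selected), no error. Stack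
symbols: `true` = unit, `false` = marker. -/
def stp (M : ℕ) [NeZero M] : Lt M → Fin M × Fin (M + 1) × Option Bool × Bool → Option Bool →
    (Fin M × Fin (M + 1) × Option Bool × Bool) × Op Bool
  | .dig d, (s, c, md, ok), _ => ((s + d, c, md, ok), .none)
  | .nxt, (s, c, md, ok), _ => ((s, c + 1, md, ok), .none)
  | .psh, (s, c, md, ok), _ => ((s, c, md, ok), if (c : ℕ) ≤ (s : ℕ) then .push true else .none)
  | .fin, (_, _, md, ok), _ => ((0, 0, md, ok), .none)
  | .opn, q, _ => (q, .push false)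
  | .ent, (s, c, none, ok), some true => ((s, c, none, ok), .pop)
  | .ent, (s, c, none, ok), some false => ((s, c, some true, ok), .pop)
  | .ent, (s, c, none, ok), none => ((s, c, some false, ok), .none)
  | .ent, (s, c, some _, ok), _ => ((s, c, some false, ok), .none)
  | .unt, (s, c, md, ok), _ => ((s, c, md, ok), if md = some true then .push true else .none)
  | .cls, (s, c, _, ok), _ => ((s, c, none, ok), .none)
  | .chk, (s, c, md, ok), some true => ((s, c, md, ok), .pop)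
  | .chk, (s, c, md, _), _ => ((s, c, md, false), .none)
  | .pad, q, _ => (q, .none)

/-- The language: after the word the stack is empty and there was no error. -/
def Lang (M : ℕ) [NeZero M] : Set (List (Lt M)) :=
  {w | (run (stp M) w ((0, 0, none, true), [])).1.2.2.2 = true ∧
    (run (stp M) w ((0, 0, none, true), [])).2 = []}

/-- The `M - 1` runs of the digit number `j`, each with `M ^ j` letters `psh`. -/
def runs (M j : ℕ) : List (Lt M) :=
  (List.replicate (M - 1) (Lt.nxt :: List.replicate (M ^ j) Lt.psh)).flatten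

/-- The template of the leaf `u`. -/
def leafT (M κ b : ℕ) (u : List Bool) : List (Lt M ⊕ (List Bool × Fin κ × Fin b)) :=
  (List.finRange κ).flatMap fun (j : Fin κ) =>
    (List.finRange b).map (fun i => Sum.inr (u, j, i)) ++ (runs M (j : ℕ)).map Sum.inl ++
      [Sum.inl Lt.fin]

/-- The table of the function `x ↦ x ^ 2 % p`, `x < 2 p - 1`. -/
def tableT (M p : ℕ) : List (Lt M) :=
  (List.range (2 * p - 1)).flatMap fun x => Lt.ent :: List.replicate (x ^ 2 % p) Lt.unt

/-- The template of the tree of height `h` below the node `u`. -/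
def treeT (M κ b p : ℕ) : ℕ → List Bool → List (Lt M ⊕ (List Bool × Fin κ × Fin b))
  | 0, u => leafT M κ b u
  | h + 1, u => Sum.inl Lt.opn :: (treeT M κ b p h (u ++ [false]) ++
      treeT M κ b p h (u ++ [true]) ++ (tableT M p).map Sum.inl ++ [Sum.inl Lt.cls])

/-- The word of a template. -/
def ev {M : ℕ} {V : Type} (x : V → Fin M) (T : List (Lt M ⊕ V)) : List (Lt M) :=
  T.map (Sum.elim id fun v => Lt.dig (x v))

/-- The number with the digits `d` in base `M`. -/
def lfN {M κ : ℕ} (d : Fin κ → Fin M) : ℕ := ∑ j, (d j : ℕ) * M ^ (j : ℕ)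

/-- WRD (200 lines). Proof: `run` of a concatenation is the composition (`List.foldl_append`).
LEAF: for each `j`: the `dig` letters make the digit `D = ∑ i, x (u, j, i)` (from `0`), the runs number
`c = 1, …, M - 1` push `M ^ j` units each if `c ≤ D`, in all `D * M ^ j` units (`D ≤ M - 1`), `fin`
resets digit and run number; in all `lfN` units; `lfN < M ^ κ ≤ p`, so this is the `ZMod.val` of the
leaf value. NODE: marker, `s` units, `t` units by induction (`s, t ≤ p - 1`); in the table the entry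
number `x < s + t` pops a unit and pushes nothing (mode `none`), the entry `s + t ≤ 2 p - 2` pops the
marker and pushes `(s + t) ^ 2 % p` units, the later entries do nothing; `cls` resets the mode;
`((s + t) ^ 2 % p)` is the `ZMod.val` of `(s + t) ^ 2`. Use `u ++ [b] ++ w = u ++ (b :: w)`. -/
def S_WRD : Prop := ∀ (M κ b p : ℕ) [NeZero M] [Fact p.Prime], M ^ κ ≤ p →
  ∀ (h : ℕ) (u : List Bool) (x : List Bool × Fin κ × Fin b → Fin M) (stk : List Bool),
    run (stp M) (ev x (treeT M κ b p h u)) ((0, 0, none, true), stk) =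
      ((0, 0, none, true), List.replicate (val h (fun w =>
        ((lfN (fun j => ∑ i, x (u ++ w, j, i)) : ℕ) : ZMod p))).val true ++ stk)

/-- LEN (60 lines). Proof: `runs M j` has length `(M - 1) * (1 + M ^ j)`; sum over `j < κ`:
`∑ (M - 1) M ^ j = M ^ κ - 1`; each entry of the table has length at most `1 + (p - 1)`. -/
def S_LEN : Prop := ∀ (M κ b p h : ℕ) (u : List Bool), 1 ≤ M → 1 ≤ p →
  (treeT M κ b p h u).length ≤
    2 ^ h * (κ * (b + M) + (M ^ κ - 1)) + (2 ^ h - 1) * (2 * p ^ 2 + 2)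

/-- LNG (120 lines), hypothesis `S_WRD`. Proof: `T r` is the list
`(treeT M κ b p h []) ++ r letters chk ++ (n - length - r) letters pad`, with `inr (u, j, i)` replaced
by `inr ((adr h u, j), i)`, read as a function on `Fin n` (its length is `n`). The word
`List.ofFn (word (T r) Lt.dig x)` is `ev x' (treeT …) ++ chk … ++ pad …` with
`x' (u, j, i) = x ((adr h u, j), i)`. By `S_WRD` the machine has `V = (val …).val` units on the stack
after the tree; `r` letters `chk` leave `V - r` units, with an error iff `r > V`. So the word is in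
`Lang M` iff `r = V` iff `val … = (r : ZMod p)` (`r < p`). -/
def S_LNG : Prop := ∀ (M κ b p h n : ℕ) [NeZero M] [Fact p.Prime], M ^ κ ≤ p →
  (treeT M κ b p h []).length + p ≤ n →
  ∃ T : Fin p → Fin n → Lt M ⊕ (((Fin h → Bool) × Fin κ) × Fin b), ∀ r x,
    List.ofFn (word (T r) Lt.dig x) ∈ Lang M ↔
      val h (fun w => ((lfN (fun j => ∑ i, x ((adr h w, j), i)) : ℕ) : ZMod p)) =
        ((r : ℕ) : ZMod p)

/-- INE (120 lines), hypotheses `S_CNT`, `S_DES`, `S_LNG`, `S_LEN`. Proof: `q = 32 k + 1`, `C, c, E`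
from `S_CNT`. `T` from `S_LNG` (length by `S_LEN`). `rt d` = the number
`(val h (fun w => (lfN (fun j => d (adr h w, j)) : ZMod p))).val < p`. `S_DES` with `L = Lang M`,
`dg = Lt.dig` gives `tmp, s, r, G`. Apply `S_CNT` with `F = ZMod p` (`2 ≠ 0` because `p` is a prime
`> 2`), `lf v d = (lfN (fun j => d j + s (v, j)) : ZMod p)` (injective: base `M` digits, and
`lfN < M ^ κ ≤ p`), `ρ = r`; `8 * (4 k 2 ^ h κ) ≤ q 2 ^ h κ`. So with `e = κ / E`,
`M ^ (2 ^ h κ) * M ^ (2 m e) ≤ 2 p G.card * M ^ (2 m e) ≤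
2 p * (card S) ^ C * 2 ^ (C+1) * (2 ^ h) ^ (2m+1) * (2 ^ κ) ^ (2m) * M ^ (2 ^ h κ) * (2 ^ (4h+2)) ^ m *
M ^ (e m)`; cancel `M ^ (2 ^ h κ) * M ^ (m e)`. -/
def S_INE : Prop := ∀ k : ℕ, ∃ C c E : ℕ, 1 ≤ c ∧ 1 ≤ E ∧
  ∀ (M κ b p h n m : ℕ) [NeZero M] [Fact p.Prime], 2 < p → M ^ κ ≤ p → 1 ≤ κ → 1 ≤ b →
  c * (m + 1) ≤ h →
  2 ^ h * (κ * (b + M) + (M ^ κ - 1)) + (2 ^ h - 1) * (2 * p ^ 2 + 2) + p ≤ n →
  n ≤ 2 * (2 ^ h * κ * b) →
  ∀ P : Prog (Lt M) n, P.Recognizes (Lang M) (k * n) →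
    M ^ (m * (κ / E)) ≤ 2 * p * (Nat.card P.S) ^ C * 2 ^ (C + 1) * (2 ^ h) ^ (2 * m + 1) *
      (2 ^ κ) ^ (2 * m) * (2 ^ (4 * h + 2)) ^ m

/-- PAR (250 lines), the parameters. Proof: `g = 64 E`, `M = 2 ^ g`. For `n ≥ 1` let `h` be the natural
number with `2 ^ ((2g+8) h) ≤ n < 2 ^ ((2g+8)(h+1))` (`h = Nat.log 2 n / (2g+8)`; it tends to
infinity). `κ = h`, `p` a prime with `M ^ h < p ≤ 2 M ^ h` (`Nat.exists_prime_lt_and_le_two_mul`),
`m = h / c - 1` (so `c (m + 1) ≤ h`, and `m ≥ h / (2 c)` (real) for large `h`),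
`O = 2 ^ h (κ M + M ^ κ) + 2 ^ h (2 p² + 2) + p`, `b = (n - O) / (2 ^ h κ)`. For large `h`:
`4 O + 4 * 2 ^ h κ ≤ 2 ^ ((2g+8)h) ≤ n` (`p ≤ 2 ^ (gh+1)`, `2 p² ≤ 2 ^ (2gh+3)`, `h 2 ^ g ≤ 2 ^ (gh)`).
So `2 ^ h κ b ≥ n - O - 2 ^ h κ ≥ n / 2`, `b ≥ 1`, and the length condition holds because the left side
is at most `2 ^ h κ b + O ≤ n`.
Let `s` satisfy the last inequality. Logarithms to base 2: the left side is
`g m (h / E) ≥ 64 E m h / (2 E) = 32 m h` (`h ≥ 2 E`), the right side is at most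
`(g h + 2) + C log s + (C + 1) + h (2m+1) + 2hm + (4h+2) m`. For `m ≥ g + 1`, `h ≥ C + 3`:
`C log s ≥ 32 m h - 8 m h - 2 m - (g+1) h - C - 3 ≥ m h`, i.e. `2 ^ (m h) ≤ s ^ C`; so `C ≥ 1`,
`s ≥ 1` and `log₂ s ≥ m h / C ≥ h² / (2 c C)`. And `log₂ n ≤ (2g+8)(h+1) ≤ (4g+16) h`, so
`(n : ℝ) ^ (γ log n) = exp (γ (log n)²) ≤ s` for `γ = log 2 / (2 c (C + 1) (4g+16)²)` (use
`(log n)² ≤ ((4g+16) h log 2)² ≤ ((4g+16) h)²`). -/
def S_PAR : Prop := ∀ C c E : ℕ, 1 ≤ c → 1 ≤ E → ∃ (M : ℕ) (γ : ℝ), 2 ≤ M ∧ 0 < γ ∧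
  ∀ᶠ n : ℕ in Filter.atTop, ∃ κ b p h m : ℕ, p.Prime ∧ 2 < p ∧ M ^ κ ≤ p ∧ 1 ≤ κ ∧ 1 ≤ b ∧
    c * (m + 1) ≤ h ∧
    2 ^ h * (κ * (b + M) + (M ^ κ - 1)) + (2 ^ h - 1) * (2 * p ^ 2 + 2) + p ≤ n ∧
    n ≤ 2 * (2 ^ h * κ * b) ∧
    ∀ s : ℕ, M ^ (m * (κ / E)) ≤ 2 * p * s ^ C * 2 ^ (C + 1) * (2 ^ h) ^ (2 * m + 1) *
      (2 ^ κ) ^ (2 * m) * (2 ^ (4 * h + 2)) ^ m → (n : ℝ) ^ (γ * Real.log n) ≤ s

/-- The theorem. -/
def Final : Prop := ∀ k : ℕ, ∃ (α : Type) (_ : Finite α) (L : Set (List α)),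
  (∃ M : PDA α 1, M.Det ∧ M.lang = L ∧
    ∀ w t c, M.Reach w t c → c.pos 0 = min t (w.length + 1) ∧ t ≤ w.length + 2) ∧
  ∃ c : ℝ, 0 < c ∧ ∀ᶠ n : ℕ in Filter.atTop, ∀ P : Prog α n, P.Recognizes L (k * n) →
    (n : ℝ) ^ (c * Real.log n) ≤ Nat.card P.S

/-- FNL (60 lines), hypotheses `S_RTP`, `S_INE`, `S_PAR`. Proof: `C, c, E` from `S_INE` for `k`, `M, γ`
from `S_PAR`, `α = Lt M` (finite), `L = Lang M`; the automaton is that of `S_RTP` for `stp M`,
`q₀ = (0, 0, none, true)`, `fin q g = q.2.2.2 && g.isNone` (`head? = none` iff the stack is empty). -/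
def S_FNL : Prop := Final

end Pool.Agent.RLT
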