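import Pool.Agent.RLT.St

/-!
# RLT_ALG
-/

set_option autoImplicit false

namespace Pool.Agent.RLT

open Polynomial

namespace ALG

variable {F : Type} [Field F]

/-- Top two coefficients of the square. -/
lemma sq_top (n : ℕ) (hn : 1 ≤ n) (P : F[X]) (b : F) (hd : P.natDegree ≤ n)
    (h1 : P.coeff n = 1) (h2 : P.coeff (n - 1) = b) :
    (P ^ 2).natDegree ≤ 2 * n ∧ (P ^ 2).coeff (2 * n) = 1 ∧
      (P ^ 2).coeff (2 * n - 1) = 2 * b := by
  obtain ⟨m, rfl⟩ : ∃ m, n = m + 1 := ⟨n - 1, by omega⟩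
  have hm : m + 1 - 1 = m := by omega
  rw [hm] at h2
  -- split off the top
  set A : F[X] := P - C (P.coeff (m + 1)) * X ^ (m + 1) with hA
  have hAc : A.coeff (m + 1) = 0 := by
    simp [hA]
  have hAm : A.coeff m = b := by
    simp only [hA, coeff_sub, coeff_C_mul, coeff_X_pow]
    rw [if_neg (by omega)]
    simp [h2]
  have hAd : A.natDegree ≤ m := by
    rw [natDegree_le_iff_coeff_eq_zero]
    intro k hk
    rcases Nat.lt_or_ge (m + 1) k with hk' | hk'
    · simp only [hA, coeff_sub, coeff_C_mul, coeff_X_pow]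
      rw [if_neg (by omega), coeff_eq_zero_of_natDegree_lt (lt_of_le_of_lt hd hk')]
      simp
    · have : k = m + 1 := by omega
      rw [this]; exact hAc
  have hP : P = A + X ^ (m + 1) := by
    simp [hA, h1]
  have hsq : P ^ 2 = A ^ 2 + (C 2 * A) * X ^ (m + 1) + X ^ (2 * (m + 1)) := by
    rw [hP, show (C (2 : F)) = 2 from map_ofNat C 2]
    ring
  have hA2 : (A ^ 2).natDegree ≤ 2 * m := by
    refine le_trans natDegree_pow_le ?_
    exact Nat.mul_le_mul_left 2 hAd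
  refine ⟨?_, ?_, ?_⟩
  · refine le_trans natDegree_pow_le ?_
    exact Nat.mul_le_mul_left 2 hd
  · rw [hsq]
    simp only [coeff_add, coeff_X_pow]
    rw [coeff_eq_zero_of_natDegree_lt (lt_of_le_of_lt hA2 (by omega : 2 * m < 2 * (m + 1)))]
    rw [show 2 * (m + 1) = (m + 1) + (m + 1) by ring, coeff_mul_X_pow, coeff_C_mul, hAc]
    simp
  · rw [hsq]
    simp only [coeff_add, coeff_X_pow]
    rw [coeff_eq_zero_of_natDegree_lt (lt_of_le_of_lt hA2 (by omega : 2 * m < 2 * (m + 1) - 1))]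
    rw [show 2 * (m + 1) - 1 = m + (m + 1) by omega, coeff_mul_X_pow, coeff_C_mul, hAm]
    rw [if_neg (by omega)]
    simp

/-- The translated composition. -/
lemma comp_top (q : F) (v : ℕ) (V : F[X]) (hV : SqP v V) :
    (V.comp ((X + C q) ^ 2)).natDegree ≤ 2 ^ (v + 1) ∧
    (V.comp ((X + C q) ^ 2)).coeff (2 ^ (v + 1)) = 1 ∧
    (V.comp ((X + C q) ^ 2)).coeff (2 ^ (v + 1) - 1) = 2 ^ (v + 1) * q := by
  induction hV with
  | base =>
    have h := sq_top 1 le_rfl (X + C q) q (natDegree_X_add_C q).le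
      (by simp [coeff_X, coeff_C]) (by simp [coeff_X, coeff_C])
    rw [X_comp]
    simpa using h
  | step e Q c hQ ih =>
    obtain ⟨i1, i2, i3⟩ := ih
    have hpos : 1 ≤ 2 ^ (e + 1) := Nat.one_le_two_pow
    have h2 : 2 ≤ 2 ^ (e + 1) := by
      calc 2 = 2 ^ 1 := rfl
        _ ≤ 2 ^ (e + 1) := Nat.pow_le_pow_right (by norm_num) (by omega)
    have hc : ((Q + C c) ^ 2).comp ((X + C q) ^ 2) = (Q.comp ((X + C q) ^ 2) + C c) ^ 2 := by
      simp
    rw [hc]
    have h := sq_top (2 ^ (e + 1)) hpos (Q.comp ((X + C q) ^ 2) + C c) (2 ^ (e + 1) * q)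
      (by rw [natDegree_add_C]; exact i1)
      (by rw [coeff_add, i2, coeff_C, if_neg (by omega), add_zero])
      (by rw [coeff_add, i3, coeff_C, if_neg (by omega), add_zero])
    obtain ⟨j1, j2, j3⟩ := h
    rw [show 2 ^ (e + 1 + 1) = 2 * 2 ^ (e + 1) by rw [pow_succ]; ring]
    refine ⟨j1, j2, ?_⟩
    rw [j3, pow_succ (2 : F) (e + 1)]
    ring

lemma sqp_monic (e : ℕ) (Q : F[X]) (hQ : SqP e Q) : Q.Monic ∧ Q.natDegree = 2 ^ e := by
  induction hQ with
  | base => exact ⟨monic_X, by simp⟩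
  | step e Q c hQ ih =>
    obtain ⟨i1, i2⟩ := ih
    have hpos : 0 < Q.natDegree := by rw [i2]; exact Nat.two_pow_pos e
    have hm : (Q + C c).Monic := i1.add_of_left (by
      refine lt_of_le_of_lt degree_C_le ?_
      rw [← natDegree_pos_iff_degree_pos]
      exact hpos)
    refine ⟨hm.pow 2, ?_⟩
    rw [hm.natDegree_pow, natDegree_add_C, i2, pow_succ]
    ring

end ALG

open ALG in
theorem t_ALG : S_ALG := by
  intro F _ h2 v r V R hV hR q₁ q₂ δ hδ
  by_cases hq : q₁ = q₂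
  · refine ⟨∅, by simp, ?_⟩
    intro a ha
    rw [hq, sub_self] at ha
    exact absurd ha.symm hδ
  obtain ⟨a1, a2, a3⟩ := comp_top q₁ v V hV
  obtain ⟨b1, b2, b3⟩ := comp_top q₂ v V hV
  obtain ⟨hRm, hRd⟩ := sqp_monic r R hR
  classical
  set G : F[X] := V.comp ((X + C q₁) ^ 2) - V.comp ((X + C q₂) ^ 2) - C δ with hG
  have h2v : 2 ≤ 2 ^ (v + 1) := by
    calc 2 = 2 ^ 1 := rfl
      _ ≤ 2 ^ (v + 1) := Nat.pow_le_pow_right (by norm_num) (by omega)
  have hGc : G.coeff (2 ^ (v + 1) - 1) = 2 ^ (v + 1) * (q₁ - q₂) := by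
    rw [hG, coeff_sub, coeff_sub, a3, b3, coeff_C, if_neg (by omega)]
    ring
  have hGc0 : G.coeff (2 ^ (v + 1) - 1) ≠ 0 := by
    rw [hGc]
    exact mul_ne_zero (pow_ne_zero _ h2) (sub_ne_zero.mpr hq)
  have hGd : G.natDegree ≤ 2 ^ (v + 1) := by
    rw [hG]
    refine le_trans (natDegree_sub_le _ _) (max_le ?_ ?_)
    · exact le_trans (natDegree_sub_le _ _) (max_le a1 b1)
    · rw [natDegree_C]; exact Nat.zero_le _
  have hG0 : G ≠ 0 := by
    intro h
    rw [h] at hGc0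
    exact hGc0 (coeff_zero _)
  have hcd : (G.comp R).natDegree ≤ 2 ^ (v + 1 + r) := by
    rw [natDegree_comp, hRd, pow_add]
    exact Nat.mul_le_mul_right _ hGd
  have hc0 : G.comp R ≠ 0 := by
    intro h
    rcases comp_eq_zero_iff.mp h with h | ⟨_, h⟩
    · exact hG0 h
    · have : R.natDegree = 0 := by rw [h]; exact natDegree_C _
      rw [hRd] at this
      exact absurd this (Nat.two_pow_pos r).ne'
  refine ⟨(G.comp R).roots.toFinset, ?_, ?_⟩
  · exact le_trans (Multiset.toFinset_card_le _) (le_trans (card_roots' _) hcd)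
  · intro a ha
    rw [Multiset.mem_toFinset, mem_roots hc0, IsRoot.def, eval_comp, hG]
    simp only [eval_sub, eval_comp, eval_pow, eval_add, eval_X, eval_C]
    rw [add_comm (R.eval a) q₁, add_comm (R.eval a) q₂, ha, sub_self]

end Pool.Agent.RLT
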