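import Pool.Agent.RLT.St

/-!
# MP_5e85fc_lc, project RLT, module CMB: the comb lemma
-/

set_option autoImplicit false

namespace Pool.Agent.RLT

theorem cmb_num (X h a : ℕ) (hX : 1 ≤ X) (ha : 1 ≤ a) (h1 : 2 * h ≤ X * a) :
    (X + 1) ^ h < 2 ^ a * X ^ h := by
  have hXr : (0 : ℝ) < (X : ℝ) := by exact_mod_cast hX
  have har : (1 : ℝ) ≤ (a : ℝ) := by exact_mod_cast ha
  have h1r : 2 * (h : ℝ) ≤ (X : ℝ) * (a : ℝ) := by exact_mod_cast h1
  have hlog : (0.5 : ℝ) < Real.log 2 := by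
    have := Real.log_two_gt_d9
    linarith
  have e1 : ((X : ℝ) + 1) = (X : ℝ) * (1 / (X : ℝ) + 1) := by
    field_simp
    ring
  have e2 : (1 / (X : ℝ) + 1) ≤ Real.exp (1 / (X : ℝ)) := Real.add_one_le_exp _
  have e3 : (1 / (X : ℝ) + 1) ^ h ≤ Real.exp ((h : ℝ) * (1 / (X : ℝ))) := by
    rw [Real.exp_nat_mul]
    exact pow_le_pow_left₀ (by positivity) e2 h
  have e4 : (h : ℝ) * (1 / (X : ℝ)) < (a : ℝ) * Real.log 2 := by
    have : (h : ℝ) * (1 / (X : ℝ)) ≤ (a : ℝ) * 0.5 := by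
      rw [mul_one_div, div_le_iff₀ hXr]
      nlinarith
    nlinarith
  have e5 : Real.exp ((h : ℝ) * (1 / (X : ℝ))) < (2 : ℝ) ^ a := by
    calc Real.exp ((h : ℝ) * (1 / (X : ℝ))) < Real.exp ((a : ℝ) * Real.log 2) :=
          Real.exp_lt_exp.mpr e4
      _ = (2 : ℝ) ^ a := by
          rw [Real.exp_nat_mul, Real.exp_log (by norm_num)]
  have e6 : ((X : ℝ) + 1) ^ h < 2 ^ a * (X : ℝ) ^ h := by
    rw [e1, mul_pow, mul_comm]
    exact mul_lt_mul_of_pos_right (lt_of_le_of_lt e3 e5) (by positivity)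
  exact_mod_cast e6

theorem t_CMB (hSPL : S_SPL) (hSSH : S_SSH) (hCRL : S_CRL) : S_CMB := by
  intro r
  obtain ⟨N, hN⟩ : ∃ N, N = 2 ^ ((r + 1) ^ 2) := ⟨_, rfl⟩
  obtain ⟨rho, hrho⟩ : ∃ rho, rho = 2 * (r + 2) := ⟨_, rfl⟩
  obtain ⟨xi, hxi⟩ : ∃ xi, xi = (r + 1) ^ 2 + 4 := ⟨_, rfl⟩
  obtain ⟨D, hD⟩ : ∃ D, D = (2 ^ (r + 1) + 1) * 2 ^ (r + 2) := ⟨_, rfl⟩
  have hN1 : 1 ≤ N := by rw [hN]; exact Nat.one_le_two_pow
  have hX : 2 ^ xi = 16 * N := by
    rw [hxi, hN, pow_add]; ring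
  have hrho2 : (r + 2) ^ 2 ≤ 2 ^ rho := by
    have h1 : r + 2 ≤ 2 ^ (r + 2) := Nat.lt_two_pow_self.le
    calc (r + 2) ^ 2 ≤ (2 ^ (r + 2)) ^ 2 := Nat.pow_le_pow_left h1 2
      _ = 2 ^ rho := by rw [hrho, ← pow_mul]; ring_nf
  refine ⟨8 * N * (xi * D) + 2 * N * (rho + 1) + 1, by omega, ?_⟩
  intro h m U Q hh hU hcard hmono hdist
  have hh1 : 8 * N * (xi * (D * m)) + 2 * N * (rho + 1) + 1 ≤ h := by
    have : 8 * N * (xi * (D * m)) + 2 * N * (rho + 1) + 1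
        ≤ (8 * N * (xi * D) + 2 * N * (rho + 1) + 1) * (m + 1) := by
      nlinarith [Nat.zero_le (8 * N * (xi * D)), Nat.zero_le (2 * N * (rho + 1) * m),
        Nat.zero_le m]
    exact this.trans hh
  obtain ⟨q, hq⟩ : ∃ q, q = (h - 1) / N := ⟨_, rfl⟩
  have hq1 : N * q ≤ h - 1 := by rw [hq]; exact Nat.mul_div_le _ _
  have hq2 : h ≤ N * (q + 1) := by
    have := Nat.lt_mul_div_succ (h - 1) (show 0 < N by omega)
    rw [← hq] at this
    omega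
  have hqrho : rho ≤ q := by
    by_contra hcon
    have h2 : q + 1 ≤ rho := by omega
    have h3 : N * (q + 1) ≤ N * rho := Nat.mul_le_mul_left _ h2
    have h4 : 2 * N * (rho + 1) = 2 * (N * rho) + 2 * N := by ring
    omega
  obtain ⟨e, he⟩ : ∃ e, q = e + rho := ⟨q - rho, by omega⟩
  have hUc : 2 ^ (h - 1) ≤ U.card := by
    have h2 : 2 ^ h = 2 * 2 ^ (h - 1) := by
      rw [← pow_succ']
      congr 1
      omega
    omega
  have hsplc : ((r + 2) ^ 2 * 2 ^ e) ^ (2 ^ ((r + 1) ^ 2)) ≤ U.card := by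
    rw [← hN]
    calc ((r + 2) ^ 2 * 2 ^ e) ^ N ≤ (2 ^ rho * 2 ^ e) ^ N :=
          Nat.pow_le_pow_left (Nat.mul_le_mul_right _ hrho2) N
      _ = 2 ^ (N * q) := by
          rw [← pow_add, ← pow_mul, he]; ring_nf
      _ ≤ 2 ^ (h - 1) := Nat.pow_le_pow_right (by norm_num) hq1
      _ ≤ U.card := hUc
  obtain ⟨U', hU', hc', hspl⟩ := hSPL r (2 ^ e) U Q Nat.one_le_two_pow hmono hdist hsplc
  have hU'len : ∀ v ∈ U', v.length = h := fun v hv => hU v (hU' hv)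
  obtain ⟨j, hj⟩ : ∃ j, j = (2 ^ (r + 1) + 1) * (2 ^ (r + 2) * m) := ⟨_, rfl⟩
  have hjD : j = D * m := by rw [hj, hD]; ring
  have hkey : h ≤ 8 * N * (e - xi * j) ∧ xi * j + 1 ≤ e := by
    have h1 : 8 * N * (xi * j) + 2 * N * (rho + 1) + 1 ≤ h := by rw [hjD]; exact hh1
    have h2 : h ≤ N * e + N * (rho + 1) := by
      have : N * (q + 1) = N * e + N * (rho + 1) := by rw [he]; ring
      omega
    have h3 : 8 * N * (xi * j) = 8 * (N * (xi * j)) := by ring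
    have h4 : 2 * N * (rho + 1) = 2 * (N * (rho + 1)) := by ring
    have h5 : xi * j + 1 ≤ e := by
      by_contra hcon
      have h6 : e ≤ xi * j := by omega
      have h7 : N * e ≤ N * (xi * j) := Nat.mul_le_mul_left _ h6
      omega
    refine ⟨?_, h5⟩
    have h8 : 8 * N * (e - xi * j) = 8 * (N * e) - 8 * (N * (xi * j)) := by
      rw [Nat.mul_sub, mul_assoc, mul_assoc]
    rw [h8]
    omega
  have hX1 : 1 ≤ 2 ^ xi := Nat.one_le_two_pow
  have hnum := cmb_num (2 ^ xi) h (e - xi * j) hX1 (by omega) (by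
    rw [hX]
    have : 16 * N * (e - xi * j) = 2 * (8 * N * (e - xi * j)) := by ring
    rw [this]
    exact Nat.mul_le_mul_left 2 hkey.1)
  have hssh : (2 ^ xi) ^ j * (2 ^ xi + 1) ^ h < U'.card * (2 ^ xi) ^ h := by
    calc (2 ^ xi) ^ j * (2 ^ xi + 1) ^ h
        < (2 ^ xi) ^ j * (2 ^ (e - xi * j) * (2 ^ xi) ^ h) :=
          Nat.mul_lt_mul_of_pos_left hnum (by positivity)
      _ = 2 ^ e * (2 ^ xi) ^ h := by
          rw [← mul_assoc, ← pow_mul 2 xi j, ← pow_add]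
          congr 2
          omega
      _ ≤ U'.card * (2 ^ xi) ^ h := Nat.mul_le_mul_right _ hc'
  have hEmb := hSSH U' h j (2 ^ xi) hX1 hU'len hssh
  rw [hj] at hEmb
  obtain ⟨l, hl, δ, A, B, hcomb, hAB⟩ := hCRL r h m U' (fun v w i => decide (Q v i < Q w i))
    hU'len (by
      intro v hv w hw hvw i hi
      have hne := hdist v (hU' hv) w (hU' hw) hvw i i hi hi
      by_cases hlt : Q v i < Q w i
      · have : ¬ Q w i < Q v i := by omega
        simp [hlt, this]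
      · have : Q w i < Q v i := by omega
        simp [hlt, this]) hEmb
  refine ⟨U', hU', hspl, l, hl, δ, A, B, hcomb, ?_⟩
  intro t
  obtain ⟨h1, h2, h3⟩ := hAB t
  refine ⟨h1, h2, fun i hi => ?_⟩
  obtain ⟨h4, h5⟩ := h3 i hi
  refine ⟨?_, ?_⟩
  · rw [← h4]; simp
  · rw [← h5]; simp

end Pool.Agent.RLT
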