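import Pool.Agent.RLT.St2

/-!
# RLT, module CNT: counting
-/

set_option autoImplicit false

namespace Pool.Agent.RLT

namespace CNT

theorem adr_ofFn (h : ℕ) (v : Fin h → Bool) : adr h (List.ofFn v) = v := by
  funext t
  unfold adr
  rw [List.getD_eq_getElem?_getD, List.getElem?_ofFn, dif_pos t.isLt]
  rfl

theorem ofFn_adr (h : ℕ) (w : List Bool) (hw : w.length = h) : List.ofFn (adr h w) = w := by
  subst hw
  apply List.ext_getElem
  · simp
  · intro i h1 h2
    rw [List.getElem_ofFn]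
    unfold adr
    rw [List.getD_eq_getElem _ _ h2]

theorem length_lv {h : ℕ} {w : List Bool} (hw : w ∈ lv h) : w.length = h := by
  unfold lv at hw
  obtain ⟨v, -, rfl⟩ := Finset.mem_image.1 hw
  simp

theorem adr_inj {h : ℕ} {v w : List Bool} (hv : v.length = h) (hw : w.length = h)
    (he : adr h v = adr h w) : v = w := by
  rw [← ofFn_adr h v hv, ← ofFn_adr h w hw, he]

theorem Br_lt {l c : List Bool} {d d' : ℕ} (h : Br l c d) (h' : Br l c d') : ¬ d < d' := by
  intro hlt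
  apply h.2.2.2
  have h1 := congrArg (fun z => z[d]?) h'.2.2.1
  simp only [List.getElem?_take_of_lt hlt] at h1
  rw [List.getD_eq_getElem?_getD, List.getD_eq_getElem?_getD, h1]

theorem Br_unique {l c : List Bool} {d d' : ℕ} (h : Br l c d) (h' : Br l c d') : d = d' :=
  le_antisymm (not_lt.1 (Br_lt h' h)) (not_lt.1 (Br_lt h h'))

/-- The leaves of a comb. -/
def lvs {m h : ℕ} (A B : Fin m → List Bool) : Fin m ⊕ Fin m → (Fin h → Bool) :=
  Sum.elim (fun t => adr h (A t)) (fun t => adr h (B t))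

theorem comb_inj {m h : ℕ} {l : List Bool} {A B : Fin m → List Bool} (hl : l.length = h)
    (hc : Comb l A B) : Function.Injective (lvs (h := h) A B) := by
  obtain ⟨a, b, hA, hB, hba, hab⟩ := hc
  have hlA : ∀ i, (A i).length = h := fun i => (hA i).1.trans hl
  have hlB : ∀ i, (B i).length = h := fun i => (hB i).1.trans hl
  have haa : ∀ i j, i < j → a i < a j := fun i j hij => (hab i j hij).trans (hba j)
  have hbb : ∀ i j, i < j → b i < b j := fun i j hij => (hba i).trans (hab i j hij)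
  have hAB : ∀ i j, adr h (A i) ≠ adr h (B j) := by
    intro i j he
    have h1 : A i = B j := adr_inj (hlA i) (hlB j) he
    have h2 : a i = b j := by
      have h3 := hA i
      rw [h1] at h3
      exact Br_unique h3 (hB j)
    rcases lt_trichotomy i j with hij | hij | hij
    · exact absurd h2 (hab i j hij).ne
    · subst hij
      exact absurd h2 (hba i).ne'
    · exact absurd h2 ((hbb j i hij).trans (hba i)).ne'
  rintro (i | i) (j | j) he
  · have h1 : A i = A j := adr_inj (hlA i) (hlA j) he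
    have h2 : a i = a j := by
      have h3 := hA i
      rw [h1] at h3
      exact Br_unique h3 (hA j)
    rcases lt_trichotomy i j with hij | hij | hij
    · exact absurd h2 (haa i j hij).ne
    · rw [hij]
    · exact absurd h2 (haa j i hij).ne'
  · exact absurd he (hAB i j)
  · exact absurd he.symm (hAB j i)
  · have h1 : B i = B j := adr_inj (hlB i) (hlB j) he
    have h2 : b i = b j := by
      have h3 := hB i
      rw [h1] at h3
      exact Br_unique h3 (hB j)
    rcases lt_trichotomy i j with hij | hij | hij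
    · exact absurd h2 (hbb i j hij).ne
    · rw [hij]
    · exact absurd h2 (hbb j i hij).ne'

/-- The digits of a comb. -/
def dgs {m h κ : ℕ} (A B : Fin m → List Bool) (GA GB : Fin m → Finset (Fin κ)) :
    Finset ((Fin h → Bool) × Fin κ) :=
  Finset.univ.biUnion (fun s : Fin m ⊕ Fin m =>
    ({lvs A B s} : Finset (Fin h → Bool)) ×ˢ (Sum.elim GA GB s))

theorem mem_dgs {m h κ : ℕ} (A B : Fin m → List Bool) (GA GB : Fin m → Finset (Fin κ))
    (v : (Fin h → Bool) × Fin κ) : v ∈ dgs A B GA GB ↔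
      ∃ t, (v.1 = adr h (A t) ∧ v.2 ∈ GA t) ∨ (v.1 = adr h (B t) ∧ v.2 ∈ GB t) := by
  unfold dgs
  rw [Finset.mem_biUnion]
  constructor
  · rintro ⟨t | t, -, ht⟩
    · rw [Finset.mem_product, Finset.mem_singleton] at ht
      exact ⟨t, Or.inl ht⟩
    · rw [Finset.mem_product, Finset.mem_singleton] at ht
      exact ⟨t, Or.inr ht⟩
  · rintro ⟨t, ht | ht⟩
    · refine ⟨Sum.inl t, Finset.mem_univ _, ?_⟩
      rw [Finset.mem_product, Finset.mem_singleton]
      exact ht
    · refine ⟨Sum.inr t, Finset.mem_univ _, ?_⟩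
      rw [Finset.mem_product, Finset.mem_singleton]
      exact ht

theorem card_dgs {m h κ e : ℕ} {l : List Bool} {A B : Fin m → List Bool}
    {GA GB : Fin m → Finset (Fin κ)} (hl : l.length = h)
    (hc : Comb l A B) (he : ∀ t, (GA t).card = e ∧ (GB t).card = e) :
    (dgs (h := h) A B GA GB).card = 2 * m * e := by
  have hinj := comb_inj hl hc
  unfold dgs
  rw [Finset.card_biUnion]
  · have h1 : ∀ s : Fin m ⊕ Fin m, (({lvs A B s} : Finset (Fin h → Bool)) ×ˢ
        (Sum.elim GA GB s)).card = e := by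
      rintro (t | t)
      · rw [Finset.card_product, Finset.card_singleton, one_mul]
        exact (he t).1
      · rw [Finset.card_product, Finset.card_singleton, one_mul]
        exact (he t).2
    rw [Finset.sum_congr rfl (fun s _ => h1 s), Finset.sum_const, Finset.card_univ,
      Fintype.card_sum, Fintype.card_fin, smul_eq_mul]
    ring
  · intro s _ s' _ hss
    rw [Function.onFun, Finset.disjoint_left]
    intro v hv hv'
    rw [Finset.mem_product, Finset.mem_singleton] at hv hv'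
    exact hss (hinj (hv.1.symm.trans hv'.1))

/-- The data of a run. -/
abbrev Dat (S : Type) (C h m κ : ℕ) : Type :=
  ((Fin C → S) × (Fin (C + 1) → Bool)) × (Fin h → Bool) ×
    ((Fin m → Fin h → Bool) × (Fin m → Fin h → Bool)) ×
    ((Fin m → Finset (Fin κ)) × (Fin m → Finset (Fin κ)))

theorem card_Dat (S : Type) [Fintype S] (C h m κ : ℕ) :
    Fintype.card (Dat S C h m κ) =
      (Fintype.card S) ^ C * 2 ^ (C + 1) * (2 ^ h) ^ (2 * m + 1) * (2 ^ κ) ^ (2 * m) := by
  unfold Dat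
  simp only [Fintype.card_prod, Fintype.card_pi, Finset.prod_const, Finset.card_univ,
    Fintype.card_fin, Fintype.card_bool, Fintype.card_finset]
  ring

/-- Extension of the colours. -/
def ext {C : ℕ} (χ : Fin (C + 1) → Bool) (j : ℕ) : Bool :=
  if hj : j < C + 1 then χ ⟨j, hj⟩ else false

theorem ph_le {C : ℕ} (θ : Fin C → ℕ) (t : ℕ) : ph θ t ≤ C := by
  unfold ph
  calc _ ≤ (Finset.univ : Finset (Fin C)).card := Finset.card_filter_le _ _
    _ = C := by simp

theorem ext_ph {C : ℕ} (θ : Fin C → ℕ) (χ : ℕ → Bool) (t : ℕ) :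
    ext (fun j : Fin (C + 1) => χ j) (ph θ t) = χ (ph θ t) := by
  unfold ext
  rw [dif_pos (Nat.lt_succ_of_le (ph_le θ t))]

/-- The datum `D` belongs to a run on `x`. -/
def Ok {α : Type} {n C h m κ M : ℕ} (P : Prog α n) (e : ℕ) (dg : Fin M → α)
    (tmp : Fin n → α ⊕ ((Fin h → Bool) × Fin κ)) (x : (Fin h → Bool) × Fin κ → Fin M)
    (D : Dat P.S C h m κ) : Prop :=
  Comb (List.ofFn D.2.1) (fun t => List.ofFn (D.2.2.1.1 t)) (fun t => List.ofFn (D.2.2.1.2 t)) ∧
  (∀ t, (D.2.2.2.1 t).card = e ∧ (D.2.2.2.2 t).card = e) ∧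
  ∃ (T : ℕ) (σ : ℕ → P.S) (lab : ℕ → Option (Fin n × α)) (θ : Fin C → ℕ),
    Trace P (word tmp dg x) T σ lab ∧ σ T ∈ P.accept ∧ Monotone θ ∧
    (∀ j, σ (min (θ j) T) = D.1.1 j) ∧
    ∀ t < T, ∀ i a v, lab t = some (i, a) → tmp i = Sum.inr v → ∀ s,
      ((v.1 = adr h (List.ofFn (D.2.2.1.1 s)) ∧ v.2 ∈ D.2.2.2.1 s) →
        ext D.1.2 (ph θ t) = true) ∧
      ((v.1 = adr h (List.ofFn (D.2.2.1.2 s)) ∧ v.2 ∈ D.2.2.2.2 s) →
        ext D.1.2 (ph θ t) = false)

/-- The tests of the digit `a` of the leaf `w`. -/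
noncomputable def tst {α : Type} {n h κ : ℕ} (tmp : Fin n → α ⊕ ((Fin h → Bool) × Fin κ)) (T : ℕ)
    (lab : ℕ → Option (Fin n × α)) (w : List Bool) (a : Fin κ) : Finset ℕ := by
  classical exact (Finset.range T).filter (fun t => ∃ i b, lab t = some (i, b) ∧
    tmp i = Sum.inr (adr h w, a))

theorem mem_tst {α : Type} {n h κ : ℕ} (tmp : Fin n → α ⊕ ((Fin h → Bool) × Fin κ)) (T : ℕ)
    (lab : ℕ → Option (Fin n × α)) (w : List Bool) (a : Fin κ) (t : ℕ) :
    t ∈ tst tmp T lab w a ↔ t < T ∧ ∃ i b, lab t = some (i, b) ∧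
      tmp i = Sum.inr (adr h w, a) := by
  classical
  unfold tst
  rw [Finset.mem_filter, Finset.mem_range]

theorem tst_disj {α : Type} {n h κ : ℕ} (tmp : Fin n → α ⊕ ((Fin h → Bool) × Fin κ)) (T : ℕ)
    (lab : ℕ → Option (Fin n × α)) (v w : List Bool) (hv : v ∈ lv h) (hw : w ∈ lv h)
    (a b : Fin κ) (hne : (v, a) ≠ (w, b)) :
    Disjoint (tst tmp T lab v a) (tst tmp T lab w b) := by
  rw [Finset.disjoint_left]
  intro t h1 h2
  rw [mem_tst] at h1 h2
  obtain ⟨-, i, x, hx, hi⟩ := h1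
  obtain ⟨-, j, y, hy, hj⟩ := h2
  rw [hx] at hy
  have hij : i = j := congrArg Prod.fst (Option.some.inj hy)
  subst hij
  rw [hi] at hj
  have h3 := Sum.inr.inj hj
  have h4 : adr h v = adr h w := congrArg Prod.fst h3
  have h5 : a = b := congrArg Prod.snd h3
  have h6 := adr_inj (length_lv hv) (length_lv hw) h4
  exact hne (by rw [h5, h6])

theorem tst_sum {α : Type} {n h κ : ℕ} (tmp : Fin n → α ⊕ ((Fin h → Bool) × Fin κ)) (T : ℕ)
    (lab : ℕ → Option (Fin n × α)) (q : ℕ)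
    (hq : 8 * {t | t < T ∧ ∃ i a v, lab t = some (i, a) ∧ tmp i = Sum.inr v}.ncard ≤
      q * (2 ^ h * κ)) :
    8 * ∑ v ∈ lv h, (Finset.univ.filter (fun a => q < (tst tmp T lab v a).card)).card ≤
      2 ^ h * κ := by
  classical
  have h1 : (q + 1) * ∑ v ∈ lv h,
      (Finset.univ.filter (fun a => q < (tst tmp T lab v a).card)).card ≤
      ∑ v ∈ lv h, ∑ a : Fin κ, (tst tmp T lab v a).card := by
    rw [Finset.mul_sum]
    refine Finset.sum_le_sum fun v _ => ?_
    calc (q + 1) * (Finset.univ.filter (fun a => q < (tst tmp T lab v a).card)).card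
        = ∑ a ∈ Finset.univ.filter (fun a => q < (tst tmp T lab v a).card), (q + 1) := by
          rw [Finset.sum_const, smul_eq_mul, mul_comm]
      _ ≤ ∑ a ∈ Finset.univ.filter (fun a => q < (tst tmp T lab v a).card),
          (tst tmp T lab v a).card :=
          Finset.sum_le_sum fun a ha => (Finset.mem_filter.1 ha).2
      _ ≤ _ := Finset.sum_le_sum_of_subset (Finset.filter_subset _ _)
  have h2 : ∑ v ∈ lv h, ∑ a : Fin κ, (tst tmp T lab v a).card =
      ((lv h ×ˢ (Finset.univ : Finset (Fin κ))).biUnion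
        (fun p => tst tmp T lab p.1 p.2)).card := by
    rw [Finset.card_biUnion, Finset.sum_product]
    intro p hp p' hp' hne
    exact tst_disj tmp T lab p.1 p'.1 (Finset.mem_product.1 hp).1 (Finset.mem_product.1 hp').1
      p.2 p'.2 hne
  have h3 : ((lv h ×ˢ (Finset.univ : Finset (Fin κ))).biUnion
        (fun p => tst tmp T lab p.1 p.2)).card ≤
      {t | t < T ∧ ∃ i a v, lab t = some (i, a) ∧ tmp i = Sum.inr v}.ncard := by
    rw [← Set.ncard_coe_finset]
    apply Set.ncard_le_ncard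
    · intro t ht
      obtain ⟨p, -, hp⟩ := Finset.mem_biUnion.1 (Finset.mem_coe.1 ht)
      obtain ⟨hT, i, b, hb, hi⟩ := (mem_tst _ _ _ _ _ _).1 hp
      exact ⟨hT, i, b, _, hb, hi⟩
    · exact (Set.finite_Iio T).subset fun t ht => ht.1
  have h4 := h1.trans (h2.le.trans h3)
  have h5 : (q + 1) * (8 * ∑ v ∈ lv h,
      (Finset.univ.filter (fun a => q < (tst tmp T lab v a).card)).card) ≤
      (q + 1) * (2 ^ h * κ) := by
    calc _ = 8 * ((q + 1) * ∑ v ∈ lv h,
        (Finset.univ.filter (fun a => q < (tst tmp T lab v a).card)).card) := by ring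
      _ ≤ 8 * _ := Nat.mul_le_mul_left 8 h4
      _ ≤ q * (2 ^ h * κ) := hq
      _ ≤ _ := Nat.mul_le_mul_right _ (Nat.le_succ q)
  exact Nat.le_of_mul_le_mul_left h5 (Nat.succ_pos q)

/-- A run gives a datum. -/
theorem exists_dat {q C c E : ℕ}
    (hPIL : ∀ (h κ m : ℕ) (tests : List Bool → Fin κ → Finset ℕ), 1 ≤ κ → c * (m + 1) ≤ h →
      (∀ v ∈ lv h, ∀ w ∈ lv h, ∀ a b, (v, a) ≠ (w, b) → Disjoint (tests v a) (tests w b)) →
      8 * ∑ v ∈ lv h, (Finset.univ.filter (fun a => q < (tests v a).card)).card ≤ 2 ^ h * κ →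
      ∃ (θ : Fin C → ℕ) (χ : ℕ → Bool) (l : List Bool) (A B : Fin m → List Bool)
        (GA GB : Fin m → Finset (Fin κ)), Monotone θ ∧ l ∈ lv h ∧ Comb l A B ∧
        ∀ t, κ ≤ E * (GA t).card ∧ κ ≤ E * (GB t).card ∧
          (∀ a ∈ GA t, ∀ s ∈ tests (A t) a, χ (ph θ s) = true) ∧
          (∀ a ∈ GB t, ∀ s ∈ tests (B t) a, χ (ph θ s) = false))
    {α : Type} {n M h κ m : ℕ} (P : Prog α n) (dg : Fin M → α)
    (tmp : Fin n → α ⊕ ((Fin h → Bool) × Fin κ)) (hκ : 1 ≤ κ) (hc : c * (m + 1) ≤ h)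
    (x : (Fin h → Bool) × Fin κ → Fin M)
    (hx : ∃ (T : ℕ) (σ : ℕ → P.S) (lab : ℕ → Option (Fin n × α)),
      Trace P (word tmp dg x) T σ lab ∧ σ T ∈ P.accept ∧
      8 * {t | t < T ∧ ∃ i a v, lab t = some (i, a) ∧ tmp i = Sum.inr v}.ncard ≤
        q * (2 ^ h * κ)) :
    ∃ D : Dat P.S C h m κ, Ok P (κ / E) dg tmp x D := by
  obtain ⟨T, σ, lab, hT, hacc, hq⟩ := hx
  obtain ⟨θ, χ, l, A, B, GA, GB, hθ, hl, hcomb, hG⟩ := hPIL h κ m (tst tmp T lab) hκ hc
    (fun v hv w hw a b hne => tst_disj tmp T lab v w hv hw a b hne) (tst_sum tmp T lab q hq)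
  have hl' : l.length = h := length_lv hl
  have hlA : ∀ t, (A t).length = h := by
    obtain ⟨a, b, hA, hB, -, -⟩ := hcomb
    exact fun t => (hA t).1.trans hl'
  have hlB : ∀ t, (B t).length = h := by
    obtain ⟨a, b, hA, hB, -, -⟩ := hcomb
    exact fun t => (hB t).1.trans hl'
  have hA' : ∀ t, ∃ s ⊆ GA t, s.card = κ / E := fun t =>
    Finset.exists_subset_card_eq (Nat.div_le_of_le_mul (hG t).1)
  have hB' : ∀ t, ∃ s ⊆ GB t, s.card = κ / E := fun t =>
    Finset.exists_subset_card_eq (Nat.div_le_of_le_mul (hG t).2.1)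
  choose gA hgA hgA' using hA'
  choose gB hgB hgB' using hB'
  have e1 : List.ofFn (adr h l) = l := ofFn_adr h l hl'
  have e2 : (fun t => List.ofFn (adr h (A t))) = A := funext fun t => ofFn_adr h _ (hlA t)
  have e3 : (fun t => List.ofFn (adr h (B t))) = B := funext fun t => ofFn_adr h _ (hlB t)
  refine ⟨((fun j => σ (min (θ j) T), fun j => χ j), adr h l,
    (fun t => adr h (A t), fun t => adr h (B t)), (gA, gB)), ?_, fun t => ⟨hgA' t, hgB' t⟩,
    T, σ, lab, θ, hT, hacc, hθ, fun j => rfl, ?_⟩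
  · change Comb (List.ofFn (adr h l)) (fun t => List.ofFn (adr h (A t)))
      (fun t => List.ofFn (adr h (B t)))
    rw [e1, e2, e3]
    exact hcomb
  · intro t ht i a v hlab htmp s
    constructor
    · rintro ⟨h1, h2⟩
      change v.1 = adr h (List.ofFn (adr h (A s))) at h1
      change v.2 ∈ gA s at h2
      rw [ofFn_adr h _ (hlA s)] at h1
      change ext (fun j : Fin (C + 1) => χ j) (ph θ t) = true
      rw [ext_ph]
      refine (hG s).2.2.1 v.2 (hgA s h2) t ((mem_tst _ _ _ _ _ _).2 ⟨ht, i, a, hlab, ?_⟩)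
      rw [htmp, ← h1]
    · rintro ⟨h1, h2⟩
      change v.1 = adr h (List.ofFn (adr h (B s))) at h1
      change v.2 ∈ gB s at h2
      rw [ofFn_adr h _ (hlB s)] at h1
      change ext (fun j : Fin (C + 1) => χ j) (ph θ t) = false
      rw [ext_ph]
      refine (hG s).2.2.2 v.2 (hgB s h2) t ((mem_tst _ _ _ _ _ _).2 ⟨ht, i, a, hlab, ?_⟩)
      rw [htmp, ← h1]

/-- Pigeonhole. -/
theorem pigeon {X D : Type} [Fintype D] [DecidableEq D] (G : Finset X) (hG : G.Nonempty)
    (f : X → D) : ∃ d, G.card ≤ Fintype.card D * (G.filter (fun x => f x = d)).card := by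
  obtain ⟨x₀, -⟩ := hG
  obtain ⟨d, -, hd⟩ := Finset.exists_max_image (Finset.univ : Finset D)
    (fun d => (G.filter (fun x => f x = d)).card) ⟨f x₀, Finset.mem_univ _⟩
  refine ⟨d, ?_⟩
  rw [Finset.card_eq_sum_card_fiberwise (f := f) (t := Finset.univ)
    (fun x _ => Finset.mem_coe.2 (Finset.mem_univ _))]
  calc _ ≤ ∑ _d : D, (G.filter (fun x => f x = d)).card := Finset.sum_le_sum fun d' h' => hd d' h'
    _ = _ := by rw [Finset.sum_const, Finset.card_univ, smul_eq_mul]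

end CNT

open CNT

theorem t_CNT (hPIL : S_PIL) (hPIG : S_PIG) (hFBR : S_FBR) : S_CNT := by
  intro q hq
  obtain ⟨C, c, E, hc1, hE1, hP⟩ := hPIL q hq
  refine ⟨C, c, E, hc1, hE1, ?_⟩
  intro F _ _ hF α n M h κ m P L dg tmp lf ρ G hκ hc hlf hval hacc hG
  classical
  haveI := P.fin
  haveI : Fintype P.S := Fintype.ofFinite P.S
  rcases G.eq_empty_or_nonempty with hGe | hGne
  · rw [hGe, Finset.card_empty, zero_mul]
    exact Nat.zero_le _
  have hD : ∀ x ∈ G, ∃ D : Dat P.S C h m κ, Ok P (κ / E) dg tmp x D := fun x hx =>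
    exists_dat hP P dg tmp hκ hc x (hG x hx)
  obtain ⟨x₀, hx₀⟩ := hGne
  have hD' : ∀ x, ∃ D : Dat P.S C h m κ, x ∈ G → Ok P (κ / E) dg tmp x D := by
    intro x
    by_cases hx : x ∈ G
    · obtain ⟨D, h1⟩ := hD x hx
      exact ⟨D, fun _ => h1⟩
    · obtain ⟨D, -⟩ := hD x₀ hx₀
      exact ⟨D, fun h1 => absurd h1 hx⟩
  choose f hf using hD'
  obtain ⟨D, hDc⟩ := pigeon G ⟨x₀, hx₀⟩ f
  rw [card_Dat, ← Nat.card_eq_fintype_card] at hDc
  set G' := G.filter (fun x => f x = D) with hG'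
  rcases G'.eq_empty_or_nonempty with hGe' | ⟨x₁, hx₁⟩
  · rw [hGe', Finset.card_empty, mul_zero] at hDc
    exact absurd (Finset.card_pos.2 ⟨x₀, hx₀⟩) (by omega)
  have hOk : ∀ x ∈ G', Ok P (κ / E) dg tmp x D := by
    intro x hx
    obtain ⟨h1, h2⟩ := Finset.mem_filter.1 hx
    rw [← h2]
    exact hf x h1
  obtain ⟨hcomb, hcard, -⟩ := hOk x₁ hx₁
  set l := List.ofFn D.2.1 with hl
  have hll : l.length = h := by rw [hl, List.length_ofFn]
  set A : Fin m → List Bool := fun t => List.ofFn (D.2.2.1.1 t) with hA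
  set B : Fin m → List Bool := fun t => List.ofFn (D.2.2.1.2 t) with hB
  set W := dgs (h := h) A B D.2.2.2.1 D.2.2.2.2 with hW
  have hWc : W.card = 2 * m * (κ / E) := card_dgs hll hcomb hcard
  have hfib : ∀ ρ' ∈ G', (G'.filter (fun x => ∀ v, v ∉ W → x v = ρ' v)).card ≤
      (2 ^ (4 * h + 2) * M ^ (κ / E)) ^ m := by
    intro ρ' _
    refine hFBR F hF α n M h κ m (κ / E) C P L dg tmp lf ρ (ext D.1.2) l A B D.2.2.2.1 D.2.2.2.2
      D.1.1 _ hlf hll hcomb hcard hval hacc ?_ ?_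
    · intro x hx x' hx' v hv
      have hvW : v ∉ W := by
        rw [hW, mem_dgs]
        rintro ⟨t, ht | ht⟩
        · exact (hv t).1 ht
        · exact (hv t).2 ht
      rw [(Finset.mem_filter.1 hx).2 v hvW, (Finset.mem_filter.1 hx').2 v hvW]
    · intro x hx
      exact (hOk x (Finset.mem_filter.1 hx).1).2.2
  have hPg := hPIG ((Fin h → Bool) × Fin κ) M ((2 ^ (4 * h + 2) * M ^ (κ / E)) ^ m) W G' hfib
  have hVc : Fintype.card ((Fin h → Bool) × Fin κ) = 2 ^ h * κ := by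
    rw [Fintype.card_prod, Fintype.card_pi, Fintype.card_fin]
    simp
  have hWle : W.card ≤ 2 ^ h * κ := by
    rw [← hVc]
    exact Finset.card_le_univ W
  rw [hVc] at hPg
  have hpow : M ^ (2 ^ h * κ - W.card) * M ^ W.card = M ^ (2 ^ h * κ) := by
    rw [← pow_add, Nat.sub_add_cancel hWle]
  rw [← hWc]
  calc G.card * M ^ W.card
      ≤ ((Nat.card P.S) ^ C * 2 ^ (C + 1) * (2 ^ h) ^ (2 * m + 1) * (2 ^ κ) ^ (2 * m) *
          (M ^ (2 ^ h * κ - W.card) * (2 ^ (4 * h + 2) * M ^ (κ / E)) ^ m)) * M ^ W.card :=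
        Nat.mul_le_mul_right _ (hDc.trans (Nat.mul_le_mul_left _ hPg))
    _ = (Nat.card P.S) ^ C * 2 ^ (C + 1) * (2 ^ h) ^ (2 * m + 1) * (2 ^ κ) ^ (2 * m) *
          (M ^ (2 ^ h * κ - W.card) * M ^ W.card) * (2 ^ (4 * h + 2) * M ^ (κ / E)) ^ m := by
        ring
    _ = _ := by rw [hpow]

end Pool.Agent.RLT
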