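import Pool.Agent.RLT.St4

/-!
# MP_5e85fc_lc, project RLT: the core inequality for a set of inputs (module COR)
-/

set_option autoImplicit false

namespace Pool.Agent.RLT

namespace COR

theorem lfN_eq {M κ : ℕ} (d : Fin κ → Fin M) : lfN d = (finFunctionFinEquiv d : Fin (M ^ κ)) :=
  (finFunctionFinEquiv_apply d).symm

theorem lfN_lt {M κ : ℕ} (d : Fin κ → Fin M) : lfN d < M ^ κ := by
  rw [lfN_eq]
  exact (finFunctionFinEquiv d).2

theorem lfN_inj {M κ : ℕ} {d d' : Fin κ → Fin M} (h : lfN d = lfN d') : d = d' := by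
  rw [lfN_eq, lfN_eq] at h
  exact finFunctionFinEquiv.injective (Fin.ext h)

theorem arith {Hc G X Y A Q B Z : ℕ} (hX : 0 < X) (hY : 0 < Y) (h1 : Hc * X ≤ 2 * G * B)
    (h2 : G * (Y * Y) ≤ A * X * (Q * Y)) (hZ : 2 * A * Q * B = Z) : Hc * Y ≤ Z := by
  have h3 : Hc * Y * (X * Y) ≤ Z * (X * Y) := by
    calc Hc * Y * (X * Y) = Hc * X * (Y * Y) := by ring
      _ ≤ 2 * G * B * (Y * Y) := Nat.mul_le_mul_right _ h1
      _ = 2 * B * (G * (Y * Y)) := by ring
      _ ≤ 2 * B * (A * X * (Q * Y)) := Nat.mul_le_mul_left _ h2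
      _ = Z * (X * Y) := by rw [← hZ]; ring
  exact Nat.le_of_mul_le_mul_right h3 (Nat.mul_pos hX hY)

end COR

open COR in
theorem t_COR (hCNT : S_CNT) (hDES2 : S_DES2) : S_COR := by
  intro K
  obtain ⟨C, c, E, hc, hE, hmain⟩ := hCNT (16 * K + 1) (by omega)
  refine ⟨C, c, E, hc, hE, ?_⟩
  intro M κ b p h n m _ _ α P dg T ρ H hp2 hMp hκ hb hcm hsound hfast
  have hM : 1 ≤ M := NeZero.one_le
  have hp : p.Prime := Fact.out
  obtain ⟨tmp, s, G, hG, hG1, hG2⟩ := hDES2 α n M h κ b K P dg T H hb hfast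
  have : NeZero p := ⟨hp.ne_zero⟩
  have hneq : (2 : ZMod p) ≠ 0 := by
    intro h0
    have h1 : ((2 : ℕ) : ZMod p) = 0 := by exact_mod_cast h0
    rw [ZMod.natCast_eq_zero_iff] at h1
    exact absurd (Nat.le_of_dvd two_pos h1) (by omega)
  have h2 := hmain (ZMod p) hneq α n M h κ m P
    {l | ∃ (y : Fin n → α) (k : ℕ) (s : P.S), l = List.ofFn y ∧ P.Reach y k s ∧ s ∈ P.accept} dg tmp
    (fun v d => ((lfN (fun j => d j + s (v, j)) : ℕ) : ZMod p)) ρ G hκ hcm
    (fun v d d' he => by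
      have h3 : ((lfN (fun j => d j + s (v, j)) : ℕ) : ZMod p) =
        ((lfN (fun j => d' j + s (v, j)) : ℕ) : ZMod p) := he
      have h4 := congrArg ZMod.val h3
      rw [ZMod.val_natCast_of_lt (lt_of_lt_of_le (lfN_lt _) hMp),
        ZMod.val_natCast_of_lt (lt_of_lt_of_le (lfN_lt _) hMp)] at h4
      funext j
      exact add_right_cancel (congrFun (lfN_inj h4) j))
    (fun x hx => by
      obtain ⟨y, k, st, he, hr, ha⟩ := hx
      have he' := List.ofFn_injective he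
      obtain ⟨z, hz1, hz2⟩ := hG1 x
      rw [← he', hz1] at hr
      have h3 := hsound z k st hr ha
      rw [← h3]
      congr 1
      funext w
      have h4 : (fun j => x (adr h w, j) + s (adr h w, j)) =
          fun j => ∑ i, z ((adr h w, j), i) := by
        funext j
        exact (hz2 (adr h w, j)).symm
      show ((lfN (fun j => x (adr h w, j) + s (adr h w, j)) : ℕ) : ZMod p) = _
      rw [h4])
    (fun y k st hs ha => ⟨y, k, st, rfl, hs, ha⟩)
    (fun x hx => by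
      obtain ⟨τ, σ, lab, h3, h4, h5⟩ := hG2 x hx
      refine ⟨τ, σ, lab, h3, h4, ?_⟩
      calc _ ≤ 8 * (2 * K * (2 ^ h * κ)) := Nat.mul_le_mul_left _ h5
        _ = 16 * K * (2 ^ h * κ) := by ring
        _ ≤ _ := Nat.mul_le_mul_right _ (by omega))
  have e1 : M ^ (2 * m * (κ / E)) = M ^ (m * (κ / E)) * M ^ (m * (κ / E)) := by
    rw [← pow_add]
    congr 1
    ring
  have e2 : (2 ^ (4 * h + 2) * M ^ (κ / E)) ^ m = (2 ^ (4 * h + 2)) ^ m * M ^ (m * (κ / E)) := by
    rw [mul_pow, ← pow_mul M, mul_comm (κ / E)]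
  rw [e1, e2] at h2
  exact arith (pow_pos hM _) (pow_pos hM _) hG h2 (by ring)

end Pool.Agent.RLT
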