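import Pool.Agent.RLT.St

/-!
# RLT, module CRL: the critical leaf
-/

set_option autoImplicit false

namespace Pool.Agent.RLT

namespace CRLaux

theorem exists_Br : ∀ (l c : List Bool), c.length = l.length → l ≠ c → ∃ d, Br l c d := by
  intro l
  induction l with
  | nil =>
    intro c hc hne
    exact absurd (List.length_eq_zero_iff.1 hc).symm hne
  | cons x l ih =>
    intro c hc hne
    cases c with
    | nil => simp at hc
    | cons y c =>
      have hc' : c.length = l.length := by simpa using hc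
      by_cases hxy : x = y
      · subst hxy
        have hne' : l ≠ c := fun h => hne (by rw [h])
        obtain ⟨d, h1, h2, h3, h4⟩ := ih c hc' hne'
        exact ⟨d + 1, by simp [hc'], by simpa using h2, by simpa using h3, by simpa using h4⟩
      · exact ⟨0, hc, by simp, by simp, by simpa using fun h => hxy h.symm⟩

theorem le_of_Br {l c u : List Bool} {d : ℕ} (h : Br l c d) (h1 : u <+: l) (h2 : u <+: c) :
    u.length ≤ d := by
  by_contra hlt
  push Not at hlt
  obtain ⟨s, rfl⟩ := h1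
  obtain ⟨t, rfl⟩ := h2
  apply h.2.2.2
  rw [List.getD_append _ _ _ _ hlt, List.getD_append _ _ _ _ hlt]

theorem lt_of_Br {l c f : List Bool} {d : ℕ} (h : Br l c d) (h1 : f <+: l) (h2 : ¬ f <+: c) :
    d < f.length := by
  by_contra hlt
  push Not at hlt
  apply h2
  have h3 : f = l.take f.length := List.prefix_iff_eq_take.1 h1
  have h4 : l.take f.length = c.take f.length := by
    have h5 : (l.take d).take f.length = (c.take d).take f.length := by rw [h.2.2.1]
    rw [List.take_take, List.take_take, min_eq_left hlt] at h5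
    exact h5
  rw [h3, h4]
  exact List.take_prefix _ _

theorem triple {N r : ℕ} (hN : 2 ^ (2 ^ (r + 1)) < N) (s : Fin N → Fin N → ℕ → Bool) :
    ∃ i i' i'' : Fin N, i' ≠ i ∧ i'' ≠ i ∧ ∀ k ≤ r, s i' i k = s i i'' k := by
  classical
  let vec : Fin N → Fin N → (Fin (r + 1) → Bool) := fun p b k => s p b k
  let Out : Fin N → Finset (Fin (r + 1) → Bool) := fun p => (Finset.univ.erase p).image (vec p)
  have hcard : Fintype.card (Finset (Fin (r + 1) → Bool)) < Fintype.card (Fin N) := by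
    simpa using hN
  obtain ⟨p, b, hpb, hO⟩ := Fintype.exists_ne_map_eq_of_card_lt Out hcard
  have h1 : vec p b ∈ Out p :=
    Finset.mem_image.2 ⟨b, Finset.mem_erase.2 ⟨hpb.symm, Finset.mem_univ _⟩, rfl⟩
  rw [hO] at h1
  obtain ⟨c, hc, hc'⟩ := Finset.mem_image.1 h1
  refine ⟨b, p, c, hpb, (Finset.mem_erase.1 hc).1, fun k hk => ?_⟩
  have h2 := congrFun hc' ⟨k, by omega⟩
  exact h2.symm

/-- the blocks -/
def Bl (r : ℕ) (U : Finset (List Bool)) (sg : List Bool → List Bool → ℕ → Bool) (J : ℕ)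
    (u l : List Bool) (δ : ℕ → (Fin (r + 1) → Bool)) (a b : ℕ → List Bool) (α β : ℕ → ℕ) : Prop :=
  u <+: l ∧ (∀ t < J, a t ∈ U ∧ b t ∈ U ∧ Br l (a t) (α t) ∧ Br l (b t) (β t) ∧
    u.length ≤ α t ∧ u.length ≤ β t ∧ ∀ k : Fin (r + 1), sg (a t) l k = δ t k ∧ sg l (b t) k = δ t k) ∧
  ∀ t t', t < t' → t' < J → max (α t) (β t) < min (α t') (β t')

theorem blocks (hM : S_MUL) (r h : ℕ) (U : Finset (List Bool))
    (sg : List Bool → List Bool → ℕ → Bool) (hU : ∀ v ∈ U, v.length = h) :
    ∀ (J : ℕ) (u : List Bool), Emb U ((2 ^ (r + 1) + 1) * J) u →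
      ∃ l ∈ U, ∃ δ a b α β, Bl r U sg J u l δ a b α β := by
  intro J
  induction J with
  | zero =>
    intro u hu
    rw [Nat.mul_zero] at hu
    obtain ⟨v, hv, huv⟩ := hu
    exact ⟨v, hv, fun _ _ => false, fun _ => [], fun _ => [], fun _ => 0, fun _ => 0, huv,
      fun t ht => absurd ht (Nat.not_lt_zero _), fun t t' _ ht => absurd ht (Nat.not_lt_zero _)⟩
  | succ J ih =>
    intro u hu
    have hu' : Emb U ((2 ^ (r + 1) + 1) + (2 ^ (r + 1) + 1) * J) u := by
      rwa [Nat.mul_succ, Nat.add_comm] at hu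
    obtain ⟨f, hf, hinc⟩ := hM U (2 ^ (r + 1) + 1) ((2 ^ (r + 1) + 1) * J) u hu'
    choose l hl δ a b α β hB using fun i => ih (f i) (hf i).2
    have hfl : ∀ i, f i <+: l i := fun i => (hB i).1
    have hnp : ∀ i i', i ≠ i' → ¬ f i <+: l i' := by
      intro i i' hne hp
      rcases List.prefix_or_prefix_of_prefix hp (hfl i') with h1 | h1
      · exact hinc i i' hne h1
      · exact hinc i' i hne.symm h1
    have hlne : ∀ i i', i ≠ i' → l i ≠ l i' := by
      intro i i' hne heq
      exact hnp i i' hne (heq ▸ hfl i)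
    obtain ⟨i, i', i'', h1, h2, h3⟩ := triple (r := r) (N := 2 ^ (2 ^ (r + 1) + 1))
      (Nat.pow_lt_pow_right (by norm_num) (Nat.lt_succ_self _)) (fun p q k => sg (l p) (l q) k)
    obtain ⟨d, hd⟩ := exists_Br (l i) (l i') ((hU _ (hl i')).trans (hU _ (hl i)).symm)
      (hlne i i' h1.symm)
    obtain ⟨d', hd'⟩ := exists_Br (l i) (l i'') ((hU _ (hl i'')).trans (hU _ (hl i)).symm)
      (hlne i i'' h2.symm)
    have hul : ∀ j, u <+: l j := fun j => (hf j).1.trans (hfl j)
    have hd1 : u.length ≤ d := le_of_Br hd (hul i) (hul i')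
    have hd1' : u.length ≤ d' := le_of_Br hd' (hul i) (hul i'')
    have hd2 : d < (f i).length := lt_of_Br hd (hfl i) (hnp i i' h1.symm)
    have hd2' : d' < (f i).length := lt_of_Br hd' (hfl i) (hnp i i'' h2.symm)
    have huf : u.length ≤ (f i).length := (hf i).1.length_le
    obtain ⟨-, hb1, hb2⟩ := hB i
    refine ⟨l i, hl i, fun t => Nat.casesOn t (fun k => sg (l i') (l i) k) (fun t => δ i t),
      fun t => Nat.casesOn t (l i') (fun t => a i t), fun t => Nat.casesOn t (l i'') (fun t => b i t),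
      fun t => Nat.casesOn t d (fun t => α i t), fun t => Nat.casesOn t d' (fun t => β i t),
      hul i, ?_, ?_⟩
    · intro t ht
      cases t with
      | zero =>
        refine ⟨hl i', hl i'', hd, hd', hd1, hd1', fun k => ⟨rfl, ?_⟩⟩
        exact (h3 k (by omega)).symm
      | succ t =>
        obtain ⟨q1, q2, q3, q4, q5, q6, q7⟩ := hb1 t (by omega)
        exact ⟨q1, q2, q3, q4, huf.trans q5, huf.trans q6, q7⟩
    · intro t t' htt' ht'
      cases t' with
      | zero => exact absurd htt' (Nat.not_lt_zero _)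
      | succ t' =>
        obtain ⟨-, -, -, -, q5, q6, -⟩ := hb1 t' (by omega)
        cases t with
        | zero =>
          show max d d' < min (α i t') (β i t')
          rw [max_lt_iff, lt_min_iff, lt_min_iff]
          omega
        | succ t =>
          exact hb2 t t' (by omega) (by omega)

end CRLaux

open CRLaux in
theorem CRL_thm (hM : S_MUL) : S_CRL := by
  classical
  intro r h m U sg hU _ hE
  obtain ⟨l, hl, δ, a, b, α, β, -, hb1, hb2⟩ := blocks hM r h U sg hU _ _ hE
  have hcard : Fintype.card (Fin (r + 1) → Bool) * (2 * m) ≤ Fintype.card (Fin (2 ^ (r + 2) * m)) := by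
    simp only [Fintype.card_pi, Fintype.card_bool, Finset.prod_const, Finset.card_univ,
      Fintype.card_fin]
    rw [← Nat.mul_assoc, ← pow_succ]
  obtain ⟨δ0, hδ0⟩ := Fintype.exists_le_card_fiber_of_mul_le_card
    (fun t : Fin (2 ^ (r + 2) * m) => δ t) hcard
  let τ := Finset.orderEmbOfCardLe _ hδ0
  have hτ : ∀ x, δ (τ x) = δ0 := fun x =>
    (Finset.mem_filter.1 (Finset.orderEmbOfCardLe_mem _ hδ0 x)).2
  have hlt : ∀ x y, x < y → max (α (τ x)) (β (τ x)) < min (α (τ y)) (β (τ y)) := fun x y hxy =>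
    hb2 _ _ (τ.strictMono hxy) (τ y).isLt
  let e : Fin m → Fin (2 * m) := fun s => ⟨2 * s, by omega⟩
  let o : Fin m → Fin (2 * m) := fun s => ⟨2 * s + 1, by omega⟩
  refine ⟨l, hl, fun i => if hi : i < r + 1 then δ0 ⟨i, hi⟩ else false,
    fun s => a (τ (o s)), fun s => b (τ (e s)),
    ⟨fun s => α (τ (o s)), fun s => β (τ (e s)), ?_, ?_, ?_, ?_⟩, ?_⟩
  · intro s
    exact (hb1 _ (τ (o s)).isLt).2.2.1
  · intro s
    exact (hb1 _ (τ (e s)).isLt).2.2.2.1
  · intro s
    have h1 := hlt (e s) (o s) (by show (2 * (s : ℕ)) < 2 * s + 1; omega)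
    exact lt_of_le_of_lt (le_max_right _ _) (lt_of_lt_of_le h1 (min_le_left _ _))
  · intro s s' hss
    have hss' : (s : ℕ) < s' := hss
    have h1 := hlt (o s) (e s') (by show (2 * (s : ℕ) + 1) < 2 * s'; omega)
    exact lt_of_le_of_lt (le_max_left _ _) (lt_of_lt_of_le h1 (min_le_right _ _))
  · intro s
    obtain ⟨q1, -, -, -, -, -, q7⟩ := hb1 _ (τ (o s)).isLt
    obtain ⟨-, p2, -, -, -, -, p7⟩ := hb1 _ (τ (e s)).isLt
    refine ⟨q1, p2, fun i hi => ?_⟩
    have hi' : i < r + 1 := by omega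
    dsimp only
    rw [dif_pos hi']
    have h1 := (q7 ⟨i, hi'⟩).1
    have h2 := (p7 ⟨i, hi'⟩).2
    rw [hτ] at h1 h2
    exact ⟨h1, h2⟩

end Pool.Agent.RLT
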