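import Pool.Agent.RLT.St4
import Pool.Agent.RLT.CNT

/-!
# RLT, module DES2: choice of one designated digit in each block, one template
-/

set_option autoImplicit false

namespace Pool.Agent.RLT

namespace DES2

variable {α V : Type} {n M b : ℕ}

/-- The template with the digits `(v, i)`, `i ≠ i₀`, filled in by `ρ`. -/
def tm (T : Fin n → α ⊕ (V × Fin b)) (dg : Fin M → α) (i₀ : Fin b) (ρ : V × Fin b → Fin M) :
    Fin n → α ⊕ V := fun j =>
  Sum.elim (fun c => Sum.inl c)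
    (fun p => if p.2 = i₀ then Sum.inr p.1 else Sum.inl (dg (ρ p))) (T j)

/-- The assignment `x` at `i₀` and `ρ` elsewhere. -/
def yy (i₀ : Fin b) (ρ : V × Fin b → Fin M) (x : V → Fin M) : V × Fin b → Fin M :=
  fun p => if p.2 = i₀ then x p.1 else ρ p

theorem word_tm (T : Fin n → α ⊕ (V × Fin b)) (dg : Fin M → α) (i₀ : Fin b)
    (ρ : V × Fin b → Fin M) (x : V → Fin M) :
    word (tm T dg i₀ ρ) dg x = word T dg (yy i₀ ρ x) := by
  funext j
  unfold word tm
  rcases T j with c | p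
  · rfl
  · simp only [Sum.elim_inr, yy]
    by_cases hp : p.2 = i₀
    · rw [if_pos hp, if_pos hp]
      rfl
    · rw [if_neg hp, if_neg hp]
      rfl

theorem sum_yy [NeZero M] (i₀ : Fin b) (ρ : V × Fin b → Fin M) (x : V → Fin M) (v : V) :
    ∑ i, yy i₀ ρ x (v, i) = x v + ∑ i ∈ Finset.univ.erase i₀, ρ (v, i) := by
  rw [← Finset.add_sum_erase Finset.univ _ (Finset.mem_univ i₀)]
  congr 1
  · simp [yy]
  · refine Finset.sum_congr rfl fun i hi => ?_
    simp only [yy]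
    rw [if_neg (Finset.ne_of_mem_erase hi)]

theorem tm_inr (T : Fin n → α ⊕ (V × Fin b)) (dg : Fin M → α) (i₀ : Fin b)
    (ρ : V × Fin b → Fin M) (j : Fin n) (v : V) (h : tm T dg i₀ ρ j = Sum.inr v) :
    T j = Sum.inr (v, i₀) := by
  unfold tm at h
  rcases hT : T j with c | p
  · rw [hT] at h
    exact absurd h (by simp)
  · rw [hT] at h
    simp only [Sum.elim_inr] at h
    by_cases hp : p.2 = i₀
    · rw [if_pos hp] at h
      have h1 : p.1 = v := Sum.inr.inj h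
      rw [← h1, ← hp]
    · rw [if_neg hp] at h
      exact absurd h (by simp)

/-- The tests of the digits with index `i₀`. -/
noncomputable def cnt (T : Fin n → α ⊕ (V × Fin b)) (τ : ℕ) (lab : ℕ → Option (Fin n × α))
    (i₀ : Fin b) : Finset ℕ := by
  classical exact (Finset.range τ).filter (fun t => ∃ i a v, lab t = some (i, a) ∧
    T i = Sum.inr (v, i₀))

theorem mem_cnt (T : Fin n → α ⊕ (V × Fin b)) (τ : ℕ) (lab : ℕ → Option (Fin n × α))
    (i₀ : Fin b) (t : ℕ) : t ∈ cnt T τ lab i₀ ↔ t < τ ∧ ∃ i a v, lab t = some (i, a) ∧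
    T i = Sum.inr (v, i₀) := by
  classical
  unfold cnt
  rw [Finset.mem_filter, Finset.mem_range]

theorem sum_cnt (T : Fin n → α ⊕ (V × Fin b)) (τ : ℕ) (lab : ℕ → Option (Fin n × α)) (m : ℕ)
    (hm : {t | t < τ ∧ lab t ≠ none}.ncard = m) : ∑ i₀, (cnt T τ lab i₀).card ≤ m := by
  classical
  rw [← Finset.card_biUnion]
  · rw [← hm, ← Set.ncard_coe_finset]
    apply Set.ncard_le_ncard
    · intro t ht
      obtain ⟨i₀, -, h1⟩ := Finset.mem_biUnion.1 (Finset.mem_coe.1 ht)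
      obtain ⟨hT, i, a, v, ha, -⟩ := (mem_cnt _ _ _ _ _).1 h1
      exact ⟨hT, by rw [ha]; simp⟩
    · exact (Set.finite_Iio τ).subset fun t ht => ht.1
  · intro i₀ _ i₁ _ hne
    rw [Function.onFun, Finset.disjoint_left]
    intro t h1 h2
    obtain ⟨-, i, a, v, ha, hi⟩ := (mem_cnt _ _ _ _ _).1 h1
    obtain ⟨-, j, a', v', ha', hj⟩ := (mem_cnt _ _ _ _ _).1 h2
    rw [ha] at ha'
    have hij : i = j := congrArg Prod.fst (Option.some.inj ha')
    subst hij
    rw [hi] at hj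
    exact hne (congrArg Prod.snd (Sum.inr.inj hj))

/-- Averaging in one run. -/
theorem bad_le (f : Fin b → ℕ) (k : ℕ) (hf : ∑ i, f i ≤ k * b) :
    2 * (Finset.univ.filter (fun i => 2 * k < f i)).card ≤ b := by
  have h1 : (2 * k + 1) * (Finset.univ.filter (fun i => 2 * k < f i)).card ≤ k * b := by
    calc (2 * k + 1) * (Finset.univ.filter (fun i => 2 * k < f i)).card
        = ∑ _i ∈ Finset.univ.filter (fun i => 2 * k < f i), (2 * k + 1) := by
          rw [Finset.sum_const, smul_eq_mul, mul_comm]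
      _ ≤ ∑ i ∈ Finset.univ.filter (fun i => 2 * k < f i), f i :=
          Finset.sum_le_sum fun i hi => (Finset.mem_filter.1 hi).2
      _ ≤ ∑ i, f i := Finset.sum_le_sum_of_subset (Finset.filter_subset _ _)
      _ ≤ _ := hf
  set c := (Finset.univ.filter (fun i => 2 * k < f i)).card
  rcases Nat.eq_zero_or_pos k with hk | hk
  · subst hk
    have : c ≤ 0 := by simpa using h1
    omega
  · have h2 : k * (2 * c) ≤ k * b := by nlinarith
    exact Nat.le_of_mul_le_mul_left h2 hk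

/-- Averaging over the runs. -/
theorem exists_idx {X : Type} (H : Finset X) (N : X → Fin b → ℕ) (k : ℕ) (hb : 1 ≤ b)
    (hN : ∀ x ∈ H, ∑ i, N x i ≤ k * b) :
    ∃ i₀, H.card ≤ 2 * (H.filter (fun x => N x i₀ ≤ 2 * k)).card := by
  classical
  by_contra hcon
  push Not at hcon
  have h1 : ∑ i₀ : Fin b, 2 * (H.filter (fun x => N x i₀ ≤ 2 * k)).card < b * H.card := by
    calc _ < ∑ _i₀ : Fin b, H.card := Finset.sum_lt_sum_of_nonempty
          ⟨⟨0, hb⟩, Finset.mem_univ _⟩ (fun i _ => hcon i)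
      _ = _ := by rw [Finset.sum_const, Finset.card_univ, Fintype.card_fin, smul_eq_mul]
  have h2 : ∑ i₀ : Fin b, (H.filter (fun x => N x i₀ ≤ 2 * k)).card =
      ∑ x ∈ H, (Finset.univ.filter (fun i₀ => N x i₀ ≤ 2 * k)).card := by
    simp only [Finset.card_filter]
    rw [Finset.sum_comm]
  have h3 : ∀ x ∈ H, b ≤ 2 * (Finset.univ.filter (fun i₀ => N x i₀ ≤ 2 * k)).card := by
    intro x hx
    have h4 := bad_le (N x) k (hN x hx)
    have h5 := Finset.card_filter_add_card_filter_not (s := (Finset.univ : Finset (Fin b)))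
      (fun i => N x i ≤ 2 * k)
    rw [Finset.card_univ, Fintype.card_fin] at h5
    have h6 : (Finset.univ.filter (fun i => ¬ N x i ≤ 2 * k)) =
        (Finset.univ.filter (fun i => 2 * k < N x i)) := by
      ext i
      simp
    rw [h6] at h5
    omega
  have h7 : b * H.card ≤ 2 * ∑ x ∈ H, (Finset.univ.filter (fun i₀ => N x i₀ ≤ 2 * k)).card := by
    rw [Finset.mul_sum]
    calc b * H.card = ∑ _x ∈ H, b := by rw [Finset.sum_const, smul_eq_mul, mul_comm]
      _ ≤ _ := Finset.sum_le_sum h3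
  rw [← Finset.mul_sum, h2] at h1
  omega

/-- The core statement for arbitrary sets of digits. -/
theorem core [Fintype V] [DecidableEq V] [NeZero M] (P : Prog α n) (dg : Fin M → α)
    (T : Fin n → α ⊕ (V × Fin b)) (H : Finset (V × Fin b → Fin M)) (k : ℕ) (hb : 1 ≤ b)
    (hH : ∀ x ∈ H, ∃ (τ : ℕ) (σ : ℕ → P.S) (lab : ℕ → Option (Fin n × α)),
      Trace P (word T dg x) τ σ lab ∧ σ τ ∈ P.accept ∧
      {t | t < τ ∧ lab t ≠ none}.ncard ≤ k * b) :
    ∃ (tmp : Fin n → α ⊕ V) (s : V → Fin M) (G : Finset (V → Fin M)),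
      H.card * M ^ (Fintype.card V) ≤ 2 * G.card * M ^ (Fintype.card V * b) ∧
      (∀ x, ∃ y : V × Fin b → Fin M, word tmp dg x = word T dg y ∧
        ∀ v, ∑ i, y (v, i) = x v + s v) ∧
      ∀ x ∈ G, ∃ (τ : ℕ) (σ : ℕ → P.S) (lab : ℕ → Option (Fin n × α)),
        Trace P (word tmp dg x) τ σ lab ∧ σ τ ∈ P.accept ∧
        {t | t < τ ∧ ∃ i a v, lab t = some (i, a) ∧ tmp i = Sum.inr v}.ncard ≤ 2 * k := by
  classical
  have hgen : ∀ (i₀ : Fin b) (ρ : V × Fin b → Fin M) (x : V → Fin M),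
      ∃ y : V × Fin b → Fin M, word (tm T dg i₀ ρ) dg x = word T dg y ∧
        ∀ v, ∑ i, y (v, i) = x v + ∑ i ∈ Finset.univ.erase i₀, ρ (v, i) := fun i₀ ρ x =>
    ⟨yy i₀ ρ x, word_tm T dg i₀ ρ x, sum_yy i₀ ρ x⟩
  rcases H.eq_empty_or_nonempty with hHe | hHne
  · refine ⟨tm T dg ⟨0, hb⟩ (fun _ => 0), fun v => ∑ i ∈ Finset.univ.erase (⟨0, hb⟩ : Fin b), 0,
      ∅, ?_, fun x => hgen _ _ x, fun x hx => absurd hx (Finset.notMem_empty x)⟩
    rw [hHe, Finset.card_empty, zero_mul]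
    exact Nat.zero_le _
  have hH' : ∀ x, ∃ (τ : ℕ) (σ : ℕ → P.S) (lab : ℕ → Option (Fin n × α)), x ∈ H →
      Trace P (word T dg x) τ σ lab ∧ σ τ ∈ P.accept ∧
      {t | t < τ ∧ lab t ≠ none}.ncard ≤ k * b := by
    intro x
    by_cases hx : x ∈ H
    · obtain ⟨τ, σ, lab, h1⟩ := hH x hx
      exact ⟨τ, σ, lab, fun _ => h1⟩
    · exact ⟨0, fun _ => P.start, fun _ => none, fun h1 => absurd h1 hx⟩
  choose τ σ lab hrun using hH'
  obtain ⟨i₀, hi₀⟩ := exists_idx H (fun x i => (cnt T (τ x) (lab x) i).card) k hb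
    (fun x hx => (sum_cnt T (τ x) (lab x) _ rfl).trans (hrun x hx).2.2)
  set G₁ := H.filter (fun x => (cnt T (τ x) (lab x) i₀).card ≤ 2 * k) with hG₁
  have hHpos : 0 < H.card := Finset.card_pos.2 hHne
  have hG₁ne : G₁.Nonempty := Finset.card_pos.1 (by omega)
  obtain ⟨r, hr⟩ := CNT.pigeon G₁ hG₁ne
    (fun (x : V × Fin b → Fin M) (p : V × {i : Fin b // i ≠ i₀}) => x (p.1, p.2))
  have hcard : Fintype.card (V × {i : Fin b // i ≠ i₀} → Fin M) =
      M ^ (Fintype.card V * (b - 1)) := by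
    rw [Fintype.card_pi, Finset.prod_const, Finset.card_univ, Fintype.card_prod,
      Fintype.card_fin]
    congr 2
    rw [Fintype.card_subtype_compl, Fintype.card_fin, Fintype.card_subtype_eq]
  rw [hcard] at hr
  set G₂ := G₁.filter (fun x => (fun (p : V × {i : Fin b // i ≠ i₀}) => x (p.1, p.2)) = r)
    with hG₂
  have hG₂ne : G₂.Nonempty := by
    rw [Finset.nonempty_iff_ne_empty]
    intro he
    rw [he, Finset.card_empty, mul_zero] at hr
    have := Finset.card_pos.2 hG₁ne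
    omega
  obtain ⟨ρ, hρ⟩ := hG₂ne
  have hagree : ∀ x ∈ G₂, ∀ v i, i ≠ i₀ → x (v, i) = ρ (v, i) := by
    intro x hx v i hi
    have h1 := congrFun (Finset.mem_filter.1 hx).2 (v, ⟨i, hi⟩)
    have h2 := congrFun (Finset.mem_filter.1 hρ).2 (v, ⟨i, hi⟩)
    exact h1.trans h2.symm
  have hyy : ∀ x ∈ G₂, yy i₀ ρ (fun v => x (v, i₀)) = x := by
    intro x hx
    funext p
    unfold yy
    by_cases hp : p.2 = i₀
    · rw [if_pos hp, ← hp]
    · rw [if_neg hp]
      exact (hagree x hx p.1 p.2 hp).symm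
  refine ⟨tm T dg i₀ ρ, fun v => ∑ i ∈ Finset.univ.erase i₀, ρ (v, i),
    G₂.image (fun x v => x (v, i₀)), ?_, fun x => hgen _ _ x, ?_⟩
  · have hinj : (G₂.image (fun x v => x (v, i₀))).card = G₂.card := by
      apply Finset.card_image_of_injOn
      intro x hx x' hx' he
      rw [← hyy x (Finset.mem_coe.1 hx), ← hyy x' (Finset.mem_coe.1 hx')]
      exact congrArg (yy i₀ ρ) he
    rw [hinj]
    have hpow : M ^ (Fintype.card V * (b - 1)) * M ^ (Fintype.card V) =
        M ^ (Fintype.card V * b) := by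
      rw [← pow_add]
      congr 1
      obtain ⟨b', rfl⟩ := Nat.exists_eq_add_of_le hb
      rw [Nat.add_sub_cancel_left]
      ring
    calc H.card * M ^ Fintype.card V
        ≤ 2 * (M ^ (Fintype.card V * (b - 1)) * G₂.card) * M ^ Fintype.card V :=
          Nat.mul_le_mul_right _ (hi₀.trans (Nat.mul_le_mul_left 2 hr))
      _ = 2 * G₂.card * (M ^ (Fintype.card V * (b - 1)) * M ^ (Fintype.card V)) := by ring
      _ = _ := by rw [hpow]
  · intro x' hx'
    obtain ⟨x, hx, rfl⟩ := Finset.mem_image.1 hx'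
    have hx1 : x ∈ G₁ := (Finset.mem_filter.1 hx).1
    obtain ⟨hxH, hxc⟩ := Finset.mem_filter.1 hx1
    obtain ⟨h1, h2, -⟩ := hrun x hxH
    refine ⟨τ x, σ x, lab x, ?_, h2, ?_⟩
    · rw [word_tm, hyy x hx]
      exact h1
    · refine le_trans ?_ hxc
      rw [← Set.ncard_coe_finset]
      apply Set.ncard_le_ncard
      · rintro t ⟨ht, i, a, v, ha, hv⟩
        exact Finset.mem_coe.2 ((mem_cnt _ _ _ _ _).2 ⟨ht, i, a, v, ha,
          tm_inr T dg i₀ ρ i v hv⟩)
      · exact Finset.finite_toSet _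

end DES2

theorem t_DES2 (hTRC : S_TRC) : S_DES2 := by
  intro α n M h κ b K _ P dg T H hb hH
  have hV : Fintype.card ((Fin h → Bool) × Fin κ) = 2 ^ h * κ := by
    rw [Fintype.card_prod, Fintype.card_pi, Fintype.card_fin]
    simp
  have hH' : ∀ x ∈ H, ∃ (τ : ℕ) (σ : ℕ → P.S) (lab : ℕ → Option (Fin n × α)),
      Trace P (word T dg x) τ σ lab ∧ σ τ ∈ P.accept ∧
      {t | t < τ ∧ lab t ≠ none}.ncard ≤ K * (2 ^ h * κ) * b := by
    intro x hx
    obtain ⟨m, hm, s, hs, hR⟩ := hH x hx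
    obtain ⟨τ, σ, lab, h1, h2, h3⟩ := (hTRC α n P (word T dg x)).1 m s hR
    refine ⟨τ, σ, lab, h1, by rw [h2]; exact hs, ?_⟩
    rw [h3]
    calc m ≤ K * (2 ^ h * κ * b) := hm
      _ = _ := by ring
  obtain ⟨tmp, s, G, h1, h2, h3⟩ := DES2.core P dg T H (K * (2 ^ h * κ)) hb hH'
  rw [hV] at h1
  refine ⟨tmp, s, G, h1, h2, fun x hx => ?_⟩
  obtain ⟨τ, σ, lab, h4, h5, h6⟩ := h3 x hx
  exact ⟨τ, σ, lab, h4, h5, h6.trans (le_of_eq (by ring))⟩

end Pool.Agent.RLT
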