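import Pool.Agent.RLT.St

/-!
# RLT_DIS: disjoint intervals or a common point
-/

set_option autoImplicit false

namespace Pool.Agent.RLT

namespace DIS

theorem greedy (U : Finset (List Bool)) (lo hi : List Bool → ℕ) (c : ℕ)
    (h1 : ∀ v ∈ U, lo v ≤ hi v)
    (h2 : ∀ v ∈ U, ∀ w ∈ U, v ≠ w → hi v ≠ lo w ∧ hi v ≠ hi w)
    (h3 : c * (c + 1) ≤ U.card)
    (h4 : ∀ w ∈ U, (U.filter fun v => lo v < hi w ∧ hi w < hi v).card < c) (t : ℕ) (ht : t ≤ c) :
    ∃ D R : Finset (List Bool), D ⊆ U ∧ R ⊆ U ∧ D.card = t ∧ U.card ≤ R.card + t * c ∧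
      (∀ v ∈ D, ∀ w ∈ D, v ≠ w → hi v < lo w ∨ hi w < lo v) ∧ ∀ v ∈ D, ∀ w ∈ R, hi v < lo w := by
  induction t with
  | zero =>
    exact ⟨∅, U, Finset.empty_subset _, Finset.Subset.refl _, Finset.card_empty, by simp,
      by simp, by simp⟩
  | succ t ih =>
    obtain ⟨D, R, hD, hR, hDc, hRc, hDD, hDR⟩ := ih (by omega)
    have hRne : R.Nonempty := by
      rw [← Finset.card_pos]
      by_contra h0
      have h5 : R.card = 0 := by omega
      have h6 : c * (c + 1) ≤ t * c := by omega
      have h7 : c * (c + 1) = c * c + c := by ring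
      have h8 : t * c ≤ c * c := Nat.mul_le_mul_right c (by omega)
      omega
    obtain ⟨v, hv, hmin⟩ := Finset.exists_min_image R hi hRne
    have hvU := hR hv
    have hvD : v ∉ D := fun h => by
      have h5 := hDR v h v hv
      have h6 := h1 v hvU
      omega
    refine ⟨insert v D, R.filter fun w => hi v < lo w, ?_, ?_, ?_, ?_, ?_, ?_⟩
    · exact Finset.insert_subset hvU hD
    · exact (Finset.filter_subset _ _).trans hR
    · rw [Finset.card_insert_of_notMem hvD, hDc]
    · have h5 : (R.filter fun w => ¬ hi v < lo w) ⊆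
          insert v (U.filter fun w => lo w < hi v ∧ hi v < hi w) := by
        intro w hw
        rw [Finset.mem_filter] at hw
        rw [Finset.mem_insert, Finset.mem_filter]
        by_cases hwv : w = v
        · exact Or.inl hwv
        · refine Or.inr ⟨hR hw.1, ?_⟩
          obtain ⟨h6, h7⟩ := h2 v hvU w (hR hw.1) (Ne.symm hwv)
          have h8 := hmin w hw.1
          have h9 := hw.2
          omega
      have h6 := (Finset.card_le_card h5).trans (Finset.card_insert_le _ _)
      have h7 := h4 v hvU
      have h8 := Finset.card_filter_add_card_filter_not (s := R) (fun w => hi v < lo w)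
      have h9 : (t + 1) * c = t * c + c := by ring
      omega
    · intro x hx y hy hxy
      rw [Finset.mem_insert] at hx hy
      rcases hx with rfl | hx
      · rcases hy with rfl | hy
        · exact absurd rfl hxy
        · exact Or.inr (hDR y hy x hv)
      · rcases hy with rfl | hy
        · exact Or.inl (hDR x hx y hv)
        · exact hDD x hx y hy hxy
    · intro x hx w hw
      rw [Finset.mem_insert] at hx
      rw [Finset.mem_filter] at hw
      rcases hx with rfl | hx
      · exact hw.2
      · exact hDR x hx w hw.1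

end DIS

theorem t_DIS : S_DIS := by
  intro U lo hi c h1 h2 h3
  by_cases h4 : ∀ w ∈ U, (U.filter fun v => lo v < hi w ∧ hi w < hi v).card < c
  · obtain ⟨D, R, hD, _, hDc, _, hDD, _⟩ := DIS.greedy U lo hi c h1 h2 h3 h4 c le_rfl
    exact Or.inr ⟨D, hD, hDc.ge, hDD⟩
  · push Not at h4
    obtain ⟨w, hw, hc⟩ := h4
    refine Or.inl ⟨_, Finset.filter_subset _ _, hc, w, hw, ?_, ?_⟩
    · intro h
      rw [Finset.mem_filter] at h
      exact absurd h.2.2 (lt_irrefl _)
    · intro v hv
      exact (Finset.mem_filter.1 hv).2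

end Pool.Agent.RLT
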