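import Pool.Agent.RLT.St2

/-!
# Project RLT, module FBR: the fibre bound
-/

set_option autoImplicit false

namespace Pool.Agent.RLT

namespace FBR

lemma br_unique {l c : List Bool} {d d' : ℕ} (h : Br l c d) (h' : Br l c d') : d = d' := by
  obtain ⟨hlen, hd, ht, hne⟩ := h
  obtain ⟨-, hd', ht', hne'⟩ := h'
  have key : ∀ p q : ℕ, p < q → p < l.length → c.take q = l.take q →
      c.getD p false = l.getD p false := by
    intro p q hpq hp hq
    have h1 : (c.take q)[p]? = (l.take q)[p]? := by rw [hq]
    rw [List.getElem?_take_of_lt hpq, List.getElem?_take_of_lt hpq] at h1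
    rw [List.getD_eq_getElem?_getD, List.getD_eq_getElem?_getD, h1]
  rcases lt_trichotomy d d' with h1 | h1 | h1
  · exact absurd (key d d' h1 hd ht') hne
  · exact h1
  · exact absurd (key d' d h1 hd' ht) hne'

lemma comb_facts {l : List Bool} {m : ℕ} {A B : Fin m → List Bool} (hc : Comb l A B) :
    (∀ i, (A i).length = l.length) ∧ (∀ i, (B i).length = l.length) ∧
    (∀ i j, A i = A j → i = j) ∧ (∀ i j, B i = B j → i = j) ∧ (∀ i j, A i ≠ B j) := by
  obtain ⟨a, b, hA, hB, hba, hab⟩ := hc
  have haa : ∀ i j, i < j → a i < a j := fun i j h => (hab i j h).trans (hba j)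
  have hbb : ∀ i j, i < j → b i < b j := fun i j h => (hba i).trans (hab i j h)
  refine ⟨fun i => (hA i).1, fun i => (hB i).1, ?_, ?_, ?_⟩
  · intro i j hij
    have h1 : a i = a j := br_unique (hA i) (hij ▸ hA j)
    rcases lt_trichotomy i j with h | h | h
    · have := haa i j h; omega
    · exact h
    · have := haa j i h; omega
  · intro i j hij
    have h1 : b i = b j := br_unique (hB i) (hij ▸ hB j)
    rcases lt_trichotomy i j with h | h | h
    · have := hbb i j h; omega
    · exact h
    · have := hbb j i h; omega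
  · intro i j hij
    have h1 : a i = b j := br_unique (hA i) (hij ▸ hB j)
    rcases lt_trichotomy i j with h | h | h
    · have := hab i j h; omega
    · subst h; have := hba i; omega
    · have := hab j i h; have := hba i; have := hba j; omega

lemma adr_inj {h : ℕ} {w w' : List Bool} (hw : w.length = h) (hw' : w'.length = h)
    (he : adr h w = adr h w') : w = w' := by
  apply List.ext_getElem (hw.trans hw'.symm)
  intro i h1 h2
  have h3 := congrFun he ⟨i, hw ▸ h1⟩
  simp only [adr] at h3
  rwa [List.getD_eq_getElem _ _ h1, List.getD_eq_getElem _ _ h2] at h3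

lemma val_congr {F : Type} [Field F] : ∀ (h : ℕ) (f g : List Bool → F),
    (∀ w : List Bool, w.length = h → f w = g w) → val h f = val h g
  | 0, f, g, hfg => hfg [] rfl
  | h + 1, f, g, hfg => by
      simp only [val]
      rw [val_congr h (fun w => f (false :: w)) (fun w => g (false :: w))
          (fun w hw => hfg _ (by simp [hw])),
        val_congr h (fun w => f (true :: w)) (fun w => g (true :: w))
          (fun w hw => hfg _ (by simp [hw]))]

lemma upd_at {F : Type} {m : ℕ} {A : Fin m → List Bool} (hA : ∀ i j, A i = A j → i = j)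
    (x : Fin m → F) (ρ : List Bool → F) (t : Fin m) : upd A x ρ (A t) = x t := by
  unfold upd
  have hex : ∃ i, A i = A t := ⟨t, rfl⟩
  rw [dif_pos hex]
  exact congrArg x (hA _ _ hex.choose_spec)

lemma upd_off {F : Type} {m : ℕ} {A : Fin m → List Bool}
    (x : Fin m → F) (ρ : List Bool → F) (w : List Bool) (hw : ∀ i, A i ≠ w) :
    upd A x ρ w = ρ w := by
  unfold upd
  rw [dif_neg]
  rintro ⟨i, hi⟩
  exact hw i hi

lemma card_image_le_image {X Y W : Type*} [DecidableEq Y] [DecidableEq W] (Z : Finset X)
    (f : X → Y) (g : X → W) (hfg : ∀ x ∈ Z, ∀ x' ∈ Z, g x = g x' → f x = f x') :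
    (Z.image f).card ≤ (Z.image g).card := by
  classical
  have hch : ∀ c ∈ Z.image f, ∃ x ∈ Z, f x = c := fun c hc => Finset.mem_image.1 hc
  rcases Z.eq_empty_or_nonempty with hZ | ⟨x₁, -⟩
  · subst hZ
    simp
  have : Nonempty X := ⟨x₁⟩
  choose! k hk hk' using hch
  refine Finset.card_le_card_of_injOn (fun c => g (k c)) ?_ ?_
  · intro c hc
    exact Finset.mem_coe.2 (Finset.mem_image_of_mem g (hk c hc))
  · intro c hc c' hc' he
    have := hfg _ (hk c hc) _ (hk c' hc') he
    rw [hk' c hc, hk' c' hc'] at this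
    exact this

end FBR

open FBR in
theorem t_FBR (hTRL : S_TRL) (hMIX : S_MIX) : S_FBR := by
  classical
  intro F _ _ h2 α n M h κ m e C P L dg tmp lf ρ χ l A B GA GB u Z hlf hl hcomb hG hval hacc
    hout hrun
  obtain ⟨hAl, hBl, hAi, hBi, hAB⟩ := comb_facts hcomb
  rw [hl] at hAl hBl
  rcases Z.eq_empty_or_nonempty with hZ | ⟨x₀, hx₀⟩
  · subst hZ
    simp
  -- addresses
  have adrAA : ∀ i j, adr h (A i) = adr h (A j) → i = j := fun i j he =>
    hAi i j (adr_inj (hAl i) (hAl j) he)
  have adrBB : ∀ i j, adr h (B i) = adr h (B j) → i = j := fun i j he =>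
    hBi i j (adr_inj (hBl i) (hBl j) he)
  have adrAB : ∀ i j, adr h (A i) ≠ adr h (B j) := fun i j he =>
    hAB i j (adr_inj (hAl i) (hBl j) he)
  set a : ((Fin h → Bool) × Fin κ → Fin M) → Fin m → F :=
    fun x t => lf (adr h (A t)) (fun j => x (adr h (A t), j)) with ha
  set b : ((Fin h → Bool) × Fin κ → Fin M) → Fin m → F :=
    fun x t => lf (adr h (B t)) (fun j => x (adr h (B t), j)) with hb
  -- card
  have hcard : Z.card ≤ (Z.image a).card * (Z.image b).card := by
    rw [← Finset.card_product]
    refine Finset.card_le_card_of_injOn (fun x => (a x, b x)) ?_ ?_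
    · intro x hx
      exact Finset.mem_coe.2 (Finset.mem_product.2
        ⟨Finset.mem_image_of_mem a hx, Finset.mem_image_of_mem b hx⟩)
    · intro x hx x' hx' he
      have hea : a x = a x' := congrArg Prod.fst he
      have heb : b x = b x' := congrArg Prod.snd he
      funext v
      by_cases hvA : ∃ t, v.1 = adr h (A t) ∧ v.2 ∈ GA t
      · obtain ⟨t, ht, -⟩ := hvA
        have h3 := congrFun (hlf _ (congrFun hea t)) v.2
        have h4 : v = (adr h (A t), v.2) := by rw [← ht]
        rw [h4]
        exact h3
      · by_cases hvB : ∃ t, v.1 = adr h (B t) ∧ v.2 ∈ GB t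
        · obtain ⟨t, ht, -⟩ := hvB
          have h3 := congrFun (hlf _ (congrFun heb t)) v.2
          have h4 : v = (adr h (B t), v.2) := by rw [← ht]
          rw [h4]
          exact h3
        · exact hout x hx x' hx' v fun t =>
            ⟨fun h5 => hvA ⟨t, h5⟩, fun h5 => hvB ⟨t, h5⟩⟩
  -- coordinates
  have hcA : ∀ i, ((Z.image a).image (fun x => x i)).card ≤ M ^ e := by
    intro i
    rw [Finset.image_image]
    refine (card_image_le_image Z ((fun x : Fin m → F => x i) ∘ a)
      (fun x => fun j : GA i => x (adr h (A i), (j : Fin κ))) ?_).trans ?_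
    · intro x hx x' hx' he
      simp only [Function.comp_apply, ha]
      congr 1
      funext j
      by_cases hj : j ∈ GA i
      · exact congrFun he ⟨j, hj⟩
      · refine hout x hx x' hx' _ fun t => ⟨?_, ?_⟩
        · rintro ⟨h3, h4⟩
          have := adrAA i t h3
          subst this
          exact hj h4
        · rintro ⟨h3, -⟩
          exact adrAB i t h3
    · refine (Finset.card_le_univ _).trans (le_of_eq ?_)
      rw [Fintype.card_fun, Fintype.card_fin, Fintype.card_coe, (hG i).1]
  have hcB : ∀ i, ((Z.image b).image (fun x => x i)).card ≤ M ^ e := by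
    intro i
    rw [Finset.image_image]
    refine (card_image_le_image Z ((fun x : Fin m → F => x i) ∘ b)
      (fun x => fun j : GB i => x (adr h (B i), (j : Fin κ))) ?_).trans ?_
    · intro x hx x' hx' he
      simp only [Function.comp_apply, hb]
      congr 1
      funext j
      by_cases hj : j ∈ GB i
      · exact congrFun he ⟨j, hj⟩
      · refine hout x hx x' hx' _ fun t => ⟨?_, ?_⟩
        · rintro ⟨h3, -⟩
          exact adrAB t i h3.symm
        · rintro ⟨h3, h4⟩
          have := adrBB i t h3
          subst this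
          exact hj h4
    · refine (Finset.card_le_univ _).trans (le_of_eq ?_)
      rw [Fintype.card_fun, Fintype.card_fin, Fintype.card_coe, (hG i).2]
  -- the rectangle property
  have hrect : ∀ x ∈ Z, ∀ x' ∈ Z,
      val h (upd A (a x) (upd B (b x') (fun w => lf (adr h w) (fun j => x₀ (adr h w, j))))) = ρ := by
    intro x hx x' hx'
    obtain ⟨T, σ, lab, θ, htr, hfin, hmon, hcut, hphase⟩ := hrun x hx
    obtain ⟨T', σ', lab', θ', htr', hfin', hmon', hcut', hphase'⟩ := hrun x' hx'
    set y : (Fin h → Bool) × Fin κ → Fin M :=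
      fun v => if ∃ t, v.1 = adr h (A t) ∧ v.2 ∈ GA t then x v else x' v with hy
    have hyA : ∀ v, (∃ t, v.1 = adr h (A t) ∧ v.2 ∈ GA t) → y v = x v := fun v hv => by
      simp only [hy]; rw [if_pos hv]
    have hyN : ∀ v, (¬ ∃ t, v.1 = adr h (A t) ∧ v.2 ∈ GA t) → y v = x' v := fun v hv => by
      simp only [hy]; rw [if_neg hv]
    obtain ⟨k, s, hs, hreach⟩ := hMIX α n C P (word tmp dg x) (word tmp dg x') (word tmp dg y) T T'
      σ σ' lab lab' θ θ' χ hmon hmon' htr htr' (fun j => (hcut j).trans (hcut' j).symm) hfin hfin'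
      (by
        intro t ht hχ i c hlab
        have h3 := (htr.2 t ht).2 i c hlab
        rw [h3]
        unfold word
        rcases htmp : tmp i with c' | v
        · simp only [Sum.elim_inl]
        · simp only [Sum.elim_inr]
          congr 1
          by_cases hvA : ∃ t, v.1 = adr h (A t) ∧ v.2 ∈ GA t
          · exact (hyA v hvA).symm
          · rw [hyN v hvA]
            refine hout x hx x' hx' v fun s => ⟨fun h5 => hvA ⟨s, h5⟩, fun h5 => ?_⟩
            have h6 := (hphase t ht i c v hlab htmp s).2 h5
            rw [hχ] at h6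
            exact absurd h6 (by decide))
      (by
        intro t ht hχ i c hlab
        have h3 := (htr'.2 t ht).2 i c hlab
        rw [h3]
        unfold word
        rcases htmp : tmp i with c' | v
        · simp only [Sum.elim_inl]
        · simp only [Sum.elim_inr]
          congr 1
          refine (hyN v ?_).symm
          rintro ⟨s, h5⟩
          have h6 := (hphase' t ht i c v hlab htmp s).1 h5
          rw [hχ] at h6
          exact absurd h6 (by decide))
    have hL := hacc _ _ _ hreach hs
    have hv := hval y hL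
    rw [← hv]
    refine val_congr h _ _ fun w hw => ?_
    by_cases hwA : ∃ t, A t = w
    · obtain ⟨t, rfl⟩ := hwA
      rw [upd_at hAi]
      simp only [ha]
      congr 1
      funext j
      by_cases hj : j ∈ GA t
      · exact (hyA _ ⟨t, rfl, hj⟩).symm
      · have hnA : ∀ s, ¬ (adr h (A t) = adr h (A s) ∧ j ∈ GA s) := by
          rintro s ⟨h3, h4⟩
          have := adrAA t s h3
          subst this
          exact hj h4
        rw [hyN _ (by rintro ⟨s, h3⟩; exact hnA s h3)]
        exact hout x hx x' hx' _ fun s => ⟨hnA s, fun h3 => adrAB t s h3.1⟩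
    · have hwA' : ∀ i, A i ≠ w := fun i hi => hwA ⟨i, hi⟩
      rw [upd_off _ _ _ hwA']
      have hnA : ∀ j, ¬ ∃ s, adr h w = adr h (A s) ∧ j ∈ GA s := by
        rintro j ⟨s, h3, -⟩
        exact hwA' s (adr_inj (hAl s) hw h3.symm)
      by_cases hwB : ∃ t, B t = w
      · obtain ⟨t, rfl⟩ := hwB
        rw [upd_at hBi]
        simp only [hb]
        congr 1
        funext j
        exact (hyN _ (hnA j)).symm
      · have hwB' : ∀ i, B i ≠ w := fun i hi => hwB ⟨i, hi⟩
        rw [upd_off _ _ _ hwB']
        congr 1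
        funext j
        rw [hyN _ (hnA j)]
        exact hout x₀ hx₀ x' hx' _ fun s =>
          ⟨fun h3 => hnA j ⟨s, h3⟩, fun h3 => hwB' s (adr_inj (hBl s) hw h3.1.symm)⟩
  refine hcard.trans (hTRL F h2 h m l A B
    (fun w => lf (adr h w) (fun j => x₀ (adr h w, j))) ρ (M ^ e) (Z.image a) (Z.image b) hl hcomb ?_ hcA hcB)
  intro x hx y hy
  obtain ⟨z, hz, rfl⟩ := Finset.mem_image.1 hx
  obtain ⟨z', hz', rfl⟩ := Finset.mem_image.1 hy
  exact hrect z hz z' hz'

end Pool.Agent.RLT
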