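import Pool.Agent.RLT.St

/-!
# RLT_FIB: compositions of squares of translations
-/

set_option autoImplicit false

namespace Pool.Agent.RLT

open Polynomial

namespace FIB

theorem monic_deg {F : Type} [Field F] {e : ℕ} {Q : F[X]} (h : SqP e Q) :
    Q.Monic ∧ Q.natDegree = 2 ^ e := by
  induction h with
  | base => exact ⟨monic_X, by simp⟩
  | step e Q c _ ih =>
    obtain ⟨h1, h2⟩ := ih
    have hpos : 0 < Q.natDegree := by rw [h2]; positivity
    have h3 : (Q + C c).Monic := by
      refine h1.add_of_left ?_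
      refine lt_of_le_of_lt degree_C_le ?_
      exact natDegree_pos_iff_degree_pos.1 hpos
    refine ⟨h3.pow 2, ?_⟩
    rw [h3.natDegree_pow, natDegree_add_C, h2, pow_succ, mul_comm]

end FIB

theorem t_FIB : S_FIB := by
  classical
  intro F _ e Q hQ
  obtain ⟨h1, h2⟩ := FIB.monic_deg hQ
  refine ⟨h1, h2, fun c => ⟨(Q - C c).roots.toFinset, ?_, fun a ha => ?_⟩⟩
  · refine (Multiset.toFinset_card_le _).trans ((card_roots' _).trans ?_)
    rw [natDegree_sub_C, h2]
  · have h0 : Q - C c ≠ 0 := by
      intro h
      have h3 : (Q - C c).natDegree = 2 ^ e := by rw [natDegree_sub_C, h2]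
      rw [h, natDegree_zero] at h3
      have : 0 < 2 ^ e := by positivity
      omega
    rw [Multiset.mem_toFinset, mem_roots h0]
    simp [IsRoot, ha]

end Pool.Agent.RLT
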