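import Pool.Agent.RLT.St2

/-!
# MP_5e85fc_lc, project RLT, module MIX: two accepting runs with the same cut configurations
-/

set_option autoImplicit false

namespace Pool.Agent.RLT

/-- a segment of a run whose labels are satisfied by `y` -/
theorem mix_seg {α : Type} {n : ℕ} (P : Prog α n) (y : Fin n → α) (T : ℕ) (σ : ℕ → P.S)
    (lab : ℕ → Option (Fin n × α)) (hst : ∀ t < T, σ (t + 1) ∈ P.step (σ t) (lab t))
    (t₀ t₁ : ℕ) (h01 : t₀ ≤ t₁) (h1 : t₁ ≤ T)
    (hsat : ∀ t, t₀ ≤ t → t < t₁ → ∀ i a, lab t = some (i, a) → a = y i)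
    (hr : ∃ m, P.Reach y m (σ t₀)) : ∃ m, P.Reach y m (σ t₁) := by
  induction t₁, h01 using Nat.le_induction with
  | base => exact hr
  | succ t ht ih =>
    obtain ⟨m, hm⟩ := ih (by omega) (fun s hs hst' => hsat s hs (by omega))
    have hs := hst t (by omega)
    cases hl : lab t with
    | none =>
      rw [hl] at hs
      exact ⟨m, Prog.Reach.free hm hs⟩
    | some ia =>
      obtain ⟨i, a⟩ := ia
      have ha := hsat t ht (by omega) i a hl
      rw [hl, ha] at hs
      exact ⟨m + 1, Prog.Reach.test i hm hs⟩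

/-- the cut number `j`, where `0` is the start and `C + 1` the end -/
def cutT {C : ℕ} (θ : Fin C → ℕ) (T j : ℕ) : ℕ :=
  if j = 0 then 0 else if h : j - 1 < C then min (θ ⟨j - 1, h⟩) T else T

theorem cutT_le {C : ℕ} (θ : Fin C → ℕ) (T j : ℕ) : cutT θ T j ≤ T := by
  unfold cutT
  split_ifs
  · exact Nat.zero_le _
  · exact min_le_right _ _
  · exact le_refl _

theorem cutT_succ {C : ℕ} (θ : Fin C → ℕ) (T j : ℕ) (hθ : Monotone θ) :
    cutT θ T j ≤ cutT θ T (j + 1) := by
  by_cases h0 : j = 0
  · subst h0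
    simp [cutT]
  · by_cases h1 : j < C
    · have h2 : j - 1 < C := by omega
      have h3 : j + 1 - 1 < C := by omega
      unfold cutT
      rw [if_neg h0, if_neg (by omega : ¬ j + 1 = 0), dif_pos h2, dif_pos h3]
      exact min_le_min_right _ (hθ (by
        rw [Fin.le_def]
        simp))
    · have h3 : ¬ j + 1 - 1 < C := by omega
      have : cutT θ T (j + 1) = T := by
        unfold cutT
        rw [if_neg (by omega : ¬ j + 1 = 0), dif_neg h3]
      rw [this]
      exact cutT_le _ _ _

theorem cutT_ph {C : ℕ} (θ : Fin C → ℕ) (T j t : ℕ) (hθ : Monotone θ) (hj : j ≤ C)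
    (h1 : cutT θ T j ≤ t) (h2 : t < cutT θ T (j + 1)) : ph θ t = j := by
  have htT : t < T := lt_of_lt_of_le h2 (cutT_le _ _ _)
  have hiff : ∀ i : Fin C, θ i ≤ t ↔ (i : ℕ) < j := by
    intro i
    constructor
    · intro hi
      by_contra hcon
      have hjC : j < C := by have := i.2; omega
      have h3 : j + 1 - 1 < C := by omega
      unfold cutT at h2
      rw [if_neg (by omega : ¬ j + 1 = 0), dif_pos h3] at h2
      have h4 : t < θ ⟨j + 1 - 1, h3⟩ := lt_of_lt_of_le h2 (min_le_left _ _)
      have h5 : θ ⟨j + 1 - 1, h3⟩ ≤ θ i := hθ (by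
        rw [Fin.le_def]
        simp
        omega)
      omega
    · intro hi
      have h0 : ¬ j = 0 := by omega
      have h3 : j - 1 < C := by omega
      unfold cutT at h1
      rw [if_neg h0, dif_pos h3] at h1
      have h4 : θ ⟨j - 1, h3⟩ ≤ t := by
        rcases min_le_iff.mp h1 with h | h
        · exact h
        · omega
      exact (hθ (by rw [Fin.le_def]; simp; omega)).trans h4
  unfold ph
  have : (Finset.univ.filter (fun i : Fin C => θ i ≤ t))
      = (Finset.univ.filter (fun i : Fin C => (i : ℕ) < j)) := by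
    ext i
    simp [hiff]
  rw [this, Fin.card_filter_val_lt]
  omega

theorem t_MIX : S_MIX := by
  intro α n C P w w' y T T' σ σ' lab lab' θ θ' χ hθ hθ' htr htr' hcut hacc hacc' hT hF
  have hcfg : ∀ j, j ≤ C → σ (cutT θ T j) = σ' (cutT θ' T' j) := by
    intro j hj
    by_cases h0 : j = 0
    · subst h0
      simp only [cutT, if_true]
      rw [htr.1, htr'.1]
    · have h3 : j - 1 < C := by omega
      unfold cutT
      rw [if_neg h0, if_neg h0, dif_pos h3, dif_pos h3]
      exact hcut _
  have hstart : ∃ m, P.Reach y m (σ (cutT θ T 0)) := by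
    refine ⟨0, ?_⟩
    simp only [cutT, if_true]
    rw [htr.1]
    exact Prog.Reach.start
  have hstep : ∀ j, j ≤ C → (∃ m, P.Reach y m (σ (cutT θ T j))) →
      (∃ m, P.Reach y m (σ (cutT θ T (j + 1)))) ∨ (∃ m, P.Reach y m (σ' (cutT θ' T' (j + 1)))) := by
    intro j hj hr
    cases hχ : χ j with
    | true =>
      left
      refine mix_seg P y T σ lab (fun t ht => (htr.2 t ht).1) _ _ (cutT_succ θ T j hθ)
        (cutT_le _ _ _) ?_ hr
      intro t h1 h2 i a hl
      have hp := cutT_ph θ T j t hθ hj h1 h2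
      exact hT t (lt_of_lt_of_le h2 (cutT_le _ _ _)) (by rw [hp]; exact hχ) i a hl
    | false =>
      right
      rw [hcfg j hj] at hr
      refine mix_seg P y T' σ' lab' (fun t ht => (htr'.2 t ht).1) _ _ (cutT_succ θ' T' j hθ')
        (cutT_le _ _ _) ?_ hr
      intro t h1 h2 i a hl
      have hp := cutT_ph θ' T' j t hθ' hj h1 h2
      exact hF t (lt_of_lt_of_le h2 (cutT_le _ _ _)) (by rw [hp]; exact hχ) i a hl
  have hall : ∀ j, j ≤ C → ∃ m, P.Reach y m (σ (cutT θ T j)) := by
    intro j
    induction j with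
    | zero => intro _; exact hstart
    | succ j ih =>
      intro hj
      rcases hstep j (by omega) (ih (by omega)) with h | h
      · exact h
      · rw [hcfg (j + 1) hj]
        exact h
  have hend : ∀ {θ : Fin C → ℕ} {T : ℕ}, cutT θ T (C + 1) = T := by
    intro θ T
    unfold cutT
    rw [if_neg (by omega : ¬ C + 1 = 0), dif_neg (by omega)]
  rcases hstep C (le_refl _) (hall C (le_refl _)) with h | h
  · obtain ⟨m, hm⟩ := h
    rw [hend] at hm
    exact ⟨m, _, hacc, hm⟩
  · obtain ⟨m, hm⟩ := h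
    rw [hend] at hm
    exact ⟨m, _, hacc', hm⟩

end Pool.Agent.RLT
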