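import Pool.Agent.RLT.St

/-!
# Module MUL: many incomparable nodes
-/

set_option autoImplicit false

namespace Pool.Agent.RLT

namespace MUL

theorem not_prefix {u p q : List Bool} {a b : Bool} (hab : a ≠ b) (hp : (u ++ [a]) <+: p)
    (hq : (u ++ [b]) <+: q) : ¬ p <+: q := by
  intro h
  have h1 : (u ++ [a]) <+: q := hp.trans h
  have h2 : (u ++ [a]) <+: (u ++ [b]) := List.prefix_of_prefix_length_le h1 hq (by simp)
  have h3 : u ++ [a] = u ++ [b] := h2.eq_of_length (by simp)
  have h4 : [a] = [b] := List.append_cancel_left h3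
  exact hab (by simpa using h4)

theorem aux (U : Finset (List Bool)) (j : ℕ) : ∀ (D : ℕ) (u : List Bool), Emb U (D + j) u →
    ∃ f : (Fin D → Bool) → List Bool, (∀ i, u <+: f i ∧ Emb U j (f i)) ∧
      ∀ i i', i ≠ i' → ¬ f i <+: f i' := by
  intro D
  induction D with
  | zero =>
    intro u h
    rw [Nat.zero_add] at h
    refine ⟨fun _ => u, fun _ => ⟨List.prefix_rfl, h⟩, fun i i' hii => ?_⟩
    exact absurd (Subsingleton.elim i i') hii
  | succ D ih =>
    intro u h
    rw [show D + 1 + j = (D + j) + 1 by omega] at h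
    obtain ⟨u', hu, h0, h1⟩ := h
    obtain ⟨f0, hf0, hg0⟩ := ih _ h0
    obtain ⟨f1, hf1, hg1⟩ := ih _ h1
    refine ⟨fun x => if x 0 = true then f1 (Fin.tail x) else f0 (Fin.tail x), fun i => ?_,
      fun i i' hii => ?_⟩
    · dsimp only
      split_ifs with hi
      · exact ⟨hu.trans ((List.prefix_append _ _).trans (hf1 _).1), (hf1 _).2⟩
      · exact ⟨hu.trans ((List.prefix_append _ _).trans (hf0 _).1), (hf0 _).2⟩
    · dsimp only
      have htail : i 0 = i' 0 → Fin.tail i ≠ Fin.tail i' := by
        intro h00 ht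
        apply hii
        rw [← Fin.cons_self_tail i, ← Fin.cons_self_tail i', h00, ht]
      split_ifs with hi hi' hi'
      · exact hg1 _ _ (htail (by rw [hi, hi']))
      · exact not_prefix (by decide) (hf1 _).1 (hf0 _).1
      · exact not_prefix (by decide) (hf0 _).1 (hf1 _).1
      · refine hg0 _ _ (htail ?_)
        rw [Bool.not_eq_true] at hi hi'
        rw [hi, hi']

end MUL

theorem t_MUL : S_MUL := by
  intro U D j u h
  obtain ⟨f, hf, hg⟩ := MUL.aux U j D u h
  have hc : Fintype.card (Fin D → Bool) = 2 ^ D := by simp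
  let e : (Fin D → Bool) ≃ Fin (2 ^ D) := Fintype.equivFinOfCardEq hc
  refine ⟨fun i => f (e.symm i), fun i => hf _, fun i i' hii => hg _ _ fun h => ?_⟩
  exact hii (e.symm.injective h)

end Pool.Agent.RLT
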