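import Pool.Agent.RLT.St

/-!
# MP_5e85fc_lc, project RLT, module ONE: the value as a polynomial in one leaf
-/

set_option autoImplicit false

namespace Pool.Agent.RLT

open Polynomial

namespace ONE

theorem upd_same {F : Type} (b : Bool) (c : List Bool) (ρ : List Bool → F) (z : F) :
    (fun w => Function.update ρ (b :: c) z (b :: w)) = Function.update (fun w => ρ (b :: w)) c z := by
  funext w
  by_cases h : w = c
  · rw [h, Function.update_self, Function.update_self]
  · rw [Function.update_of_ne h, Function.update_of_ne fun h' => h (List.cons.inj h').2]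

theorem upd_other {F : Type} {b d : Bool} (hd : d ≠ b) (c : List Bool) (ρ : List Bool → F) (z : F) :
    (fun w => Function.update ρ (b :: c) z (d :: w)) = fun w => ρ (d :: w) := by
  funext w
  rw [Function.update_of_ne fun h' => hd (List.cons.inj h').1]

end ONE

theorem t_ONE : S_ONE := by
  intro F _ h
  induction h with
  | zero =>
    intro c ρ hc
    obtain rfl : c = [] := List.length_eq_zero_iff.1 hc
    refine ⟨X, SqP.base, fun z => ?_⟩
    rw [val, Function.update_self, eval_X]
  | succ h ih =>
    intro c ρ hc
    obtain ⟨b, c', rfl⟩ := List.exists_cons_of_length_eq_add_one hc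
    obtain ⟨Q, hQ, hv⟩ := ih c' (fun w => ρ (b :: w)) (Nat.succ.inj hc)
    refine ⟨(Q + C (val h fun w => ρ ((!b) :: w))) ^ 2, SqP.step h Q _ hQ, fun z => ?_⟩
    rw [eval_pow, eval_add, eval_C, ← hv z, val]
    cases b with
    | false => rw [ONE.upd_same false c' ρ z, ONE.upd_other (by decide : true ≠ false) c' ρ z, Bool.not_false]
    | true =>
      rw [ONE.upd_same true c' ρ z, ONE.upd_other (by decide : false ≠ true) c' ρ z, Bool.not_true, add_comm]

end Pool.Agent.RLT
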