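import Pool.Agent.RLT.St2

/-!
# MP_5e85fc_lc, project RLT: PHC, the colour is constant on the phases
-/

set_option autoImplicit false
set_option maxHeartbeats 4000000

namespace Pool.Agent.RLT

namespace PHC

lemma cut_mono (r : ℕ) (sep : ℕ → Option ℕ) (Ql : ℕ → ℕ) (hm : Monotone Ql)
    (hs : ∀ k < r, ∀ s ∈ sep k, Ql k < s ∧ s < Ql (k + 1)) : Monotone (cut r sep Ql) := by
  have key : ∀ k < r, Ql k ≤ (sep k).getD (Ql k) ∧ (sep k).getD (Ql k) ≤ Ql (k + 1) := by
    intro k hk
    cases h : sep k with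
    | none => exact ⟨le_rfl, hm (Nat.le_succ k)⟩
    | some s =>
      have := hs k hk s (by rw [h]; rfl)
      exact ⟨this.1.le, this.2.le⟩
  rw [Fin.monotone_iff_le_succ]
  intro i
  unfold cut
  simp only [Fin.val_castSucc, Fin.val_succ]
  have hi := i.2
  by_cases h : (i : ℕ) % 2 = 0
  · have h1 : ((i : ℕ) + 1) % 2 ≠ 0 := by omega
    have h2 : ((i : ℕ) + 1) / 2 = (i : ℕ) / 2 := by omega
    rw [if_pos h, if_neg h1, h2]
    exact (key _ (by omega)).1
  · have h1 : ((i : ℕ) + 1) % 2 = 0 := by omega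
    have h2 : ((i : ℕ) + 1) / 2 = (i : ℕ) / 2 + 1 := by omega
    rw [if_neg h, if_pos h1, h2]
    exact (key _ (by omega)).2

lemma ph_aux {C : ℕ} (θ : Fin C → ℕ) (t t' : ℕ) (htt : t ≤ t') (h : ph θ t = ph θ t') (j : Fin C) :
    θ j ≤ t ↔ θ j ≤ t' := by
  unfold ph at h
  have hsub : (Finset.univ.filter (fun j => θ j ≤ t)) ⊆ (Finset.univ.filter (fun j => θ j ≤ t')) := by
    intro i hi
    simp only [Finset.mem_filter, Finset.mem_univ, true_and] at hi ⊢
    exact hi.trans htt
  have heq := Finset.eq_of_subset_of_card_le hsub h.ge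
  have := congrArg (fun s => j ∈ s) heq
  simpa using this

lemma ph_iff {C : ℕ} (θ : Fin C → ℕ) (t t' : ℕ) (h : ph θ t = ph θ t') (j : Fin C) :
    θ j ≤ t ↔ θ j ≤ t' := by
  rcases le_total t t' with htt | htt
  · exact ph_aux θ t t' htt h j
  · exact (ph_aux θ t' t htt h.symm j).symm

lemma wi_succ (sep : ℕ → Option ℕ) (k : ℕ) : wi sep (k + 1) ≤ wi sep k + 1 := by
  unfold wi
  rw [Finset.range_add_one, Finset.filter_insert]
  split_ifs
  · exact Finset.card_insert_le _ _
  · omega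

lemma wi_surj (sep : ℕ → Option ℕ) (r w : ℕ) (h : w ≤ wi sep r) : ∃ k ≤ r, wi sep k = w := by
  induction r with
  | zero =>
    have h0 : wi sep 0 = 0 := by simp [wi]
    exact ⟨0, le_rfl, by omega⟩
  | succ r ih =>
    by_cases hw : w ≤ wi sep r
    · obtain ⟨k, hk, he⟩ := ih hw
      exact ⟨k, by omega, he⟩
    · have := wi_succ sep r
      exact ⟨r + 1, le_rfl, by omega⟩

lemma wt_le (r : ℕ) (sep : ℕ → Option ℕ) (t : ℕ) : wt r sep t ≤ wi sep r := by
  unfold wt wi
  apply Finset.card_le_card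
  intro k hk
  simp only [Finset.mem_filter] at hk ⊢
  exact ⟨hk.1, hk.2.1⟩

lemma first_le (r : ℕ) (sep : ℕ → Option ℕ) (t : ℕ) : first sep (wt r sep t) ≤ r := by
  obtain ⟨k, hk, he⟩ := wi_surj sep r _ (wt_le r sep t)
  have h : sInf {k | wi sep k = wt r sep t} ≤ k := Nat.sInf_le he
  exact h.trans hk

end PHC

open PHC in
theorem t_PHC : S_PHC := by
  intro r r₀ sep Ql δ β hm hs
  refine ⟨cut_mono r sep Ql hm hs, fun t t' h => ?_⟩
  have h1 : ∀ k ≤ r, (t < Ql k ↔ t' < Ql k) := by
    intro k hk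
    have := ph_iff _ t t' h ⟨2 * k, by omega⟩
    unfold cut at this
    simp only [Nat.mul_mod_right, if_true] at this
    have h2 : 2 * k / 2 = k := by omega
    rw [h2] at this
    omega
  have h2 : wt r sep t = wt r sep t' := by
    unfold wt
    congr 1
    apply Finset.filter_congr
    intro k hk
    have hk' : k < r := Finset.mem_range.1 hk
    have := ph_iff _ t t' h ⟨2 * k + 1, by omega⟩
    unfold cut at this
    have h3 : (2 * k + 1) % 2 ≠ 0 := by omega
    have h4 : (2 * k + 1) / 2 = k := by omega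
    simp only [h3, if_false, h4] at this
    cases h5 : sep k with
    | none => simp
    | some s => simpa [h5] using this
  unfold col
  rw [h2]
  have h3 := h1 _ (first_le r sep t')
  by_cases hH : Heavy r r₀ sep (wt r sep t')
  · rw [if_pos hH, if_pos hH]
    by_cases h4 : t < Ql (first sep (wt r sep t'))
    · rw [if_pos h4, if_pos (h3.1 h4)]
    · rw [if_neg h4, if_neg (fun h5 => h4 (h3.2 h5))]
  · rw [if_neg hH, if_neg hH]

end Pool.Agent.RLT
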