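import Pool.Agent.RLT.St

/-!
# MP_5e85fc_lc, project RLT: statements, part 2 (quantiles, windows, colours, runs, counting)
-/

set_option autoImplicit false

namespace Pool.Agent.RLT

/-! ## Part 3: quantiles, windows, colours -/

/-- QNT (150 lines), quantiles. Proof: `L = S.card ≥ 1`; let `s` be the sorted list of the numbers
`τ a`, `a ∈ S` (with multiplicity; e.g. `(S.toList.map τ).mergeSort` or an order isomorphism), of
length `L`, and `p i = min (i * L / r) (L - 1)`, `Q i = s[p i]`. `p` is monotone, so `Q` is; `Q 0` is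
the minimum, `Q r` the maximum. The elements with `Q i < τ a < Q (i + 1)` have positions strictly
between `p i` and `p (i+1)`: at most `p (i+1) - p i - 1` of them, and
`r * (p (i+1) - p i - 1) ≤ L` because `r * ((i+1) L / r) ≤ (i+1) L` and
`r * (i L / r) ≥ i L - (r - 1)` (if `p i = L - 1` there are none). Last clause: `Q i ≤ τ a` with
`Q (i-1) < Q i` means that the position is `> p (i-1)` (no condition if `i = 0`), `τ a ≤ Q j < Q (j+1)`
that it is `< p (j+1)` (no condition, i.e. `≤ L - 1`, if `j = r`): count and estimate in the same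
way. -/
def S_QNT : Prop := ∀ (γ : Type) [DecidableEq γ] (S : Finset γ) (τ : γ → ℕ) (r : ℕ),
  S.Nonempty → 1 ≤ r → ∃ Q : ℕ → ℕ, Monotone Q ∧ (∀ i, ∃ a ∈ S, Q i = τ a) ∧
    (∀ a ∈ S, Q 0 ≤ τ a ∧ τ a ≤ Q r) ∧
    (∀ i < r, r * (S.filter (fun a => Q i < τ a ∧ τ a < Q (i + 1))).card ≤ S.card) ∧
    ∀ i j, i ≤ j → j ≤ r → (i = 0 ∨ Q (i - 1) < Q i) → (j = r ∨ Q j < Q (j + 1)) →
      r * (S.filter (fun a => Q i ≤ τ a ∧ τ a ≤ Q j)).card ≤ (j - i + 2) * S.card

/-- The window of the time `t`: the number of the separators `≤ t` (`sep k` is the separator between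
the quantiles `k` and `k + 1`, if there is one, `k < r`). -/
def wt (r : ℕ) (sep : ℕ → Option ℕ) (t : ℕ) : ℕ :=
  ((Finset.range r).filter (fun k => (sep k).isSome ∧ (sep k).getD 0 ≤ t)).card

/-- The window of the quantile number `k`. -/
def wi (sep : ℕ → Option ℕ) (k : ℕ) : ℕ := ((Finset.range k).filter (fun k' => (sep k').isSome)).card

/-- The window contains at least `r₀` of the quantiles `0, …, r`. -/
def Heavy (r r₀ : ℕ) (sep : ℕ → Option ℕ) (w : ℕ) : Prop :=
  r₀ ≤ ((Finset.range (r + 1)).filter (fun k => wi sep k = w)).card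

/-- The first quantile of the window. -/
noncomputable def first (sep : ℕ → Option ℕ) (w : ℕ) : ℕ := sInf {k | wi sep k = w}

open Classical in
/-- The colour of the time `t`: in a heavy window `δ` before the base quantile and `!δ` from it on;
in a light window `β`. -/
noncomputable def col (r r₀ : ℕ) (sep : ℕ → Option ℕ) (Ql : ℕ → ℕ) (δ β : ℕ → Bool) (t : ℕ) :
    Bool :=
  if Heavy r r₀ sep (wt r sep t) then
    (if t < Ql (first sep (wt r sep t)) then δ (first sep (wt r sep t))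
      else !(δ (first sep (wt r sep t))))
  else β (wt r sep t)

/-- WNW (250 lines), the tests of one comb leaf (quantiles `Qv`; base leaf: quantiles `Ql`). Proof:
`wi` is monotone, `wi (k+1) = wi k + 1` iff `(sep k).isSome`; a window `w = wi k`, `k ≤ r`, is an
interval `f, …, l` of indices in `[0, r]`, `f = first sep w`, with `sep k = none` for `f ≤ k < l`,
`f = 0` or `(sep (f-1)).isSome`, `l = r` or `(sep l).isSome`. The separators increase.
Let `t = τ a`, so `Qv 0 ≤ t ≤ Qv r`. Either `Qv f ≤ t ≤ Qv l` for some window `f, …, l`, and then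
`wt r sep t = wi f` (the separators number `k < f` are `< Qv (k+1) ≤ Qv f ≤ t`, those number `k ≥ l`
are `> Qv k ≥ Qv l ≥ t`); or `Qv l < t < Qv (l + 1)` with `sep l = some s`, and then
`wt r sep t` is `wi l` or `wi l + 1`.
(1) If `Qv f ≤ t ≤ Qv l` and the window is heavy, then `col … t = X`: by the third hypothesis
`Qv l < Ql f` or `Ql l < Qv f`. In the first case `t < Ql f`, `Qv f < Ql f`, `δ f = X`; in the second
case `Ql f ≤ Ql l < Qv f ≤ t`, not `Qv f < Ql f`, so `δ f ≠ X`, `!δ f = X`. So the elements counted in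
(1) are in the gaps before and after heavy windows: at most `2` gaps for each heavy window, each gap
`(Qv l, Qv (l+1))` has `r * # ≤ S.card`, and the number `H` of heavy windows satisfies
`H * r₀ ≤ r + 1`. (2) The elements of the light window `w` (with indices `f, …, l`,
`l - f + 1 < r₀`) are in `[Qv f, Qv l]` (last hypothesis: `r * # ≤ (l - f + 2) * S.card`) or in the gap
before or the gap after. If `w` is not a `wi k`, `k ≤ r`, there are none. -/
def S_WNW : Prop := ∀ (r r₀ : ℕ) (sep : ℕ → Option ℕ) (Ql Qv : ℕ → ℕ) (δ β : ℕ → Bool) (X : Bool)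
  (γ : Type) [DecidableEq γ] (S : Finset γ) (τ : γ → ℕ), 1 ≤ r → 1 ≤ r₀ →
  Monotone Ql → Monotone Qv →
  (∀ k < r, ∀ s ∈ sep k, Ql k < s ∧ s < Ql (k + 1) ∧ Qv k < s ∧ s < Qv (k + 1)) →
  (∀ i j, i ≤ j → j ≤ r → (∀ k, i ≤ k → k < j → sep k = none) → Qv j < Ql i ∨ Ql j < Qv i) →
  (∀ i ≤ r, (Qv i < Ql i ↔ δ i = X)) →
  (∀ a ∈ S, Qv 0 ≤ τ a ∧ τ a ≤ Qv r) →
  (∀ i < r, r * (S.filter (fun a => Qv i < τ a ∧ τ a < Qv (i + 1))).card ≤ S.card) →
  (∀ i j, i ≤ j → j ≤ r → (i = 0 ∨ Qv (i - 1) < Qv i) → (j = r ∨ Qv j < Qv (j + 1)) →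
    r * (S.filter (fun a => Qv i ≤ τ a ∧ τ a ≤ Qv j)).card ≤ (j - i + 2) * S.card) →
  r * r₀ * {a | a ∈ S ∧ Heavy r r₀ sep (wt r sep (τ a)) ∧
      col r r₀ sep Ql δ β (τ a) ≠ X}.ncard ≤ 2 * (r + 1) * S.card ∧
  ∀ w, ¬ Heavy r r₀ sep w → r * (S.filter (fun a => wt r sep (τ a) = w)).card ≤ (r₀ + 3) * S.card

/-- The phase of the time `t`: the number of the cuts `≤ t`. -/
def ph {C : ℕ} (θ : Fin C → ℕ) (t : ℕ) : ℕ := (Finset.univ.filter (fun j => θ j ≤ t)).card

/-- The cuts: the base quantiles `0, …, r` and the separators. -/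
def cut (r : ℕ) (sep : ℕ → Option ℕ) (Ql : ℕ → ℕ) (j : Fin (2 * r + 1)) : ℕ :=
  if (j : ℕ) % 2 = 0 then Ql (j / 2) else (sep (j / 2)).getD (Ql (j / 2))

/-- PHC (100 lines). Proof: `cut` is monotone (`cut (2k) = Ql k ≤ cut (2k+1) ≤ Ql (k+1)`). For a
monotone `θ` the set `{j | θ j ≤ t}` is an initial segment, determined by its cardinality `ph θ t`; so
`ph θ t = ph θ t'` implies `θ j ≤ t ↔ θ j ≤ t'` for all `j`. Hence `wt r sep t = wt r sep t'` and
`t < Ql k ↔ t' < Ql k` for `k ≤ r`. Finally `first sep (wt r sep t) ≤ r`, because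
`wt r sep t ≤ wi sep r` and `wi` starts at `0` and increases by steps `0` or `1`. -/
def S_PHC : Prop := ∀ (r r₀ : ℕ) (sep : ℕ → Option ℕ) (Ql : ℕ → ℕ) (δ β : ℕ → Bool),
  Monotone Ql → (∀ k < r, ∀ s ∈ sep k, Ql k < s ∧ s < Ql (k + 1)) →
  Monotone (cut r sep Ql) ∧ ∀ t t', ph (cut r sep Ql) t = ph (cut r sep Ql) t' →
    col r r₀ sep Ql δ β t = col r r₀ sep Ql δ β t'

/-- RND (200 lines), the random colours. Proof: for `t`, `β` let `g t β` be the number of the
`a ∈ GA t` with `β w = true` for all `w ∈ wA t a`, `g' t β` the other number. Then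
`∑_β g t β * g' t β = ∑_(a ∈ GA t, a' ∈ GB t) #{β | β = true on wA t a, β = false on wB t a'}`, and the
term is `2 ^ (W - |wA t a| - |wB t a'|) ≥ 2 ^ (W - 2q)` if the two sets are disjoint (work with
`4 ^ q * # ≥ 2 ^ W`; to show it: the map `β ↦ β` modified on the two sets; each fibre has at most
`2 ^ (2q)` elements). For fixed `a` the number of the `a' ∈ GB t` with `wB t a'` meeting `wA t a` is at
most `∑_(w ∈ wA t a) #{a' | w ∈ wB t a'} ≤ q * κ' / (16 q)`. So the number of disjoint pairs is at least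
`(3κ'/4)² - κ' * κ'/16 = κ'²/2`, and `4 ^ q * 2 * ∑_β g g' ≥ 2 ^ W κ'²`. Sum over `t`; some `β` has
`2 * 4 ^ q * ∑_t g t β g' t β ≥ m κ'²`. Let `T = {t | κ'² ≤ 4 ^ (q+1) * g g'}`. As
`g g' ≤ κ'²` always, `∑_t g g' ≤ |T| κ'² + m κ'² / 4 ^ (q+1)`, so
`2 m κ'² ≤ 4 ^ (q+1) |T| κ'² + m κ'²`. For `t ∈ T`: `g' ≤ κ'` gives `κ' ≤ 4 ^ (q+1) g` and
symmetrically. -/
def S_RND : Prop := ∀ (q m W κ' : ℕ) (ι : Type) [DecidableEq ι] (GA GB : Fin m → Finset ι)
  (wA wB : Fin m → ι → Finset (Fin W)), 1 ≤ q → 1 ≤ κ' →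
  (∀ t, 3 * κ' ≤ 4 * (GA t).card ∧ (GA t).card ≤ κ') →
  (∀ t, 3 * κ' ≤ 4 * (GB t).card ∧ (GB t).card ≤ κ') →
  (∀ t, ∀ a ∈ GA t, (wA t a).card ≤ q) → (∀ t, ∀ a ∈ GB t, (wB t a).card ≤ q) →
  (∀ t w, 16 * q * ((GB t).filter (fun a => w ∈ wB t a)).card ≤ κ') →
  ∃ (β : Fin W → Bool) (T : Finset (Fin m)), m ≤ 4 ^ (q + 1) * T.card ∧ ∀ t ∈ T,
    κ' ≤ 4 ^ (q + 1) * ((GA t).filter (fun a => ∀ w ∈ wA t a, β w = true)).card ∧
    κ' ≤ 4 ^ (q + 1) * ((GB t).filter (fun a => ∀ w ∈ wB t a, β w = false)).card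

/-- The leaves of the tree of height `h`. -/
def lv (h : ℕ) : Finset (List Bool) := Finset.univ.image (fun v : Fin h → Bool => List.ofFn v)

/-- PIL (300 lines), hypotheses `S_CMB`, `S_QNT`, `S_WNW`, `S_PHC`, `S_RND`. `tests v a`: the times
when the digit `a` of the leaf `v` is tested. Proof: `r₀ = 16 q`, `r = 16 q² (16 q + 3)`, `c₁` from
`S_CMB` for `r`; `C = 2 r + 1`, `E = 2 * 4 ^ (q + 1)`, `c = c₁ * 4 ^ (q + 1)`, `m' = 4 ^ (q + 1) * m`
(so `c₁ (m' + 1) ≤ c (m + 1) ≤ h`).
(a) `U = {v ∈ lv h | κ ≤ 2 * #{a | (tests v a).card ≤ q}}`; a leaf not in `U` has at least `κ / 2`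
digits with more than `q` tests, so `4 * #(lv h \ U) ≤ 2 ^ h` and `2 ^ h ≤ 2 * U.card`
(`(lv h).card = 2 ^ h`). For `v ∈ U` choose `G v ⊆ {a | (tests v a).card ≤ q}` with exactly
`κ' = (κ + 1) / 2` elements.
(b) Shifted times: `T v a = {t + 2 ^ h | t ∈ tests v a}` if this is not empty, otherwise `{code v}`
with `code` injective on `lv h` with values `< 2 ^ h`. So `T v a` is not empty, has at most `q`
elements (`q ≥ 1`), and times of different leaves are different. `S v = {(a, t) | a ∈ G v, t ∈ T v a}`,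
`κ' ≤ (S v).card ≤ q κ'`; `S_QNT` (with `τ = Prod.snd`) gives `Q v`. (For `v ∉ U`: `Q v = 0`.)
(c) `S_CMB` gives `U' ⊆ U`, `l`, `δ`, and `m'` pairs `A', B'`. For each `k < r` let `sep k = some s` for
some `s` with `Sep U' Q k s` if there is one, otherwise `none` (and `none` for `k ≥ r`). All hypotheses
of `S_WNW` hold for `Ql = Q l`, `Qv = Q v`, `v = A' t`, `X = true`, resp. `v = B' t`, `X = false`: the
separation is the definition; if `sep k = none` for all `i ≤ k < j ≤ r`, then `SplP U' Q r` gives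
`Dis U' Q i j` (`v ≠ l` because the comb leaves branch off); and `Q (B t) i < Q l i ↔ δ i = false`
follows from `Q l i < Q (B t) i ↔ δ i = true` and `Q l i ≠ Q (B t) i`.
(d) Spoiled digits of `v = A' t`: the `a ∈ G v` with some `t' ∈ T v a` in a heavy window with
`col … t' ≠ X` (this does not depend on `β`). Their number `z` is at most the number of such pairs,
so `r r₀ z ≤ 2 (r + 1) q κ' ≤ 4 r q κ'`, `4 z ≤ κ'`. `GA t = G v \ spoiled`. `wA t a` = the set of the light
windows `wt r sep t'`, `t' ∈ T v a` (as elements of `Fin (r + 1)`, `wt ≤ r`), at most `q` elements. For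
a light window `w` the number of the `a ∈ GA t` with `w ∈ wA t a` is at most the number of pairs in
this window: `r * # ≤ (16 q + 3) q κ'`, so `16 q * # ≤ κ'`. The same for `B`. `S_RND` gives `β` and
a set of at least `m` pairs; choose exactly `m` of them in increasing order
(`Finset.orderEmbOfFin`; a subfamily of a comb is a comb). Final digit sets: the digits of `GA t`
with `β = true` on `wA t a`, etc.; `κ ≤ 2 κ' ≤ E * #`.
(e) For such a digit all `t' ∈ T v a` have `col r r₀ sep Ql δ β t' = X` (heavy windows: not spoiled;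
light windows: `β`). `S_PHC`: `cut` is monotone and `col` is constant on its phases, so
`col … t = χ (ph cut t)` for some `χ`. Finally shift back: `θ j = cut j - 2 ^ h`; then
`θ j ≤ s ↔ cut j ≤ s + 2 ^ h`, so `ph θ s = ph cut (s + 2 ^ h)`, and `s ∈ tests v a` gives
`s + 2 ^ h ∈ T v a`. -/
def S_PIL : Prop := ∀ q : ℕ, 1 ≤ q → ∃ C c E : ℕ, 1 ≤ c ∧ 1 ≤ E ∧
  ∀ (h κ m : ℕ) (tests : List Bool → Fin κ → Finset ℕ), 1 ≤ κ → c * (m + 1) ≤ h →
  (∀ v ∈ lv h, ∀ w ∈ lv h, ∀ a b, (v, a) ≠ (w, b) → Disjoint (tests v a) (tests w b)) →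
  8 * ∑ v ∈ lv h, (Finset.univ.filter (fun a => q < (tests v a).card)).card ≤ 2 ^ h * κ →
  ∃ (θ : Fin C → ℕ) (χ : ℕ → Bool) (l : List Bool) (A B : Fin m → List Bool)
    (GA GB : Fin m → Finset (Fin κ)), Monotone θ ∧ l ∈ lv h ∧ Comb l A B ∧
    ∀ t, κ ≤ E * (GA t).card ∧ κ ≤ E * (GB t).card ∧
      (∀ a ∈ GA t, ∀ s ∈ tests (A t) a, χ (ph θ s) = true) ∧
      (∀ a ∈ GB t, ∀ s ∈ tests (B t) a, χ (ph θ s) = false)

/-! ## Part 4: runs and counting -/

/-- A computation of length `T` with configurations `σ 0, …, σ T` and labels `lab 0, …, lab (T-1)`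
on the input `w`. -/
def Trace {α : Type} {n : ℕ} (P : Prog α n) (w : Fin n → α) (T : ℕ) (σ : ℕ → P.S)
    (lab : ℕ → Option (Fin n × α)) : Prop :=
  σ 0 = P.start ∧ ∀ t < T, σ (t + 1) ∈ P.step (σ t) (lab t) ∧
    ∀ i a, lab t = some (i, a) → a = w i

/-- TRC (70 lines). Proof: first part: induction on `Reach` (modify `σ`, `lab` at the end with
`Function.update`); second part: induction on `T`. -/
def S_TRC : Prop := ∀ (α : Type) (n : ℕ) (P : Prog α n) (w : Fin n → α),
  (∀ m s, P.Reach w m s → ∃ (T : ℕ) (σ : ℕ → P.S) (lab : ℕ → Option (Fin n × α)),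
    Trace P w T σ lab ∧ σ T = s ∧ {t | t < T ∧ lab t ≠ none}.ncard = m) ∧
  ∀ (T : ℕ) (σ : ℕ → P.S) (lab : ℕ → Option (Fin n × α)), Trace P w T σ lab →
    ∃ m, P.Reach w m (σ T)

/-- MIX (150 lines), two accepting runs with the same cut configurations are mixed. Proof: claim by
induction on `j ≤ C`: the configuration at the cut number `j` (`σ (min (θ j) T) = σ' (min (θ' j) T')`;
for `j = C`: the end) is reachable on `y`. The steps of the first run between two consecutive cuts
(`θ (j-1) ≤ t < θ j`; before the first, after the last cut) have `ph θ t = j` (monotone cuts; the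
number of the `i` with `θ i ≤ t` is `j`; if `θ (j-1) = θ j` there is nothing to do). If `χ j = true`
continue with the segment of the first run: each label `some (i, a)` has `a = y i`, so the step is
possible on `y` (`Reach.test` or `Reach.free`); if `χ j = false` with the segment of the second run. At
the end one is in `σ T` or in `σ' T'`, both are accepting. Use general lemma: if `Reach y m (σ t₀)`,
`t₀ ≤ t₁ ≤ T` and all labels between are satisfied by `y`, then `Reach y m' (σ t₁)` for some `m'`. -/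
def S_MIX : Prop := ∀ (α : Type) (n C : ℕ) (P : Prog α n) (w w' y : Fin n → α) (T T' : ℕ)
  (σ σ' : ℕ → P.S) (lab lab' : ℕ → Option (Fin n × α)) (θ θ' : Fin C → ℕ) (χ : ℕ → Bool),
  Monotone θ → Monotone θ' → Trace P w T σ lab → Trace P w' T' σ' lab' →
  (∀ j, σ (min (θ j) T) = σ' (min (θ' j) T')) → σ T ∈ P.accept → σ' T' ∈ P.accept →
  (∀ t < T, χ (ph θ t) = true → ∀ i a, lab t = some (i, a) → a = y i) →
  (∀ t < T', χ (ph θ' t) = false → ∀ i a, lab' t = some (i, a) → a = y i) →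
  ∃ m, ∃ s ∈ P.accept, P.Reach y m s

/-- The word with template `tmp`: letters, and digits `x v` for the variables `v`. -/
def word {α V : Type} {n M : ℕ} (tmp : Fin n → α ⊕ V) (dg : Fin M → α) (x : V → Fin M) :
    Fin n → α := fun i => Sum.elim id (fun v => dg (x v)) (tmp i)

/-- The leaf with the address `w`. -/
def adr (h : ℕ) (w : List Bool) : Fin h → Bool := fun t => w.getD t false

/-- PIG (60 lines). Proof: map `x ∈ G` to its restriction to the complement of `W`: there are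
`M ^ (|V| - |W|)` restrictions and every nonempty fibre is contained in a set
`{x ∈ G | x = ρ outside W}`; `Finset.card_le_mul_card_image` or similar. -/
def S_PIG : Prop := ∀ (V : Type) [Fintype V] [DecidableEq V] (M N : ℕ) (W : Finset V)
  (G : Finset (V → Fin M)),
  (∀ ρ ∈ G, (G.filter (fun x => ∀ v, v ∉ W → x v = ρ v)).card ≤ N) →
  G.card ≤ M ^ (Fintype.card V - W.card) * N

/-- FBR (250 lines), hypotheses `S_TRL`, `S_MIX`: the fibre bound. `Z` is a set of digit
assignments which agree outside the comb digits, all accepted by runs with the same cut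
configurations `u`, in which the digits of `A t` in `GA t` are only tested in phases of colour `true`
and those of `B t` in `GB t` only in phases of colour `false`. Proof: if `Z` is empty, trivial; let
`x₀ ∈ Z`. The leaves `A t`, `B t` are pairwise different and different from each other (branching
depths), of length `h`, so their addresses `adr h (A t)`, … are different. For `x ∈ Z` put
`a(x) t = lf (adr h (A t)) (fun j => x (adr h (A t), j))`, `b(x)` similarly with `B`; `x ↦ (a(x), b(x))`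
is injective on `Z` (`lf` injective; other digits are those of `x₀`). `𝒳 = {a(x)}`, `𝒴 = {b(x)}`
(images of `Z`), so `Z.card ≤ 𝒳.card * 𝒴.card`. Each coordinate `a(x) t` depends only on the `e` digits
in `GA t` (the other digits of this leaf are those of `x₀`): at most `M ^ e` values; the same for
`b`. RECTANGLE: for `x, x' ∈ Z` let `y v = x v` if `v.1 = adr h (A t)`, `v.2 ∈ GA t` for some `t`, and
`y v = x' v` otherwise. `S_MIX` with the runs of `x` and `x'` and the input `word tmp dg y`: let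
`lab t = some (i, c)` in the run of `x` in a phase with colour `true`; `c = word tmp dg x i`. If
`tmp i = inl _` this is `word tmp dg y i`. If `tmp i = inr v`: `v` is not a digit of some `B s` in
`GB s` (its tests have colour `false`), so `x v = y v` (either an `A` digit, or outside all comb digits
where `x = x' = y`). In the run of `x'` in a phase with colour `false`: `v` is not an `A` digit, so
`y v = x' v`. So `word tmp dg y` is accepted, in `L`, and
`val h (fun w => lf (adr h w) (fun j => y (adr h w, j))) = ρ`. As `val h` only depends on the values at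
the lists of length `h`, and for these the assignment is `upd A (a x) (upd B (b x') ρ')` with
`ρ' w = lf (adr h w) (fun j => x₀ (adr h w, j))` (at `w = A t`: all digits of `y` are those of `x`,
at `B t`: those of `x'`, elsewhere those of `x₀`; `adr h` is injective on lists of length `h`),
`S_TRL` with `E = M ^ e` gives the bound for `𝒳.card * 𝒴.card`. -/
def S_FBR : Prop := ∀ (F : Type) [Field F] [DecidableEq F], (2 : F) ≠ 0 →
  ∀ (α : Type) (n M h κ m e C : ℕ) (P : Prog α n) (L : Set (List α)) (dg : Fin M → α)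
    (tmp : Fin n → α ⊕ ((Fin h → Bool) × Fin κ)) (lf : (Fin h → Bool) → (Fin κ → Fin M) → F)
    (ρ : F) (χ : ℕ → Bool) (l : List Bool) (A B : Fin m → List Bool)
    (GA GB : Fin m → Finset (Fin κ)) (u : Fin C → P.S)
    (Z : Finset ((Fin h → Bool) × Fin κ → Fin M)),
  (∀ v, Function.Injective (lf v)) → l.length = h → Comb l A B →
  (∀ t, (GA t).card = e ∧ (GB t).card = e) →
  (∀ x, List.ofFn (word tmp dg x) ∈ L →
    val h (fun w => lf (adr h w) (fun j => x (adr h w, j))) = ρ) →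
  (∀ y k s, P.Reach y k s → s ∈ P.accept → List.ofFn y ∈ L) →
  (∀ x ∈ Z, ∀ x' ∈ Z, ∀ v : (Fin h → Bool) × Fin κ,
    (∀ t, ¬ (v.1 = adr h (A t) ∧ v.2 ∈ GA t) ∧ ¬ (v.1 = adr h (B t) ∧ v.2 ∈ GB t)) → x v = x' v) →
  (∀ x ∈ Z, ∃ (T : ℕ) (σ : ℕ → P.S) (lab : ℕ → Option (Fin n × α)) (θ : Fin C → ℕ),
    Trace P (word tmp dg x) T σ lab ∧ σ T ∈ P.accept ∧ Monotone θ ∧
    (∀ j, σ (min (θ j) T) = u j) ∧
    ∀ t < T, ∀ i a v, lab t = some (i, a) → tmp i = Sum.inr v → ∀ s,
      ((v.1 = adr h (A s) ∧ v.2 ∈ GA s) → χ (ph θ t) = true) ∧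
      ((v.1 = adr h (B s) ∧ v.2 ∈ GB s) → χ (ph θ t) = false)) →
  Z.card ≤ (2 ^ (4 * h + 2) * M ^ e) ^ m

/-- CNT (250 lines), hypotheses `S_PIL`, `S_PIG`, `S_FBR`: counting. Proof: `C, c, E` from `S_PIL` for
`q`; `e = κ / E`. For `x ∈ G` take the run and put
`tests w a = {t < T | lab t = some (i, _), tmp i = inr (adr h w, a) for some i}`; for different
`(v, a)` with `v ∈ lv h` these sets are disjoint (one label at each time; `adr h` is injective on
`lv h`), the sum of their cardinalities is at most the number of tests in the hypothesis, so the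
number of digits with more than `q` tests, times `8 (q + 1)`, is at most `q 2 ^ h κ`: the hypothesis
of `S_PIL`. It gives the data `D x = (u, χ, l, A, B, GA, GB)` with `u j = σ (min (θ j) T)`, `χ`
restricted to `{0, …, C}` (`ph θ t ≤ C`), `l, A t, B t` as elements of `Fin h → Bool` (via `adr h` and
`List.ofFn`), `GA t`, `GB t` shrunk to exactly `e` elements (`κ ≤ E * card` gives `κ / E ≤ card`). The
number of possible data is at most
`N = (card S) ^ C * 2 ^ (C + 1) * (2 ^ h) ^ (2 m + 1) * (2 ^ κ) ^ (2 m)` (cardinality of the product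
type; `P.fin`). Some datum `D` occurs for a set `G' ⊆ G` with `G.card ≤ N * G'.card`. With
`W = {v | v is a digit of A t in GA t or of B t in GB t}`, `W.card = 2 m e` (the leaves are
different), `S_FBR` bounds the fibres of `G'` outside `W` and `S_PIG` gives
`G'.card ≤ M ^ (2 ^ h κ - 2 m e) * (2 ^ (4h+2) M ^ e) ^ m`; multiply by `M ^ (2 m e)`
(`2 m e ≤ 2 ^ h κ` because `W` is a set of digits). -/
def S_CNT : Prop := ∀ q : ℕ, 1 ≤ q → ∃ C c E : ℕ, 1 ≤ c ∧ 1 ≤ E ∧
  ∀ (F : Type) [Field F] [DecidableEq F], (2 : F) ≠ 0 →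
  ∀ (α : Type) (n M h κ m : ℕ) (P : Prog α n) (L : Set (List α)) (dg : Fin M → α)
    (tmp : Fin n → α ⊕ ((Fin h → Bool) × Fin κ)) (lf : (Fin h → Bool) → (Fin κ → Fin M) → F)
    (ρ : F) (G : Finset ((Fin h → Bool) × Fin κ → Fin M)), 1 ≤ κ → c * (m + 1) ≤ h →
  (∀ v, Function.Injective (lf v)) →
  (∀ x, List.ofFn (word tmp dg x) ∈ L →
    val h (fun w => lf (adr h w) (fun j => x (adr h w, j))) = ρ) →
  (∀ y k s, P.Reach y k s → s ∈ P.accept → List.ofFn y ∈ L) →
  (∀ x ∈ G, ∃ (T : ℕ) (σ : ℕ → P.S) (lab : ℕ → Option (Fin n × α)),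
    Trace P (word tmp dg x) T σ lab ∧ σ T ∈ P.accept ∧
    8 * {t | t < T ∧ ∃ i a v, lab t = some (i, a) ∧ tmp i = Sum.inr v}.ncard ≤
      q * (2 ^ h * κ)) →
  G.card * M ^ (2 * m * (κ / E)) ≤ (Nat.card P.S) ^ C * 2 ^ (C + 1) * (2 ^ h) ^ (2 * m + 1) *
    (2 ^ κ) ^ (2 * m) * M ^ (2 ^ h * κ) * (2 ^ (4 * h + 2) * M ^ (κ / E)) ^ m

/-- DES (200 lines), hypothesis `S_TRC`: choice of one designated digit in each block. Proof: for
`x : ((Fin h → Bool) × Fin κ) × Fin b → Fin M` let `r = rt (sums)`; the word with template `T r` is in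
`L`, so there is an accepting run with at most `k n` tests (`S_TRC`); for `i₀ : Fin b` let
`N x i₀ = #{t | lab t = some (i, _), T r i = inr (v, i₀) for some v}`. `∑_(i₀) N x i₀ ≤ k n ≤
2 k 2 ^ h κ b`, so at least half of the `i₀` satisfy `N x i₀ ≤ 4 k 2 ^ h κ` (if `k 2 ^ h κ = 0` all).
So some `i₀` satisfies this for a set `G₁` of `x` with `2 * G₁.card ≥ M ^ (2 ^ h κ b)`; some `r`
occurs for `G₂ ⊆ G₁` with `p * G₂.card ≥ G₁.card`; and some assignment `ρ` of the digits
`(v, i)`, `i ≠ i₀`, occurs for `G₃ ⊆ G₂`, `M ^ (2 ^ h κ (b - 1)) * G₃.card ≥ G₂.card`. Take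
`tmp j = inl c` if `T r j = inl c`, `tmp j = inr v` if `T r j = inr (v, i₀)`,
`tmp j = inl (dg (ρ (v, i)))` if `T r j = inr (v, i)`, `i ≠ i₀`; `s v = ∑_(i ≠ i₀) ρ (v, i)`;
`G = {x (·, i₀) | x ∈ G₃}`. For `x' : V → Fin M` the word of `tmp` is that of `T r` for the assignment
which is `x'` at `i₀` and `ρ` elsewhere. If `p = 0` or so the hypotheses are contradictory or
`G` is found trivially: `rt` has a value, so `p ≥ 1`. -/
def S_DES : Prop := ∀ (α : Type) (n M h κ b p k : ℕ) [NeZero M] (P : Prog α n)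
  (L : Set (List α)) (dg : Fin M → α)
  (T : Fin p → Fin n → α ⊕ (((Fin h → Bool) × Fin κ) × Fin b))
  (rt : ((Fin h → Bool) × Fin κ → Fin M) → Fin p),
  1 ≤ b → n ≤ 2 * (2 ^ h * κ * b) → P.Recognizes L (k * n) →
  (∀ r x, List.ofFn (word (T r) dg x) ∈ L ↔ rt (fun v => ∑ i, x (v, i)) = r) →
  ∃ (tmp : Fin n → α ⊕ ((Fin h → Bool) × Fin κ)) (s : (Fin h → Bool) × Fin κ → Fin M)
    (r : Fin p) (G : Finset ((Fin h → Bool) × Fin κ → Fin M)),
    M ^ (2 ^ h * κ) ≤ 2 * p * G.card ∧
    (∀ x, List.ofFn (word tmp dg x) ∈ L ↔ rt (fun v => x v + s v) = r) ∧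
    ∀ x ∈ G, ∃ (τ : ℕ) (σ : ℕ → P.S) (lab : ℕ → Option (Fin n × α)),
      Trace P (word tmp dg x) τ σ lab ∧ σ τ ∈ P.accept ∧
      {t | t < τ ∧ ∃ i a v, lab t = some (i, a) ∧ tmp i = Sum.inr v}.ncard ≤ 4 * k * (2 ^ h * κ)

end Pool.Agent.RLT
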