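import Mathlib
import Pool.Agent.RLT.St2

/-!
# Module PIG: a pigeonhole bound
-/

set_option autoImplicit false

namespace Pool.Agent.RLT

theorem t_PIG : S_PIG := by
  classical
  intro V _ _ M N W G hG
  have h1 := Finset.card_le_mul_card_image (f := fun (x : V → Fin M) (v : {v : V // v ∉ W}) => x v)
    G N ?_
  · refine h1.trans ?_
    rw [mul_comm]
    refine Nat.mul_le_mul_right _ ?_
    refine (Finset.card_le_univ _).trans (le_of_eq ?_)
    rw [Fintype.card_fun, Fintype.card_fin, Fintype.card_subtype_compl, Fintype.card_coe]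
  · intro b hb
    obtain ⟨ρ, hρ, rfl⟩ := Finset.mem_image.1 hb
    refine (Finset.card_le_card ?_).trans (hG ρ hρ)
    intro x hx
    rw [Finset.mem_filter] at hx ⊢
    exact ⟨hx.1, fun v hv => congrFun hx.2 ⟨v, hv⟩⟩

end Pool.Agent.RLT
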