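import Pool.Agent.RLT.St2

/-!
# MP_5e85fc_lc, project RLT: the colours of the tests of a comb
-/

set_option autoImplicit false

namespace Pool.Agent.RLT

namespace PIL

/-! ## Shifted times -/

/-- The shifted times; if there are none, the code of the leaf. -/
noncomputable def tm (K : ℕ) (v : List Bool) (s : Finset ℕ) : Finset ℕ :=
  if s.Nonempty then s.image (fun t => t + K) else {Encodable.encode v}

theorem tm_ne (K : ℕ) (v : List Bool) (s : Finset ℕ) : (tm K v s).Nonempty := by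
  unfold tm
  split_ifs with h
  · exact h.image _
  · exact Finset.singleton_nonempty _

theorem tm_card {K : ℕ} {v : List Bool} {s : Finset ℕ} {q : ℕ} (hq : 1 ≤ q) (h : s.card ≤ q) :
    (tm K v s).card ≤ q := by
  unfold tm
  split_ifs with h1
  · exact Finset.card_image_le.trans h
  · rw [Finset.card_singleton]
    exact hq

theorem tm_mem {K : ℕ} {v : List Bool} {s : Finset ℕ} {t : ℕ} (h : t ∈ s) : t + K ∈ tm K v s := by
  unfold tm
  rw [if_pos ⟨t, h⟩]
  exact Finset.mem_image_of_mem _ h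

theorem tm_disj {K : ℕ} {v w : List Bool} {s s' : Finset ℕ} (hv : Encodable.encode v < K)
    (hw : Encodable.encode w < K) (hvw : v ≠ w) (hd : Disjoint s s') {t : ℕ} (h : t ∈ tm K v s)
    (h' : t ∈ tm K w s') : False := by
  unfold tm at h h'
  split_ifs at h h' with h1 h2 h2
  · rw [Finset.mem_image] at h h'
    obtain ⟨a, ha, rfl⟩ := h
    obtain ⟨b, hb, hab⟩ := h'
    have : b = a := by omega
    subst this
    exact Finset.disjoint_left.1 hd ha hb
  · rw [Finset.mem_image] at h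
    rw [Finset.mem_singleton] at h'
    obtain ⟨a, ha, rfl⟩ := h
    omega
  · rw [Finset.mem_image] at h'
    rw [Finset.mem_singleton] at h
    obtain ⟨a, ha, rfl⟩ := h'
    omega
  · rw [Finset.mem_singleton] at h h'
    exact hvw (Encodable.encode_injective (h.symm.trans h'))

/-! ## Counting of the leaves -/

theorem card_lv (h : ℕ) : (lv h).card = 2 ^ h := by
  unfold lv
  rw [Finset.card_image_of_injective _ List.ofFn_injective]
  simp

theorem len_lv {h : ℕ} {v : List Bool} (hv : v ∈ lv h) : v.length = h := by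
  unfold lv at hv
  rw [Finset.mem_image] at hv
  obtain ⟨a, -, rfl⟩ := hv
  simp

theorem countU (h κ q : ℕ) (hκ : 1 ≤ κ) (tests : List Bool → Fin κ → Finset ℕ)
    (hb : 8 * ∑ v ∈ lv h, (Finset.univ.filter (fun a => q < (tests v a).card)).card ≤
      2 ^ h * κ) :
    2 ^ h ≤ 2 * ((lv h).filter (fun v =>
      κ ≤ 2 * (Finset.univ.filter (fun a => (tests v a).card ≤ q)).card)).card := by
  have h1 := Finset.card_filter_add_card_filter_not (s := lv h) (fun v =>
      κ ≤ 2 * (Finset.univ.filter (fun a => (tests v a).card ≤ q)).card)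
  rw [card_lv] at h1
  set N := (lv h).filter (fun v =>
    ¬ κ ≤ 2 * (Finset.univ.filter (fun a => (tests v a).card ≤ q)).card) with hN
  have h2 : ∀ v, v ∈ N → κ ≤ 2 * (Finset.univ.filter (fun a => q < (tests v a).card)).card := by
    intro v hv
    have h3 := (Finset.mem_filter.1 hv).2
    have h4 := Finset.card_filter_add_card_filter_not (s := (Finset.univ : Finset (Fin κ)))
      (fun a => (tests v a).card ≤ q)
    rw [Finset.card_univ, Fintype.card_fin] at h4
    have h5 : (Finset.univ.filter (fun a => ¬ (tests v a).card ≤ q)) =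
        (Finset.univ.filter (fun a => q < (tests v a).card)) := by
      apply Finset.filter_congr
      intro a _
      exact not_le
    rw [h5] at h4
    simp only [not_le] at h3
    omega
  have h3 : N.card * κ ≤ 2 * ∑ v ∈ lv h, (Finset.univ.filter (fun a => q < (tests v a).card)).card := by
    calc N.card * κ = ∑ _v ∈ N, κ := by rw [Finset.sum_const, smul_eq_mul]
      _ ≤ ∑ v ∈ N, 2 * (Finset.univ.filter (fun a => q < (tests v a).card)).card :=
        Finset.sum_le_sum h2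
      _ ≤ ∑ v ∈ lv h, 2 * (Finset.univ.filter (fun a => q < (tests v a).card)).card :=
        Finset.sum_le_sum_of_subset (Finset.filter_subset _ _)
      _ = _ := by rw [Finset.mul_sum]
  have h4 : 4 * N.card * κ ≤ 2 ^ h * κ := by
    calc 4 * N.card * κ = 4 * (N.card * κ) := by ring
      _ ≤ 4 * (2 * ∑ v ∈ lv h, (Finset.univ.filter (fun a => q < (tests v a).card)).card) :=
        Nat.mul_le_mul_left _ h3
      _ = 8 * ∑ v ∈ lv h, (Finset.univ.filter (fun a => q < (tests v a).card)).card := by ring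
      _ ≤ _ := hb
  have h5 : 4 * N.card ≤ 2 ^ h := Nat.le_of_mul_le_mul_right h4 hκ
  omega

/-! ## Combs -/

theorem comb_sub {l : List Bool} {m m' : ℕ} {A B : Fin m' → List Bool} (h : Comb l A B)
    (e : Fin m ↪o Fin m') : Comb l (fun i => A (e i)) (fun i => B (e i)) := by
  obtain ⟨a, b, h1, h2, h3, h4⟩ := h
  exact ⟨fun i => a (e i), fun i => b (e i), fun i => h1 _, fun i => h2 _, fun i => h3 _,
    fun i j hij => h4 _ _ (e.lt_iff_lt.2 hij)⟩

theorem br_ne {l c : List Bool} {d : ℕ} (h : Br l c d) : c ≠ l := by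
  rintro rfl
  exact h.2.2.2 rfl

/-! ## One side -/

theorem wt_le (r : ℕ) (sep : ℕ → Option ℕ) (t : ℕ) : wt r sep t ≤ r := by
  unfold wt
  refine (Finset.card_filter_le _ _).trans ?_
  rw [Finset.card_range]

open Classical in
theorem side (hWNW : S_WNW) {q κ κ' r r₀ : ℕ} (hq : 1 ≤ q) (hr : r = 16 * q * q * (16 * q + 3))
    (hr₀ : r₀ = 16 * q) (sep : ℕ → Option ℕ) (Ql Qv : ℕ → ℕ) (δ : ℕ → Bool) (X : Bool)
    (G : Finset (Fin κ)) (T : Fin κ → Finset ℕ) (hG : G.card = κ') (hT : ∀ a ∈ G, (T a).card ≤ q)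
    (hml : Monotone Ql) (hmv : Monotone Qv)
    (hsep : ∀ k < r, ∀ s ∈ sep k, Ql k < s ∧ s < Ql (k + 1) ∧ Qv k < s ∧ s < Qv (k + 1))
    (hdis : ∀ i j, i ≤ j → j ≤ r → (∀ k, i ≤ k → k < j → sep k = none) →
      Qv j < Ql i ∨ Ql j < Qv i)
    (hδ : ∀ i ≤ r, (Qv i < Ql i ↔ δ i = X))
    (h0 : ∀ a ∈ G.sigma T, Qv 0 ≤ a.2 ∧ a.2 ≤ Qv r)
    (h1 : ∀ i < r, r * ((G.sigma T).filter (fun a => Qv i < a.2 ∧ a.2 < Qv (i + 1))).card ≤
      (G.sigma T).card)
    (h2 : ∀ i j, i ≤ j → j ≤ r → (i = 0 ∨ Qv (i - 1) < Qv i) → (j = r ∨ Qv j < Qv (j + 1)) →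
      r * ((G.sigma T).filter (fun a => Qv i ≤ a.2 ∧ a.2 ≤ Qv j)).card ≤
        (j - i + 2) * (G.sigma T).card) :
    ∃ GA ⊆ G, 3 * κ' ≤ 4 * GA.card ∧
      (∀ a ∈ GA, ∀ t ∈ T a, Heavy r r₀ sep (wt r sep t) →
        col r r₀ sep Ql δ (fun _ => false) t = X) ∧
      ∀ w, ¬ Heavy r r₀ sep w →
        16 * q * (GA.filter (fun a => ∃ t ∈ T a, wt r sep t = w)).card ≤ κ' := by
  have hr1 : 1 ≤ r := by
    rw [hr]
    exact Nat.succ_le_of_lt (by positivity)
  have hr01 : 1 ≤ r₀ := by omega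
  obtain ⟨w1, w2⟩ := hWNW r r₀ sep Ql Qv δ (fun _ => false) X (Σ _ : Fin κ, ℕ) (G.sigma T)
    (fun a => a.2) hr1 hr01 hml hmv hsep hdis hδ h0 h1 h2
  have hS : (G.sigma T).card ≤ q * κ' := by
    rw [Finset.card_sigma, ← hG, mul_comm q]
    exact Finset.sum_le_card_nsmul _ _ _ hT
  set Bad := (G.sigma T).filter (fun a => Heavy r r₀ sep (wt r sep a.2) ∧
      col r r₀ sep Ql δ (fun _ => false) a.2 ≠ X) with hBad
  have hset : {a | a ∈ G.sigma T ∧ Heavy r r₀ sep (wt r sep a.2) ∧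
      col r r₀ sep Ql δ (fun _ => false) a.2 ≠ X} = (Bad : Set (Σ _ : Fin κ, ℕ)) := by
    ext a
    rw [Set.mem_ofPred_eq, hBad, Finset.mem_coe, Finset.mem_filter]
  rw [hset, Set.ncard_coe_finset] at w1
  set sp := G.filter (fun a => ∃ t ∈ T a, Heavy r r₀ sep (wt r sep t) ∧
      col r r₀ sep Ql δ (fun _ => false) t ≠ X) with hsp
  have hspc : sp.card ≤ Bad.card := by
    have h3 : sp ⊆ Bad.image (fun a => a.1) := by
      intro a ha
      rw [hsp, Finset.mem_filter] at ha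
      obtain ⟨ha, t, ht, h4⟩ := ha
      rw [Finset.mem_image]
      exact ⟨⟨a, t⟩, Finset.mem_filter.2 ⟨Finset.mem_sigma.2 ⟨ha, ht⟩, h4⟩, rfl⟩
    exact (Finset.card_le_card h3).trans Finset.card_image_le
  have hz : 4 * sp.card ≤ κ' := by
    have h3 : (r * q) * (4 * (4 * sp.card)) ≤ (r * q) * (4 * κ') := by
      calc (r * q) * (4 * (4 * sp.card)) = r * (16 * q) * sp.card := by ring
        _ ≤ r * r₀ * Bad.card := by
          rw [hr₀]
          exact Nat.mul_le_mul_left _ hspc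
        _ ≤ 2 * (r + 1) * (G.sigma T).card := w1
        _ ≤ 2 * (r + r) * (q * κ') := by
          apply Nat.mul_le_mul _ hS
          omega
        _ = _ := by ring
    have h4 := Nat.le_of_mul_le_mul_left h3 (by positivity)
    omega
  refine ⟨G \ sp, Finset.sdiff_subset, ?_, ?_, ?_⟩
  · have h3 := Finset.card_sdiff_add_card_eq_card (show sp ⊆ G from Finset.filter_subset _ G)
    omega
  · intro a ha t ht hh
    rw [Finset.mem_sdiff] at ha
    by_contra hne
    exact ha.2 (Finset.mem_filter.2 ⟨ha.1, t, ht, hh, hne⟩)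
  · intro w hw
    have h3 := w2 w hw
    have h4 : ((G \ sp).filter (fun a => ∃ t ∈ T a, wt r sep t = w)).card ≤
        ((G.sigma T).filter (fun a => wt r sep a.2 = w)).card := by
      have h5 : ((G \ sp).filter (fun a => ∃ t ∈ T a, wt r sep t = w)) ⊆
          ((G.sigma T).filter (fun a => wt r sep a.2 = w)).image (fun a => a.1) := by
        intro a ha
        rw [Finset.mem_filter, Finset.mem_sdiff] at ha
        obtain ⟨⟨ha, -⟩, t, ht, h6⟩ := ha
        rw [Finset.mem_image]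
        exact ⟨⟨a, t⟩, Finset.mem_filter.2 ⟨Finset.mem_sigma.2 ⟨ha, ht⟩, h6⟩, rfl⟩
      exact (Finset.card_le_card h5).trans Finset.card_image_le
    have h5 : (q * (16 * q + 3)) *
        (16 * q * ((G \ sp).filter (fun a => ∃ t ∈ T a, wt r sep t = w)).card) ≤
        (q * (16 * q + 3)) * κ' := by
      calc (q * (16 * q + 3)) *
          (16 * q * ((G \ sp).filter (fun a => ∃ t ∈ T a, wt r sep t = w)).card)
          = r * ((G \ sp).filter (fun a => ∃ t ∈ T a, wt r sep t = w)).card := by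
            rw [hr]
            ring
        _ ≤ r * ((G.sigma T).filter (fun a => wt r sep a.2 = w)).card :=
          Nat.mul_le_mul_left _ h4
        _ ≤ (r₀ + 3) * (G.sigma T).card := h3
        _ ≤ (16 * q + 3) * (q * κ') := by
          rw [hr₀]
          exact Nat.mul_le_mul_left _ hS
        _ = _ := by ring
    exact Nat.le_of_mul_le_mul_left h5 (by positivity)

open Classical in
/-- The light windows of the times in `T`. -/
noncomputable def lw (r r₀ : ℕ) (sep : ℕ → Option ℕ) (T : Finset ℕ) : Finset (Fin (r + 1)) :=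
  Finset.univ.filter (fun w : Fin (r + 1) =>
    ¬ Heavy r r₀ sep (w : ℕ) ∧ ∃ t ∈ T, wt r sep t = (w : ℕ))

theorem lw_card (r r₀ : ℕ) (sep : ℕ → Option ℕ) (T : Finset ℕ) :
    (lw r r₀ sep T).card ≤ T.card := by
  classical
  calc (lw r r₀ sep T).card ≤ (T.image (wt r sep)).card := by
        apply Finset.card_le_card_of_injOn Fin.val
        · intro w hw
          have hw' : w ∈ lw r r₀ sep T := hw
          rw [lw, Finset.mem_filter] at hw'
          obtain ⟨-, -, t, ht, h⟩ := hw'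
          exact Finset.mem_coe.2 (Finset.mem_image.2 ⟨t, ht, h⟩)
        · intro a _ b _ hab
          exact Fin.ext hab
    _ ≤ T.card := Finset.card_image_le

/-- The colours of all windows. -/
def ex (r : ℕ) (β : Fin (r + 1) → Bool) (w : ℕ) : Bool :=
  if hw : w < r + 1 then β ⟨w, hw⟩ else false

theorem fin_side {r r₀ : ℕ} {sep : ℕ → Option ℕ} {Ql : ℕ → ℕ} {δ : ℕ → Bool}
    {β : Fin (r + 1) → Bool} {X : Bool} {T : Finset ℕ}
    (h1 : ∀ t ∈ T, Heavy r r₀ sep (wt r sep t) → col r r₀ sep Ql δ (fun _ => false) t = X)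
    (h2 : ∀ w ∈ lw r r₀ sep T, β w = X) (t : ℕ) (ht : t ∈ T) :
    col r r₀ sep Ql δ (ex r β) t = X := by
  classical
  by_cases hh : Heavy r r₀ sep (wt r sep t)
  · rw [← h1 t ht hh]
    unfold col
    rw [if_pos hh, if_pos hh]
  · unfold col
    rw [if_neg hh]
    have h3 : wt r sep t < r + 1 := Nat.lt_succ_of_le (wt_le r sep t)
    unfold ex
    rw [dif_pos h3]
    apply h2
    rw [lw, Finset.mem_filter]
    exact ⟨Finset.mem_univ _, hh, t, ht, rfl⟩

end PIL

open PIL in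
theorem t_PIL (hCMB : S_CMB) (hQNT : S_QNT) (hWNW : S_WNW) (hPHC : S_PHC) (hRND : S_RND) :
    S_PIL := by
  classical
  intro q hq
  obtain ⟨r, hr⟩ : ∃ r, r = 16 * q * q * (16 * q + 3) := ⟨_, rfl⟩
  obtain ⟨r₀, hr₀⟩ : ∃ r₀, r₀ = 16 * q := ⟨_, rfl⟩
  have hr1 : 1 ≤ r := by
    rw [hr]
    exact Nat.succ_le_of_lt (by positivity)
  obtain ⟨c₁, hc₁, hC⟩ := hCMB r
  have h4q : 1 ≤ 4 ^ (q + 1) := Nat.one_le_pow _ _ (by norm_num)
  refine ⟨2 * r + 1, c₁ * 4 ^ (q + 1), 2 * 4 ^ (q + 1), ?_, ?_, ?_⟩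
  · exact Nat.one_le_iff_ne_zero.2 (by positivity)
  · exact Nat.one_le_iff_ne_zero.2 (by positivity)
  intro h κ m tests hκ hcm hdj hbad
  set K := (lv h).sup (Encodable.encode : List Bool → ℕ) + 1 with hK
  have hcode : ∀ v ∈ lv h, Encodable.encode v < K := fun v hv =>
    Nat.lt_succ_of_le (Finset.le_sup (f := (Encodable.encode : List Bool → ℕ)) hv)
  set U := (lv h).filter (fun v =>
      κ ≤ 2 * (Finset.univ.filter (fun a => (tests v a).card ≤ q)).card) with hU
  have hUc : 2 ^ h ≤ 2 * U.card := countU h κ q hκ tests hbad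
  obtain ⟨κ', hκ'⟩ : ∃ κ', κ' = (κ + 1) / 2 := ⟨_, rfl⟩
  have hκ'1 : 1 ≤ κ' := by omega
  have hGex : ∀ v, ∃ G : Finset (Fin κ), v ∈ U → G.card = κ' ∧ ∀ a ∈ G, (tests v a).card ≤ q := by
    intro v
    by_cases hv : v ∈ U
    · have h1 : κ ≤ 2 * (Finset.univ.filter (fun a => (tests v a).card ≤ q)).card :=
        (Finset.mem_filter.1 hv).2
      obtain ⟨G, hG1, hG2⟩ := Finset.exists_subset_card_eq
        (show κ' ≤ (Finset.univ.filter (fun a => (tests v a).card ≤ q)).card by omega)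
      exact ⟨G, fun _ => ⟨hG2, fun a ha => (Finset.mem_filter.1 (hG1 ha)).2⟩⟩
    · exact ⟨∅, fun h => absurd h hv⟩
  choose G hG using hGex
  set T : List Bool → Fin κ → Finset ℕ := fun v a => tm K v (tests v a) with hT
  have hQex : ∀ v, ∃ Q : ℕ → ℕ, Monotone Q ∧ (v ∈ U →
      (∀ i, ∃ a ∈ (G v).sigma (T v), Q i = a.2) ∧
      (∀ a ∈ (G v).sigma (T v), Q 0 ≤ a.2 ∧ a.2 ≤ Q r) ∧
      (∀ i < r, r * (((G v).sigma (T v)).filter (fun a => Q i < a.2 ∧ a.2 < Q (i + 1))).card ≤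
        ((G v).sigma (T v)).card) ∧
      ∀ i j, i ≤ j → j ≤ r → (i = 0 ∨ Q (i - 1) < Q i) → (j = r ∨ Q j < Q (j + 1)) →
        r * (((G v).sigma (T v)).filter (fun a => Q i ≤ a.2 ∧ a.2 ≤ Q j)).card ≤
          (j - i + 2) * ((G v).sigma (T v)).card) := by
    intro v
    by_cases hv : v ∈ U
    · obtain ⟨h1, h2⟩ := hG v hv
      have h3 : (G v).Nonempty := by
        rw [← Finset.card_pos, h1]
        exact hκ'1
      obtain ⟨a, ha⟩ := h3
      obtain ⟨t, ht⟩ := tm_ne K v (tests v a)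
      have h4 : ((G v).sigma (T v)).Nonempty := ⟨⟨a, t⟩, Finset.mem_sigma.2 ⟨ha, ht⟩⟩
      obtain ⟨Q, h5, h6, h7, h8, h9⟩ := hQNT (Σ _ : Fin κ, ℕ) ((G v).sigma (T v))
        (fun a => a.2) r h4 hr1
      exact ⟨Q, h5, fun _ => ⟨h6, h7, h8, h9⟩⟩
    · exact ⟨fun _ => 0, monotone_const, fun h => absurd h hv⟩
  choose Q hQm hQ using hQex
  have hUlv : ∀ v ∈ U, v ∈ lv h := fun v hv => (Finset.mem_filter.1 hv).1
  have hne : ∀ v ∈ U, ∀ w ∈ U, v ≠ w → ∀ i j, i ≤ r → j ≤ r → Q v i ≠ Q w j := by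
    intro v hv w hw hvw i j _ _ heq
    obtain ⟨a, ha, h1⟩ := (hQ v hv).1 i
    obtain ⟨b, hb, h2⟩ := (hQ w hw).1 j
    have h3 : a.2 = b.2 := by rw [← h1, ← h2, heq]
    have h4 := (Finset.mem_sigma.1 ha).2
    have h5 := (Finset.mem_sigma.1 hb).2
    rw [← h3] at h5
    exact tm_disj (hcode v (hUlv v hv)) (hcode w (hUlv w hw)) hvw
      (hdj v (hUlv v hv) w (hUlv w hw) a.1 b.1 (fun h6 => hvw (congrArg Prod.fst h6))) h4 h5
  have hcm' : c₁ * (4 ^ (q + 1) * m + 1) ≤ h := by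
    refine le_trans ?_ hcm
    calc c₁ * (4 ^ (q + 1) * m + 1) ≤ c₁ * (4 ^ (q + 1) * m + 4 ^ (q + 1)) := by
          apply Nat.mul_le_mul_left
          omega
      _ = _ := by ring
  obtain ⟨U', hU'U, hSpl, l, hl, δ, A', B', hcomb, hAB⟩ := hC h (4 ^ (q + 1) * m) U Q hcm'
    (fun v hv => len_lv (hUlv v hv)) hUc (fun v _ => hQm v) hne
  -- the separators
  set sep : ℕ → Option ℕ := fun k =>
    if hk : k < r ∧ ∃ s, Sep U' Q k s then some hk.2.choose else none with hsepd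
  have hsep1 : ∀ k < r, ∀ s ∈ sep k, Sep U' Q k s := by
    intro k _ s hs
    rw [hsepd] at hs
    by_cases hk : k < r ∧ ∃ s, Sep U' Q k s
    · simp only [dif_pos hk, Option.mem_def, Option.some.injEq] at hs
      rw [← hs]
      exact hk.2.choose_spec
    · simp only [dif_neg hk, Option.mem_def, reduceCtorEq] at hs
  have hsep2 : ∀ k < r, sep k = none → ∀ s, ¬ Sep U' Q k s := by
    intro k hk hn s hs
    rw [hsepd] at hn
    have h1 : k < r ∧ ∃ s, Sep U' Q k s := ⟨hk, s, hs⟩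
    simp only [dif_pos h1, reduceCtorEq] at hn
  have hAne : ∀ t, A' t ≠ l := by
    obtain ⟨a, b, h1, h2, h3, h4⟩ := hcomb
    exact fun t => br_ne (h1 t)
  have hBne : ∀ t, B' t ≠ l := by
    obtain ⟨a, b, h1, h2, h3, h4⟩ := hcomb
    exact fun t => br_ne (h2 t)
  have hone : ∀ v ∈ U', v ≠ l → ∀ X : Bool, (∀ i ≤ r, (Q v i < Q l i ↔ δ i = X)) →
      ∃ GA ⊆ G v, 3 * κ' ≤ 4 * GA.card ∧
      (∀ a ∈ GA, ∀ t ∈ T v a, Heavy r r₀ sep (wt r sep t) →
        col r r₀ sep (Q l) δ (fun _ => false) t = X) ∧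
      ∀ w, ¬ Heavy r r₀ sep w →
        16 * q * (GA.filter (fun a => ∃ t ∈ T v a, wt r sep t = w)).card ≤ κ' := by
    intro v hv hvl X hX
    obtain ⟨h1, h2, h3, h4⟩ := hQ v (hU'U hv)
    obtain ⟨h5, h6⟩ := hG v (hU'U hv)
    refine side hWNW hq hr hr₀ sep (Q l) (Q v) δ X (G v) (T v) h5
      (fun a ha => tm_card hq (h6 a ha)) (hQm l) (hQm v) ?_ ?_ hX h2 h3 h4
    · intro k hk s hs
      have h7 := hsep1 k hk s hs
      exact ⟨(h7 l hl).1, (h7 l hl).2, (h7 v hv).1, (h7 v hv).2⟩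
    · intro i j hij hj hn
      rcases hSpl i j hij hj with h7 | ⟨k, s, h7, h8, h9⟩
      · exact h7 v hv l hl hvl
      · exact absurd h9 (hsep2 k (lt_of_lt_of_le h8 hj) (hn k h7 h8) s)
  have hA := fun t => hone (A' t) (hAB t).1 (hAne t) true (fun i hi => ((hAB t).2.2 i hi).1)
  have hB := fun t => hone (B' t) (hAB t).2.1 (hBne t) false (fun i hi => by
    have h1 := ((hAB t).2.2 i hi).2
    have h2 := hne l (hU'U hl) (B' t) (hU'U (hAB t).2.1) (hBne t).symm i i hi hi
    rcases hd : δ i with _ | _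
    · rw [hd] at h1
      simp only [Bool.false_eq_true, iff_false, not_lt] at h1
      simp only [iff_true]
      omega
    · rw [hd] at h1
      simp only [iff_true] at h1
      simp only [Bool.true_eq_false, iff_false, not_lt]
      omega)
  choose GA hGA1 hGA2 hGA3 hGA4 using hA
  choose GB hGB1 hGB2 hGB3 hGB4 using hB
  obtain ⟨β, TT, hTT, hβ⟩ := hRND q (4 ^ (q + 1) * m) (r + 1) κ' (Fin κ) GA GB
    (fun t a => lw r r₀ sep (T (A' t) a)) (fun t a => lw r r₀ sep (T (B' t) a)) hq hκ'1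
    (fun t => ⟨hGA2 t, by
      rw [← (hG (A' t) (hU'U (hAB t).1)).1]
      exact Finset.card_le_card (hGA1 t)⟩)
    (fun t => ⟨hGB2 t, by
      rw [← (hG (B' t) (hU'U (hAB t).2.1)).1]
      exact Finset.card_le_card (hGB1 t)⟩)
    (fun t a ha => (lw_card r r₀ sep _).trans
      (tm_card hq ((hG (A' t) (hU'U (hAB t).1)).2 a (hGA1 t ha))))
    (fun t a ha => (lw_card r r₀ sep _).trans
      (tm_card hq ((hG (B' t) (hU'U (hAB t).2.1)).2 a (hGB1 t ha))))
    (fun t w => by
      by_cases hw : Heavy r r₀ sep (w : ℕ)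
      · have h1 : (GB t).filter (fun a => w ∈ lw r r₀ sep (T (B' t) a)) = ∅ := by
          rw [Finset.filter_eq_empty_iff]
          intro a _ h2
          rw [lw, Finset.mem_filter] at h2
          exact h2.2.1 hw
        rw [h1, Finset.card_empty]
        exact Nat.zero_le _
      · refine le_trans ?_ (hGB4 t w hw)
        apply Nat.mul_le_mul_left
        apply Finset.card_le_card
        intro a ha
        rw [Finset.mem_filter] at ha ⊢
        refine ⟨ha.1, ?_⟩
        have h2 := ha.2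
        rw [lw, Finset.mem_filter] at h2
        exact h2.2.2)
  have hm : m ≤ TT.card := by
    have h1 : 4 ^ (q + 1) * m ≤ 4 ^ (q + 1) * TT.card := hTT
    exact Nat.le_of_mul_le_mul_left h1 h4q
  obtain ⟨TM, hTM1, hTM2⟩ := Finset.exists_subset_card_eq hm
  set e : Fin m ↪o Fin (4 ^ (q + 1) * m) := TM.orderEmbOfFin hTM2 with he
  have heT : ∀ t, e t ∈ TT := fun t => hTM1 (Finset.orderEmbOfFin_mem TM hTM2 t)
  obtain ⟨hcut, hph⟩ := hPHC r r₀ sep (Q l) δ (ex r β) (hQm l) (fun k hk s hs =>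
    hsep1 k hk s hs l hl)
  obtain ⟨χ, hχ⟩ : ∃ χ : ℕ → Bool, ∀ t, χ (ph (cut r sep (Q l)) t) =
      col r r₀ sep (Q l) δ (ex r β) t := by
    refine ⟨fun n => if hn : ∃ t, ph (cut r sep (Q l)) t = n then
      col r r₀ sep (Q l) δ (ex r β) hn.choose else false, fun t => ?_⟩
    have hn : ∃ t', ph (cut r sep (Q l)) t' = ph (cut r sep (Q l)) t := ⟨t, rfl⟩
    simp only [dif_pos hn]
    exact hph _ _ hn.choose_spec
  have hshift : ∀ s, ph (fun j => cut r sep (Q l) j - K) s = ph (cut r sep (Q l)) (s + K) := by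
    intro s
    unfold ph
    congr 1
    apply Finset.filter_congr
    intro j _
    exact Nat.sub_le_iff_le_add
  refine ⟨fun j => cut r sep (Q l) j - K, χ, l, fun t => A' (e t), fun t => B' (e t),
    fun t => (GA (e t)).filter (fun a => ∀ w ∈ lw r r₀ sep (T (A' (e t)) a), β w = true),
    fun t => (GB (e t)).filter (fun a => ∀ w ∈ lw r r₀ sep (T (B' (e t)) a), β w = false),
    ?_, hUlv l (hU'U hl), comb_sub hcomb e, ?_⟩
  · intro i j hij
    exact Nat.sub_le_sub_right (hcut hij) K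
  · intro t
    obtain ⟨h1, h2⟩ := hβ (e t) (heT t)
    refine ⟨?_, ?_, ?_, ?_⟩
    · calc κ ≤ 2 * κ' := by omega
        _ ≤ 2 * (4 ^ (q + 1) * _) := Nat.mul_le_mul_left _ h1
        _ = _ := by ring
    · calc κ ≤ 2 * κ' := by omega
        _ ≤ 2 * (4 ^ (q + 1) * _) := Nat.mul_le_mul_left _ h2
        _ = _ := by ring
    · intro a ha s hs
      rw [Finset.mem_filter] at ha
      rw [hshift, hχ]
      exact fin_side (hGA3 (e t) a ha.1) ha.2 (s + K) (tm_mem hs)
    · intro a ha s hs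
      rw [Finset.mem_filter] at ha
      rw [hshift, hχ]
      exact fin_side (hGB3 (e t) a ha.1) ha.2 (s + K) (tm_mem hs)

end Pool.Agent.RLT
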