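import Pool.Agent.RLT.St2

/-!
# RLT, module QNT: quantiles
-/

set_option autoImplicit false

namespace Pool.Agent.RLT

namespace QNT

variable {γ : Type} (S : Finset γ) (τ : γ → ℕ)

/-- The number of the elements with value at most `t`. -/
def F (t : ℕ) : ℕ := (S.filter (fun a => τ a ≤ t)).card

/-- The number of the elements with value smaller than `t`. -/
def G (t : ℕ) : ℕ := (S.filter (fun a => τ a < t)).card

theorem F_le (t : ℕ) : F S τ t ≤ S.card := Finset.card_filter_le _ _

theorem F_le_G {t t' : ℕ} (h : t < t') : F S τ t ≤ G S τ t' := by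
  refine Finset.card_le_card fun a ha => ?_
  rw [Finset.mem_filter] at ha ⊢
  exact ⟨ha.1, lt_of_le_of_lt ha.2 h⟩

/-- A quantile. -/
theorem exists_quantile (p : ℕ) (hp : p < S.card) :
    ∃ t, (∃ a ∈ S, t = τ a) ∧ p + 1 ≤ F S τ t ∧ G S τ t ≤ p := by
  classical
  have hex : ∃ t, p + 1 ≤ F S τ t := by
    refine ⟨S.sup τ, ?_⟩
    have h1 : F S τ (S.sup τ) = S.card := by
      unfold F
      congr 1
      exact Finset.filter_true_of_mem fun a ha => Finset.le_sup ha
    omega
  have h1 := Nat.find_spec hex
  have h2 : G S τ (Nat.find hex) ≤ p := by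
    rcases Nat.eq_zero_or_pos (Nat.find hex) with h0 | h0
    · rw [h0]
      have : G S τ 0 = 0 := by
        unfold G
        rw [Finset.card_eq_zero]
        exact Finset.filter_false_of_mem fun a _ => Nat.not_lt_zero _
      omega
    · have h3 := Nat.find_min hex (m := Nat.find hex - 1) (by omega)
      have h4 : G S τ (Nat.find hex) ≤ F S τ (Nat.find hex - 1) := by
        refine Finset.card_le_card fun a ha => ?_
        rw [Finset.mem_filter] at ha ⊢
        exact ⟨ha.1, by omega⟩
      omega
  refine ⟨Nat.find hex, ?_, h1, h2⟩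
  by_contra hcon
  have h5 : F S τ (Nat.find hex) ≤ G S τ (Nat.find hex) := by
    refine Finset.card_le_card fun a ha => ?_
    rw [Finset.mem_filter] at ha ⊢
    refine ⟨ha.1, lt_of_le_of_ne ha.2 fun h => hcon ⟨a, ha.1, h.symm⟩⟩
  omega

end QNT

open QNT in
/-- QNT -/
theorem t_QNT : S_QNT := by
  classical
  intro γ _ S τ r hS hr
  have hL : 0 < S.card := hS.card_pos
  set L := S.card with hLdef
  -- the positions
  set p : ℕ → ℕ := fun i => min (i * L / r) (L - 1) with hp
  have hpL : ∀ i, p i < S.card := fun i => by
    have : p i ≤ L - 1 := min_le_right _ _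
    omega
  choose Q hQ using fun i => exists_quantile S τ (p i) (hpL i)
  have hQa : ∀ i, ∃ a ∈ S, Q i = τ a := fun i => (hQ i).1
  have hF : ∀ i, p i + 1 ≤ F S τ (Q i) := fun i => (hQ i).2.1
  have hG : ∀ i, G S τ (Q i) ≤ p i := fun i => (hQ i).2.2
  have hpm : Monotone p := by
    intro i j hij
    exact min_le_min (Nat.div_le_div_right (Nat.mul_le_mul_right _ hij)) le_rfl
  have hQm : Monotone Q := by
    intro i j hij
    by_contra hcon
    push Not at hcon
    have h1 := F_le_G S τ hcon
    have h2 := hF j
    have h3 := hG i
    have h4 := hpm hij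
    omega
  have hup : ∀ i, r * p i ≤ i * L := by
    intro i
    calc r * p i ≤ r * (i * L / r) := Nat.mul_le_mul_left _ (min_le_left _ _)
      _ ≤ i * L := Nat.mul_div_le _ _
  have hlow : ∀ i < r, i * L < r * (p i + 1) := by
    intro i hi
    have h1 : p i = i * L / r := by
      apply min_eq_left
      have : i * L / r < L := by
        rw [Nat.div_lt_iff_lt_mul hr, mul_comm L r]
        exact Nat.mul_lt_mul_of_pos_right hi hL
      omega
    rw [h1]
    exact Nat.lt_mul_div_succ _ hr
  have hp0 : p 0 = 0 := by simp [hp]
  have hpr : p r = L - 1 := by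
    simp only [hp]
    rw [Nat.mul_div_cancel_left _ hr]
    omega
  refine ⟨Q, hQm, hQa, ?_, ?_, ?_⟩
  · intro a ha
    constructor
    · by_contra hcon
      push Not at hcon
      have h1 : 0 < G S τ (Q 0) := Finset.card_pos.2 ⟨a, Finset.mem_filter.2 ⟨ha, hcon⟩⟩
      have h2 := hG 0
      omega
    · by_contra hcon
      push Not at hcon
      have h1 : F S τ (Q r) < S.card := by
        apply Finset.card_lt_card
        rw [Finset.ssubset_iff_of_subset (Finset.filter_subset _ _)]
        exact ⟨a, ha, fun h => by
          rw [Finset.mem_filter] at h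
          omega⟩
      have h2 := hF r
      omega
  · intro i hi
    rcases Nat.lt_or_ge (Q i) (Q (i + 1)) with hlt | hge
    · have h1 : (S.filter (fun a => Q i < τ a ∧ τ a < Q (i + 1))).card + F S τ (Q i) ≤
          G S τ (Q (i + 1)) := by
        unfold F G
        rw [← Finset.card_union_of_disjoint]
        · refine Finset.card_le_card fun a ha => ?_
          rw [Finset.mem_union, Finset.mem_filter, Finset.mem_filter] at ha
          rw [Finset.mem_filter]
          rcases ha with ha | ha
          · exact ⟨ha.1, ha.2.2⟩
          · exact ⟨ha.1, by omega⟩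
        · rw [Finset.disjoint_left]
          intro a ha hb
          rw [Finset.mem_filter] at ha hb
          omega
      have h2 := hF i
      have h3 := hG (i + 1)
      have h4 := hup (i + 1)
      have h5 := hlow i hi
      have h6 : (S.filter (fun a => Q i < τ a ∧ τ a < Q (i + 1))).card + (p i + 1) ≤ p (i + 1) := by
        omega
      have h7 := Nat.mul_le_mul_left r h6
      rw [Nat.mul_add] at h7
      have h8 : (i + 1) * L = i * L + L := by ring
      omega
    · have h1 : (S.filter (fun a => Q i < τ a ∧ τ a < Q (i + 1))) = ∅ :=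
        Finset.filter_false_of_mem fun a _ h => by omega
      rw [h1, Finset.card_empty, mul_zero]
      exact Nat.zero_le _
  · intro i j hij hj hi0 hjr
    have h1 : (S.filter (fun a => Q i ≤ τ a ∧ τ a ≤ Q j)).card + G S τ (Q i) ≤ F S τ (Q j) := by
      unfold F G
      have hm := hQm hij
      rw [← Finset.card_union_of_disjoint]
      · refine Finset.card_le_card fun a ha => ?_
        rw [Finset.mem_union, Finset.mem_filter, Finset.mem_filter] at ha
        rw [Finset.mem_filter]
        rcases ha with ha | ha
        · exact ⟨ha.1, ha.2.2⟩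
        · exact ⟨ha.1, by omega⟩
      · rw [Finset.disjoint_left]
        intro a ha hb
        rw [Finset.mem_filter] at ha hb
        omega
    -- the upper end
    have h2 : r * F S τ (Q j) ≤ (j + 1) * L := by
      rcases hjr with h | h
      · rw [h]
        calc r * F S τ (Q r) ≤ r * L := Nat.mul_le_mul_left _ (F_le S τ _)
          _ ≤ (r + 1) * L := Nat.mul_le_mul_right _ (Nat.le_succ _)
      · calc r * F S τ (Q j) ≤ r * p (j + 1) :=
              Nat.mul_le_mul_left _ ((F_le_G S τ h).trans (hG _))
          _ ≤ (j + 1) * L := hup _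
    -- the lower end
    have h3 : i * L ≤ r * G S τ (Q i) + L := by
      rcases hi0 with h | h
      · rw [h, zero_mul]
        exact Nat.zero_le _
      · have hi1 : 1 ≤ i := by
          by_contra hcon
          have : i = 0 := by omega
          subst this
          exact lt_irrefl _ h
        have h4 := hlow (i - 1) (by omega)
        have h5 := Nat.mul_le_mul_left r ((hF (i - 1)).trans (F_le_G S τ h))
        have h6 : i * L = (i - 1) * L + L := by
          obtain ⟨k, rfl⟩ : ∃ k, i = k + 1 := ⟨i - 1, by omega⟩
          rw [Nat.add_sub_cancel]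
          ring
        omega
    have h4 := Nat.mul_le_mul_left r h1
    rw [Nat.mul_add] at h4
    obtain ⟨d, rfl⟩ : ∃ d, j = i + d := ⟨j - i, by omega⟩
    have h5 : (i + d - i + 2) * L = (d + 1) * L + L := by
      rw [Nat.add_sub_cancel_left]
      ring
    have h6 : (i + d + 1) * L = i * L + (d + 1) * L := by ring
    omega

end Pool.Agent.RLT
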