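import Pool.Agent.RLT.St

/-!
# RLT, module RECT: the rectangle lemma
-/

set_option autoImplicit false

namespace Pool.Agent.RLT

open Polynomial

namespace RECT

variable {F : Type} [Field F]

/-- composition of two compositions of squares -/
theorem comp {e : ℕ} {Q : F[X]} (h : SqP e Q) {e' : ℕ} {Q' : F[X]} (h' : SqP e' Q') :
    SqP (e + e') (Q.comp Q') := by
  induction h with
  | base => simpa using h'
  | step e Q c _ ih =>
    have h1 : ((Q + C c) ^ 2).comp Q' = (Q.comp Q' + C c) ^ 2 := by simp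
    have h2 : e + 1 + e' = e + e' + 1 := by ring
    rw [h1, h2]
    exact SqP.step _ _ c ih

/-- preimages of finite sets -/
theorem pre (hFIB : S_FIB) [DecidableEq F] {e : ℕ} {Q : F[X]} (h : SqP e Q) (Θ : Finset F) :
    ∃ S : Finset F, S.card ≤ Θ.card * 2 ^ e ∧ ∀ a, Q.eval a ∈ Θ → a ∈ S := by
  have h1 := (hFIB F e Q h).2.2
  choose s hs1 hs2 using h1
  refine ⟨Θ.biUnion s, ?_, ?_⟩
  · refine Finset.card_biUnion_le_card_mul _ _ _ ?_
    intro c _
    exact hs1 c
  · intro a ha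
    rw [Finset.mem_biUnion]
    exact ⟨_, ha, hs2 _ a rfl⟩

/-- the first step of `cval` -/
theorem cval_succ (t₀ : F) {m : ℕ} (P : Fin (m + 1) → Pr F) (x y : Fin (m + 1) → F) :
    cval t₀ P x y = (P 0).U.eval (((P 0).V.eval ((cval t₀ (Fin.tail P) (Fin.tail x) (Fin.tail y) +
        (P 0).R.eval (x 0)) ^ 2) + (P 0).T.eval (y 0)) ^ 2) := rfl

/-- preimage under the whole step -/
theorem pre_step (hFIB : S_FIB) [DecidableEq F] (p : Pr F) (Θ : Finset F) (r t : F) :
    ∃ S : Finset F, S.card ≤ Θ.card * 2 ^ (p.u + p.v + 2) ∧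
      ∀ q, p.U.eval ((p.V.eval ((q + r) ^ 2) + t) ^ 2) ∈ Θ → q ∈ S := by
  have h1 : SqP (0 + 1) ((X + C r) ^ 2) := SqP.step 0 X r SqP.base
  have h2 := SqP.step _ _ t (comp p.hV h1)
  have h3 := comp p.hU h2
  obtain ⟨S, hS1, hS2⟩ := pre hFIB h3 Θ
  refine ⟨S, ?_, ?_⟩
  · have : p.u + (p.v + (0 + 1) + 1) = p.u + p.v + 2 := by ring
    rwa [this] at hS1
  · intro q hq
    apply hS2
    simpa using hq

/-- the set of the values under `U` and a square -/
theorem pre_top (hFIB : S_FIB) [DecidableEq F] (p : Pr F) (Θ : Finset F) :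
    ∃ S : Finset F, S.card ≤ Θ.card * 2 ^ (p.u + 1) ∧
      ∀ s, p.U.eval (s ^ 2) ∈ Θ → s ∈ S := by
  have h1 : SqP (0 + 1) ((X + C (0 : F)) ^ 2) := SqP.step 0 X 0 SqP.base
  have h3 := comp p.hU h1
  obtain ⟨S, hS1, hS2⟩ := pre hFIB h3 Θ
  refine ⟨S, ?_, ?_⟩
  · simpa using hS1
  · intro q hq
    apply hS2
    simpa using hq

/-- the fibre of the first entry -/
def fib [DecidableEq F] {m : ℕ} (X : Finset (Fin (m + 1) → F)) (a : F) : Finset (Fin m → F) :=
  (X.filter (fun x => x 0 = a)).image Fin.tail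

theorem mem_fib [DecidableEq F] {m : ℕ} {X : Finset (Fin (m + 1) → F)} {a : F}
    {x' : Fin m → F} : x' ∈ fib X a ↔ ∃ x ∈ X, x 0 = a ∧ Fin.tail x = x' := by
  unfold fib
  simp only [Finset.mem_image, Finset.mem_filter]
  constructor
  · rintro ⟨x, ⟨h1, h2⟩, h3⟩
    exact ⟨x, h1, h2, h3⟩
  · rintro ⟨x, h1, h2, h3⟩
    exact ⟨x, ⟨h1, h2⟩, h3⟩

theorem ext_tail {m : ℕ} {x y : Fin (m + 1) → F} (h0 : x 0 = y 0) (h : Fin.tail x = Fin.tail y) :
    x = y := by
  rw [← Fin.cons_self_tail x, ← Fin.cons_self_tail y, h0, h]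

theorem card_fib [DecidableEq F] {m : ℕ} (X : Finset (Fin (m + 1) → F)) (a : F) :
    (fib X a).card = (X.filter (fun x => x 0 = a)).card := by
  unfold fib
  apply Finset.card_image_of_injOn
  intro x hx y hy hxy
  simp only [Finset.coe_filter, Set.mem_setOf_eq] at hx hy
  exact ext_tail (hx.2.trans hy.2.symm) hxy

theorem card_sum [DecidableEq F] {m : ℕ} (X : Finset (Fin (m + 1) → F)) :
    X.card = ∑ a ∈ X.image (fun x => x 0), (fib X a).card := by
  rw [Finset.card_eq_sum_card_image (fun x : Fin (m + 1) → F => x 0) X]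
  exact Finset.sum_congr rfl fun a _ => (card_fib X a).symm

theorem image_fib [DecidableEq F] {m : ℕ} (X : Finset (Fin (m + 1) → F)) (a : F) (i : Fin m) :
    (fib X a).image (fun x => x i) ⊆ X.image (fun x => x i.succ) := by
  intro z hz
  rw [Finset.mem_image] at hz ⊢
  obtain ⟨x', hx', rfl⟩ := hz
  obtain ⟨x, hx, _, rfl⟩ := mem_fib.1 hx'
  exact ⟨x, hx, rfl⟩

theorem image_tail [DecidableEq F] {m : ℕ} (X : Finset (Fin (m + 1) → F)) (i : Fin m) :
    (X.image (Fin.tail (α := fun _ => F))).image (fun x => x i) ⊆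
      X.image (fun x => x i.succ) := by
  intro z hz
  rw [Finset.mem_image] at hz ⊢
  obtain ⟨x', hx', rfl⟩ := hz
  obtain ⟨x, hx, rfl⟩ := Finset.mem_image.1 hx'
  exact ⟨x, hx, rfl⟩

/-- if the first entries of `Y` have more than `2 ^ h` values of `T`, the first entry of `x ∈ X`
is in a small set which depends on the tail of `x` only -/
theorem bad (hFIB : S_FIB) (hALG : S_ALG) [DecidableEq F] (h2 : (2 : F) ≠ 0) (h m : ℕ)
    (P : Fin (m + 1) → Pr F) (t₀ : F) (X Y : Finset (Fin (m + 1) → F))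
    (Θ : (Fin (m + 1) → F) → Finset F)
    (hr : (P 0).r ≤ h) (hv : (P 0).v + 1 ≤ h)
    (hΘ : ∀ x ∈ X, (Θ x).card * 2 ^ ((P 0).u + 1) ≤ 2 ^ h)
    (hXY : ∀ x ∈ X, ∀ y ∈ Y, cval t₀ P x y ∈ Θ x)
    (hT : 2 ^ h < (Y.image (fun y => (P 0).T.eval (y 0))).card) (x' : Fin m → F) :
    ∃ S : Finset F, S.card ≤ 2 ^ (4 * h + 2) ∧ ∀ x ∈ X, Fin.tail x = x' → x 0 ∈ S := by
  obtain ⟨T, hT1, hT2⟩ := Finset.exists_subset_card_eq (Nat.succ_le_of_lt hT)
  have h3 : ∀ τ : F, ∃ y : Fin (m + 1) → F, τ ∈ T → y ∈ Y ∧ (P 0).T.eval (y 0) = τ := by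
    intro τ
    by_cases hτ : τ ∈ T
    · obtain ⟨y, hy, hy2⟩ := Finset.mem_image.1 (hT1 hτ)
      exact ⟨y, fun _ => ⟨hy, hy2⟩⟩
    · exact ⟨fun _ => 0, fun hh => absurd hh hτ⟩
  choose y hy using h3
  let q : F → F := fun τ => cval t₀ (Fin.tail P) x' (Fin.tail (y τ))
  have h4 : ∀ z : F × F, ∃ s : Finset F, s.card ≤ 2 ^ ((P 0).v + 1 + (P 0).r) ∧
      (z.2 - z.1 ≠ 0 → ∀ a, (P 0).V.eval ((q z.1 + (P 0).R.eval a) ^ 2) -
        (P 0).V.eval ((q z.2 + (P 0).R.eval a) ^ 2) = z.2 - z.1 → a ∈ s) := by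
    intro z
    by_cases hz : z.2 - z.1 = 0
    · exact ⟨∅, by simp, fun hh => absurd hz hh⟩
    · obtain ⟨s, hs1, hs2⟩ := hALG F h2 _ _ _ _ (P 0).hV (P 0).hR (q z.1) (q z.2) _ hz
      exact ⟨s, hs1, fun _ => hs2⟩
  choose s hs1 hs2 using h4
  refine ⟨(T ×ˢ T).biUnion s, ?_, ?_⟩
  · have h5 : ((T ×ˢ T).biUnion s).card ≤ (T ×ˢ T).card * 2 ^ ((P 0).v + 1 + (P 0).r) :=
      Finset.card_biUnion_le_card_mul _ _ _ fun z _ => hs1 z
    refine h5.trans ?_
    rw [Finset.card_product, hT2]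
    have h6 : (2 : ℕ) ^ h + 1 ≤ 2 ^ (h + 1) := by
      have : 1 ≤ 2 ^ h := Nat.one_le_two_pow
      rw [pow_succ]; omega
    have h7 : (2 : ℕ) ^ ((P 0).v + 1 + (P 0).r) ≤ 2 ^ (h + h) :=
      Nat.pow_le_pow_right (by norm_num) (by omega)
    calc (2 ^ h).succ * (2 ^ h).succ * 2 ^ ((P 0).v + 1 + (P 0).r)
        ≤ 2 ^ (h + 1) * 2 ^ (h + 1) * 2 ^ (h + h) :=
          Nat.mul_le_mul (Nat.mul_le_mul h6 h6) h7
      _ = 2 ^ (4 * h + 2) := by rw [← pow_add, ← pow_add]; congr 1; ring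
  · intro x hx hxt
    obtain ⟨S, hS1, hS2⟩ := pre_top hFIB (P 0) (Θ x)
    have h5 : ∀ τ ∈ T, (P 0).V.eval ((q τ + (P 0).R.eval (x 0)) ^ 2) + τ ∈ S := by
      intro τ hτ
      apply hS2
      have h6 := hXY x hx (y τ) (hy τ hτ).1
      rw [cval_succ, (hy τ hτ).2, hxt] at h6
      exact h6
    have h6 : S.card < T.card := by
      rw [hT2]
      exact Nat.lt_succ_of_le (hS1.trans (hΘ x hx))
    obtain ⟨τ, hτ, τ', hτ', hne, heq⟩ := Finset.exists_ne_map_eq_of_card_lt_of_maps_to h6 h5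
    rw [Finset.mem_biUnion]
    refine ⟨(τ, τ'), Finset.mem_product.2 ⟨hτ, hτ'⟩, ?_⟩
    apply hs2 (τ, τ')
    · exact sub_ne_zero.2 hne.symm
    · simp only
      linear_combination heq

end RECT

open RECT in
theorem t_RECT (hFIB : S_FIB) (hALG : S_ALG) : S_RECT := by
  intro F _ _ h2 h m
  induction m with
  | zero =>
    intro P t₀ E X Y Θ _ _ _ _ _
    have hX : X.card ≤ 1 := Finset.card_le_one.2 fun a _ b _ => Subsingleton.elim a b
    have hY : Y.card ≤ 1 := Finset.card_le_one.2 fun a _ b _ => Subsingleton.elim a b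
    simpa using Nat.mul_le_mul hX hY
  | succ m ih =>
    intro P t₀ E X Y Θ htr hΘ hXY hEX hEY
    -- trivial cases
    by_cases hXne : X.Nonempty
    swap
    · rw [Finset.not_nonempty_iff_eq_empty] at hXne
      simp [hXne]
    -- numbers
    have hsum : ∑ i, ((P i).u + (P i).v + 2) =
        ((P 0).u + (P 0).v + 2) + ∑ i, ((Fin.tail P i).u + (Fin.tail P i).v + 2) :=
      Fin.sum_univ_succ _
    have hE0 : ∀ (n : ℕ) (hn : n ≤ ∑ i, ((P i).u + (P i).v + 2)), ∀ x ∈ X,
        (Θ x).card * 2 ^ n ≤ 2 ^ h := by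
      intro n hn x hx
      refine le_trans ?_ (hΘ x hx)
      exact Nat.mul_le_mul_left _ (Nat.pow_le_pow_right (by norm_num) hn)
    by_cases hYne : Y.Nonempty
    swap
    · rw [Finset.not_nonempty_iff_eq_empty] at hYne
      simp [hYne]
    obtain ⟨x₀, hx₀⟩ := hXne
    obtain ⟨y₀, hy₀⟩ := hYne
    have hv : (P 0).v + 1 ≤ h := by
      have h3 : 0 < (Θ x₀).card := Finset.card_pos.2 ⟨_, hXY x₀ hx₀ y₀ hy₀⟩
      have h4 := hE0 ((P 0).v + 1) (by rw [hsum]; omega) x₀ hx₀
      have h5 : 2 ^ ((P 0).v + 1) ≤ 2 ^ h := le_trans (Nat.le_mul_of_pos_left _ h3) h4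
      exact (Nat.pow_le_pow_iff_right (by norm_num)).1 h5
    -- the induction hypothesis for a general rectangle
    have key : ∀ (X' Y' : Finset (Fin m → F)) (a : (Fin m → F) → F) (b : F),
        (∀ x' ∈ X', (Fin.cons (a x') x' : Fin (m + 1) → F) ∈ X) →
        (∀ y' ∈ Y', (Fin.cons b y' : Fin (m + 1) → F) ∈ Y) →
        X'.card * Y'.card ≤ (2 ^ (4 * h + 2) * E) ^ m := by
      intro X' Y' a b hX' hY'
      choose S hS1 hS2 using fun x' : Fin m → F =>
        pre_step hFIB (P 0) (Θ (Fin.cons (a x') x')) ((P 0).R.eval (a x')) ((P 0).T.eval b)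
      apply ih (Fin.tail P) t₀ E X' Y' S
      · intro i
        exact htr i.succ
      · intro x' hx'
        refine le_trans (Nat.mul_le_mul_right _ (hS1 x')) ?_
        have := hΘ _ (hX' x' hx')
        rw [hsum, pow_add] at this
        rwa [mul_assoc]
      · intro x' hx' y' hy'
        apply hS2
        have := hXY _ (hX' x' hx') _ (hY' y' hy')
        rw [cval_succ] at this
        simpa using this
      · intro i
        refine le_trans (Finset.card_le_card ?_) (hEX i.succ)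
        intro z hz
        obtain ⟨x', hx', rfl⟩ := Finset.mem_image.1 hz
        exact Finset.mem_image.2 ⟨_, hX' x' hx', by simp⟩
      · intro i
        refine le_trans (Finset.card_le_card ?_) (hEY i.succ)
        intro z hz
        obtain ⟨y', hy', rfl⟩ := Finset.mem_image.1 hz
        exact Finset.mem_image.2 ⟨_, hY' y' hy', by simp⟩
    have hcons : ∀ (Z : Finset (Fin (m + 1) → F)) (b : F) (z' : Fin m → F), z' ∈ fib Z b →
        (Fin.cons b z' : Fin (m + 1) → F) ∈ Z := by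
      intro Z b z' hz'
      obtain ⟨z, hz, hz0, hzt⟩ := mem_fib.1 hz'
      rw [← hz0, ← hzt, Fin.cons_self_tail]
      exact hz
    rcases le_or_gt (Y.image (fun y => (P 0).T.eval (y 0))).card (2 ^ h) with hc | hc
    · -- CASE 1
      have hB : (Y.image (fun y => y 0)).card ≤ 2 ^ (4 * h + 2) := by
        have h3 : ∀ c ∈ (Y.image (fun y => y 0)).image (fun b => (P 0).T.eval b),
            ((Y.image (fun y => y 0)).filter (fun b => (P 0).T.eval b = c)).card ≤ 2 ^ h := by
          intro c _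
          obtain ⟨s, hs1, hs2⟩ := (hFIB F _ _ (P 0).hT).2.2 c
          refine le_trans (Finset.card_le_card ?_)
            (hs1.trans (Nat.pow_le_pow_right (by norm_num) (htr 0).1))
          intro b hb
          exact hs2 b (Finset.mem_filter.1 hb).2
        have h4 := Finset.card_le_mul_card_image _ _ h3
        have h5 : (Y.image (fun y => y 0)).image (fun b => (P 0).T.eval b) =
            Y.image (fun y => (P 0).T.eval (y 0)) := by
          rw [Finset.image_image]; rfl
        rw [h5] at h4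
        refine h4.trans ((Nat.mul_le_mul_left _ hc).trans ?_)
        rw [← pow_add]
        exact Nat.pow_le_pow_right (by norm_num) (by omega)
      rw [card_sum X, card_sum Y, Finset.sum_mul_sum]
      calc ∑ a ∈ X.image (fun x => x 0), ∑ b ∈ Y.image (fun y => y 0),
            (fib X a).card * (fib Y b).card
          ≤ ∑ a ∈ X.image (fun x => x 0), ∑ b ∈ Y.image (fun y => y 0),
            (2 ^ (4 * h + 2) * E) ^ m := by
            refine Finset.sum_le_sum fun a _ => Finset.sum_le_sum fun b _ => ?_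
            exact key _ _ (fun _ => a) b (hcons X a) (hcons Y b)
        _ = (X.image (fun x => x 0)).card * ((Y.image (fun y => y 0)).card *
              (2 ^ (4 * h + 2) * E) ^ m) := by
            simp only [Finset.sum_const, smul_eq_mul]
        _ ≤ E * (2 ^ (4 * h + 2) * (2 ^ (4 * h + 2) * E) ^ m) :=
            Nat.mul_le_mul (hEX 0) (Nat.mul_le_mul_right _ hB)
        _ = (2 ^ (4 * h + 2) * E) ^ (m + 1) := by ring
    · -- CASE 2
      have hX1 : X.card ≤ 2 ^ (4 * h + 2) * (X.image (Fin.tail (α := fun _ => F))).card := by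
        apply Finset.card_le_mul_card_image
        intro x' _
        obtain ⟨S, hS1, hS2⟩ := bad hFIB hALG h2 h m P t₀ X Y Θ (htr 0).2 hv
          (fun x hx => hE0 _ (by rw [hsum]; omega) x hx) hXY hc x'
        refine le_trans ?_ hS1
        apply Finset.card_le_card_of_injOn (fun x => x 0)
        · intro x hx
          have hx := Finset.mem_filter.1 (Finset.mem_coe.1 hx)
          exact hS2 x hx.1 hx.2
        · intro x hx y hy hxy
          have hx := Finset.mem_filter.1 (Finset.mem_coe.1 hx)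
          have hy := Finset.mem_filter.1 (Finset.mem_coe.1 hy)
          exact ext_tail hxy (hx.2.trans hy.2.symm)
      have ha : ∀ x' : Fin m → F, ∃ a : F, x' ∈ X.image (Fin.tail (α := fun _ => F)) →
          (Fin.cons a x' : Fin (m + 1) → F) ∈ X := by
        intro x'
        by_cases hx' : x' ∈ X.image (Fin.tail (α := fun _ => F))
        · obtain ⟨x, hx, hxt⟩ := Finset.mem_image.1 hx'
          refine ⟨x 0, fun _ => ?_⟩
          rw [← hxt, Fin.cons_self_tail]
          exact hx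
        · exact ⟨0, fun hh => absurd hh hx'⟩
      choose a ha using ha
      have h3 : (X.image (Fin.tail (α := fun _ => F))).card * Y.card ≤
          E * (2 ^ (4 * h + 2) * E) ^ m := by
        rw [card_sum Y, Finset.mul_sum]
        calc ∑ b ∈ Y.image (fun y => y 0),
              (X.image (Fin.tail (α := fun _ => F))).card * (fib Y b).card
            ≤ ∑ b ∈ Y.image (fun y => y 0), (2 ^ (4 * h + 2) * E) ^ m :=
              Finset.sum_le_sum fun b _ => key _ _ a b ha (hcons Y b)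
          _ = (Y.image (fun y => y 0)).card * (2 ^ (4 * h + 2) * E) ^ m := by
              simp only [Finset.sum_const, smul_eq_mul]
          _ ≤ E * (2 ^ (4 * h + 2) * E) ^ m := Nat.mul_le_mul_right _ (hEY 0)
      calc X.card * Y.card
          ≤ 2 ^ (4 * h + 2) * (X.image (Fin.tail (α := fun _ => F))).card * Y.card :=
            Nat.mul_le_mul_right _ hX1
        _ = 2 ^ (4 * h + 2) * ((X.image (Fin.tail (α := fun _ => F))).card * Y.card) := by ring
        _ ≤ 2 ^ (4 * h + 2) * (E * (2 ^ (4 * h + 2) * E) ^ m) := Nat.mul_le_mul_left _ h3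
        _ = (2 ^ (4 * h + 2) * E) ^ (m + 1) := by ring

end Pool.Agent.RLT
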