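import Pool.Agent.RLT.St

/-!
# Project RLT: module SPL
-/

set_option autoImplicit false

namespace Pool.Agent.RLT

namespace SPL

/-- hypotheses on the times -/
def Hyp (r : ℕ) (U : Finset (List Bool)) (Q : List Bool → ℕ → ℕ) : Prop :=
  (∀ v ∈ U, Monotone (Q v)) ∧
  ∀ v ∈ U, ∀ w ∈ U, v ≠ w → ∀ i j, i ≤ r → j ≤ r → Q v i ≠ Q w j

/-- the alternative for one pair -/
def Alt (U : Finset (List Bool)) (Q : List Bool → ℕ → ℕ) (i j : ℕ) : Prop :=
  Dis U Q i j ∨ ∃ k s, i ≤ k ∧ k < j ∧ Sep U Q k s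

theorem Hyp.mono {r : ℕ} {U U' : Finset (List Bool)} {Q : List Bool → ℕ → ℕ} (h : Hyp r U Q)
    (hU : U' ⊆ U) : Hyp r U' Q :=
  ⟨fun v hv => h.1 v (hU hv), fun v hv w hw => h.2 v (hU hv) w (hU hw)⟩

theorem Alt.mono {U U' : Finset (List Bool)} {Q : List Bool → ℕ → ℕ} {i j : ℕ}
    (h : Alt U Q i j) (hU : U' ⊆ U) : Alt U' Q i j := by
  rcases h with h | ⟨k, s, h1, h2, h3⟩
  · exact Or.inl fun v hv w hw => h v (hU hv) w (hU hw)
  · exact Or.inr ⟨k, s, h1, h2, fun v hv => h3 v (hU hv)⟩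

theorem one (hDIS : S_DIS) {r c : ℕ} {U : Finset (List Bool)} {Q : List Bool → ℕ → ℕ} {i j : ℕ}
    (hc : 1 ≤ c) (hU : Hyp r U Q) (hij : i ≤ j) (hj : j ≤ r) (hcard : ((r + 2) * c) ^ 2 ≤ U.card) :
    ∃ U' ⊆ U, c ≤ U'.card ∧ Alt U' Q i j := by
  have hi : i ≤ r := hij.trans hj
  have h1 : (r + 1) * c * ((r + 1) * c + 1) ≤ U.card := by
    refine le_trans ?_ hcard
    have h2 : (r + 1) * c ≤ (r + 2) * c := Nat.mul_le_mul_right c (by omega)
    have h3 : (r + 1) * c + 1 ≤ (r + 2) * c := by nlinarith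
    calc (r + 1) * c * ((r + 1) * c + 1) ≤ ((r + 2) * c) * ((r + 2) * c) := Nat.mul_le_mul h2 h3
      _ = ((r + 2) * c) ^ 2 := by ring
  have h4 : c ≤ (r + 1) * c := by nlinarith
  rcases hDIS U (fun v => Q v i) (fun v => Q v j) ((r + 1) * c) (fun v hv => hU.1 v hv hij)
    (fun v hv w hw hvw => ⟨hU.2 v hv w hw hvw j i hj hi, hU.2 v hv w hw hvw j j hj hj⟩) h1 with
    ⟨U', hU', hc', w, hw, hwU', hv⟩ | ⟨U', hU', hc', hv⟩
  · -- separation
    let kf : List Bool → ℕ := fun v => Nat.findGreatest (fun k => Q v k < Q w j) j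
    have hkf : ∀ v ∈ U', i ≤ kf v ∧ kf v < j ∧ Q v (kf v) < Q w j ∧ Q w j < Q v (kf v + 1) := by
      intro v hvU'
      obtain ⟨h5, h6⟩ := hv v hvU'
      have h5' : Q v i < Q w j := h5
      have h6' : Q w j < Q v j := h6
      have h7 : i ≤ kf v := Nat.le_findGreatest hij h5'
      have h8 : Q v (kf v) < Q w j :=
        Nat.findGreatest_spec (P := fun k => Q v k < Q w j) hij h5'
      have h9 : kf v ≤ j := Nat.findGreatest_le j
      have h10 : kf v ≠ j := by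
        intro h
        rw [h] at h8
        omega
      have h11 : kf v < j := lt_of_le_of_ne h9 h10
      have h12 : ¬ Q v (kf v + 1) < Q w j :=
        Nat.findGreatest_is_greatest (P := fun k => Q v k < Q w j) (Nat.lt_succ_self _) h11
      have hne : v ≠ w := fun h => hwU' (h ▸ hvU')
      have h13 : Q v (kf v + 1) ≠ Q w j := hU.2 v (hU' hvU') w hw hne _ _ (by omega) hj
      exact ⟨h7, h11, h8, by omega⟩
    have hmaps : ∀ v ∈ U', kf v ∈ Finset.range (r + 1) := by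
      intro v hvU'
      have := (hkf v hvU').2.1
      rw [Finset.mem_range]
      omega
    obtain ⟨k, -, hk⟩ := Finset.exists_le_card_fiber_of_mul_le_card_of_maps_to hmaps
      ⟨0, by simp⟩ (n := c) (by rw [Finset.card_range]; exact hc')
    have hsub : (U'.filter fun v => kf v = k) ⊆ U' := Finset.filter_subset _ _
    have hpos : 0 < (U'.filter fun v => kf v = k).card := by omega
    obtain ⟨v0, hv0⟩ := Finset.card_pos.1 hpos
    obtain ⟨hv1, hv2⟩ := Finset.mem_filter.1 hv0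
    refine ⟨U'.filter fun v => kf v = k, hsub.trans hU', hk,
      Or.inr ⟨k, Q w j, ?_, ?_, ?_⟩⟩
    · rw [← hv2]
      exact (hkf v0 hv1).1
    · rw [← hv2]
      exact (hkf v0 hv1).2.1
    · intro v hvf
      obtain ⟨hv3, hv4⟩ := Finset.mem_filter.1 hvf
      rw [← hv4]
      exact (hkf v hv3).2.2
  · exact ⟨U', hU', h4.trans hc', Or.inl hv⟩

/-- the required numbers of elements -/
def b (r c : ℕ) : ℕ → ℕ
  | 0 => c
  | t + 1 => ((r + 2) * b r c t) ^ 2

theorem b_pos {r c : ℕ} (hc : 1 ≤ c) (t : ℕ) : 1 ≤ b r c t := by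
  induction t with
  | zero => exact hc
  | succ t ih =>
    show 1 ≤ ((r + 2) * b r c t) ^ 2
    exact Nat.one_le_pow _ _ (by positivity)

theorem b_le (r c t : ℕ) : b r c t * (r + 2) ^ 2 ≤ ((r + 2) ^ 2 * c) ^ (2 ^ t) := by
  induction t with
  | zero =>
    show c * (r + 2) ^ 2 ≤ ((r + 2) ^ 2 * c) ^ (2 ^ 0)
    rw [pow_zero, pow_one, mul_comm]
  | succ t ih =>
    show ((r + 2) * b r c t) ^ 2 * (r + 2) ^ 2 ≤ ((r + 2) ^ 2 * c) ^ (2 ^ (t + 1))
    calc ((r + 2) * b r c t) ^ 2 * (r + 2) ^ 2 = (b r c t * (r + 2) ^ 2) ^ 2 := by ring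
      _ ≤ (((r + 2) ^ 2 * c) ^ (2 ^ t)) ^ 2 := Nat.pow_le_pow_left ih 2
      _ = ((r + 2) ^ 2 * c) ^ (2 ^ (t + 1)) := by rw [← pow_mul, pow_succ 2 t]

theorem all (hDIS : S_DIS) {r c : ℕ} {Q : List Bool → ℕ → ℕ} (hc : 1 ≤ c) (L : List (ℕ × ℕ)) :
    ∀ U : Finset (List Bool), Hyp r U Q → b r c L.length ≤ U.card →
      ∃ U' ⊆ U, c ≤ U'.card ∧ ∀ p ∈ L, p.1 ≤ p.2 → p.2 ≤ r → Alt U' Q p.1 p.2 := by
  induction L with
  | nil =>
    intro U _ hcard
    exact ⟨U, subset_rfl, hcard, fun p hp => by simp at hp⟩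
  | cons p L ih =>
    intro U hU hcard
    have hcard' : ((r + 2) * b r c L.length) ^ 2 ≤ U.card := hcard
    by_cases hp : p.1 ≤ p.2 ∧ p.2 ≤ r
    · obtain ⟨U1, hU1, hc1, hA⟩ := one hDIS (b_pos hc _) hU hp.1 hp.2 hcard'
      obtain ⟨U', hU', hc', hB⟩ := ih U1 (hU.mono hU1) hc1
      refine ⟨U', hU'.trans hU1, hc', fun q hq h1 h2 => ?_⟩
      rcases List.mem_cons.1 hq with rfl | hq
      · exact hA.mono hU'
      · exact hB q hq h1 h2
    · have h3 : b r c L.length ≤ U.card := by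
        refine le_trans ?_ hcard'
        have h4 : b r c L.length ≤ (r + 2) * b r c L.length :=
          Nat.le_mul_of_pos_left _ (by omega)
        exact h4.trans (Nat.le_self_pow (by norm_num) _)
      obtain ⟨U', hU', hc', hB⟩ := ih U hU h3
      refine ⟨U', hU', hc', fun q hq h1 h2 => ?_⟩
      rcases List.mem_cons.1 hq with rfl | hq
      · exact absurd ⟨h1, h2⟩ hp
      · exact hB q hq h1 h2

end SPL

open SPL in
theorem t_SPL (hDIS : S_DIS) : S_SPL := by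
  intro r c U Q hc hmono hdist hcard
  have hL : (List.range (r + 1) ×ˢ List.range (r + 1)).length = (r + 1) ^ 2 := by
    rw [List.length_product, List.length_range]
    ring
  have h1 : b r c (List.range (r + 1) ×ˢ List.range (r + 1)).length ≤ U.card := by
    rw [hL]
    refine le_trans ?_ ((b_le r c _).trans hcard)
    exact Nat.le_mul_of_pos_right _ (by positivity)
  obtain ⟨U', hU', hc', hA⟩ := all hDIS hc
    (List.range (r + 1) ×ˢ List.range (r + 1)) U ⟨hmono, hdist⟩ h1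
  refine ⟨U', hU', hc', fun i j hij hj => ?_⟩
  refine hA (i, j) ?_ hij hj
  refine List.pair_mem_product.2 ⟨List.mem_range.2 ?_, List.mem_range.2 ?_⟩
  · omega
  · omega

end Pool.Agent.RLT
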