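import Pool.Agent.RLT.St

/-!
# Module SSH: a large set of leaves contains a subdivided complete binary tree
-/

set_option autoImplicit false

namespace Pool.Agent.RLT

namespace SSH

/-- A node above an embedded tree. -/
theorem emb_mono {U : Finset (List Bool)} {j : ℕ} {u v : List Bool} (huv : u <+: v)
    (h : Emb U j v) : Emb U j u := by
  cases j with
  | zero =>
    obtain ⟨w, hw, hvw⟩ := h
    exact ⟨w, hw, huv.trans hvw⟩
  | succ j =>
    obtain ⟨u', h1, h2, h3⟩ := h
    exact ⟨u', huv.trans h1, h2, h3⟩

open Classical in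
/-- The leaves of `U` below `u`. -/
noncomputable def bel (U : Finset (List Bool)) (u : List Bool) : Finset (List Bool) :=
  U.filter fun v => u <+: v

theorem mem_bel {U : Finset (List Bool)} {u v : List Bool} : v ∈ bel U u ↔ v ∈ U ∧ u <+: v := by
  classical
  unfold bel
  rw [Finset.mem_filter]

theorem card_bel {U : Finset (List Bool)} {u : List Bool} (h : ∀ v ∈ U, u.length < v.length) :
    (bel U u).card ≤ (bel U (u ++ [false])).card + (bel U (u ++ [true])).card := by
  classical
  refine (Finset.card_le_card ?_).trans (Finset.card_union_le _ _)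
  intro v hv
  obtain ⟨h1, w, rfl⟩ := mem_bel.1 hv
  rw [Finset.mem_union, mem_bel, mem_bel]
  have h2 := h _ h1
  cases w with
  | nil => simp at h2
  | cons b w =>
    cases b with
    | false => exact Or.inl ⟨h1, w, by simp⟩
    | true => exact Or.inr ⟨h1, w, by simp⟩

theorem arith1 {P X a b R : ℕ} (h2 : P * (X + 1) < (a + b) * R) (h4 : ¬ P < b * R) :
    P * X < a * R := by
  have h5 : P * (X + 1) = P * X + P := by ring
  have h6 : (a + b) * R = a * R + b * R := by ring
  rw [h5, h6] at h2
  generalize P * X = x at *
  generalize a * R = y at *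
  generalize b * R = z at *
  omega

theorem main {U : Finset (List Bool)} {h X : ℕ} (hX : 1 ≤ X) (hU : ∀ v ∈ U, v.length = h) :
    ∀ (h' : ℕ) (u : List Bool) (j : ℕ), u.length + h' = h →
      X ^ j * (X + 1) ^ h' < (bel U u).card * X ^ h' → Emb U j u := by
  intro h'
  induction h' with
  | zero =>
    intro u j hu hc
    have h1 : (bel U u).card ≤ 1 := by
      rw [Finset.card_le_one]
      intro a ha b hb
      obtain ⟨ha1, ha2⟩ := mem_bel.1 ha
      obtain ⟨hb1, hb2⟩ := mem_bel.1 hb
      have ea : u = a := ha2.eq_of_length (by rw [hU a ha1]; omega)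
      have eb : u = b := hb2.eq_of_length (by rw [hU b hb1]; omega)
      rw [← ea, ← eb]
    cases j with
    | zero =>
      have h2 : 0 < (bel U u).card := by
        rw [pow_zero, pow_zero] at hc
        omega
      obtain ⟨v, hv⟩ := Finset.card_pos.1 h2
      exact ⟨v, (mem_bel.1 hv).1, (mem_bel.1 hv).2⟩
    | succ j =>
      exfalso
      rw [pow_zero, pow_zero, mul_one, mul_one] at hc
      have h2 : 1 ≤ X ^ (j + 1) := Nat.one_le_pow _ _ hX
      omega
  | succ h' ih =>
    intro u j hu hc
    cases j with
    | zero =>
      have h2 : 0 < (bel U u).card := by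
        by_contra h3
        have h4 : (bel U u).card = 0 := by omega
        rw [h4, zero_mul] at hc
        exact absurd hc (Nat.not_lt_zero _)
      obtain ⟨v, hv⟩ := Finset.card_pos.1 h2
      exact ⟨v, (mem_bel.1 hv).1, (mem_bel.1 hv).2⟩
    | succ j =>
      have h1 := card_bel (U := U) (u := u) fun v hv => by rw [hU v hv]; omega
      set a := (bel U (u ++ [false])).card with ha
      set b := (bel U (u ++ [true])).card with hb
      have h2 : X ^ j * (X + 1) ^ h' * (X + 1) < (a + b) * X ^ h' := by
        have h3 : X * (X ^ j * (X + 1) ^ h' * (X + 1)) < X * ((a + b) * X ^ h') := by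
          calc X * (X ^ j * (X + 1) ^ h' * (X + 1)) = X ^ (j + 1) * (X + 1) ^ (h' + 1) := by ring
            _ < (bel U u).card * X ^ (h' + 1) := hc
            _ ≤ (a + b) * X ^ (h' + 1) := Nat.mul_le_mul_right _ h1
            _ = X * ((a + b) * X ^ h') := by ring
        exact lt_of_mul_lt_mul_left h3 (Nat.zero_le _)
      have hl : ∀ c : Bool, (u ++ [c]).length + h' = h := fun c => by
        rw [List.length_append, List.length_singleton]
        omega
      have hp : ∀ c : Bool, u <+: u ++ [c] := fun c => List.prefix_append _ _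
      by_cases h3 : X ^ j * (X + 1) ^ h' < a * X ^ h'
      · by_cases h4 : X ^ j * (X + 1) ^ h' < b * X ^ h'
        · exact ⟨u, List.prefix_rfl, ih _ j (hl false) h3, ih _ j (hl true) h4⟩
        · refine emb_mono (hp false) (ih _ (j + 1) (hl false) ?_)
          have e : X ^ (j + 1) * (X + 1) ^ h' = X ^ j * (X + 1) ^ h' * X := by ring
          rw [e]
          exact arith1 h2 h4
      · refine emb_mono (hp true) (ih _ (j + 1) (hl true) ?_)
        have e : X ^ (j + 1) * (X + 1) ^ h' = X ^ j * (X + 1) ^ h' * X := by ring
        rw [e]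
        rw [add_comm a b] at h2
        exact arith1 h2 h3

end SSH

open SSH in
theorem t_SSH : S_SSH := by
  intro U h j X hX hU hc
  refine main hX hU h [] j (by simp) ?_
  have h1 : bel U [] = U := by
    ext v
    rw [mem_bel]
    exact and_iff_left List.nil_prefix
  rw [h1]
  exact hc

end Pool.Agent.RLT
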