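import Pool.Agent.RLT.St

/-!
# The value of the tree along a comb is a chain
-/

set_option autoImplicit false

namespace Pool.Agent.RLT

open Polynomial

namespace TCH

/-- one join of the path to the base leaf -/
structure J (F : Type) [Field F] where
  v : ℕ
  r : ℕ
  V : F[X]
  R : F[X]
  hV : SqP v V
  hR : SqP r R

/-- the value at the top of a path with joins -/
noncomputable def jv {F : Type} [Field F] (t₀ : F) : List (J F) → List F → F
  | j :: L, z :: zs => j.V.eval ((jv t₀ L zs + j.R.eval z) ^ 2)
  | _, _ => t₀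

/-- the leaves of the list leave the path at increasing depths, at least `n` -/
def Ch (l : List Bool) : ℕ → List (List Bool) → Prop
  | _, [] => True
  | n, c :: cs => ∃ d, n ≤ d ∧ Br l c d ∧ Ch l (d + 1) cs

theorem val_congr {F : Type} [Field F] : ∀ (h : ℕ) (Z Z' : List Bool → F),
    (∀ w, w.length = h → Z w = Z' w) → val h Z = val h Z'
  | 0, _, _, H => H [] rfl
  | h + 1, Z, Z', H => by
    rw [val, val, val_congr h (fun w => Z (false :: w)) (fun w => Z' (false :: w))
      fun w hw => H (false :: w) (by rw [List.length_cons, hw]),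
      val_congr h (fun w => Z (true :: w)) (fun w => Z' (true :: w))
      fun w hw => H (true :: w) (by rw [List.length_cons, hw])]

theorem val_succ {F : Type} [Field F] (h : ℕ) (d : Bool) (Z : List Bool → F) :
    val (h + 1) Z = (val h (fun w => Z (d :: w)) + val h (fun w => Z ((!d) :: w))) ^ 2 := by
  cases d
  · rfl
  · rw [val, add_comm]
    rfl

theorem br_zero {d : Bool} {l' c : List Bool} (h : Br (d :: l') c 0) :
    ∃ c', c = (!d) :: c' ∧ c'.length = l'.length := by
  obtain ⟨h1, -, -, h4⟩ := h
  cases c with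
  | nil => simp at h1
  | cons e c' =>
    refine ⟨c', ?_, by simpa using h1⟩
    have h5 : e ≠ d := by simpa using h4
    have h6 : e = !d := by
      revert h5
      cases e <;> cases d <;> simp
    rw [h6]

theorem br_succ {d : Bool} {l' c : List Bool} {e : ℕ} (h : Br (d :: l') c (e + 1)) :
    ∃ c', c = d :: c' ∧ Br l' c' e := by
  obtain ⟨h1, h2, h3, h4⟩ := h
  cases c with
  | nil => simp at h1
  | cons f c' =>
    rw [List.take_succ_cons, List.take_succ_cons] at h3
    obtain ⟨h5, h6⟩ := List.cons.inj h3
    subst h5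
    refine ⟨c', rfl, by simpa using h1, by simpa using h2, h6, ?_⟩
    simpa using h4

theorem ch_succ {d : Bool} {l' : List Bool} : ∀ (cs : List (List Bool)) (n : ℕ),
    Ch (d :: l') (n + 1) cs → ∃ cs' : List (List Bool), cs = cs'.map (List.cons d) ∧ Ch l' n cs'
  | [], _, _ => ⟨[], rfl, trivial⟩
  | c :: cs, n, h => by
    obtain ⟨e, he, hbr, hch⟩ := h
    obtain ⟨e', rfl⟩ : ∃ e', e = e' + 1 := ⟨e - 1, by omega⟩
    obtain ⟨c', rfl, hc'⟩ := br_succ hbr
    obtain ⟨cs', rfl, hcs'⟩ := ch_succ cs (e' + 1) hch
    exact ⟨c' :: cs', rfl, e', by omega, hc', hcs'⟩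

theorem mem_cons_map {d e : Bool} {w : List Bool} {cs : List (List Bool)}
    (h : e :: w ∈ cs.map (List.cons d)) : e = d ∧ w ∈ cs := by
  obtain ⟨c, hc, hc'⟩ := List.mem_map.1 h
  obtain ⟨rfl, rfl⟩ := List.cons.inj hc'
  exact ⟨rfl, hc⟩

theorem main (hONE : S_ONE) {F : Type} [Field F] : ∀ (h : ℕ) (l : List Bool)
    (cs : List (List Bool)) (ρ : List Bool → F), l.length = h → Ch l 0 cs →
    ∃ (t₀ : F) (L : List (J F)), L.length = cs.length ∧ (L.map fun j => j.v + 1).sum ≤ h ∧
      (∀ j ∈ L, j.r ≤ h) ∧ ∀ Z : List Bool → F,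
        (∀ w, w.length = h → w ∉ cs → Z w = ρ w) → val h Z = jv t₀ L (cs.map Z)
  | 0, l, cs, ρ, hl, hcs => by
    have hl' : l = [] := List.eq_nil_of_length_eq_zero hl
    subst hl'
    cases cs with
    | nil => exact ⟨ρ [], [], rfl, le_rfl, by simp, fun Z hZ => hZ [] rfl (by simp)⟩
    | cons c cs =>
      obtain ⟨e, -, ⟨-, h2, -⟩, -⟩ := hcs
      simp at h2
  | h + 1, l, cs, ρ, hl, hcs => by
    cases l with
    | nil => simp at hl
    | cons d l' =>
    have hl' : l'.length = h := by simpa using hl
    by_cases hA : Ch (d :: l') 1 cs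
    · -- no leaf leaves the path at depth 0
      obtain ⟨cs', rfl, hcs'⟩ := ch_succ cs 0 hA
      obtain ⟨t, L, hL1, hL2, hL3, hL4⟩ := main hONE h l' cs' (fun w => ρ (d :: w)) hl' hcs'
      obtain ⟨k, hk⟩ : ∃ k : F, k = val h fun w => ρ ((!d) :: w) := ⟨_, rfl⟩
      have hval : ∀ Z : List Bool → F,
          (∀ w, w.length = h + 1 → w ∉ cs'.map (List.cons d) → Z w = ρ w) →
          val (h + 1) Z = (jv t L ((cs'.map (List.cons d)).map Z) + k) ^ 2 := by
        intro Z hZ
        rw [val_succ h d]
        have h1 := hL4 (fun w => Z (d :: w)) fun w hw hw' =>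
          hZ (d :: w) (by rw [List.length_cons, hw]) fun hm => hw' (mem_cons_map hm).2
        have h2 : val h (fun w => Z ((!d) :: w)) = k := by
          rw [hk]
          refine val_congr h _ _ fun w hw => hZ ((!d) :: w) (by rw [List.length_cons, hw])
            fun hm => ?_
          have h3 := (mem_cons_map hm).1
          revert h3
          cases d <;> simp
        rw [h1, h2, List.map_map]
        rfl
      cases L with
      | nil =>
        have hcs0 : cs' = [] := by
          apply List.eq_nil_of_length_eq_zero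
          rw [← hL1]
          rfl
        subst hcs0
        exact ⟨(t + k) ^ 2, [], rfl, Nat.zero_le _, by simp, fun Z hZ => hval Z hZ⟩
      | cons j L =>
        cases cs' with
        | nil => simp at hL1
        | cons c cs' =>
        refine ⟨t, ⟨j.v + 1, j.r, (j.V + C k) ^ 2, j.R, SqP.step _ _ _ j.hV, j.hR⟩ :: L,
          by simpa using hL1, ?_, ?_, ?_⟩
        · simp only [List.map_cons, List.sum_cons] at hL2 ⊢
          omega
        · intro j' hj'
          rcases List.mem_cons.1 hj' with rfl | hj'
          · have := hL3 j (List.mem_cons_self ..)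
            show j.r ≤ h + 1
            omega
          · have := hL3 j' (List.mem_cons_of_mem _ hj')
            omega
        · intro Z hZ
          rw [hval Z hZ]
          simp only [List.map_cons, jv, eval_pow, eval_add, eval_C]
    · -- the first leaf leaves the path at depth 0
      cases cs with
      | nil => exact absurd trivial hA
      | cons c cs =>
      obtain ⟨e, he, hbr, hch⟩ := hcs
      have he0 : e = 0 := by
        by_contra he0
        exact hA ⟨e, by omega, hbr, hch⟩
      subst he0
      obtain ⟨c', rfl, hc'⟩ := br_zero hbr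
      obtain ⟨cs', rfl, hcs'⟩ := ch_succ cs 0 hch
      obtain ⟨t, L, hL1, hL2, hL3, hL4⟩ := main hONE h l' cs' (fun w => ρ (d :: w)) hl' hcs'
      obtain ⟨Q, hQ, hQv⟩ := hONE F h c' (fun w => ρ ((!d) :: w)) (by rw [hc', hl'])
      refine ⟨t, ⟨0, h, X, Q, SqP.base, hQ⟩ :: L, by simpa using hL1, ?_, ?_, ?_⟩
      · simp only [List.map_cons, List.sum_cons]
        omega
      · intro j' hj'
        rcases List.mem_cons.1 hj' with rfl | hj'
        · show h ≤ h + 1
          omega
        · have := hL3 j' hj'
          omega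
      · intro Z hZ
        have hne : ∀ w, d :: w ≠ (!d) :: c' := by
          intro w hw
          have h3 := (List.cons.inj hw).1
          revert h3
          cases d <;> simp
        have h1 := hL4 (fun w => Z (d :: w)) fun w hw hw' =>
          hZ (d :: w) (by rw [List.length_cons, hw]) fun hm => by
            rcases List.mem_cons.1 hm with hm | hm
            · exact hne w hm
            · exact hw' (mem_cons_map hm).2
        have h2 : val h (fun w => Z ((!d) :: w)) = Q.eval (Z ((!d) :: c')) := by
          rw [← hQv]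
          refine val_congr h _ _ fun w hw => ?_
          by_cases hwc : w = c'
          · rw [hwc, Function.update_self]
          · rw [Function.update_of_ne hwc]
            refine hZ ((!d) :: w) (by rw [List.length_cons, hw]) fun hm => ?_
            rcases List.mem_cons.1 hm with hm | hm
            · exact hwc (List.cons.inj hm).2
            · have h3 := (mem_cons_map hm).1
              revert h3
              cases d <;> simp
        rw [val_succ h d, h1, h2]
        simp only [List.map_cons, jv, eval_X, List.map_map]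
        rfl

/-- the interleaved list -/
def il {β : Type} : {m : ℕ} → (Fin m → β) → (Fin m → β) → List β
  | 0, _, _ => []
  | _ + 1, f, g => g 0 :: f 0 :: il (Fin.tail f) (Fin.tail g)

theorem il_length {β : Type} : ∀ {m : ℕ} (f g : Fin m → β), (il f g).length = 2 * m
  | 0, _, _ => rfl
  | m + 1, f, g => by
    rw [il, List.length_cons, List.length_cons, il_length (Fin.tail f) (Fin.tail g)]
    ring

theorem il_map {β γ : Type} (Z : β → γ) : ∀ {m : ℕ} (f g : Fin m → β),
    (il f g).map Z = il (fun i => Z (f i)) (fun i => Z (g i))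
  | 0, _, _ => rfl
  | m + 1, f, g => by
    rw [il, List.map_cons, List.map_cons, il_map Z (Fin.tail f) (Fin.tail g)]
    rfl

theorem mem_il {β : Type} : ∀ {m : ℕ} (f g : Fin m → β) (i : Fin m),
    f i ∈ il f g ∧ g i ∈ il f g
  | 0, _, _, i => i.elim0
  | m + 1, f, g, i => by
    rw [il, List.mem_cons, List.mem_cons, List.mem_cons, List.mem_cons]
    refine Fin.cases ?_ (fun i => ?_) i
    · exact ⟨Or.inr (Or.inl rfl), Or.inl rfl⟩
    · obtain ⟨h1, h2⟩ := mem_il (Fin.tail f) (Fin.tail g) i
      exact ⟨Or.inr (Or.inr h1), Or.inr (Or.inr h2)⟩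

theorem ch_il {l : List Bool} : ∀ {m : ℕ} (A B : Fin m → List Bool) (a b : Fin m → ℕ) (n : ℕ),
    (∀ i, Br l (A i) (a i)) → (∀ i, Br l (B i) (b i)) → (∀ i, b i < a i) →
    (∀ i j, i < j → a i < b j) → (∀ i, n ≤ b i) → Ch l n (il A B)
  | 0, _, _, _, _, _, _, _, _, _, _ => trivial
  | m + 1, A, B, a, b, n, hA, hB, hba, hab, hn => by
    refine ⟨b 0, hn 0, hB 0, a 0, hba 0, hA 0, ?_⟩
    exact ch_il (Fin.tail A) (Fin.tail B) (Fin.tail a) (Fin.tail b) (a 0 + 1)
      (fun i => hA i.succ) (fun i => hB i.succ) (fun i => hba i.succ)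
      (fun i j hij => hab i.succ j.succ (Fin.succ_lt_succ_iff.2 hij))
      (fun i => hab 0 i.succ (Fin.succ_pos i))

theorem group {F : Type} [Field F] (t₀ : F) (h : ℕ) : ∀ (m : ℕ) (L : List (J F)),
    L.length = 2 * m → (∀ j ∈ L, j.r ≤ h) →
    ∃ P : Fin m → Pr F, (∑ i, ((P i).u + (P i).v + 2) = (L.map fun j => j.v + 1).sum) ∧
      (∀ i, (P i).t ≤ h ∧ (P i).r ≤ h) ∧
      ∀ x y : Fin m → F, jv t₀ L (il x y) = cval t₀ P x y
  | 0, L, hL, _ => by
    have hL0 : L = [] := List.eq_nil_of_length_eq_zero (by simpa using hL)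
    subst hL0
    exact ⟨fun i => i.elim0, by simp, fun i => i.elim0, fun x y => rfl⟩
  | m + 1, L, hL, hr => by
    match L, hL, hr with
    | [], hL, _ => simp at hL
    | [_], hL, _ =>
      simp only [List.length_cons, List.length_nil] at hL
      omega
    | j₀ :: j₁ :: L, hL, hr =>
      obtain ⟨P, hP1, hP2, hP3⟩ := group t₀ h m L
        (by simp only [List.length_cons] at hL; omega)
        (fun j hj => hr j (List.mem_cons_of_mem _ (List.mem_cons_of_mem _ hj)))
      refine ⟨Fin.cons ⟨j₀.v, j₁.v, j₀.r, j₁.r, j₀.V, j₁.V, j₀.R, j₁.R, j₀.hV, j₁.hV, j₀.hR,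
        j₁.hR⟩ P, ?_, ?_, ?_⟩
      · rw [Fin.sum_univ_succ]
        simp only [Fin.cons_zero, Fin.cons_succ, List.map_cons, List.sum_cons]
        rw [hP1]
        ring
      · intro i
        refine Fin.cases ?_ (fun i => ?_) i
        · simp only [Fin.cons_zero]
          exact ⟨hr j₀ (List.mem_cons_self ..),
            hr j₁ (List.mem_cons_of_mem _ (List.mem_cons_self ..))⟩
        · simp only [Fin.cons_succ]
          exact hP2 i
      · intro x y
        rw [il, jv, jv, cval, hP3]
        simp only [Fin.cons_zero, Fin.tail_cons]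

theorem br_unique {l c : List Bool} {d d' : ℕ} (h : Br l c d) (h' : Br l c d') : d = d' := by
  have key : ∀ {d d' : ℕ}, Br l c d → Br l c d' → ¬ d < d' := by
    rintro d d' ⟨h1, h2, h3, h4⟩ ⟨h1', h2', h3', h4'⟩ hlt
    apply h4
    have h5 := congrArg (fun s : List Bool => s.getD d false) h3'
    simp only [List.getD_eq_getElem?_getD, List.getElem?_take, if_pos hlt] at h5
    rw [List.getD_eq_getElem?_getD, List.getD_eq_getElem?_getD]
    exact h5
  rcases lt_trichotomy d d' with hlt | heq | hlt
  · exact absurd hlt (key h h')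
  · exact heq
  · exact absurd hlt (key h' h)

theorem upd_self {F : Type} {m : ℕ} {A : Fin m → List Bool} (hA : Function.Injective A)
    (x : Fin m → F) (ρ : List Bool → F) (i : Fin m) : upd A x ρ (A i) = x i := by
  have h : ∃ j, A j = A i := ⟨i, rfl⟩
  unfold upd
  rw [dif_pos h]
  exact congrArg x (hA h.choose_spec)

theorem upd_of_ne {F : Type} {m : ℕ} {A : Fin m → List Bool} (x : Fin m → F)
    (ρ : List Bool → F) {w : List Bool} (hw : ∀ i, A i ≠ w) : upd A x ρ w = ρ w := by
  unfold upd
  rw [dif_neg]
  rintro ⟨i, hi⟩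
  exact hw i hi

end TCH

open TCH in
theorem t_TCH (hONE : S_ONE) : S_TCH := by
  intro F _ h m l A B ρ hl hC
  obtain ⟨a, b, hA, hB, hba, hab⟩ := hC
  obtain ⟨t₀, L, hL1, hL2, hL3, hL4⟩ := main hONE h l (il A B) ρ hl
    (ch_il A B a b 0 hA hB hba hab fun _ => Nat.zero_le _)
  rw [il_length] at hL1
  obtain ⟨P, hP1, hP2, hP3⟩ := group t₀ h m L hL1 hL3
  refine ⟨t₀, P, by rw [hP1]; exact hL2, hP2, fun x y => ?_⟩
  have hinjA : Function.Injective A := by
    intro i j hij
    have h1 : a i = a j := br_unique (hA i) (hij ▸ hA j)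
    rcases lt_trichotomy i j with hlt | heq | hlt
    · have := hab i j hlt
      have := hba j
      omega
    · exact heq
    · have := hab j i hlt
      have := hba i
      omega
  have hinjB : Function.Injective B := by
    intro i j hij
    have h1 : b i = b j := br_unique (hB i) (hij ▸ hB j)
    rcases lt_trichotomy i j with hlt | heq | hlt
    · have := hab i j hlt
      have := hba i
      omega
    · exact heq
    · have := hab j i hlt
      have := hba j
      omega
  have hne : ∀ i j, A j ≠ B i := by
    intro i j hij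
    have h1 : b i = a j := br_unique (hB i) (hij ▸ hA j)
    rcases lt_trichotomy i j with hlt | heq | hlt
    · have := hab i j hlt
      have := hba i
      have := hba j
      omega
    · subst heq
      have := hba i
      omega
    · have := hab j i hlt
      omega
  rw [hL4 (upd A x (upd B y ρ)) fun w _ hw => ?_, il_map, ← hP3]
  · congr 2
    · funext i
      exact upd_self hinjA x _ i
    · funext i
      rw [upd_of_ne x _ (hne i), upd_self hinjB]
  · have hw1 : ∀ i, A i ≠ w := by
      rintro i rfl
      exact hw (mem_il A B i).1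
    have hw2 : ∀ i, B i ≠ w := by
      rintro i rfl
      exact hw (mem_il A B i).2
    rw [upd_of_ne x _ hw1, upd_of_ne y _ hw2]

end Pool.Agent.RLT
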