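import Pool.Agent.RLT.St2

/-!
# MP_5e85fc_lc, project RLT: module TRC (computations as sequences)
-/

set_option autoImplicit false

namespace Pool.Agent.RLT

namespace TRC

/-- One more step at the end of a computation. -/
theorem extend {α : Type} {n : ℕ} {P : Prog α n} {w : Fin n → α} {T : ℕ} {σ : ℕ → P.S}
    {lab : ℕ → Option (Fin n × α)} (h : Trace P w T σ lab) (t : P.S) (x : Option (Fin n × α))
    (ht : t ∈ P.step (σ T) x) (hx : ∀ i a, x = some (i, a) → a = w i) :
    Trace P w (T + 1) (Function.update σ (T + 1) t) (Function.update lab T x) := by
  refine ⟨?_, fun k hk => ?_⟩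
  · rw [Function.update_of_ne (by omega)]
    exact h.1
  · rcases Nat.lt_succ_iff_lt_or_eq.1 hk with hk | rfl
    · rw [Function.update_of_ne (by omega), Function.update_of_ne (by omega),
        Function.update_of_ne (by omega)]
      exact h.2 k hk
    · rw [Function.update_self, Function.update_self, Function.update_of_ne (by omega)]
      exact ⟨ht, hx⟩

end TRC

theorem t_TRC : S_TRC := by
  intro α n P w
  refine ⟨?_, ?_⟩
  · intro m s h
    induction h with
    | start =>
      refine ⟨0, fun _ => P.start, fun _ => none, ⟨rfl, fun t ht => absurd ht (Nat.not_lt_zero t)⟩,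
        rfl, ?_⟩
      simp
    | @free m s t _ hst ih =>
      obtain ⟨T, σ, lab, hT, rfl, hm⟩ := ih
      refine ⟨T + 1, Function.update σ (T + 1) t, Function.update lab T none,
        TRC.extend hT t none hst (by simp), Function.update_self _ _ _, ?_⟩
      rw [← hm]
      congr 1
      ext k
      simp only [Set.mem_setOf_eq]
      constructor
      · rintro ⟨h1, h2⟩
        have hk : k ≠ T := by
          rintro rfl
          rw [Function.update_self] at h2
          exact h2 rfl
        rw [Function.update_of_ne hk] at h2
        exact ⟨by omega, h2⟩
      · rintro ⟨h1, h2⟩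
        rw [Function.update_of_ne (by omega)]
        exact ⟨by omega, h2⟩
    | @test m s t i _ hst ih =>
      obtain ⟨T, σ, lab, hT, rfl, hm⟩ := ih
      refine ⟨T + 1, Function.update σ (T + 1) t, Function.update lab T (some (i, w i)),
        TRC.extend hT t _ hst (by
          intro j a h
          have h1 := Option.some.inj h
          rw [Prod.mk.injEq] at h1
          rw [← h1.1, ← h1.2]), Function.update_self _ _ _, ?_⟩
      have hset : {k | k < T + 1 ∧ Function.update lab T (some (i, w i)) k ≠ none} =
          insert T {k | k < T ∧ lab k ≠ none} := by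
        ext k
        simp only [Set.mem_setOf_eq, Set.mem_insert_iff]
        constructor
        · rintro ⟨h1, h2⟩
          by_cases hk : k = T
          · exact Or.inl hk
          · rw [Function.update_of_ne hk] at h2
            exact Or.inr ⟨by omega, h2⟩
        · rintro (rfl | ⟨h1, h2⟩)
          · rw [Function.update_self]
            exact ⟨by omega, by simp⟩
          · rw [Function.update_of_ne (by omega)]
            exact ⟨by omega, h2⟩
      rw [hset, Set.ncard_insert_of_notMem (by simp)
        ((Set.finite_lt_nat T).subset fun k hk => hk.1), hm]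
  · intro T
    induction T with
    | zero =>
      intro σ lab h
      refine ⟨0, ?_⟩
      rw [h.1]
      exact Prog.Reach.start
    | succ T ih =>
      intro σ lab h
      obtain ⟨m, hm⟩ := ih σ lab ⟨h.1, fun t ht => h.2 t (by omega)⟩
      obtain ⟨h1, h2⟩ := h.2 T (by omega)
      rcases hl : lab T with _ | ⟨i, a⟩
      · rw [hl] at h1
        exact ⟨m, hm.free h1⟩
      · have ha := h2 i a hl
        rw [hl, ha] at h1
        exact ⟨m + 1, hm.test i h1⟩

end Pool.Agent.RLT
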