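import Pool.Agent.RLT.St

/-!
# TRL: the rectangle lemma for combs of leaves
-/

set_option autoImplicit false

namespace Pool.Agent.RLT

theorem t_TRL (hRECT : S_RECT) (hTCH : S_TCH) : S_TRL := by
  intro F _ _ h2 h m l A B ρ r E X Y hl hC hXY hX hY
  obtain ⟨t₀, P, hsum, htr, hval⟩ := hTCH F h m l A B ρ hl hC
  refine hRECT F h2 h m P t₀ E X Y (fun _ => {r}) htr ?_ ?_ hX hY
  · intro x _
    rw [Finset.card_singleton, one_mul]
    exact Nat.pow_le_pow_right (by norm_num) hsum
  · intro x hx y hy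
    rw [Finset.mem_singleton, ← hval x y]
    exact hXY x hx y hy

end Pool.Agent.RLT
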