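import Pool.Agent.RLT.St2

/-!
# MP_5e85fc_lc, project RLT: the tests of one comb leaf
-/

set_option autoImplicit false

namespace Pool.Agent.RLT

namespace WNW

theorem wi_succ (sep : ℕ → Option ℕ) (k : ℕ) :
    wi sep (k + 1) = wi sep k + if (sep k).isSome then 1 else 0 := by
  unfold wi
  rw [Finset.range_add_one, Finset.filter_insert]
  split_ifs with h
  · rw [Finset.card_insert_of_notMem (by simp)]
  · rfl

theorem wi_mono (sep : ℕ → Option ℕ) : Monotone (wi sep) :=
  monotone_nat_of_le_succ fun k => by rw [wi_succ]; omega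

theorem none_of_eq (sep : ℕ → Option ℕ) {i j k : ℕ} (hik : i ≤ k) (hkj : k < j)
    (h : wi sep i = wi sep j) : sep k = none := by
  have h1 := wi_mono sep hik
  have h2 : wi sep (k + 1) ≤ wi sep j := wi_mono sep hkj
  have h3 := wi_succ sep k
  rw [← Option.not_isSome_iff_eq_none]
  intro h4
  rw [if_pos h4] at h3
  omega

theorem first_spec {sep : ℕ → Option ℕ} {k w : ℕ} (h : wi sep k = w) :
    wi sep (first sep w) = w ∧ first sep w ≤ k :=
  ⟨Nat.sInf_mem (s := {k | wi sep k = w}) ⟨k, h⟩, Nat.sInf_le h⟩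

/-- the last index of a window -/
def last (r : ℕ) (sep : ℕ → Option ℕ) (w : ℕ) : ℕ := Nat.findGreatest (fun k => wi sep k = w) r

theorem last_spec {r : ℕ} {sep : ℕ → Option ℕ} {k w : ℕ} (hk : k ≤ r) (h : wi sep k = w) :
    wi sep (last r sep w) = w ∧ k ≤ last r sep w ∧ last r sep w ≤ r :=
  ⟨Nat.findGreatest_spec (P := fun k => wi sep k = w) hk h, Nat.le_findGreatest hk h,
    Nat.findGreatest_le r⟩

/-- `k + 1` is the first index of its window if there is a separator at `k` -/
theorem first_succ {sep : ℕ → Option ℕ} {k : ℕ} (h : (sep k).isSome) :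
    first sep (wi sep (k + 1)) = k + 1 := by
  obtain ⟨h1, h2⟩ := first_spec (sep := sep) (k := k + 1) rfl
  by_contra hne
  have h3 : first sep (wi sep (k + 1)) ≤ k := by omega
  have h4 := none_of_eq sep h3 (Nat.lt_succ_self k) h1
  rw [h4] at h
  simp at h

/-- `k` is the last index of its window if there is a separator at `k` -/
theorem last_self {r : ℕ} {sep : ℕ → Option ℕ} {k : ℕ} (hk : k < r) (h : (sep k).isSome) :
    last r sep (wi sep k) = k := by
  obtain ⟨h1, h2, h3⟩ := last_spec (r := r) (sep := sep) (k := k) hk.le rfl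
  by_contra hne
  have h4 : k < last r sep (wi sep k) := by omega
  have h5 := none_of_eq sep le_rfl h4 h1.symm
  rw [h5] at h
  simp at h

/-- separator before the first index -/
theorem some_first {sep : ℕ → Option ℕ} {k w : ℕ} (h : wi sep k = w) (h0 : first sep w ≠ 0) :
    (sep (first sep w - 1)).isSome := by
  obtain ⟨h1, h2⟩ := first_spec h
  by_contra hne
  have h3 := wi_succ sep (first sep w - 1)
  rw [if_neg hne, Nat.sub_add_cancel (by omega), h1, add_zero] at h3
  have h4 := (first_spec (sep := sep) (k := first sep w - 1) (w := w) h3.symm).2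
  omega

/-- separator after the last index -/
theorem some_last {r : ℕ} {sep : ℕ → Option ℕ} {k w : ℕ} (hk : k ≤ r) (h : wi sep k = w)
    (h0 : last r sep w ≠ r) : (sep (last r sep w)).isSome := by
  obtain ⟨h1, h2, h3⟩ := last_spec hk h
  by_contra hne
  have h4 := wi_succ sep (last r sep w)
  rw [if_neg hne, h1, add_zero] at h4
  have h5 := (last_spec (r := r) (sep := sep) (k := last r sep w + 1) (w := w) (by omega) h4).2.1
  omega

section

variable {r : ℕ} {sep : ℕ → Option ℕ} {Qv : ℕ → ℕ}

theorem wt_A (hQ : Monotone Qv) (H : ∀ k < r, ∀ s ∈ sep k, Qv k < s ∧ s < Qv (k + 1))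
    {i j t : ℕ} (hij : i ≤ j) (hj : j ≤ r) (hw : wi sep i = wi sep j)
    (h1 : Qv i ≤ t) (h2 : t ≤ Qv j) : wt r sep t = wi sep i := by
  unfold wt wi
  congr 1
  ext k
  simp only [Finset.mem_filter, Finset.mem_range]
  constructor
  · rintro ⟨hk, hs, hle⟩
    refine ⟨?_, hs⟩
    obtain ⟨s, hs'⟩ := Option.isSome_iff_exists.1 hs
    rw [hs', Option.getD_some] at hle
    obtain ⟨h3, h4⟩ := H k hk s hs'
    by_contra hki
    push Not at hki
    rcases lt_or_ge k j with hkj | hkj
    · have := none_of_eq sep hki hkj hw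
      rw [this] at hs'
      cases hs'
    · have := hQ hkj
      omega
  · rintro ⟨hk, hs⟩
    refine ⟨by omega, hs, ?_⟩
    obtain ⟨s, hs'⟩ := Option.isSome_iff_exists.1 hs
    rw [hs', Option.getD_some]
    obtain ⟨h3, h4⟩ := H k (by omega) s hs'
    have : Qv (k + 1) ≤ Qv i := hQ hk
    omega

theorem wt_B (hQ : Monotone Qv) (H : ∀ k < r, ∀ s ∈ sep k, Qv k < s ∧ s < Qv (k + 1))
    {k t : ℕ} (hk : k < r) (h1 : Qv k < t) (h2 : t < Qv (k + 1)) :
    wt r sep t = wi sep k ∨ wt r sep t = wi sep (k + 1) := by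
  by_cases hc : (sep k).isSome ∧ (sep k).getD 0 ≤ t
  · right
    unfold wt wi
    congr 1
    ext k'
    simp only [Finset.mem_filter, Finset.mem_range]
    constructor
    · rintro ⟨hk', hs, hle⟩
      refine ⟨?_, hs⟩
      obtain ⟨s, hs'⟩ := Option.isSome_iff_exists.1 hs
      rw [hs', Option.getD_some] at hle
      obtain ⟨h3, h4⟩ := H k' hk' s hs'
      by_contra hki
      have : Qv (k + 1) ≤ Qv k' := hQ (by omega)
      omega
    · rintro ⟨hk', hs⟩
      rcases Nat.lt_succ_iff_lt_or_eq.1 hk' with hlt | rfl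
      · refine ⟨by omega, hs, ?_⟩
        obtain ⟨s, hs'⟩ := Option.isSome_iff_exists.1 hs
        rw [hs', Option.getD_some]
        obtain ⟨h3, h4⟩ := H k' (by omega) s hs'
        have : Qv (k' + 1) ≤ Qv k := hQ hlt
        omega
      · exact ⟨hk, hc⟩
  · left
    unfold wt wi
    congr 1
    ext k'
    simp only [Finset.mem_filter, Finset.mem_range]
    constructor
    · rintro ⟨hk', hs, hle⟩
      refine ⟨?_, hs⟩
      by_contra hki
      rcases eq_or_ne k k' with rfl | hne
      · exact hc ⟨hs, hle⟩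
      · obtain ⟨s, hs'⟩ := Option.isSome_iff_exists.1 hs
        rw [hs', Option.getD_some] at hle
        obtain ⟨h3, h4⟩ := H k' hk' s hs'
        have : Qv (k + 1) ≤ Qv k' := hQ (by omega)
        omega
    · rintro ⟨hk', hs⟩
      refine ⟨by omega, hs, ?_⟩
      obtain ⟨s, hs'⟩ := Option.isSome_iff_exists.1 hs
      rw [hs', Option.getD_some]
      obtain ⟨h3, h4⟩ := H k' (by omega) s hs'
      have : Qv (k' + 1) ≤ Qv k := hQ hk'
      omega

theorem cover {t : ℕ} (h0 : Qv 0 ≤ t) (hr : t ≤ Qv r) :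
    (∃ i j, i ≤ j ∧ j ≤ r ∧ wi sep i = wi sep j ∧ Qv i ≤ t ∧ t ≤ Qv j) ∨
    ∃ k < r, (sep k).isSome ∧ Qv k < t ∧ t < Qv (k + 1) := by
  obtain ⟨h1, h2⟩ : Qv (Nat.findGreatest (fun k => Qv k ≤ t) r) ≤ t ∧
      Nat.findGreatest (fun k => Qv k ≤ t) r ≤ r :=
    ⟨Nat.findGreatest_spec (P := fun k => Qv k ≤ t) (Nat.zero_le r) h0, Nat.findGreatest_le r⟩
  have h3 : ∀ k, Nat.findGreatest (fun k => Qv k ≤ t) r < k → k ≤ r → ¬ Qv k ≤ t := fun k hk hkr =>
    Nat.findGreatest_is_greatest (P := fun k => Qv k ≤ t) hk hkr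
  generalize Nat.findGreatest (fun k => Qv k ≤ t) r = k at h1 h2 h3
  rcases h2.eq_or_lt with rfl | hlt
  · exact Or.inl ⟨k, k, le_rfl, le_rfl, rfl, h1, hr⟩
  · have h4 : t < Qv (k + 1) := not_le.1 (h3 (k + 1) (Nat.lt_succ_self k) hlt)
    by_cases hs : (sep k).isSome
    · rcases h1.eq_or_lt with heq | hlt'
      · exact Or.inl ⟨k, k, le_rfl, h2, rfl, h1, heq.ge⟩
      · exact Or.inr ⟨k, hlt, hs, hlt', h4⟩
    · refine Or.inl ⟨k, k + 1, Nat.le_succ k, hlt, ?_, h1, h4.le⟩
      rw [wi_succ, if_neg hs, add_zero]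

/-- the position of a time in its window -/
theorem pos (hQ : Monotone Qv) (H : ∀ k < r, ∀ s ∈ sep k, Qv k < s ∧ s < Qv (k + 1))
    {t : ℕ} (h0 : Qv 0 ≤ t) (hr : t ≤ Qv r) :
    (∃ k ≤ r, wi sep k = wt r sep t) ∧
    ((Qv (first sep (wt r sep t)) ≤ t ∧ t ≤ Qv (last r sep (wt r sep t))) ∨
     (Qv (first sep (wt r sep t) - 1) < t ∧ t < Qv (first sep (wt r sep t))) ∨
     (Qv (last r sep (wt r sep t)) < t ∧ t < Qv (last r sep (wt r sep t) + 1))) := by
  rcases cover (sep := sep) h0 hr with ⟨i, j, hij, hj, hw, h1, h2⟩ | ⟨k, hk, hs, h1, h2⟩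
  · have hwt := wt_A hQ H hij hj hw h1 h2
    rw [hwt]
    refine ⟨⟨i, by omega, rfl⟩, Or.inl ⟨?_, ?_⟩⟩
    · exact (hQ (first_spec (sep := sep) (k := i) rfl).2).trans h1
    · exact h2.trans (hQ (last_spec (r := r) (sep := sep) (k := j) hj hw.symm).2.1)
  · rcases wt_B hQ H hk h1 h2 with hwt | hwt
    · rw [hwt]
      refine ⟨⟨k, by omega, rfl⟩, Or.inr (Or.inr ?_)⟩
      rw [last_self hk hs]
      exact ⟨h1, h2⟩
    · rw [hwt]
      refine ⟨⟨k + 1, by omega, rfl⟩, Or.inr (Or.inl ?_)⟩
      rw [first_succ hs, Nat.add_sub_cancel]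
      exact ⟨h1, h2⟩

theorem heavy_count (r₀ : ℕ) :
    (((Finset.range (r + 1)).image (wi sep)).filter (fun w => r₀ ≤
      ((Finset.range (r + 1)).filter (fun k => wi sep k = w)).card)).card * r₀ ≤ r + 1 := by
  classical
  set W := ((Finset.range (r + 1)).image (wi sep)).filter (fun w => r₀ ≤
      ((Finset.range (r + 1)).filter (fun k => wi sep k = w)).card) with hW
  have h1 : ∑ w ∈ W, ((Finset.range (r + 1)).filter (fun k => wi sep k = w)).card ≤
      (Finset.range (r + 1)).card := by
    rw [← Finset.card_biUnion]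
    · refine Finset.card_le_card ?_
      intro k hk
      obtain ⟨w, -, h2⟩ := Finset.mem_biUnion.1 hk
      exact (Finset.mem_filter.1 h2).1
    · intro w _ w' _ hne
      rw [Function.onFun, Finset.disjoint_left]
      intro k hk hk'
      exact hne ((Finset.mem_filter.1 hk).2.symm.trans (Finset.mem_filter.1 hk').2)
  rw [Finset.card_range] at h1
  refine le_trans ?_ h1
  rw [← smul_eq_mul, ← Finset.sum_const]
  exact Finset.sum_le_sum fun w hw => (Finset.mem_filter.1 hw).2

/-- the number of the indices of a window -/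
theorem window_card {k w : ℕ} (hk : k ≤ r) (h : wi sep k = w) :
    last r sep w - first sep w + 1 ≤
      ((Finset.range (r + 1)).filter (fun k => wi sep k = w)).card := by
  obtain ⟨h1, h2⟩ := first_spec h
  obtain ⟨h3, h4, h5⟩ := last_spec hk h
  have h6 : Finset.Icc (first sep w) (last r sep w) ⊆
      (Finset.range (r + 1)).filter (fun k => wi sep k = w) := by
    intro j hj
    obtain ⟨h7, h8⟩ := Finset.mem_Icc.1 hj
    refine Finset.mem_filter.2 ⟨Finset.mem_range.2 (by omega), le_antisymm ?_ ?_⟩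
    · rw [← h3]
      exact wi_mono sep h8
    · rw [← h1]
      exact wi_mono sep h7
  have h7 := Finset.card_le_card h6
  rw [Nat.card_Icc] at h7
  omega

end

end WNW

open WNW

theorem t_WNW : S_WNW := by
  classical
  intro r r₀ sep Ql Qv δ β X γ _ S τ hr hr₀ hQl hQv H1 H2 H3 H4 H5 H6
  have H : ∀ k < r, ∀ s ∈ sep k, Qv k < s ∧ s < Qv (k + 1) := fun k hk s hs => (H1 k hk s hs).2.2
  -- the gaps
  have hg1 : ∀ f ≤ r, r * (S.filter (fun a => Qv (f - 1) < τ a ∧ τ a < Qv f)).card ≤ S.card := by
    intro f hf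
    rcases Nat.eq_zero_or_pos f with rfl | hf0
    · rw [Finset.filter_false_of_mem]
      · simp
      · intro a _ h
        simp only [Nat.zero_sub] at h
        omega
    · have := H5 (f - 1) (by omega)
      rwa [Nat.sub_add_cancel hf0] at this
  have hg2 : ∀ l ≤ r, r * (S.filter (fun a => Qv l < τ a ∧ τ a < Qv (l + 1))).card ≤ S.card := by
    intro l hl
    rcases hl.eq_or_lt with rfl | hl'
    · rw [Finset.filter_false_of_mem]
      · simp
      · intro a ha h
        have := (H4 a ha).2
        omega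
    · exact H5 l hl'
  constructor
  · -- heavy windows
    set HW := ((Finset.range (r + 1)).image (wi sep)).filter (fun w => r₀ ≤
      ((Finset.range (r + 1)).filter (fun k => wi sep k = w)).card) with hHW
    have hcount := heavy_count (r := r) (sep := sep) r₀
    rw [← hHW] at hcount
    set g : ℕ → Finset γ := fun w =>
      (S.filter (fun a => Qv (first sep w - 1) < τ a ∧ τ a < Qv (first sep w))) ∪
      (S.filter (fun a => Qv (last r sep w) < τ a ∧ τ a < Qv (last r sep w + 1))) with hg
    have hsub : {a | a ∈ S ∧ Heavy r r₀ sep (wt r sep (τ a)) ∧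
        col r r₀ sep Ql δ β (τ a) ≠ X} ⊆ (↑(HW.biUnion g) : Set γ) := by
      rintro a ⟨ha, hh, hc⟩
      obtain ⟨⟨k, hk, hkw⟩, hpos⟩ := pos (sep := sep) hQv H (H4 a ha).1 (H4 a ha).2
      rw [Finset.mem_coe, Finset.mem_biUnion]
      refine ⟨wt r sep (τ a), ?_, ?_⟩
      · rw [hHW, Finset.mem_filter]
        refine ⟨Finset.mem_image.2 ⟨k, Finset.mem_range.2 (by omega), hkw⟩, ?_⟩
        unfold Heavy at hh
        exact hh
      · rw [hg, Finset.mem_union, Finset.mem_filter, Finset.mem_filter]
        rcases hpos with ⟨h1, h2⟩ | h | h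
        · exfalso
          apply hc
          unfold col
          rw [if_pos hh]
          obtain ⟨h3, h4⟩ := first_spec hkw
          obtain ⟨h5, h6, h7⟩ := last_spec hk hkw
          rcases H2 (first sep (wt r sep (τ a))) (last r sep (wt r sep (τ a))) (by omega) h7
            (fun k' h8 h9 => none_of_eq sep h8 h9 (h3.trans h5.symm)) with h8 | h8
          · rw [if_pos (by omega)]
            refine (H3 _ (by omega)).1 ?_
            have := hQv (show first sep (wt r sep (τ a)) ≤ last r sep (wt r sep (τ a)) by omega)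
            omega
          · have h9 := hQl (show first sep (wt r sep (τ a)) ≤ last r sep (wt r sep (τ a)) by omega)
            rw [if_neg (by omega)]
            have h10 : ¬ δ (first sep (wt r sep (τ a))) = X := fun h11 => by
              have := (H3 _ (by omega)).2 h11
              omega
            cases hX : X <;> cases hδ : δ (first sep (wt r sep (τ a))) <;> simp_all
        · exact Or.inl ⟨ha, h⟩
        · exact Or.inr ⟨ha, h⟩
    have h1 : {a | a ∈ S ∧ Heavy r r₀ sep (wt r sep (τ a)) ∧
        col r r₀ sep Ql δ β (τ a) ≠ X}.ncard ≤ ∑ w ∈ HW, (g w).card := by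
      refine (Set.ncard_le_ncard hsub (Finset.finite_toSet _)).trans ?_
      rw [Set.ncard_coe_finset]
      exact Finset.card_biUnion_le
    have h2 : ∀ w ∈ HW, r * (g w).card ≤ 2 * S.card := by
      intro w hw
      rw [hHW, Finset.mem_filter] at hw
      obtain ⟨k, hk, hkw⟩ := Finset.mem_image.1 hw.1
      rw [Finset.mem_range] at hk
      have h3 := hg1 (first sep w) ((first_spec hkw).2.trans (by omega))
      have h4 := hg2 (last r sep w) (last_spec (r := r) (by omega) hkw).2.2
      have h5 : (g w).card ≤ (S.filter (fun a => Qv (first sep w - 1) < τ a ∧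
          τ a < Qv (first sep w))).card + (S.filter (fun a => Qv (last r sep w) < τ a ∧
          τ a < Qv (last r sep w + 1))).card := Finset.card_union_le _ _
      calc r * (g w).card ≤ r * ((S.filter (fun a => Qv (first sep w - 1) < τ a ∧
          τ a < Qv (first sep w))).card + (S.filter (fun a => Qv (last r sep w) < τ a ∧
          τ a < Qv (last r sep w + 1))).card) := Nat.mul_le_mul_left r h5
        _ ≤ 2 * S.card := by rw [mul_add]; omega
    calc r * r₀ * {a | a ∈ S ∧ Heavy r r₀ sep (wt r sep (τ a)) ∧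
          col r r₀ sep Ql δ β (τ a) ≠ X}.ncard
        ≤ r * r₀ * ∑ w ∈ HW, (g w).card := Nat.mul_le_mul_left _ h1
      _ = r₀ * ∑ w ∈ HW, r * (g w).card := by rw [← Finset.mul_sum]; ring
      _ ≤ r₀ * ∑ w ∈ HW, 2 * S.card := Nat.mul_le_mul_left _ (Finset.sum_le_sum h2)
      _ = (HW.card * r₀) * (2 * S.card) := by rw [Finset.sum_const, smul_eq_mul]; ring
      _ ≤ (r + 1) * (2 * S.card) := Nat.mul_le_mul_right _ hcount
      _ = 2 * (r + 1) * S.card := by ring
  · -- light windows
    intro w hw
    by_cases hex : ∃ k ≤ r, wi sep k = w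
    · obtain ⟨k, hk, hkw⟩ := hex
      obtain ⟨h3, h4⟩ := first_spec hkw
      obtain ⟨h5, h6, h7⟩ := last_spec hk hkw
      have hwc := window_card hk hkw
      unfold Heavy at hw
      have h8 : last r sep w - first sep w + 2 ≤ r₀ := by omega
      have hA := H6 (first sep w) (last r sep w) (by omega) h7 (by
        by_cases h0 : first sep w = 0
        · exact Or.inl h0
        · right
          obtain ⟨s, hs⟩ := Option.isSome_iff_exists.1 (some_first hkw h0)
          have h9 := H (first sep w - 1) (by omega) s hs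
          rw [Nat.sub_add_cancel (by omega)] at h9
          omega) (by
        by_cases h0 : last r sep w = r
        · exact Or.inl h0
        · right
          obtain ⟨s, hs⟩ := Option.isSome_iff_exists.1 (some_last hk hkw h0)
          have h9 := H (last r sep w) (by omega) s hs
          omega)
      have hB := hg1 (first sep w) (by omega)
      have hC := hg2 (last r sep w) h7
      have hsub : S.filter (fun a => wt r sep (τ a) = w) ⊆
          (S.filter (fun a => Qv (first sep w) ≤ τ a ∧ τ a ≤ Qv (last r sep w))) ∪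
          ((S.filter (fun a => Qv (first sep w - 1) < τ a ∧ τ a < Qv (first sep w))) ∪
          (S.filter (fun a => Qv (last r sep w) < τ a ∧ τ a < Qv (last r sep w + 1)))) := by
        intro a ha
        obtain ⟨ha, haw⟩ := Finset.mem_filter.1 ha
        obtain ⟨-, hpos⟩ := pos (sep := sep) hQv H (H4 a ha).1 (H4 a ha).2
        rw [haw] at hpos
        simp only [Finset.mem_union, Finset.mem_filter]
        rcases hpos with h | h | h
        · exact Or.inl ⟨ha, h⟩
        · exact Or.inr (Or.inl ⟨ha, h⟩)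
        · exact Or.inr (Or.inr ⟨ha, h⟩)
      have h9 := (Finset.card_le_card hsub).trans ((Finset.card_union_le _ _).trans
        (Nat.add_le_add_left (Finset.card_union_le _ _) _))
      have h10 := Nat.mul_le_mul_left r h9
      rw [mul_add, mul_add] at h10
      have h11 : (last r sep w - first sep w + 2) * S.card ≤ r₀ * S.card :=
        Nat.mul_le_mul_right _ h8
      have h12 : (r₀ + 3) * S.card = r₀ * S.card + 3 * S.card := by ring
      omega
    · rw [Finset.filter_false_of_mem]
      · simp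
      · intro a ha haw
        obtain ⟨⟨k, hk, hkw⟩, -⟩ := pos (sep := sep) hQv H (H4 a ha).1 (H4 a ha).2
        exact hex ⟨k, hk, hkw.trans haw⟩

end Pool.Agent.RLT
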