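import Pool.Agent.RLT.ALG
import Pool.Agent.RLT.CMB
import Pool.Agent.RLT.CNT
import Pool.Agent.RLT.COR
import Pool.Agent.RLT.CRL
import Pool.Agent.RLT.DES2
import Pool.Agent.RLT.DIS
import Pool.Agent.RLT.FBR
import Pool.Agent.RLT.FIB
import Pool.Agent.RLT.MIX
import Pool.Agent.RLT.MUL
import Pool.Agent.RLT.ONE
import Pool.Agent.RLT.PHC
import Pool.Agent.RLT.PIG
import Pool.Agent.RLT.PIL
import Pool.Agent.RLT.QNT
import Pool.Agent.RLT.RECT
import Pool.Agent.RLT.RND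
import Pool.Agent.RLT.SPL
import Pool.Agent.RLT.SSH
import Pool.Agent.RLT.TCH
import Pool.Agent.RLT.TRC
import Pool.Agent.RLT.TRL
import Pool.Agent.RLT.WNW

/-!
# MP_5e85fc_lc, project RLT: the core inequality
-/

set_option autoImplicit false

namespace Pool.Agent.RLT

/-- The counting theorem. -/
theorem cnt : S_CNT :=
  t_CNT (t_PIL (t_CMB (t_SPL t_DIS) t_SSH (CRL_thm t_MUL)) t_QNT t_WNW t_PHC t_RND) t_PIG
    (t_FBR (t_TRL (t_RECT t_FIB t_ALG) (t_TCH t_ONE)) t_MIX)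

/-- The core inequality. -/
theorem cor : S_COR := t_COR cnt (t_DES2 t_TRC)

end Pool.Agent.RLT
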