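import Pool.Agent.RLT.St2

/-!
# Module DES (helper12): one designated digit in each block
-/

set_option autoImplicit false

namespace Pool.Agent.RLT

namespace DES

/-- the template with the digits outside `i₀` filled in -/
def tmpl {α V : Type} {n M b : ℕ} (i₀ : Fin b) (ρ : V × {i : Fin b // i ≠ i₀} → Fin M)
    (dg : Fin M → α) (S : Fin n → α ⊕ (V × Fin b)) (j : Fin n) : α ⊕ V :=
  match S j with
  | Sum.inl c => Sum.inl c
  | Sum.inr q => if h : q.2 = i₀ then Sum.inr q.1 else Sum.inl (dg (ρ (q.1, ⟨q.2, h⟩)))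

/-- the assignment which is `x` at `i₀` and `ρ` elsewhere -/
def ex {V : Type} {M b : ℕ} (i₀ : Fin b) (ρ : V × {i : Fin b // i ≠ i₀} → Fin M)
    (x : V → Fin M) : V × Fin b → Fin M :=
  fun q => if h : q.2 = i₀ then x q.1 else ρ (q.1, ⟨q.2, h⟩)

lemma word_tmpl {α V : Type} {n M b : ℕ} (i₀ : Fin b) (ρ : V × {i : Fin b // i ≠ i₀} → Fin M)
    (dg : Fin M → α) (S : Fin n → α ⊕ (V × Fin b)) (x : V → Fin M) :
    word (tmpl i₀ ρ dg S) dg x = word S dg (ex i₀ ρ x) := by
  funext j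
  unfold word tmpl
  rcases hS : S j with c | ⟨v, i⟩
  · simp
  · by_cases h : i = i₀
    · simp [ex, h]
    · simp [ex, h]

lemma tmpl_inr {α V : Type} {n M b : ℕ} {i₀ : Fin b} {ρ : V × {i : Fin b // i ≠ i₀} → Fin M}
    {dg : Fin M → α} {S : Fin n → α ⊕ (V × Fin b)} {j : Fin n} {v : V}
    (h : tmpl i₀ ρ dg S j = Sum.inr v) : S j = Sum.inr (v, i₀) := by
  unfold tmpl at h
  rcases hS : S j with c | ⟨w, i⟩
  · rw [hS] at h
    simp at h
  · rw [hS] at h
    by_cases hi : i = i₀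
    · simp only [hi, dite_true, Sum.inr.injEq] at h
      rw [h, hi]
    · simp [hi] at h

lemma sum_ex {V : Type} {M b : ℕ} [NeZero M] (i₀ : Fin b)
    (ρ : V × {i : Fin b // i ≠ i₀} → Fin M) (x : V → Fin M) (v : V) :
    ∑ i, ex i₀ ρ x (v, i) = x v + ∑ i : {i : Fin b // i ≠ i₀}, ρ (v, i) := by
  rw [Fintype.sum_eq_add_sum_subtype_ne _ i₀]
  congr 1
  · simp [ex]
  · refine Finset.sum_congr rfl fun i _ => ?_
    simp [ex, i.2]

/-- many good blocks -/
lemma good {α V : Type} {n b : ℕ} (τ : ℕ) (lab : ℕ → Option (Fin n × α))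
    (S : Fin n → α ⊕ (V × Fin b)) (K k : ℕ)
    (hm : {t | t < τ ∧ lab t ≠ none}.ncard ≤ k * n) (hn : n ≤ 2 * (K * b))
    (Gd : Finset (Fin b)) (hG : ∀ i₀, i₀ ∈ Gd ↔
      {t | t < τ ∧ ∃ i a v, lab t = some (i, a) ∧ S i = Sum.inr (v, i₀)}.ncard ≤ 4 * k * K) :
    b ≤ 2 * Gd.card := by
  classical
  set B : Fin b → Finset ℕ := fun i₀ => (Finset.range τ).filter
    (fun t => ∃ i a v, lab t = some (i, a) ∧ S i = Sum.inr (v, i₀)) with hB
  have hBc : ∀ i₀, {t | t < τ ∧ ∃ i a v, lab t = some (i, a) ∧ S i = Sum.inr (v, i₀)}.ncard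
      = (B i₀).card := by
    intro i₀
    rw [← Set.ncard_coe_finset]
    congr 1
    ext t
    simp only [hB, Set.mem_setOf_eq, Finset.coe_filter, Finset.mem_range]
  have hdis : ∀ i ∈ (Finset.univ : Finset (Fin b)), ∀ j ∈ (Finset.univ : Finset (Fin b)), i ≠ j →
      Disjoint (B i) (B j) := by
    intro i _ j _ hij
    rw [Finset.disjoint_left]
    intro t h1 h2
    simp only [hB, Finset.mem_filter] at h1 h2
    obtain ⟨_, i1, a1, v1, e1, f1⟩ := h1
    obtain ⟨_, i2, a2, v2, e2, f2⟩ := h2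
    rw [e1] at e2
    simp only [Option.some.injEq, Prod.mk.injEq] at e2
    rw [← e2.1, f1] at f2
    simp only [Sum.inr.injEq, Prod.mk.injEq] at f2
    exact hij f2.2
  have hsum : ∑ i, (B i).card ≤ k * n := by
    rw [← Finset.card_biUnion hdis]
    refine le_trans ?_ hm
    rw [← Set.ncard_coe_finset]
    refine Set.ncard_le_ncard ?_ ((Set.finite_lt_nat τ).subset fun t ht => ht.1)
    intro t ht
    simp only [hB, Finset.coe_biUnion, Finset.coe_univ, Set.mem_univ, Set.iUnion_true,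
      Set.mem_iUnion, Finset.coe_filter, Set.mem_setOf_eq, Finset.mem_range] at ht
    obtain ⟨i, h1, i1, a1, v1, e1, f1⟩ := ht
    refine ⟨h1, ?_⟩
    rw [e1]
    simp
  have hbad : (Gdᶜ).card * (4 * k * K + 1) ≤ ∑ i, (B i).card := by
    refine le_trans ?_ (Finset.sum_le_sum_of_subset (Finset.subset_univ Gdᶜ))
    rw [← smul_eq_mul]
    refine Finset.card_nsmul_le_sum _ _ _ fun i hi => ?_
    rw [Finset.mem_compl, hG, hBc] at hi
    omega
  have hc : (Gdᶜ).card = b - Gd.card := by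
    rw [Finset.card_compl, Fintype.card_fin]
  have hle : Gd.card ≤ b := by
    have := Finset.card_le_univ Gd
    rwa [Fintype.card_fin] at this
  have h1 : (b - Gd.card) * (4 * k * K + 1) ≤ k * (2 * (K * b)) := by
    rw [← hc]
    exact (hbad.trans hsum).trans (Nat.mul_le_mul_left k hn)
  by_contra hlt
  push Not at hlt
  have h2 : b + 1 ≤ 2 * (b - Gd.card) := by omega
  have h3 : (b + 1) * (4 * k * K + 1) ≤ 2 * (b - Gd.card) * (4 * k * K + 1) :=
    Nat.mul_le_mul_right _ h2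
  nlinarith [h1, h3]

end DES

theorem t_DES (hTRC : S_TRC) : S_DES := by
  classical
  intro α n M h κ b p k _ P L dg T rt hb hn hrec hL
  set K := 2 ^ h * κ with hK
  have hKV : Fintype.card ((Fin h → Bool) × Fin κ) = K := by simp [hK]
  have hrun : ∀ x : ((Fin h → Bool) × Fin κ) × Fin b → Fin M,
      ∃ (τ : ℕ) (σ : ℕ → P.S) (lab : ℕ → Option (Fin n × α)),
        Trace P (word (T (rt fun v => ∑ i, x (v, i))) dg x) τ σ lab ∧ σ τ ∈ P.accept ∧
          {t | t < τ ∧ lab t ≠ none}.ncard ≤ k * n := by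
    intro x
    have h1 := (hL (rt fun v => ∑ i, x (v, i)) x).2 rfl
    obtain ⟨m, hm, s, hs, hR⟩ := (hrec _).2 h1
    obtain ⟨τ, σ, lab, h2, h3, h4⟩ := (hTRC α n P _).1 m s hR
    exact ⟨τ, σ, lab, h2, h3 ▸ hs, h4 ▸ hm⟩
  choose τ σ lab htr hacc hcnt using hrun
  set rr : (((Fin h → Bool) × Fin κ) × Fin b → Fin M) → Fin p :=
    fun x => rt fun v => ∑ i, x (v, i) with hrr
  set Q : (((Fin h → Bool) × Fin κ) × Fin b → Fin M) → Fin b → Prop := fun x i₀ =>
    {t | t < τ x ∧ ∃ i a v, lab x t = some (i, a) ∧ T (rr x) i = Sum.inr (v, i₀)}.ncard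
      ≤ 4 * k * K with hQ
  -- the block
  have hi₀ : ∃ i₀ : Fin b, M ^ (K * b) ≤ 2 * (Finset.univ.filter fun x => Q x i₀).card := by
    haveI : Nonempty (Fin b) := ⟨⟨0, by omega⟩⟩
    have h1 : ∑ i₀ : Fin b, M ^ (K * b) ≤
        ∑ i₀ : Fin b, 2 * (Finset.univ.filter fun x => Q x i₀).card := by
      rw [Finset.sum_const, Finset.card_univ, Fintype.card_fin, smul_eq_mul, ← Finset.mul_sum]
      have h2 : ∑ i₀ : Fin b, (Finset.univ.filter fun x => Q x i₀).card =
          ∑ x : ((Fin h → Bool) × Fin κ) × Fin b → Fin M,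
            (Finset.univ.filter fun i₀ => Q x i₀).card := by
        simp only [Finset.card_filter]
        exact Finset.sum_comm
      rw [h2, Finset.mul_sum]
      have h3 : ∀ x ∈ (Finset.univ : Finset (((Fin h → Bool) × Fin κ) × Fin b → Fin M)),
          b ≤ 2 * (Finset.univ.filter fun i₀ => Q x i₀).card := by
        intro x _
        refine DES.good (τ x) (lab x) (T (rr x)) K k (hcnt x) hn _ fun i₀ => ?_
        simp only [Finset.mem_filter, Finset.mem_univ, true_and, hQ]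
      refine le_trans (le_of_eq ?_) (Finset.card_nsmul_le_sum _ _ _ h3)
      rw [Finset.card_univ, Fintype.card_fun, Fintype.card_prod, hKV, Fintype.card_fin,
        Fintype.card_fin, smul_eq_mul, mul_comm]
    obtain ⟨i₀, _, h2⟩ := Finset.exists_le_of_sum_le Finset.univ_nonempty h1
    exact ⟨i₀, h2⟩
  obtain ⟨i₀, hi₀⟩ := hi₀
  set G₁ := (Finset.univ : Finset (((Fin h → Bool) × Fin κ) × Fin b → Fin M)).filter
    fun x => Q x i₀ with hG₁
  set f : (((Fin h → Bool) × Fin κ) × Fin b → Fin M) →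
      Fin p × (((Fin h → Bool) × Fin κ) × {i : Fin b // i ≠ i₀} → Fin M) :=
    fun x => (rr x, fun q => x (q.1, q.2.1)) with hf
  have hcb : Fintype.card {i : Fin b // i ≠ i₀} = b - 1 := by
    have := Set.card_ne_eq i₀
    rw [Fintype.card_fin] at this
    exact this
  have hpig : ∃ j, M ^ K ≤ 2 * p * (G₁.filter fun x => f x = j).card := by
    haveI : Nonempty (Fin p × (((Fin h → Bool) × Fin κ) × {i : Fin b // i ≠ i₀} → Fin M)) :=
      ⟨f fun _ => ⟨0, NeZero.pos M⟩⟩
    have h1 : ∑ _j : Fin p × (((Fin h → Bool) × Fin κ) × {i : Fin b // i ≠ i₀} → Fin M), M ^ K ≤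
        ∑ j : Fin p × (((Fin h → Bool) × Fin κ) × {i : Fin b // i ≠ i₀} → Fin M),
          2 * p * (G₁.filter fun x => f x = j).card := by
      rw [Finset.sum_const, Finset.card_univ, Fintype.card_prod, Fintype.card_fun,
        Fintype.card_prod, hKV, Fintype.card_fin, Fintype.card_fin, hcb, smul_eq_mul,
        ← Finset.mul_sum, ← Finset.card_eq_sum_card_fiberwise (fun x _ => Finset.mem_coe.2
          (Finset.mem_univ (f x)))]
      have h2 : K * (b - 1) + K = K * b := by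
        obtain ⟨c, rfl⟩ : ∃ c, b = c + 1 := ⟨b - 1, by omega⟩
        rw [Nat.add_sub_cancel]
        ring
      calc p * M ^ (K * (b - 1)) * M ^ K = p * M ^ (K * b) := by
            rw [mul_assoc, ← pow_add, h2]
        _ ≤ p * (2 * G₁.card) := Nat.mul_le_mul_left p hi₀
        _ = 2 * p * G₁.card := by ring
    obtain ⟨j, _, h2⟩ := Finset.exists_le_of_sum_le Finset.univ_nonempty h1
    exact ⟨j, h2⟩
  obtain ⟨⟨r, ρ⟩, hj⟩ := hpig
  have hex : ∀ x ∈ G₁.filter (fun x => f x = (r, ρ)),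
      DES.ex i₀ ρ (fun v => x (v, i₀)) = x := by
    intro x hx
    have h1 := (Finset.mem_filter.1 hx).2
    simp only [hf, Prod.mk.injEq] at h1
    funext q
    unfold DES.ex
    split_ifs with h2
    · rw [← h2]
    · rw [← h1.2]
  have hinj : Set.InjOn (fun (x : ((Fin h → Bool) × Fin κ) × Fin b → Fin M)
      (v : (Fin h → Bool) × Fin κ) => x (v, i₀)) (G₁.filter fun x => f x = (r, ρ)) := by
    intro x hx x' hx' he
    rw [← hex x hx, ← hex x' hx']
    exact congrArg (DES.ex i₀ ρ) he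
  refine ⟨DES.tmpl i₀ ρ dg (T r), fun v => ∑ i : {i : Fin b // i ≠ i₀}, ρ (v, i), r,
    (G₁.filter fun x => f x = (r, ρ)).image fun x v => x (v, i₀), ?_, ?_, ?_⟩
  · rw [Finset.card_image_of_injOn hinj]
    exact hj
  · intro x
    rw [DES.word_tmpl, hL]
    simp only [DES.sum_ex]
  · intro x' hx'
    obtain ⟨x, hx, rfl⟩ := Finset.mem_image.1 hx'
    have h1 := (Finset.mem_filter.1 hx).2
    simp only [hf, Prod.mk.injEq] at h1
    have h2 := (Finset.mem_filter.1 (Finset.mem_filter.1 hx).1).2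
    refine ⟨τ x, σ x, lab x, ?_, hacc x, ?_⟩
    · rw [DES.word_tmpl, hex x hx, ← h1.1]
      exact htr x
    · refine le_trans (Set.ncard_le_ncard ?_
        ((Set.finite_lt_nat (τ x)).subset fun t ht => ht.1)) h2
      rintro t ⟨ht, i, a, v, e1, e2⟩
      refine ⟨ht, i, a, v, e1, ?_⟩
      rw [h1.1]
      exact DES.tmpl_inr e2

end Pool.Agent.RLT
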