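import Pool.Agent.RLT.St7

/-!
# MP_5e85fc_lc, project RLT: DYK, the Dyck language inside the language
-/

set_option autoImplicit false

namespace Pool.Agent.RLT

open Pool.Agent.Heads

namespace DYK

theorem run_cons {α Q Γ : Type} (stp : α → Q → Option Γ → Q × Op Γ) (a : α) (w : List α)
    (c : Q × List Γ) : run stp (a :: w) c =
      run stp w ((stp a c.1 c.2.head?).1, (stp a c.1 c.2.head?).2.apply c.2) := rfl

theorem run_app {α Q Γ : Type} (stp : α → Q → Option Γ → Q × Op Γ) (u w : List α)
    (c : Q × List Γ) : run stp (u ++ w) c = run stp w (run stp u c) := by
  unfold run
  rw [List.foldl_append]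

theorem run_inl (w : List LA) : ∀ c, run stpB (w.map Sum.inl) c = run stpA w c := by
  induction w with
  | nil => intro c; rfl
  | cons a w ih =>
    intro c
    rw [List.map_cons, run_cons, run_cons]
    exact ih _

theorem bad_step (a : LA ⊕ Time.Br) (lb : Bool) (md : Option Bool) (o : Option Bool) :
    (stpB a (lb, md, false) o).1.2.2 = false := by
  rcases a with a | ⟨a1, a2⟩
  · cases a <;> rcases o with _ | _ | _ <;> rcases md with _ | _ | _ <;> rfl
  · cases a1
    · show (if o = some a2 then ((lb, md, false), Op.pop) else ((lb, md, false), Op.none) :
        (Bool × Option Bool × Bool) × Op Bool).1.2.2 = false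
      split_ifs <;> rfl
    · rfl

theorem bad_run (w : List (LA ⊕ Time.Br)) : ∀ c : (Bool × Option Bool × Bool) × List Bool,
    c.1.2.2 = false → (run stpB w c).1.2.2 = false := by
  induction w with
  | nil => intro c hc; exact hc
  | cons a w ih =>
    rintro ⟨⟨lb, md, ok⟩, s⟩ hc
    have hok : ok = false := hc
    subst hok
    rw [run_cons]
    exact ih _ (bad_step a lb md _)

theorem run_inr (w : List Time.Br) : ∀ s : List Bool,
    (∀ s', Time.run w s = some s' →
      run stpB (w.map Sum.inr) ((false, none, true), s) = ((false, none, true), s')) ∧
    (Time.run w s = none → (run stpB (w.map Sum.inr) ((false, none, true), s)).1.2.2 = false) := by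
  induction w with
  | nil =>
    intro s
    refine ⟨fun s' h => ?_, fun h => ?_⟩
    · have h' : some s = some s' := h
      rw [← Option.some.inj h']
      rfl
    · have h' : some s = none := h
      exact absurd h' (by simp)
  | cons a w ih =>
    rintro s
    obtain ⟨a1, b⟩ := a
    cases a1 with
    | true =>
      refine ⟨fun s' h => ?_, fun h => ?_⟩
      · rw [List.map_cons, run_cons]
        exact (ih (b :: s)).1 s' h
      · rw [List.map_cons, run_cons]
        exact (ih (b :: s)).2 h
    | false =>
      rw [List.map_cons, run_cons]
      cases s with
      | nil =>
        refine ⟨fun s' h => ?_, fun h => ?_⟩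
        · have h' : (none : Option (List Bool)) = some s' := h
          exact absurd h' (by simp)
        · apply bad_run
          show (if (none : Option Bool) = some b then ((false, none, true), Op.pop)
            else ((false, none, false), Op.none) :
            (Bool × Option Bool × Bool) × Op Bool).1.2.2 = false
          rw [if_neg (by simp)]
      | cons c s =>
        by_cases hbc : b = c
        · subst hbc
          have e1 : stpB (Sum.inr (false, b)) (false, none, true) (some b) =
              ((false, none, true), Op.pop) := by
            show (if (some b : Option Bool) = some b then ((false, none, true), Op.pop)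
              else ((false, none, false), Op.none) : (Bool × Option Bool × Bool) × Op Bool) = _
            rw [if_pos rfl]
          have e2 : Time.run ((false, b) :: w) (b :: s) = Time.run w s := by
            show (if b = b then Time.run w s else none) = _
            rw [if_pos rfl]
          have e3 : ((b :: s).head? : Option Bool) = some b := rfl
          simp only [e2, e3, e1]
          exact ih s
        · have e2 : Time.run ((false, b) :: w) (c :: s) = none := by
            show (if b = c then Time.run w s else none) = _
            rw [if_neg hbc]
          rw [e2]
          refine ⟨fun s' h => absurd h (by simp), fun _ => ?_⟩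
          apply bad_run
          show (if (some c : Option Bool) = some b then ((false, none, true), Op.pop)
            else ((false, none, false), Op.none) :
            (Bool × Option Bool × Bool) × Op Bool).1.2.2 = false
          rw [if_neg (by simpa using fun h : c = b => hbc h.symm)]

end DYK

open DYK in
theorem t_DYK : S_DYK := by
  have key : ∀ w : List Time.Br, ∀ v : List (LA ⊕ Time.Br),
      (∀ c, run stpB v c = c) →
      ((w.map Sum.inr ++ v) ∈ LangB ↔ Time.IsDyck w) := by
    intro w v hv
    rw [Time.isDyck_iff]
    show (run stpB (w.map Sum.inr ++ v) ((false, none, true), [])).1.2.2 = true ∧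
      (run stpB (w.map Sum.inr ++ v) ((false, none, true), [])).2 = [] ↔ _
    rw [run_app, hv]
    cases h : Time.run w [] with
    | none =>
      have h1 := (run_inr w []).2 h
      rw [h1]
      simp
    | some s =>
      have h1 := (run_inr w []).1 s h
      rw [h1]
      simp
  refine ⟨fun w => ?_, fun w => ?_, fun w => ?_⟩
  · unfold LangB LangA
    rw [Set.mem_ofPred_eq, Set.mem_ofPred_eq, run_inl]
  · have := key w [] (fun c => rfl)
    rwa [List.append_nil] at this
  · exact key w [Sum.inl LA.pad] (fun c => rfl)

end Pool.Agent.RLT
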