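import Pool.Agent.Lib_helper16.Heads.Defs

/-!
# MP_5e85fc_lc: nondeterministic programs with random access to the input
-/

set_option autoImplicit false

namespace Pool.Agent.RLT

/-- A nonuniform nondeterministic machine with random access to its input, a word of `n` letters
over the alphabet `α`, given by its finite graph of configurations. A computation in the
configuration `s` may go on to each `t ∈ step s none`, and, if the letter number `i` of the input is
`a`, to each `t ∈ step s (some (i, a))` (this is a test of one letter). -/
structure Prog (α : Type) (n : ℕ) where
  S : Type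
  fin : Finite S
  start : S
  accept : Set S
  step : S → Option (Fin n × α) → Set S

/-- `P.Reach w m s`: on input `w` some computation leads to `s` and makes `m` tests. -/
inductive Prog.Reach {α : Type} {n : ℕ} (P : Prog α n) (w : Fin n → α) : ℕ → P.S → Prop
  | start : Prog.Reach P w 0 P.start
  | free {m : ℕ} {s t : P.S} : Prog.Reach P w m s → t ∈ P.step s none → Prog.Reach P w m t
  | test {m : ℕ} {s t : P.S} (i : Fin n) : Prog.Reach P w m s → t ∈ P.step s (some (i, w i)) →
      Prog.Reach P w (m + 1) t

/-- The program accepts exactly the words of length `n` which belong to `L`, and each of them by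
some computation with at most `T` tests. -/
def Prog.Recognizes {α : Type} {n : ℕ} (P : Prog α n) (L : Set (List α)) (T : ℕ) : Prop :=
  ∀ w : Fin n → α, (∀ m s, P.Reach w m s → s ∈ P.accept → List.ofFn w ∈ L) ∧
    (List.ofFn w ∈ L → ∃ m ≤ T, ∃ s ∈ P.accept, P.Reach w m s)

end Pool.Agent.RLT
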