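import Pool.Agent.RLT.Defs
import Pool.Agent.Lib_helper16.Heads.LTS

/-!
# MP_5e85fc_lc: time on two-way multihead finite automata
-/

set_option autoImplicit false

namespace Pool.Agent.RLT

open Pool.Agent.Heads

/-- The finite automaton `M` accepts `w` in at most `t` steps: some computation on `w` is in an
accepting state after at most `t` steps. -/
def AcceptsIn {α : Type} {k : ℕ} (M : FA α k) (w : List α) (t : ℕ) : Prop :=
  ∃ i ≤ t, ∃ c, ReachN (M.Step w) (M.start, fun _ => 0) i c ∧ c.1 ∈ M.accept

end Pool.Agent.RLT
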