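import Pool.Agent.Lib_helper16.Heads.Defs

/-!
# MP_5e85fc_lc: nonuniform nondeterministic machines with several heads which can move or jump
-/

set_option autoImplicit false

namespace Pool.Agent.RLT

open Pool.Agent.Heads

/-- A nonuniform nondeterministic machine with `J` heads on a read-only input tape, given by its
finite graph of configurations: in the configuration `s` the head number `j` is on the cell
`pos s j`, and if the heads scan the symbols `x j`, then the machine may go to each `s' ∈ step s x`. -/
structure Machine (α : Type) (J : ℕ) where
  S : Type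
  fin : Finite S
  start : S
  accept : Set S
  pos : S → Fin J → ℕ
  step : S → (Fin J → Sym α) → Set S

/-- `P.Reach w i r s`: on input `w` some computation leads to `s` in `i` steps, of which `r` are
counted as jumps; a step which moves some head by more than one cell has to be counted as a jump. -/
inductive Machine.Reach {α : Type} {J : ℕ} (P : Machine α J) (w : List α) :
    ℕ → ℕ → P.S → Prop
  | start : Machine.Reach P w 0 0 P.start
  | move {i r : ℕ} {s s' : P.S} : Machine.Reach P w i r s →
      s' ∈ P.step s (fun j => tape w (P.pos s j)) →
      (∀ j, P.pos s' j ≤ P.pos s j + 1 ∧ P.pos s j ≤ P.pos s' j + 1) →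
      Machine.Reach P w (i + 1) r s'
  | jump {i r : ℕ} {s s' : P.S} : Machine.Reach P w i r s →
      s' ∈ P.step s (fun j => tape w (P.pos s j)) → Machine.Reach P w (i + 1) (r + 1) s'

/-- `P` accepts `w` with at most `t` steps, at most `r` of them jumps. -/
def Machine.AcceptsIn {α : Type} {J : ℕ} (P : Machine α J) (w : List α) (t r : ℕ) : Prop :=
  ∃ i ≤ t, ∃ k ≤ r, ∃ s ∈ P.accept, P.Reach w i k s

/-- `P` accepts `w`. -/
def Machine.Accepts {α : Type} {J : ℕ} (P : Machine α J) (w : List α) : Prop :=
  ∃ t r, P.AcceptsIn w t r

end Pool.Agent.RLT
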