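import Pool.Agent.RLT.St5
import Pool.Agent.RLT.Defs3

/-!
# MP_5e85fc_lc, project RLT: statements, part 6 (machines with heads and jumps; this extends part 5)
-/

set_option autoImplicit false

namespace Pool.Agent.RLT

open Pool.Agent.Heads

/-- SIMJ (250 lines): as `S_SIM` (St5; proof in `SIM.lean`, to be copied), for a `Machine` with heads
and jumps. Proof: `LOC c c' F` for `c, c'` in `A.S`, `F : Fin J → Option (Fin N × Fin M)`: there are
`y₀ : Fin N → Fin M` with `y₀ v = d` whenever `F j = some (v, d)`, and a slice from `c` to `c'` on the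
word of `y₀`, i.e. a computation `c = c_0, …, c_l, (c')` with `l ≤ τ` steps `c_i → c_(i+1)` which move
each head by at most one cell, where either `c' = c_l` or `c_l → c'` is one more step (a jump, no
condition on the heads), such that every cell `i + 1` with `T i = inr (u, _)` scanned by some head in
some configuration in which a step is made has `F j = some (e.symm u, _)` for some `j`. Then on the
word of every `y` with `y v = d` for all `F j = some (v, d)` the same sequence is a computation.
States of `P`: `A.S ⊕ (A.S × (Fin J → Option (Fin N × Fin M)) × Fin (J + 1))`, steps as in `S_SIM`.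
FAST: a computation with `i ≤ t` steps, `k ≤ r` of them jumps, is cut into at most `t / τ + r + 1`
slices (each has exactly `τ` moves, or ends with a jump, or is the last one); in a slice the cells
scanned by a head in configurations in which a step is made have distance at most `τ`, so by `Apart`
the head meets at most one digit: at most `J` tests for each slice. (All cells `≥ n + 1` hold the
right endmarker, so positions of heads which are larger than `n + 1` do not matter.) -/
def S_SIMJ : Prop := ∀ (β U : Type) (n M J τ N : ℕ) (A : Machine β J) (T : Fin n → β ⊕ (U × ℕ))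
  (enc : Fin M → ℕ → β) (e : Fin N ≃ U), 1 ≤ τ → Apart τ T →
  ∃ P : Prog (Fin M) N,
    (∀ (y : Fin N → Fin M) m s, P.Reach y m s → s ∈ P.accept →
      A.Accepts (List.ofFn (bword T enc (y ∘ e.symm)))) ∧
    (∀ (y : Fin N → Fin M) t r, A.AcceptsIn (List.ofFn (bword T enc (y ∘ e.symm))) t r →
      ∃ m ≤ J * (t / τ + r + 1), ∃ s ∈ P.accept, P.Reach y m s) ∧
    Nat.card P.S ≤ Nat.card A.S * ((N * M + 1) ^ J * (J + 1) + 1)

/-- EMB (80 lines): a two-way `J`-head finite automaton as a machine, on inputs of length `n`. Proof: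
`S = A.Q × (Fin J → Fin (n + 2))`, `pos` = the second component, `s' ∈ step s x` if for some
`t ∈ A.δ s.1 x`: `s'.1 = t.1` and `s'.2 i = move (n + 1) (s.2 i) (t.2 i)` for all `i`. All steps are
moves (`move` changes a position by at most one). -/
def S_EMB : Prop := ∀ (α : Type) (J n : ℕ) (A : FA α J), ∃ P : Machine α J,
  Nat.card P.S = Nat.card A.Q * (n + 2) ^ J ∧
  ∀ w, w.length = n → (P.Accepts w → A.Accepts w) ∧ ∀ t, AcceptsIn A w t → P.AcceptsIn w t 0

/-- UPJ (450 lines), the matching upper bound with few jumps; compare `S_UPA` (St4, `UPA.lean`).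
A goal is `W i j q γ q'` (`i, j ≤ n`, `γ : List Γ`, `γ.length ≤ 2 b`): from state `q` with `γ` on top
of the stack the machine, reading the letters `i, …, j - 1`, removes exactly `γ`, the last symbol of
`γ` with the last of these letters, and ends in state `q'`; or `F i q γ e` (`e : Bool`,
`γ.length ≤ 2 b`): from state `q` with `γ` on top (`e = true`: `γ` is the whole stack) the machine,
reading the letters `i, …, n - 1`, accepts, and if `e = false` it never removes the last symbol of
`γ`. Truth, as inductive predicates: `TW i i q [] q`; `TW i j q (g :: γ) q'` if `i < n` and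
`stp (w i) q (some g) = (q₁, op)`, `TW (i+1) j q₁ (op.apply (g :: γ)) q'`; `TF n q γ e` if
`fin q γ.head? = true` and (`e = true` or `γ ≠ []`); `TF i q γ e` if `i < n`, (`e = true` or
`γ ≠ []`), `stp (w i) q γ.head? = (q₁, op)`, `TF (i+1) q₁ (op.apply γ) e`. Facts: (1) `TF 0 q₀ [] true`
iff `fin (run stp w (q₀, [])).1 (run stp w (q₀, [])).2.head? = true`. (2) `TW i j q γ q'` implies
`i + γ.length ≤ j ≤ n` or `γ = []`, `i = j`. (3) `TW i j q (γ₁ ++ γ₂) q'` iff
`∃ m q₂, TW i m q γ₁ q₂ ∧ TW m j q₂ γ₂ q'`. (4) `TF i q (γ₁ ++ γ₂) e` iff `TF i q γ₁ false` or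
`∃ m q₂, TW i m q γ₁ q₂ ∧ TF m q₂ γ₂ e` (for `γ₁ ≠ []`). Configurations of the machine: lists of at
most `K = Nat.size n + 1` goals; the head is on the cell `i + 1` if the first goal starts with `i`, and
on the cell `n + 1` if the list is empty. Start `[F 0 q₀ [] true]`, accepting: `[]`. Steps from
`x :: rest`. READ (a move of the head; the head scans the letter `i`, `i < n`): from `W i j q (g :: γ) q'`
to `W (i+1) j q₁ (op.apply (g :: γ)) q'`, from `F i q (γ₁ ++ γ₂) e` to `F (i+1) q₁ (op.apply γ₁) e'`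
with `e' = e` if `γ₂ = []`, or `e' = false` and `γ₁ ≠ []` (the symbols `γ₂` are forgotten), if the new
string has length at most `2 b`. DONE (counted as a jump): from `W i i q [] q :: rest` to `rest`,
from `F n q γ e :: rest` to `rest` if `fin q γ.head? = true` and (`e = true` or `γ ≠ []`). SPLIT
(counted as a jump): `W i j q (γ₁ ++ γ₂) q'` to `W i m q γ₁ q₂`, `W m j q₂ γ₂ q'` in either order;
`F i q (γ₁ ++ γ₂) e` to `W i m q γ₁ q₂`, `F m q₂ γ₂ e` in either order. SOUND: 'if all goals of the
list are true then the first goal is true' along `Reach`. COMPLETE: for a true goal `x` of size `s`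
(`s = j - i` or `n - i`), `s < 2 ^ k`, `rest.length + 1 + k ≤ K`, from `x :: rest` one reaches `rest`
with `s + 2 l` steps, `2 l` of them counted as jumps (or fewer), where `b l ≤ max s b` for `W` and
`b l ≤ s + b` for `F`. First for `W`, by strong induction on `s`: if `γ` has length `2 b` and the next
operation is a push, split `γ` into two halves of length `b`; both new goals have size at least `b`,
the sum of the sizes is `s`; put the smaller one first (its size `a` has `2 a ≤ s < 2 ^ k`, so
`a < 2 ^ (k - 1)`: this pays for the waiting goal). Otherwise read. For `F`: if `γ` has length `2 b`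
and the next operation is a push, then by (4) either forget the lower half and read, or split into
halves (the `W` goal has size at least `b`; `b (l₁ + l₂) ≤ a₁ + (a₂ + b)`). -/
def S_UPJ : Prop := ∀ (α Q Γ : Type) [Finite Q] [Finite Γ]
  (stp : α → Q → Option Γ → Q × Op Γ) (q₀ : Q) (fin : Q → Option Γ → Bool) (n b : ℕ), 1 ≤ b →
  ∃ P : Machine α 1,
    (∀ w : List α, w.length = n →
      (P.Accepts w → fin (run stp w (q₀, [])).1 (run stp w (q₀, [])).2.head? = true) ∧
      (fin (run stp w (q₀, [])).1 (run stp w (q₀, [])).2.head? = true →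
        P.AcceptsIn w (n + 2 * (n / b) + 2) (2 * (n / b) + 2))) ∧
    Nat.card P.S ≤ (((n + 1) ^ 2 * Nat.card Q ^ 2 + 2 * (n + 1) * Nat.card Q) *
      (Nat.card Γ + 1) ^ (2 * b) + 1) ^ (Nat.size n + 1)

/-- UPK (100 lines), hypothesis `S_UPJ`; compare `S_UPB`, `UPB.lean`. Proof: `b = Nat.log 2 n`, which is
at least `1` and at most `n`, so `2 (n / b) + 2 ≤ 4 (n / b) ≤ 4 n / b`, `n + 2 (n / b) + 2 ≤ 5 n`; `C` is
at least `5`. `(Nat.card Γ + 1) ^ (2 Nat.log 2 n) ≤ n ^ (c₁)` for a constant `c₁`
(`Nat.card Γ + 1 ≤ 2 ^ a`, `2 ^ (a * 2 * Nat.log 2 n) ≤ n ^ (2 a)`), `Nat.size n ≤ Nat.log 2 n + 1`. -/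
def S_UPK : Prop := ∀ (α Q Γ : Type) [Finite Q] [Finite Γ]
  (stp : α → Q → Option Γ → Q × Op Γ) (q₀ : Q) (fin : Q → Option Γ → Bool),
  ∃ C : ℕ, ∀ n : ℕ, 2 ≤ n → ∃ P : Machine α 1,
    (Nat.card P.S : ℝ) ≤ (n : ℝ) ^ (C * Real.log n) ∧
    ∀ w : List α, w.length = n →
      (P.Accepts w → fin (run stp w (q₀, [])).1 (run stp w (q₀, [])).2.head? = true) ∧
      (fin (run stp w (q₀, [])).1 (run stp w (q₀, [])).2.head? = true →
        P.AcceptsIn w (C * n) (C * n / Nat.log 2 n))

/-- Theorem U: one real-time deterministic context-free language over a fixed alphabet; linear time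
with several heads and jumps at a higher cost needs, and is possible with, `n ^ Θ(log n)`
configurations. -/
def FinalU : Prop := ∃ (α : Type) (_ : Finite α) (L : Set (List α)),
  (∃ M : PDA α 1, M.Det ∧ M.lang = L ∧
    ∀ w t c, M.Reach w t c → c.pos 0 = min t (w.length + 1) ∧ t ≤ w.length + 2) ∧
  (∀ (J t : ℕ) (A : FA α J), A.lang = L →
    ∀ᶠ n : ℕ in Filter.atTop, ∃ w ∈ L, w.length = n ∧ ¬ AcceptsIn A w (t * n)) ∧
  (∀ J t : ℕ, ∃ τ : ℕ, 1 ≤ τ ∧ ∃ c : ℝ, 0 < c ∧ ∀ᶠ n : ℕ in Filter.atTop,
    ∃ H : Finset (List α), H.Nonempty ∧ (∀ w ∈ H, w ∈ L ∧ w.length = n) ∧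
      ∀ P : Machine α J, (∀ w, w.length = n → P.Accepts w → w ∈ L) →
        (Nat.card P.S : ℝ) ≤ (n : ℝ) ^ (c * Real.log n) →
        ({w | w ∈ H ∧ P.AcceptsIn w (t * n) (n / τ)}.ncard : ℝ) ≤
          (n : ℝ) ^ (-(c * Real.log n)) * H.card) ∧
  ∃ C : ℕ, ∀ n : ℕ, 2 ≤ n → ∃ P : Machine α 1,
    (Nat.card P.S : ℝ) ≤ (n : ℝ) ^ (C * Real.log n) ∧
    ∀ w, w.length = n → (P.Accepts w → w ∈ L) ∧
      (w ∈ L → P.AcceptsIn w (C * n) (C * n / Nat.log 2 n))

/-- FNU (250 lines), hypotheses `S_RTP`, `S_LEA`, `S_LNA`, `S_SIMJ`, `S_EMB`, `S_COR`, `S_NUM`,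
`S_PRA`, `S_UPK`. Proof: copy `FNA.lean` (and its `key`, now for a `Machine`, with `S_SIMJ`), with
`K = J * (4 * t + 5)` and `τ = (2 ^ g) ^ 2`: `n ≤ 4 τ N` gives
`J (t n / τ + n / τ + 1) ≤ J (4 t N + 4 N + N) = K N`; the number of configurations of the machine
takes the place of `Nat.card A.Q * (n + 2) ^ J`. The clause on finite automata: by `S_EMB`,
`AcceptsIn A w (t n)` implies `P.AcceptsIn w (t n) 0`, so `P.AcceptsIn w (t n) (n / τ)`, and
`Nat.card A.Q * (n + 2) ^ J ≤ n ^ (c log n)` for large `n` (as in `FNA.lean`). The last clause is `S_UPK`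
for `stpA`, `(false, none, true)`, `fin q o = q.2.2 && o.isNone`. -/
def S_FNU : Prop := FinalU

end Pool.Agent.RLT
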