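import Mathlib
import Pool.Agent.RLT.St6

/-!
# EMB: a two-way multihead finite automaton as a machine
-/

set_option autoImplicit false

namespace Pool.Agent.RLT

open Pool.Agent.Heads

namespace EMB

/-- the machine of a finite automaton for inputs of length `n` -/
def mach {α : Type} {J : ℕ} (A : FA α J) (n : ℕ) : Machine α J where
  S := A.Q × (Fin J → Fin (n + 2))
  fin := by
    have := A.finQ
    infer_instance
  start := (A.start, fun _ => 0)
  accept := {s | s.1 ∈ A.accept}
  pos s j := (s.2 j : ℕ)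
  step s x := {s' | ∃ t ∈ A.δ s.1 x, s'.1 = t.1 ∧
    ∀ i, (s'.2 i : ℕ) = move (n + 1) (s.2 i : ℕ) (t.2 i)}

theorem move_le (N p : ℕ) (d : Dir) (h : p ≤ N) : move N p d ≤ N := by
  cases d <;> simp only [move]
  · omega
  · exact h
  · exact min_le_right _ _

theorem move_near (N p : ℕ) (d : Dir) (h : p ≤ N) : move N p d ≤ p + 1 ∧ p ≤ move N p d + 1 := by
  cases d <;> simp only [move]
  · omega
  · omega
  · constructor
    · exact min_le_left _ _
    · have : p ≤ min (p + 1) N := le_min (Nat.le_succ p) h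
      omega

theorem sound {α : Type} {J : ℕ} (A : FA α J) (w : List α) (i r : ℕ) (s : (mach A w.length).S)
    (h : (mach A w.length).Reach w i r s) :
    Relation.ReflTransGen (A.Step w) (A.start, fun _ => 0) (s.1, fun j => (s.2 j : ℕ)) := by
  induction h with
  | start => exact Relation.ReflTransGen.refl
  | move h1 h2 h3 ih =>
    refine Relation.ReflTransGen.tail ih ?_
    obtain ⟨t, ht, e1, e2⟩ := h2
    exact ⟨t, ht, Prod.ext e1 (funext e2)⟩
  | jump h1 h2 ih =>
    refine Relation.ReflTransGen.tail ih ?_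
    obtain ⟨t, ht, e1, e2⟩ := h2
    exact ⟨t, ht, Prod.ext e1 (funext e2)⟩

theorem complete {α : Type} {J : ℕ} (A : FA α J) (w : List α) (i : ℕ) (c : A.Q × (Fin J → ℕ))
    (h : ReachN (A.Step w) (A.start, fun _ => 0) i c) :
    ∃ s : (mach A w.length).S, s.1 = c.1 ∧ (∀ j, (s.2 j : ℕ) = c.2 j) ∧
      (mach A w.length).Reach w i 0 s := by
  induction h with
  | zero => exact ⟨(mach A w.length).start, rfl, fun _ => rfl, Machine.Reach.start⟩
  | @succ i c c' h1 h2 ih =>
    obtain ⟨s, e1, e2, hr⟩ := ih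
    obtain ⟨t, ht, rfl⟩ := h2
    have hle : ∀ j, (s.2 j : ℕ) ≤ w.length + 1 := fun j => Nat.lt_succ_iff.1 (s.2 j).2
    refine ⟨(t.1, fun j => ⟨move (w.length + 1) (s.2 j : ℕ) (t.2 j),
      Nat.lt_succ_iff.2 (move_le _ _ _ (hle j))⟩), rfl, fun j => ?_, ?_⟩
    · show move (w.length + 1) (s.2 j : ℕ) (t.2 j) = move (w.length + 1) (c.2 j) (t.2 j)
      rw [e2 j]
    · refine Machine.Reach.move hr ⟨t, ?_, rfl, fun _ => rfl⟩ fun j => move_near _ _ _ (hle j)
      have e3 : (fun j => tape w ((mach A w.length).pos s j)) = fun j => tape w (c.2 j) :=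
        funext fun j => congrArg (tape w) (e2 j)
      rw [e3, e1]
      exact ht

end EMB

theorem t_EMB : S_EMB := by
  intro α J n A
  refine ⟨EMB.mach A n, ?_, ?_⟩
  · show Nat.card (A.Q × (Fin J → Fin (n + 2))) = _
    rw [Nat.card_prod, Nat.card_fun]
    simp
  · rintro w rfl
    constructor
    · rintro ⟨t, r, i, _, k, _, s, hs, hr⟩
      exact ⟨_, EMB.sound A w i k s hr, hs⟩
    · rintro t ⟨i, hi, c, hc, ha⟩
      obtain ⟨s, e1, _, h⟩ := EMB.complete A w i c hc
      refine ⟨i, hi, 0, le_rfl, s, ?_, h⟩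
      show s.1 ∈ A.accept
      rw [e1]
      exact ha

end Pool.Agent.RLT
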