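import Pool.Agent.RLT.St3

/-!
# FNL: the final assembly
-/

set_option autoImplicit false

namespace Pool.Agent.RLT

open Pool.Agent.Heads

namespace FNL

/-- A code of the letters. -/
def code {M : ℕ} : Lt M → Option (Fin M) × Fin 10
  | .dig d => (some d, 0)
  | .nxt => (none, 1)
  | .psh => (none, 2)
  | .fin => (none, 3)
  | .opn => (none, 4)
  | .ent => (none, 5)
  | .unt => (none, 6)
  | .cls => (none, 7)
  | .chk => (none, 8)
  | .pad => (none, 9)

theorem code_inj {M : ℕ} : Function.Injective (code (M := M)) := by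
  intro a b h
  cases a <;> cases b <;> first | rfl | (simp [code] at h; try rw [h])

instance finite_Lt (M : ℕ) : Finite (Lt M) := Finite.of_injective _ code_inj

end FNL

open FNL in
theorem t_FNL (hRTP : S_RTP) (hINE : S_INE) (hPAR : S_PAR) : S_FNL := by
  intro k
  obtain ⟨C, c, E, hc, hE, hI⟩ := hINE k
  obtain ⟨M, γ, hM, hγ, hev⟩ := hPAR C c E hc hE
  have hM0 : NeZero M := ⟨by omega⟩
  refine ⟨Lt M, inferInstance, Lang M, ?_, γ, hγ, ?_⟩
  · obtain ⟨Mc, hdet, hlang, hreach⟩ := hRTP (Lt M) (Fin M × Fin (M + 1) × Option Bool × Bool)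
      Bool (stp M) (0, 0, none, true) (fun q g => q.2.2.2 && g.isNone)
    refine ⟨Mc, hdet, ?_, hreach⟩
    rw [hlang]
    ext w
    simp only [Set.mem_ofPred_eq, Lang, Bool.and_eq_true, Option.isNone_iff_eq_none,
      List.head?_eq_none_iff]
  · filter_upwards [hev] with n hn P hP
    obtain ⟨κ, b, p, h, m, hp, h2p, hMp, hκ, hb, hcm, hlen, hnn, hfin⟩ := hn
    have hpF : Fact p.Prime := ⟨hp⟩
    exact hfin _ (hI M κ b p h n m h2p hMp hκ hb hcm hlen hnn P hP)

end Pool.Agent.RLT
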