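import Pool.Agent.RLT.St4
import Pool.Agent.RLT.FNL

/-!
# FNB: the final assembly, strong form
-/

set_option autoImplicit false

namespace Pool.Agent.RLT

open Pool.Agent.Heads

namespace FNB

/-- The value at the root. -/
noncomputable def rt {M b h : ℕ} (p : ℕ) [NeZero M] [Fact p.Prime]
    (x : ((Fin h → Bool) × Fin h) × Fin b → Fin M) : ZMod p :=
  val h (fun w => ((lfN (fun j => ∑ i, x ((adr h w, j), i)) : ℕ) : ZMod p))

theorem key (K M b p h n : ℕ) [NeZero M] [Fact p.Prime] (B : ℕ → ℕ) (A0 : ℕ)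
    (hI : ∀ (P : Prog (Lt M) n) (T : Fin n → Lt M ⊕ (((Fin h → Bool) × Fin h) × Fin b))
      (ρ : ZMod p) (H : Finset (((Fin h → Bool) × Fin h) × Fin b → Fin M)),
      (∀ y k s, P.Reach (word T Lt.dig y) k s → s ∈ P.accept → rt p y = ρ) →
      (∀ x ∈ H, ∃ m' ≤ K * (2 ^ h * h * b), ∃ s ∈ P.accept, P.Reach (word T Lt.dig x) m' s) →
      H.card * A0 ≤ B (Nat.card P.S) * M ^ (2 ^ h * h * b))
    (T : Fin p → Fin n → Lt M ⊕ (((Fin h → Bool) × Fin h) × Fin b))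
    (hT1 : ∀ r x, List.ofFn (word (T r) Lt.dig x) ∈ Lang M ↔ rt p x = ((r : ℕ) : ZMod p))
    (hT2 : ∀ r v, ∃ i, T r i = Sum.inr v)
    (hT3 : ∀ r r' i v, T r i = Sum.inr v → T r' i = Sum.inr v)
    (kn : ℕ) (hkn : kn ≤ K * (2 ^ h * h * b)) :
    ∃ H : Finset (Fin n → Lt M), H.card = M ^ (2 ^ h * h * b) ∧
      (∀ w ∈ H, List.ofFn w ∈ Lang M) ∧
      ∀ P : Prog (Lt M) n, (∀ w m s, P.Reach w m s → s ∈ P.accept → List.ofFn w ∈ Lang M) →
        {w | w ∈ H ∧ ∃ m ≤ kn, ∃ s ∈ P.accept, P.Reach w m s}.ncard * A0 ≤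
          p * (B (Nat.card P.S) * M ^ (2 ^ h * h * b)) := by
  classical
  obtain ⟨r, hr⟩ : ∃ r : (((Fin h → Bool) × Fin h) × Fin b → Fin M) → Fin p,
      ∀ x, rt p x = ((r x : ℕ) : ZMod p) :=
    ⟨fun x => ⟨(rt p x).val, ZMod.val_lt _⟩, fun x => (ZMod.natCast_zmod_val (rt p x)).symm⟩
  obtain ⟨W, hW⟩ : ∃ W : (((Fin h → Bool) × Fin h) × Fin b → Fin M) → (Fin n → Lt M),
      ∀ x, W x = word (T (r x)) Lt.dig x := ⟨_, fun _ => rfl⟩
  have hinj : Function.Injective W := by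
    intro x y hxy
    funext v
    obtain ⟨i, hi⟩ := hT2 (r x) v
    have hi' := hT3 (r x) (r y) i v hi
    have h1 := congrFun hxy i
    rw [hW, hW] at h1
    unfold word at h1
    rw [hi, hi'] at h1
    simp only [Sum.elim_inr] at h1
    exact Lt.dig.inj h1
  refine ⟨Finset.univ.image W, ?_, ?_, ?_⟩
  · rw [Finset.card_image_of_injective _ hinj, Finset.card_univ]
    simp [Fintype.card_prod]
  · intro w hw
    obtain ⟨x, -, rfl⟩ := Finset.mem_image.mp hw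
    rw [hW]
    exact (hT1 _ _).mpr (hr x)
  · intro P hP
    have hset : {w | w ∈ Finset.univ.image W ∧ ∃ m ≤ kn, ∃ s ∈ P.accept, P.Reach w m s} =
        (((Finset.univ.filter fun x => ∃ m ≤ kn, ∃ s ∈ P.accept, P.Reach (W x) m s).image W :
          Finset (Fin n → Lt M)) : Set (Fin n → Lt M)) := by
      ext w
      simp only [Set.mem_ofPred_eq, Finset.coe_image, Set.mem_image, Finset.coe_filter,
        Finset.mem_univ, true_and, Finset.mem_image]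
      constructor
      · rintro ⟨⟨x, rfl⟩, hx⟩
        exact ⟨x, hx, rfl⟩
      · rintro ⟨x, hx, rfl⟩
        exact ⟨⟨x, rfl⟩, hx⟩
    rw [hset, Set.ncard_coe_finset, Finset.card_image_of_injective _ hinj]
    set A := Finset.univ.filter fun x => ∃ m ≤ kn, ∃ s ∈ P.accept, P.Reach (W x) m s with hA
    have hfib : A.card = ∑ ρ : Fin p, (A.filter fun x => r x = ρ).card :=
      Finset.card_eq_sum_card_fiberwise (fun x _ => Finset.mem_coe.mpr (Finset.mem_univ (r x)))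
    rw [hfib, Finset.sum_mul]
    refine le_trans (Finset.sum_le_sum fun ρ _ => hI P (T ρ) ((ρ : ℕ) : ZMod p) _ ?_ ?_) ?_
    · intro y k s hy hs
      exact (hT1 ρ y).mp (hP _ k s hy hs)
    · intro x hx
      obtain ⟨hx1, hx2⟩ := Finset.mem_filter.mp hx
      obtain ⟨-, m', hm', s, hs, hreach⟩ := Finset.mem_filter.mp hx1
      refine ⟨m', le_trans hm' hkn, s, hs, ?_⟩
      rw [hW, hx2] at hreach
      exact hreach
    · rw [Finset.sum_const, Finset.card_univ, Fintype.card_fin, smul_eq_mul]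

theorem arith {a A0 p Q Hc : ℕ} {N : ℝ} (h : a * A0 ≤ p * (Q * Hc)) (hp : 0 < p) (hQ : 0 < Q)
    (hN : N * ((p : ℝ) * (Q : ℝ)) ≤ (A0 : ℝ)) (hN0 : 0 < N) : (a : ℝ) ≤ N⁻¹ * (Hc : ℝ) := by
  have h1 : (a : ℝ) * (A0 : ℝ) ≤ (p : ℝ) * ((Q : ℝ) * (Hc : ℝ)) := by exact_mod_cast h
  have hpQ : (0 : ℝ) < (p : ℝ) * (Q : ℝ) := by
    have hp' : (0 : ℝ) < p := by exact_mod_cast hp
    have hQ' : (0 : ℝ) < Q := by exact_mod_cast hQ
    exact mul_pos hp' hQ'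
  have h2 : (a : ℝ) * (N * ((p : ℝ) * (Q : ℝ))) ≤ (Hc : ℝ) * ((p : ℝ) * (Q : ℝ)) := by
    refine le_trans (mul_le_mul_of_nonneg_left hN (Nat.cast_nonneg a)) (le_trans h1 (le_of_eq ?_))
    ring
  have h3 : (a : ℝ) * N ≤ (Hc : ℝ) := by
    have h4 : ((a : ℝ) * N) * ((p : ℝ) * (Q : ℝ)) ≤ (Hc : ℝ) * ((p : ℝ) * (Q : ℝ)) := by
      rw [mul_assoc]; exact h2
    exact le_of_mul_le_mul_right h4 hpQ
  rw [inv_mul_eq_div, le_div_iff₀ hN0]
  exact h3

end FNB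

open FNB FNL in
theorem t_FNB (hRTP : S_RTP) (hLEN : S_LEN) (hLNG2 : S_LNG2) (hCOR : S_COR) (hNUM : S_NUM)
    (hPRM : S_PRM) (hUPB : S_UPB) : S_FNB := by
  intro k
  obtain ⟨C, c, E, hc, hE, hCor⟩ := hCOR (2 * k)
  obtain ⟨g, hg, hnum⟩ := hNUM C c E hc hE
  obtain ⟨γ, hγ, hev⟩ := hnum (4 * g + 16)
  have hM0 : NeZero (2 ^ g) := ⟨(Nat.two_pow_pos g).ne'⟩
  have hlangset : {w : List (Lt (2 ^ g)) | (fun (q : Fin (2 ^ g) × Fin (2 ^ g + 1) × Option Bool ×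
      Bool) (o : Option Bool) => q.2.2.2 && o.isNone)
      (run (stp (2 ^ g)) w ((0, 0, none, true), [])).1
      (run (stp (2 ^ g)) w ((0, 0, none, true), [])).2.head? = true} = Lang (2 ^ g) := by
    ext w
    simp only [Set.mem_ofPred_eq, Lang, Bool.and_eq_true, Option.isNone_iff_eq_none,
      List.head?_eq_none_iff]
  refine ⟨Lt (2 ^ g), inferInstance, Lang (2 ^ g), ?_, ⟨γ, hγ, ?_⟩, ?_⟩
  · obtain ⟨Mc, hdet, hlang, hreach⟩ := hRTP (Lt (2 ^ g))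
      (Fin (2 ^ g) × Fin (2 ^ g + 1) × Option Bool × Bool)
      Bool (stp (2 ^ g)) (0, 0, none, true) (fun q g => q.2.2.2 && g.isNone)
    refine ⟨Mc, hdet, ?_, hreach⟩
    rw [hlang]
    exact hlangset
  · obtain ⟨h₀, hh₀⟩ := Filter.eventually_atTop.mp hev
    filter_upwards [hPRM g h₀ hg, Filter.eventually_ge_atTop 2] with n hn hn2
    obtain ⟨h, b, p, hh, h1h, hp, h2p, hMp, hp2, hb, hnD, hlen, hnn⟩ := hn
    obtain ⟨m, hcm, hN⟩ := hh₀ h hh
    have hpF : Fact p.Prime := ⟨hp⟩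
    have hlen2 : (treeT (2 ^ g) h b p h []).length + p ≤ n := by
      have := hLEN (2 ^ g) h b p h [] (Nat.one_le_two_pow) (le_of_lt hp.one_lt)
      omega
    obtain ⟨T, hT1, hT2, hT3⟩ := hLNG2 (2 ^ g) h b p h n hMp hlen2
    have hkn : k * n ≤ 2 * k * (2 ^ h * h * b) := by
      calc k * n ≤ k * (2 * (2 ^ h * h * b)) := Nat.mul_le_mul_left k hnn
        _ = 2 * k * (2 ^ h * h * b) := by ring
    obtain ⟨H, hHc, hHL, hHP⟩ := key (2 * k) (2 ^ g) b p h n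
      (fun s => 2 * s ^ C * 2 ^ (C + 1) * (2 ^ h) ^ (2 * m + 1) * (2 ^ h) ^ (2 * m) *
        (2 ^ (4 * h + 2)) ^ m) ((2 ^ g) ^ (m * (h / E)))
      (fun P T ρ H hs hf => hCor (2 ^ g) h b p h n m (Lt (2 ^ g)) P Lt.dig T ρ H h2p hMp h1h hb
        hcm hs hf) T hT1 hT2 hT3 (k * n) hkn
    have hn1 : (1 : ℝ) < (n : ℝ) := by exact_mod_cast (by omega : 1 < n)
    have hlog : 0 < γ * Real.log n := mul_pos hγ (Real.log_pos hn1)
    have hN0 : (0 : ℝ) < (n : ℝ) ^ (γ * Real.log n) := Real.rpow_pos_of_pos (by linarith) _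
    have hN1 : (1 : ℝ) < (n : ℝ) ^ (γ * Real.log n) := Real.one_lt_rpow hn1 hlog
    have hHpos : 0 < H.card := by rw [hHc]; exact pow_pos (Nat.two_pow_pos g) _
    -- the average case
    have havg : ∀ P : Prog (Lt (2 ^ g)) n,
        (∀ w m s, P.Reach w m s → s ∈ P.accept → List.ofFn w ∈ Lang (2 ^ g)) →
        (Nat.card P.S : ℝ) ≤ (n : ℝ) ^ (γ * Real.log n) →
        ({w | w ∈ H ∧ ∃ m ≤ k * n, ∃ s ∈ P.accept, P.Reach w m s}.ncard : ℝ) ≤
          (n : ℝ) ^ (-(γ * Real.log n)) * H.card := by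
      intro P hP hs
      have h1 := hHP P hP
      rw [← hHc] at h1
      have hfin := P.fin
      have hne : Nonempty P.S := ⟨P.start⟩
      have hSpos : 0 < Nat.card P.S := Nat.card_pos
      have hQ : 0 < 2 * (Nat.card P.S) ^ C * 2 ^ (C + 1) * (2 ^ h) ^ (2 * m + 1) *
          (2 ^ h) ^ (2 * m) * (2 ^ (4 * h + 2)) ^ m := by positivity
      rw [Real.rpow_neg (by linarith : (0 : ℝ) ≤ (n : ℝ))]
      refine arith h1 hp.pos hQ ?_ hN0
      have h2 := hN p n hp2 hn2 hnD (Nat.card P.S) hs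
      push_cast
      exact h2
    refine ⟨?_, H, Finset.card_pos.mp hHpos, hHL, havg⟩
    intro P hP
    by_contra hlt
    push Not at hlt
    have hsound : ∀ w m s, P.Reach w m s → s ∈ P.accept → List.ofFn w ∈ Lang (2 ^ g) :=
      fun w m s h1 h2 => (hP w).1 m s h1 h2
    have h1 := havg P hsound hlt.le
    have hset : {w | w ∈ H ∧ ∃ m ≤ k * n, ∃ s ∈ P.accept, P.Reach w m s} =
        (H : Set (Fin n → Lt (2 ^ g))) := by
      ext w
      simp only [Set.mem_ofPred_eq, Finset.mem_coe]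
      exact ⟨fun h => h.1, fun h => ⟨h, (hP w).2 (hHL w h)⟩⟩
    rw [hset, Set.ncard_coe_finset, Real.rpow_neg (by linarith : (0 : ℝ) ≤ (n : ℝ))] at h1
    have hHpos' : (0 : ℝ) < (H.card : ℝ) := by exact_mod_cast hHpos
    have h2 : ((n : ℝ) ^ (γ * Real.log n))⁻¹ < 1 := inv_lt_one_of_one_lt₀ hN1
    have h3 : ((n : ℝ) ^ (γ * Real.log n))⁻¹ * (H.card : ℝ) < 1 * (H.card : ℝ) :=
      mul_lt_mul_of_pos_right h2 hHpos'
    linarith
  · obtain ⟨C', hC'⟩ := hUPB (Lt (2 ^ g)) (Fin (2 ^ g) × Fin (2 ^ g + 1) × Option Bool × Bool)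
      Bool (stp (2 ^ g)) (0, 0, none, true) (fun q g => q.2.2.2 && g.isNone)
    refine ⟨C', fun n hn => ?_⟩
    obtain ⟨P, hP1, hP2⟩ := hC' n hn
    refine ⟨P, ?_, hP2⟩
    have h1 := hP1
    rw [hlangset] at h1
    exact h1

end Pool.Agent.RLT
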