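import Pool.Agent.RLT.St5
import Pool.Agent.RLT.FNB

/-!
# FNA: the final assembly, one language over a fixed alphabet
-/

set_option autoImplicit false

namespace Pool.Agent.RLT

open Pool.Agent.Heads

namespace FNA

/-- A code for the letters. -/
def code : LA → Fin 10
  | .bit false => 0
  | .bit true => 1
  | .psh => 2
  | .opn => 3
  | .ent => 4
  | .rnt => 5
  | .unt => 6
  | .cls => 7
  | .chk => 8
  | .pad => 9

theorem code_inj : Function.Injective code := by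
  intro a b h
  rcases a with (_ | _) | _ | _ | _ | _ | _ | _ | _ | _ <;>
  rcases b with (_ | _) | _ | _ | _ | _ | _ | _ | _ | _ <;>
  first
  | rfl
  | exact absurd h (by decide)

instance finite_LA : Finite LA := Finite.of_injective _ code_inj

theorem key (hSIM : S_SIM) (J t K g b p h n N : ℕ) [NeZero (2 ^ g)] [Fact p.Prime] (B : ℕ → ℕ)
    (hB : Monotone B) (A0 : ℕ) (hN : N = 2 ^ h * h * b)
    (hI : ∀ (P : Prog (Fin (2 ^ g)) N)
      (T : Fin N → Fin (2 ^ g) ⊕ (((Fin h → Bool) × Fin h) × Fin b)) (ρ : ZMod p)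
      (H : Finset (((Fin h → Bool) × Fin h) × Fin b → Fin (2 ^ g))),
      (∀ y k s, P.Reach (word T id y) k s → s ∈ P.accept → FNB.rt p y = ρ) →
      (∀ x ∈ H, ∃ m' ≤ K * N, ∃ s ∈ P.accept, P.Reach (word T id x) m' s) →
      H.card * A0 ≤ B (Nat.card P.S) * (2 ^ g) ^ N)
    (T : Fin p → Fin n → LA ⊕ ((((Fin h → Bool) × Fin h) × Fin b) × ℕ))
    (hT1 : ∀ r (x : ((Fin h → Bool) × Fin h) × Fin b → Fin (2 ^ g)),
      List.ofFn (bword (T r) encA x) ∈ LangA ↔ FNB.rt p x = ((r : ℕ) : ZMod p))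
    (hT2 : ∀ r v, ∀ l < g, ∃ i, T r i = Sum.inr (v, l))
    (hT3 : ∀ r r' i v, T r i = Sum.inr v → T r' i = Sum.inr v)
    (hT4 : ∀ r, Apart ((2 ^ g) ^ 2) (T r))
    (htn : J * (t * n / (2 ^ g) ^ 2 + 1) ≤ K * N) :
    ∃ H : Finset (List LA), H.card = (2 ^ g) ^ N ∧ (∀ w ∈ H, w ∈ LangA ∧ w.length = n) ∧
      ∀ A : FA LA J, (∀ w, w.length = n → A.Accepts w → w ∈ LangA) →
        {w | w ∈ H ∧ AcceptsIn A w (t * n)}.ncard * A0 ≤
          p * (B (Nat.card A.Q * (n + 2) ^ J * ((N * 2 ^ g + 1) ^ J * (J + 1) + 1)) *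
            (2 ^ g) ^ N) := by
  classical
  have hcardU : Fintype.card (((Fin h → Bool) × Fin h) × Fin b) = N := by
    rw [hN]
    simp [Fintype.card_prod]
  obtain ⟨e⟩ : Nonempty (Fin N ≃ (((Fin h → Bool) × Fin h) × Fin b)) :=
    ⟨(Fintype.equivFinOfCardEq hcardU).symm⟩
  obtain ⟨r, hr⟩ : ∃ r : (((Fin h → Bool) × Fin h) × Fin b → Fin (2 ^ g)) → Fin p,
      ∀ x, FNB.rt p x = ((r x : ℕ) : ZMod p) :=
    ⟨fun x => ⟨(FNB.rt p x).val, ZMod.val_lt _⟩,
      fun x => (ZMod.natCast_zmod_val (FNB.rt p x)).symm⟩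
  obtain ⟨W, hW⟩ : ∃ W : (((Fin h → Bool) × Fin h) × Fin b → Fin (2 ^ g)) → List LA,
      ∀ x, W x = List.ofFn (bword (T (r x)) encA x) := ⟨_, fun _ => rfl⟩
  have hinj : Function.Injective W := by
    intro x y hxy
    rw [hW, hW] at hxy
    have hxy' := List.ofFn_injective hxy
    funext v
    apply Fin.ext
    apply Nat.eq_of_testBit_eq
    intro l
    by_cases hl : l < g
    · obtain ⟨i, hi⟩ := hT2 (r x) v l hl
      have hi' := hT3 (r x) (r y) i (v, l) hi
      have h1 := congrFun hxy' i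
      unfold bword at h1
      rw [hi, hi'] at h1
      simp only [Sum.elim_inr] at h1
      unfold encA at h1
      exact LA.bit.inj h1
    · have hl' : 2 ^ g ≤ 2 ^ l := Nat.pow_le_pow_right (by norm_num) (by omega)
      rw [Nat.testBit_lt_two_pow (lt_of_lt_of_le (x v).2 hl'),
        Nat.testBit_lt_two_pow (lt_of_lt_of_le (y v).2 hl')]
  have hword : ∀ y : ((Fin h → Bool) × Fin h) × Fin b → Fin (2 ^ g),
      (word (fun i : Fin N => (Sum.inr (e i) : Fin (2 ^ g) ⊕ (((Fin h → Bool) × Fin h) × Fin b)))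
        id y) ∘ e.symm = y := by
    intro y
    funext u
    simp [word]
  refine ⟨Finset.univ.image W, ?_, ?_, ?_⟩
  · rw [Finset.card_image_of_injective _ hinj, Finset.card_univ, Fintype.card_fun,
      Fintype.card_fin, hcardU]
  · intro w hw
    obtain ⟨x, -, rfl⟩ := Finset.mem_image.mp hw
    rw [hW]
    exact ⟨(hT1 _ _).mpr (hr x), List.length_ofFn⟩
  · intro A hA
    have hset : {w | w ∈ Finset.univ.image W ∧ AcceptsIn A w (t * n)} =
        (((Finset.univ.filter fun x => AcceptsIn A (W x) (t * n)).image W :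
          Finset (List LA)) : Set (List LA)) := by
      ext w
      simp only [Set.mem_ofPred_eq, Finset.coe_image, Set.mem_image, Finset.coe_filter,
        Finset.mem_univ, true_and, Finset.mem_image]
      constructor
      · rintro ⟨⟨x, rfl⟩, hx⟩
        exact ⟨x, hx, rfl⟩
      · rintro ⟨x, hx, rfl⟩
        exact ⟨⟨x, rfl⟩, hx⟩
    rw [hset, Set.ncard_coe_finset, Finset.card_image_of_injective _ hinj]
    set S := Finset.univ.filter fun x => AcceptsIn A (W x) (t * n) with hS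
    have hfib : S.card = ∑ ρ : Fin p, (S.filter fun x => r x = ρ).card :=
      Finset.card_eq_sum_card_fiberwise (fun x _ => Finset.mem_coe.mpr (Finset.mem_univ (r x)))
    have hone : ∀ ρ : Fin p, (S.filter fun x => r x = ρ).card * A0 ≤
        B (Nat.card A.Q * (n + 2) ^ J * ((N * 2 ^ g + 1) ^ J * (J + 1) + 1)) * (2 ^ g) ^ N := by
      intro ρ
      obtain ⟨P, hP1, hP2, hP3⟩ := hSIM LA _ n (2 ^ g) J ((2 ^ g) ^ 2) N A (T ρ) encA e
        (Nat.one_le_pow _ _ (Nat.two_pow_pos g)) (hT4 ρ)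
      refine le_trans (hI P (fun i => Sum.inr (e i)) ((ρ : ℕ) : ZMod p) _ ?_ ?_)
        (Nat.mul_le_mul_right _ (hB hP3))
      · intro y k s hy hs
        have h1 := hP1 _ k s hy hs
        rw [hword y] at h1
        exact (hT1 ρ y).mp (hA _ List.length_ofFn h1)
      · intro x hx
        obtain ⟨hx1, hx2⟩ := Finset.mem_filter.mp hx
        obtain ⟨-, hacc⟩ := Finset.mem_filter.mp hx1
        rw [hW, hx2] at hacc
        obtain ⟨m, hm, s, hs, hreach⟩ := hP2
          (word (fun i : Fin N =>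
            (Sum.inr (e i) : Fin (2 ^ g) ⊕ (((Fin h → Bool) × Fin h) × Fin b))) id x) (t * n)
          (by rw [hword x]; exact hacc)
        exact ⟨m, le_trans hm htn, s, hs, hreach⟩
    rw [hfib, Finset.sum_mul]
    refine le_trans (Finset.sum_le_sum fun ρ _ => hone ρ) ?_
    rw [Finset.sum_const, Finset.card_univ, Fintype.card_fin, smul_eq_mul]

theorem poly (a k : ℕ) (c : ℝ) (hc : 0 < c) : ∀ᶠ n : ℕ in Filter.atTop,
    (a : ℝ) * (n : ℝ) ^ k ≤ (n : ℝ) ^ (c * Real.log n) := by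
  have hlog : Filter.Tendsto (fun n : ℕ => c * Real.log (n : ℝ)) Filter.atTop Filter.atTop :=
    (Real.tendsto_log_atTop.comp tendsto_natCast_atTop_atTop).const_mul_atTop hc
  filter_upwards [hlog.eventually_ge_atTop ((k : ℝ) + 1),
    Filter.eventually_ge_atTop (max a 1)] with n hn1 hn2
  have h1 : (1 : ℝ) ≤ n := by exact_mod_cast le_trans (le_max_right _ _) hn2
  have hna : (a : ℝ) ≤ n := by exact_mod_cast le_trans (le_max_left _ _) hn2
  have h0 : (n : ℝ) ≠ 0 := by linarith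
  calc (a : ℝ) * (n : ℝ) ^ k ≤ (n : ℝ) * (n : ℝ) ^ k :=
        mul_le_mul_of_nonneg_right hna (by positivity)
    _ = (n : ℝ) ^ ((k : ℝ) + 1) := by
      rw [Real.rpow_add_one h0, Real.rpow_natCast]
      ring
    _ ≤ _ := Real.rpow_le_rpow_of_exponent_le h1 hn1

end FNA

open FNA in
theorem t_FNA (hRTP : S_RTP) (hLEA : S_LEA) (hLNA : S_LNA) (hSIM : S_SIM) (hCOR : S_COR)
    (hNUM : S_NUM) (hPRA : S_PRA) : S_FNA := by
  have hmain : ∀ J t : ℕ, ∃ c : ℝ, 0 < c ∧ ∀ᶠ n : ℕ in Filter.atTop,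
      ∃ H : Finset (List LA), H.Nonempty ∧ (∀ w ∈ H, w ∈ LangA ∧ w.length = n) ∧
        ∀ A : FA LA J, (∀ w, w.length = n → A.Accepts w → w ∈ LangA) →
          (Nat.card A.Q : ℝ) * (n + 2) ^ J ≤ (n : ℝ) ^ (c * Real.log n) →
          ({w | w ∈ H ∧ AcceptsIn A w (t * n)}.ncard : ℝ) ≤
            (n : ℝ) ^ (-(c * Real.log n)) * H.card := by
    intro J t
    obtain ⟨C, c, E, hc, hE, hCor⟩ := hCOR (J * (4 * t + 1))
    obtain ⟨g, hg, hnum⟩ := hNUM C c E hc hE
    obtain ⟨γ, hγ, hev⟩ := hnum (4 * g + 16)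
    have hM0 : NeZero (2 ^ g) := ⟨(Nat.two_pow_pos g).ne'⟩
    refine ⟨γ / 2, by positivity, ?_⟩
    obtain ⟨h₀, hh₀⟩ := Filter.eventually_atTop.mp hev
    filter_upwards [hPRA g h₀ hg, Filter.eventually_ge_atTop 2,
      poly ((2 ^ g + 1) ^ J * (J + 1) + 1) J (γ / 2) (by positivity)] with n hn hn2 hpoly
    obtain ⟨h, b, p, hh, h1h, hp, h2p, hMp, hp2, hb, hnD, hlen, hnn⟩ := hn
    obtain ⟨m, hcm, hN⟩ := hh₀ h hh
    have hpF : Fact p.Prime := ⟨hp⟩
    have hlen2 : (treeA g h b p h []).length + p ≤ n :=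
      le_trans (Nat.add_le_add_right (hLEA g h b p h [] hg hp.one_lt.le) p) hlen
    obtain ⟨T, hT1, hT2, hT3, hT4⟩ := hLNA g h b p h n hg hMp hlen2
    have hN1 : 1 ≤ 2 ^ h * h * b := Nat.mul_pos (Nat.mul_pos (Nat.two_pow_pos h) h1h) hb
    have hNn : 2 ^ h * h * b ≤ n := by
      have h1 : h * b ≤ h * (b * ((2 ^ g) ^ 2 + 2 ^ g + g) + 2 ^ g + 2) := by
        apply Nat.mul_le_mul_left
        have h0 : b ≤ b * ((2 ^ g) ^ 2 + 2 ^ g + g) :=
          Nat.le_mul_of_pos_right b (Nat.add_pos_right _ hg)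
        exact le_trans h0 (le_trans (Nat.le_add_right _ _) (Nat.le_add_right _ _))
      have h2 : 2 ^ h * (h * b) ≤
          2 ^ h * (h * (b * ((2 ^ g) ^ 2 + 2 ^ g + g) + 2 ^ g + 2) + (2 ^ g) ^ (h + 2)) :=
        Nat.mul_le_mul_left _ (le_trans h1 (Nat.le_add_right _ _))
      have h3 : 2 ^ h * h * b = 2 ^ h * (h * b) := by ring
      omega
    have htn : J * (t * n / (2 ^ g) ^ 2 + 1) ≤ J * (4 * t + 1) * (2 ^ h * h * b) := by
      have h1 : t * n / (2 ^ g) ^ 2 ≤ 4 * t * (2 ^ h * h * b) := by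
        apply Nat.div_le_of_le_mul
        calc t * n ≤ t * (4 * (2 ^ g) ^ 2 * (2 ^ h * h * b)) := Nat.mul_le_mul_left t hnn
          _ = (2 ^ g) ^ 2 * (4 * t * (2 ^ h * h * b)) := by ring
      calc J * (t * n / (2 ^ g) ^ 2 + 1) ≤ J * (4 * t * (2 ^ h * h * b) + 2 ^ h * h * b) :=
            Nat.mul_le_mul_left J (Nat.add_le_add h1 hN1)
        _ = J * (4 * t + 1) * (2 ^ h * h * b) := by ring
    obtain ⟨H, hHc, hHL, hHP⟩ := key hSIM J t (J * (4 * t + 1)) g b p h n (2 ^ h * h * b)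
      (fun s => 2 * s ^ C * 2 ^ (C + 1) * (2 ^ h) ^ (2 * m + 1) * (2 ^ h) ^ (2 * m) *
        (2 ^ (4 * h + 2)) ^ m)
      (by
        intro x y hxy
        dsimp only
        gcongr)
      ((2 ^ g) ^ (m * (h / E))) rfl
      (fun P T ρ H hs hf => hCor (2 ^ g) h b p h (2 ^ h * h * b) m (Fin (2 ^ g)) P id T ρ H h2p
        hMp h1h hb hcm hs hf) T hT1 hT2 hT3 hT4 htn
    have hn1 : (1 : ℝ) < (n : ℝ) := by exact_mod_cast (by omega : 1 < n)
    have hlog : 0 < Real.log n := Real.log_pos hn1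
    have hN0 : (0 : ℝ) < (n : ℝ) ^ (γ * Real.log n) := Real.rpow_pos_of_pos (by linarith) _
    have hHpos : 0 < H.card := by
      rw [hHc]
      exact pow_pos (Nat.two_pow_pos g) _
    refine ⟨H, Finset.card_pos.mp hHpos, hHL, fun A hA hs => ?_⟩
    have h1 := hHP A hA
    rw [← hHc] at h1
    have hfin := A.finQ
    have hne : Nonempty A.Q := ⟨A.start⟩
    have hQpos : 0 < Nat.card A.Q := Nat.card_pos
    obtain ⟨s, hsdef⟩ : ∃ s : ℕ, s = Nat.card A.Q * (n + 2) ^ J *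
      ((2 ^ h * h * b * 2 ^ g + 1) ^ J * (J + 1) + 1) := ⟨_, rfl⟩
    rw [← hsdef] at h1
    have hspos : 0 < s := by
      rw [hsdef]
      positivity
    have hsle : (s : ℝ) ≤ (n : ℝ) ^ (γ * Real.log n) := by
      have e1 : (n : ℝ) ^ (γ * Real.log n) =
          (n : ℝ) ^ (γ / 2 * Real.log n) * (n : ℝ) ^ (γ / 2 * Real.log n) := by
        rw [← Real.rpow_add (by linarith : (0 : ℝ) < (n : ℝ))]
        congr 1
        ring
      have e2 : (2 ^ h * h * b * 2 ^ g + 1) ^ J * (J + 1) + 1 ≤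
          ((2 ^ g + 1) ^ J * (J + 1) + 1) * n ^ J := by
        have e3 : 2 ^ h * h * b * 2 ^ g + 1 ≤ (2 ^ g + 1) * n := by
          have e4 : 2 ^ h * h * b * 2 ^ g ≤ n * 2 ^ g := Nat.mul_le_mul_right _ hNn
          have e5 : (2 ^ g + 1) * n = n * 2 ^ g + n := by ring
          omega
        have e6 : 1 ≤ n ^ J := Nat.one_le_pow _ _ (by omega)
        calc (2 ^ h * h * b * 2 ^ g + 1) ^ J * (J + 1) + 1
            ≤ ((2 ^ g + 1) * n) ^ J * (J + 1) + n ^ J :=
              Nat.add_le_add (Nat.mul_le_mul_right _ (Nat.pow_le_pow_left e3 J)) e6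
          _ = ((2 ^ g + 1) ^ J * (J + 1) + 1) * n ^ J := by
              rw [mul_pow]
              ring
      have e7 : (((2 ^ h * h * b * 2 ^ g + 1) ^ J * (J + 1) + 1 : ℕ) : ℝ) ≤
          (n : ℝ) ^ (γ / 2 * Real.log n) := by
        refine le_trans ?_ hpoly
        exact_mod_cast e2
      rw [e1, hsdef, Nat.cast_mul]
      refine mul_le_mul ?_ e7 (Nat.cast_nonneg _) (by positivity)
      push_cast
      exact hs
    have hQ : 0 < 2 * s ^ C * 2 ^ (C + 1) * (2 ^ h) ^ (2 * m + 1) * (2 ^ h) ^ (2 * m) *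
        (2 ^ (4 * h + 2)) ^ m := by positivity
    have h2 := hN p n hp2 hn2 hnD s hsle
    have h3 := FNB.arith (N := (n : ℝ) ^ (γ * Real.log n)) h1 hp.pos hQ
      (by push_cast; exact h2) hN0
    refine le_trans h3 ?_
    rw [Real.rpow_neg (by linarith : (0 : ℝ) ≤ (n : ℝ))]
    refine mul_le_mul_of_nonneg_right ?_ (Nat.cast_nonneg _)
    refine inv_anti₀ (Real.rpow_pos_of_pos (by linarith) _)
      (Real.rpow_le_rpow_of_exponent_le hn1.le ?_)
    nlinarith [mul_pos hγ hlog]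
  refine ⟨LA, inferInstance, LangA, ?_, hmain, ?_⟩
  · obtain ⟨Mc, hdet, hlang, hreach⟩ := hRTP LA (Bool × Option Bool × Bool) Bool stpA
      (false, none, true) (fun q o => q.2.2 && o.isNone)
    refine ⟨Mc, hdet, ?_, hreach⟩
    rw [hlang]
    ext w
    simp only [Set.mem_ofPred_eq, LangA, Bool.and_eq_true, Option.isNone_iff_eq_none,
      List.head?_eq_none_iff]
  · intro J t A hA
    obtain ⟨c, hc, hev⟩ := hmain J t
    filter_upwards [hev, poly (Nat.card A.Q * 3 ^ J) J c hc,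
      Filter.eventually_ge_atTop 2] with n hn hpoly hn2
    obtain ⟨H, hne, hHL, hHA⟩ := hn
    by_contra hcon
    have hcon' : ∀ w ∈ LangA, w.length = n → AcceptsIn A w (t * n) := by
      intro w hw hwn
      by_contra hw'
      exact hcon ⟨w, hw, hwn, hw'⟩
    have hsound : ∀ w, w.length = n → A.Accepts w → w ∈ LangA := fun w _ hw => by
      rw [← hA]
      exact hw
    have hs : (Nat.card A.Q : ℝ) * (n + 2) ^ J ≤ (n : ℝ) ^ (c * Real.log n) := by
      refine le_trans ?_ hpoly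
      have h3 : Nat.card A.Q * (n + 2) ^ J ≤ Nat.card A.Q * 3 ^ J * n ^ J := by
        rw [mul_assoc, ← mul_pow]
        exact Nat.mul_le_mul_left _ (Nat.pow_le_pow_left (by omega) J)
      exact_mod_cast h3
    have h1 := hHA A hsound hs
    have hset : {w | w ∈ H ∧ AcceptsIn A w (t * n)} = (H : Set (List LA)) := by
      ext w
      simp only [Set.mem_ofPred_eq, Finset.mem_coe]
      exact ⟨fun h => h.1, fun h => ⟨h, hcon' w (hHL w h).1 (hHL w h).2⟩⟩
    have hn1 : (1 : ℝ) < (n : ℝ) := by exact_mod_cast (by omega : 1 < n)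
    rw [hset, Set.ncard_coe_finset, Real.rpow_neg (by linarith : (0 : ℝ) ≤ (n : ℝ))] at h1
    have hHpos : (0 : ℝ) < (H.card : ℝ) := by exact_mod_cast Finset.card_pos.mpr hne
    have hN1 : (1 : ℝ) < (n : ℝ) ^ (c * Real.log n) :=
      Real.one_lt_rpow hn1 (mul_pos hc (Real.log_pos hn1))
    have h2 : ((n : ℝ) ^ (c * Real.log n))⁻¹ < 1 := inv_lt_one_of_one_lt₀ hN1
    have h3 : ((n : ℝ) ^ (c * Real.log n))⁻¹ * (H.card : ℝ) < 1 * (H.card : ℝ) :=
      mul_lt_mul_of_pos_right h2 hHpos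
    linarith

end Pool.Agent.RLT
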