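import Pool.Agent.RLT.St7
import Pool.Agent.RLT.FNA

/-!
# FNV: the final assembly of Theorem V
-/

set_option autoImplicit false

namespace Pool.Agent.RLT

open Pool.Agent.Heads

namespace FNV

instance finite_Br : Finite Time.Br := by
  unfold Time.Br
  infer_instance

theorem mem_LangB (w : List (LA ⊕ Time.Br)) : w ∈ LangB ↔
    (fun (q : Bool × Option Bool × Bool) (o : Option Bool) => q.2.2 && o.isNone)
      (run stpB w ((false, none, true), [])).1
      (run stpB w ((false, none, true), [])).2.head? = true := by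
  simp only [Set.mem_ofPred_eq, LangB, Bool.and_eq_true, Option.isNone_iff_eq_none,
    List.head?_eq_none_iff]

end FNV

open FNV in
theorem t_FNV (hRTP : S_RTP) (hDYK : S_DYK) (hMAP : S_MAP) (hLOB : S_LOB) (hLBA : S_LBA)
    (hUPK : S_UPK) : S_FNV := by
  refine ⟨LA ⊕ Time.Br, inferInstance, LangB, ?_, hLOB, ?_, ?_⟩
  · obtain ⟨Mc, hdet, hlang, hreach⟩ := hRTP (LA ⊕ Time.Br) (Bool × Option Bool × Bool) Bool stpB
      (false, none, true) (fun q o => q.2.2 && o.isNone)
    refine ⟨Mc, hdet, ?_, hreach⟩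
    rw [hlang]
    ext w
    exact (mem_LangB w).symm
  · intro k t
    obtain ⟨τ, hτ, c, hc, hev⟩ := hLBA k t
    refine ⟨τ, hτ, c, hc, ?_⟩
    filter_upwards [hev] with n hn
    obtain ⟨H, hne, hHL, hHP⟩ := hn
    classical
    have hinj : Function.Injective (List.map (Sum.inl : LA → LA ⊕ Time.Br)) :=
      List.map_injective_iff.mpr Sum.inl_injective
    refine ⟨H.image (List.map Sum.inl), hne.image _, ?_, ?_⟩
    · intro w hw
      obtain ⟨v, hv, rfl⟩ := Finset.mem_image.mp hw
      exact ⟨(hDYK.1 v).mpr (hHL v hv).1, by rw [List.length_map]; exact (hHL v hv).2⟩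
    · intro P hP hcard
      obtain ⟨P', hc', hP'⟩ := (hMAP LA (LA ⊕ Time.Br) Sum.inl k).2 P
      have h1 := hHP P'
        (fun w hw ha => (hDYK.1 w).mp (hP _ (by rw [List.length_map]; exact hw)
          ((hP' w).1.mp ha)))
        (by rw [hc']; exact hcard)
      have hset : {w | w ∈ H.image (List.map (Sum.inl : LA → LA ⊕ Time.Br)) ∧
          P.AcceptsIn w (t * n) (n / τ)} =
          (List.map (Sum.inl : LA → LA ⊕ Time.Br)) ''
            {w | w ∈ H ∧ P'.AcceptsIn w (t * n) (n / τ)} := by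
        ext w
        simp only [Set.mem_ofPred_eq, Finset.mem_image, Set.mem_image]
        constructor
        · rintro ⟨⟨v, hv, rfl⟩, hw⟩
          exact ⟨v, ⟨hv, ((hP' v).2 _ _).mpr hw⟩, rfl⟩
        · rintro ⟨v, ⟨hv, hw⟩, rfl⟩
          exact ⟨⟨v, hv, rfl⟩, ((hP' v).2 _ _).mp hw⟩
      rw [hset, Set.ncard_image_of_injective _ hinj, Finset.card_image_of_injective _ hinj]
      exact h1
  · obtain ⟨C, hC⟩ := hUPK (LA ⊕ Time.Br) (Bool × Option Bool × Bool) Bool stpB
      (false, none, true) (fun q o => q.2.2 && o.isNone)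
    refine ⟨C, fun n hn => ?_⟩
    obtain ⟨P, hP1, hP2⟩ := hC n hn
    exact ⟨P, hP1, fun w hw => ⟨fun h => (mem_LangB w).mpr ((hP2 w hw).1 h),
      fun h => (hP2 w hw).2 ((mem_LangB w).mp h)⟩⟩

end Pool.Agent.RLT
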