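import Pool.Agent.RLT.St5

/-!
# RLT, module LEA: the length of the template of the tree over the fixed alphabet
-/

set_option autoImplicit false

namespace Pool.Agent.RLT

namespace LEA

theorem sum_list (n : ℕ) (f : ℕ → ℕ) :
    ((List.range n).map f).sum = ∑ x ∈ Finset.range n, f x := by
  induction n with
  | zero => rfl
  | succ n ih =>
    rw [List.range_succ, List.map_append, List.sum_append, ih, Finset.sum_range_succ]
    simp

theorem sum_mod (N : ℕ) :
    ∑ x ∈ Finset.range (2 * (N + 1) - 1), (x % (N + 1) + 1) = (N + 1) ^ 2 := by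
  have h0 : 2 * (N + 1) - 1 = (N + 1) + N := by omega
  rw [h0, Finset.sum_range_add]
  have h1 : ∑ x ∈ Finset.range (N + 1), (x % (N + 1) + 1) =
      ∑ x ∈ Finset.range (N + 1), x + (N + 1) := by
    rw [Finset.sum_add_distrib]
    congr 1
    · refine Finset.sum_congr rfl fun x hx => Nat.mod_eq_of_lt (Finset.mem_range.1 hx)
    · simp
  have h2 : ∑ x ∈ Finset.range N, ((N + 1 + x) % (N + 1) + 1) =
      ∑ x ∈ Finset.range N, x + N := by
    rw [Finset.sum_add_distrib]
    congr 1
    · refine Finset.sum_congr rfl fun x hx => ?_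
      rw [Nat.add_mod_left]
      exact Nat.mod_eq_of_lt ((Finset.mem_range.1 hx).trans (Nat.lt_succ_self N))
    · simp
  rw [h1, h2, Finset.sum_range_succ]
  have h3 := Finset.sum_range_id_mul_two N
  rcases Nat.eq_zero_or_pos N with h | h
  · subst h
    simp
  · obtain ⟨K, rfl⟩ : ∃ K, N = K + 1 := ⟨N - 1, by omega⟩
    rw [Nat.add_sub_cancel] at h3
    nlinarith

theorem red_length (g : ℕ) : (redT g).length = (2 ^ g) ^ 2 + 1 := by
  obtain ⟨N, hN⟩ : ∃ N, 2 ^ g = N + 1 := ⟨2 ^ g - 1, by have := Nat.one_le_two_pow (n := g); omega⟩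
  unfold redT
  rw [List.length_append, List.length_flatMap, sum_list, hN, List.length_singleton]
  congr 1
  rw [← sum_mod N]
  refine Finset.sum_congr rfl fun x _ => ?_
  rw [List.length_cons, List.length_replicate]

theorem rec_length {U : Type} (g : ℕ) (u : U) :
    (recT g u).length = (2 ^ g) ^ 2 + 2 ^ g + g := by
  unfold recT
  rw [List.length_append, List.length_map, red_length, List.length_flatMap, sum_list]
  have h1 : ∀ g : ℕ, ∑ j ∈ Finset.range g,
      (Sum.inr (u, j) :: List.replicate (2 ^ j) (Sum.inl LA.psh) : List (LA ⊕ (U × ℕ))).length + 1 =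
      2 ^ g + g := by
    intro g
    induction g with
    | zero => simp
    | succ g ih =>
      rw [Finset.sum_range_succ, List.length_cons, List.length_replicate, pow_succ]
      omega
  have h2 := h1 g
  omega

theorem dig_length (g j : ℕ) :
    (digT g j).length ≤ 2 ^ g + 2 ^ g * (2 ^ g - 1) * (2 ^ g) ^ j := by
  unfold digT
  rw [List.length_flatMap, sum_list]
  have h1 : ∑ D ∈ Finset.range (2 ^ g), (LA.ent :: List.replicate (D * (2 ^ g) ^ j) LA.unt).length ≤
      ∑ D ∈ Finset.range (2 ^ g), ((2 ^ g - 1) * (2 ^ g) ^ j + 1) := by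
    refine Finset.sum_le_sum fun D hD => ?_
    rw [List.length_cons, List.length_replicate]
    have h2 := Finset.mem_range.1 hD
    exact Nat.succ_le_succ (Nat.mul_le_mul_right _ (by omega))
  refine h1.trans (le_of_eq ?_)
  rw [Finset.sum_const, Finset.card_range, smul_eq_mul]
  ring

theorem sum_aux (N A κ : ℕ) :
    ∑ j ∈ Finset.range κ, (A + (N + 1) * N * (N + 1) ^ j) + (N + 1) =
      κ * A + (N + 1) ^ (κ + 1) := by
  induction κ with
  | zero => simp
  | succ κ ih =>
    rw [Finset.sum_range_succ, add_right_comm, ih]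
    ring

theorem leaf_length (g κ b : ℕ) (u : List Bool) :
    (leafA g κ b u).length ≤
      κ * (b * ((2 ^ g) ^ 2 + 2 ^ g + g) + 2 ^ g + 2) + (2 ^ g) ^ (κ + 2) := by
  obtain ⟨N, hN⟩ : ∃ N, 2 ^ g = N + 1 := ⟨2 ^ g - 1, by have := Nat.one_le_two_pow (n := g); omega⟩
  have h1 : (leafA g κ b u).length ≤ ∑ j ∈ Finset.range κ,
      (b * ((2 ^ g) ^ 2 + 2 ^ g + g) + 2 ^ g + 2 + 2 ^ g * (2 ^ g - 1) * (2 ^ g) ^ j) := by
    unfold leafA
    rw [List.length_flatMap, ← Fin.sum_univ_def, ← Fin.sum_univ_eq_sum_range (fun j =>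
      b * ((2 ^ g) ^ 2 + 2 ^ g + g) + 2 ^ g + 2 + 2 ^ g * (2 ^ g - 1) * (2 ^ g) ^ j)]
    refine Finset.sum_le_sum fun j _ => ?_
    rw [List.length_cons, List.length_append, List.length_append, List.length_map,
      List.length_singleton, List.length_flatMap]
    have h2 : ((List.finRange b).map fun i : Fin b =>
        (recT g (u, j, i) : List (LA ⊕ ((List Bool × Fin κ × Fin b) × ℕ))).length).sum =
        b * ((2 ^ g) ^ 2 + 2 ^ g + g) := by
      simp only [rec_length]
      rw [List.map_const', List.sum_replicate, List.length_finRange, smul_eq_mul]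
    rw [h2]
    have h3 := dig_length g j
    omega
  refine h1.trans ?_
  rw [hN, Nat.add_sub_cancel]
  have h2 := sum_aux N (b * ((N + 1) ^ 2 + (N + 1) + g) + (N + 1) + 2) κ
  have h3 : (N + 1) ^ (κ + 1) ≤ (N + 1) ^ (κ + 2) := Nat.pow_le_pow_right (Nat.succ_pos N) (by omega)
  omega

theorem table_length (p : ℕ) (hp : 1 ≤ p) : (tableA p).length ≤ 2 * p ^ 2 := by
  unfold tableA
  rw [List.length_flatMap]
  have h1 : ((List.range (2 * p - 1)).map fun x =>
      (LA.ent :: List.replicate (x ^ 2 % p) LA.unt : List LA).length).sum ≤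
      ((List.range (2 * p - 1)).map fun _ => p).sum := by
    refine List.sum_le_sum fun x _ => ?_
    rw [List.length_cons, List.length_replicate]
    exact Nat.mod_lt _ hp
  refine h1.trans ?_
  rw [List.map_const', List.sum_replicate, List.length_range, smul_eq_mul]
  calc (2 * p - 1) * p ≤ (2 * p) * p := Nat.mul_le_mul_right _ (Nat.sub_le _ _)
    _ = 2 * p ^ 2 := by ring

end LEA

open LEA in
theorem t_LEA : S_LEA := by
  intro g κ b p h u _ hp
  induction h generalizing u with
  | zero =>
    change (leafA g κ b u).length ≤ _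
    refine (leaf_length g κ b u).trans ?_
    simp
  | succ h ih =>
    have e : (treeA g κ b p (h + 1) u).length = (treeA g κ b p h (u ++ [false])).length +
        (treeA g κ b p h (u ++ [true])).length + (tableA p).length + 2 := by
      change (Sum.inl LA.opn :: (treeA g κ b p h (u ++ [false]) ++
        treeA g κ b p h (u ++ [true]) ++ (tableA p).map Sum.inl ++ [Sum.inl LA.cls]) :
          List (LA ⊕ ((List Bool × Fin κ × Fin b) × ℕ))).length = _
      rw [List.length_cons, List.length_append, List.length_append, List.length_append,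
        List.length_map, List.length_singleton]
    rw [e]
    have h1 := ih (u ++ [false])
    have h2 := ih (u ++ [true])
    have h3 := table_length p hp
    obtain ⟨X, hX⟩ : ∃ X, X = κ * (b * ((2 ^ g) ^ 2 + 2 ^ g + g) + 2 ^ g + 2) +
      (2 ^ g) ^ (κ + 2) := ⟨_, rfl⟩
    obtain ⟨Y, hY⟩ : ∃ Y, Y = 2 * p ^ 2 + 2 := ⟨_, rfl⟩
    rw [← hX, ← hY] at h1 h2 ⊢
    obtain ⟨z, hz⟩ : ∃ z, 2 ^ h = z + 1 :=
      ⟨2 ^ h - 1, by have := Nat.one_le_two_pow (n := h); omega⟩
    have e2 : 2 ^ (h + 1) * X + (2 ^ (h + 1) - 1) * Y =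
        2 * (2 ^ h * X + (2 ^ h - 1) * Y) + Y := by
      rw [pow_succ, hz]
      have e3 : (z + 1) * 2 - 1 = 2 * z + 1 := by omega
      rw [e3, Nat.add_sub_cancel]
      ring
    rw [e2]
    omega

end Pool.Agent.RLT
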