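import Pool.Agent.RLT.St3

/-!
# RLT_LNG: the templates of the words of the language
-/

set_option autoImplicit false

namespace Pool.Agent.RLT

open Pool.Agent.Heads

namespace LNG

theorem ofFn_get {β γ : Type} {n : ℕ} (f : β → γ) (l : List β) (hl : l.length = n) :
    List.ofFn (fun i : Fin n => f (l.get (i.cast hl.symm))) = l.map f := by
  subst hl
  rw [← List.ofFn_get (l.map f)]
  refine List.ext_getElem (by simp) fun i h1 h2 => ?_
  simp

theorem run_append {α Q Γ : Type} (stp : α → Q → Option Γ → Q × Op Γ) (w w' : List α)
    (c : Q × List Γ) : run stp (w ++ w') c = run stp w' (run stp w c) := by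
  unfold run
  rw [List.foldl_append]

theorem run_chk (M : ℕ) [NeZero M] (s : Fin M) (c : Fin (M + 1)) (md : Option Bool) (r : ℕ) :
    ∀ (V : ℕ) (ok : Bool), run (stp M) (List.replicate r Lt.chk)
      ((s, c, md, ok), List.replicate V true) =
        ((s, c, md, ok && decide (r ≤ V)), List.replicate (V - r) true) := by
  induction r with
  | zero => intro V ok; simp [run]
  | succ r ih =>
    intro V ok
    have e : run (stp M) (List.replicate (r + 1) Lt.chk) ((s, c, md, ok), List.replicate V true) =
        run (stp M) (List.replicate r Lt.chk)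
          ((stp M Lt.chk (s, c, md, ok) (List.replicate V true).head?).1,
            (stp M Lt.chk (s, c, md, ok) (List.replicate V true).head?).2.apply
              (List.replicate V true)) := rfl
    rw [e]
    cases V with
    | zero =>
      have h := ih 0 false
      have h2 : ((stp M Lt.chk (s, c, md, ok) (List.replicate 0 true).head?).1,
            (stp M Lt.chk (s, c, md, ok) (List.replicate 0 true).head?).2.apply
              (List.replicate 0 true)) = ((s, c, md, false), List.replicate 0 true) := rfl
      rw [h2, h]
      simp
    | succ V =>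
      have h := ih V ok
      have h2 : ((stp M Lt.chk (s, c, md, ok) (List.replicate (V + 1) true).head?).1,
            (stp M Lt.chk (s, c, md, ok) (List.replicate (V + 1) true).head?).2.apply
              (List.replicate (V + 1) true)) = ((s, c, md, ok), List.replicate V true) := rfl
      rw [h2, h]
      simp

theorem run_pad (M : ℕ) [NeZero M] (k : ℕ)
    (c : (Fin M × Fin (M + 1) × Option Bool × Bool) × List Bool) :
    run (stp M) (List.replicate k Lt.pad) c = c := by
  induction k with
  | zero => rfl
  | succ k ih => exact ih

end LNG

theorem t_LNG (hWRD : S_WRD) : S_LNG := by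
  intro M κ b p h n _ _ hMp hn
  have hlen : ∀ r : Fin p, ((treeT M κ b p h []).map (Sum.map id
      (fun v : List Bool × Fin κ × Fin b => ((adr h v.1, v.2.1), v.2.2))) ++
      (List.replicate (r : ℕ) (Sum.inl Lt.chk) ++
        List.replicate (n - (treeT M κ b p h []).length - r) (Sum.inl Lt.pad)) :
      List (Lt M ⊕ (((Fin h → Bool) × Fin κ) × Fin b))).length = n := by
    intro r
    have hr := r.2
    simp only [List.length_append, List.length_map, List.length_replicate]
    omega
  refine ⟨fun r i => List.get _ (i.cast (hlen r).symm), fun r x => ?_⟩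
  have e1 : List.ofFn (word (fun i : Fin n => List.get _ (i.cast (hlen r).symm)) Lt.dig x) =
      ev (fun v : List Bool × Fin κ × Fin b => x ((adr h v.1, v.2.1), v.2.2))
        (treeT M κ b p h []) ++ (List.replicate (r : ℕ) Lt.chk ++
          List.replicate (n - (treeT M κ b p h []).length - r) Lt.pad) := by
    have h1 := LNG.ofFn_get (Sum.elim id fun v => Lt.dig (x v)) _ (hlen r)
    refine Eq.trans h1 ?_
    rw [List.map_append, List.map_append, List.map_replicate, List.map_replicate, List.map_map]
    congr 1
    refine List.map_congr_left fun a _ => ?_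
    cases a <;> rfl
  rw [e1]
  obtain ⟨V, hV⟩ : ∃ V : ZMod p, V = val h (fun w =>
      ((lfN (fun j => ∑ i, x ((adr h w, j), i)) : ℕ) : ZMod p)) := ⟨_, rfl⟩
  have e2 : run (stp M) (ev (fun v : List Bool × Fin κ × Fin b => x ((adr h v.1, v.2.1), v.2.2))
      (treeT M κ b p h [])) ((0, 0, none, true), []) =
      ((0, 0, none, true), List.replicate V.val true) := by
    have h1 := hWRD M κ b p hMp h [] (fun v => x ((adr h v.1, v.2.1), v.2.2)) []
    rw [h1, List.append_nil, hV]
    rfl
  rw [← hV]
  unfold Lang
  rw [Set.mem_ofPred_eq, LNG.run_append, LNG.run_append, e2, LNG.run_chk, LNG.run_pad]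
  have hval : V = ((r : ℕ) : ZMod p) ↔ V.val = r := by
    constructor
    · rintro rfl
      exact ZMod.val_natCast_of_lt r.2
    · intro h
      rw [← h, ZMod.natCast_zmod_val]
  rw [hval]
  simp only [Bool.true_and, decide_eq_true_eq, List.replicate_eq_nil_iff]
  omega

end Pool.Agent.RLT
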