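import Pool.Agent.RLT.St4
import Pool.Agent.RLT.LNG

/-!
# RLT_LNG2: the templates of the words of the language, with their variables
-/

set_option autoImplicit false

namespace Pool.Agent.RLT

open Pool.Agent.Heads

namespace LNG2

theorem mem_leaf (M κ b : ℕ) (u : List Bool) (j : Fin κ) (i : Fin b) :
    Sum.inr (u, j, i) ∈ leafT M κ b u := by
  unfold leafT
  rw [List.mem_flatMap]
  refine ⟨j, List.mem_finRange j, ?_⟩
  rw [List.append_assoc, List.mem_append]
  left
  rw [List.mem_map]
  exact ⟨i, List.mem_finRange i, rfl⟩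

theorem mem_tree (M κ b p : ℕ) (j : Fin κ) (i : Fin b) (h : ℕ) :
    ∀ (u w : List Bool), w.length = h → Sum.inr (u ++ w, j, i) ∈ treeT M κ b p h u := by
  induction h with
  | zero =>
    intro u w hw
    rw [List.length_eq_zero_iff.1 hw, List.append_nil]
    exact mem_leaf M κ b u j i
  | succ h ih =>
    intro u w hw
    cases w with
    | nil => simp at hw
    | cons c w =>
      have hw' : w.length = h := by simpa using hw
      have h1 := ih (u ++ [c]) w hw'
      rw [List.append_assoc, List.singleton_append] at h1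
      simp only [treeT, List.mem_cons, List.mem_append]
      right
      left
      left
      cases c
      · exact Or.inl h1
      · exact Or.inr h1

theorem adr_ofFn (h : ℕ) (v : Fin h → Bool) : adr h (List.ofFn v) = v := by
  funext t
  unfold adr
  rw [List.getD_eq_getElem?_getD, List.getElem?_ofFn]
  simp

end LNG2

theorem t_LNG2 (hWRD : S_WRD) : S_LNG2 := by
  intro M κ b p h n _ _ hMp hn
  obtain ⟨L0, hL0⟩ : ∃ L0 : List (Lt M ⊕ (((Fin h → Bool) × Fin κ) × Fin b)), L0 =
      (treeT M κ b p h []).map (Sum.map id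
      (fun v : List Bool × Fin κ × Fin b => ((adr h v.1, v.2.1), v.2.2))) := ⟨_, rfl⟩
  obtain ⟨rest, hrest⟩ : ∃ rest : Fin p → List (Lt M), rest = (fun r : Fin p =>
      List.replicate (r : ℕ) Lt.chk ++
        List.replicate (n - (treeT M κ b p h []).length - (r : ℕ)) Lt.pad) := ⟨_, rfl⟩
  have hlen0 : L0.length = (treeT M κ b p h []).length := by
    rw [hL0, List.length_map]
  have hlen : ∀ r : Fin p, (L0 ++ (rest r).map Sum.inl).length = n := by
    intro r
    have hr := r.2
    rw [hrest]
    simp only [List.length_append, List.length_map, List.length_replicate, hlen0]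
    omega
  refine ⟨fun r i => List.get _ (i.cast (hlen r).symm), fun r x => ?_, fun r v => ?_,
    fun r r' i v hv => ?_⟩
  · have e1 : List.ofFn (word (fun i : Fin n => List.get _ (i.cast (hlen r).symm)) Lt.dig x) =
        ev (fun v : List Bool × Fin κ × Fin b => x ((adr h v.1, v.2.1), v.2.2))
          (treeT M κ b p h []) ++ (List.replicate (r : ℕ) Lt.chk ++
            List.replicate (n - (treeT M κ b p h []).length - r) Lt.pad) := by
      have h1 := LNG.ofFn_get (Sum.elim id fun v => Lt.dig (x v)) _ (hlen r)
      refine Eq.trans h1 ?_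
      rw [List.map_append, List.map_map, hL0, List.map_map, hrest]
      congr 1
      · refine List.map_congr_left fun a _ => ?_
        cases a <;> rfl
      · exact List.map_id _
    rw [e1]
    obtain ⟨V, hV⟩ : ∃ V : ZMod p, V = val h (fun w =>
        ((lfN (fun j => ∑ i, x ((adr h w, j), i)) : ℕ) : ZMod p)) := ⟨_, rfl⟩
    have e2 : run (stp M) (ev (fun v : List Bool × Fin κ × Fin b => x ((adr h v.1, v.2.1), v.2.2))
        (treeT M κ b p h [])) ((0, 0, none, true), []) =
        ((0, 0, none, true), List.replicate V.val true) := by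
      have h1 := hWRD M κ b p hMp h [] (fun v => x ((adr h v.1, v.2.1), v.2.2)) []
      rw [h1, List.append_nil, hV]
      rfl
    rw [← hV]
    unfold Lang
    rw [Set.mem_ofPred_eq, LNG.run_append, LNG.run_append, e2, LNG.run_chk, LNG.run_pad]
    have hval : V = ((r : ℕ) : ZMod p) ↔ V.val = r := by
      constructor
      · rintro rfl
        exact ZMod.val_natCast_of_lt r.2
      · intro h
        rw [← h, ZMod.natCast_zmod_val]
    rw [hval]
    simp only [Bool.true_and, decide_eq_true_eq, List.replicate_eq_nil_iff]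
    omega
  · obtain ⟨⟨v, j⟩, i⟩ := v
    have h1 : Sum.inr (List.ofFn v, j, i) ∈ treeT M κ b p h [] :=
      LNG2.mem_tree M κ b p j i h [] (List.ofFn v) (List.length_ofFn)
    have h2 : Sum.inr ((v, j), i) ∈ L0 := by
      rw [hL0, List.mem_map]
      refine ⟨_, h1, ?_⟩
      show Sum.inr ((adr h (List.ofFn v), j), i) = _
      rw [LNG2.adr_ofFn]
    have h3 : Sum.inr ((v, j), i) ∈ L0 ++ (rest r).map Sum.inl := List.mem_append_left _ h2
    obtain ⟨t, ht⟩ := List.get_of_mem h3
    refine ⟨t.cast (hlen r), ?_⟩
    exact ht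
  · have h1 : (L0 ++ (rest r).map Sum.inl)[(i : ℕ)]'(by rw [hlen r]; exact i.2) = Sum.inr v := hv
    show (L0 ++ (rest r').map Sum.inl)[(i : ℕ)]'(by rw [hlen r']; exact i.2) = Sum.inr v
    by_cases hi : (i : ℕ) < L0.length
    · rw [List.getElem_append_left hi] at h1 ⊢
      exact h1
    · rw [List.getElem_append_right (not_lt.1 hi), List.getElem_map] at h1
      exact absurd h1 (by simp)

end Pool.Agent.RLT
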