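import Pool.Agent.RLT.St5
import Pool.Agent.RLT.LNG2
import Pool.Agent.RLT.LEA

/-!
# RLT_LNA: the templates of the words of the language over the fixed alphabet
-/

set_option autoImplicit false

namespace Pool.Agent.RLT

open Pool.Agent.Heads

namespace LNA

/-- Entries with different names are more than `τ` places apart, and the last entry with a name is
at least `τ` places before the end. -/
def Good {β U : Type} (τ : ℕ) (l : List (β ⊕ (U × ℕ))) : Prop :=
  (∀ (i i' : ℕ) (u u' : U) (j j' : ℕ), l[i]? = some (Sum.inr (u, j)) →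
    l[i']? = some (Sum.inr (u', j')) → u ≠ u' → i + τ < i' ∨ i' + τ < i) ∧
  ∀ (i : ℕ) (u : U) (j : ℕ), l[i]? = some (Sum.inr (u, j)) → i + τ < l.length

theorem good_inl {β U : Type} (τ : ℕ) (l : List β) :
    Good τ (l.map (Sum.inl : β → β ⊕ (U × ℕ))) := by
  have h : ∀ (i : ℕ) (u : U) (j : ℕ),
      (l.map (Sum.inl : β → β ⊕ (U × ℕ)))[i]? ≠ some (Sum.inr (u, j)) := by
    intro i u j hi
    have h1 := List.mem_of_getElem? hi
    rw [List.mem_map] at h1
    obtain ⟨a, _, ha⟩ := h1
    exact absurd ha (by simp)
  exact ⟨fun i i' u u' j j' h1 => absurd h1 (h i u j), fun i u j h1 => absurd h1 (h i u j)⟩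

theorem good_append {β U : Type} (τ : ℕ) (l l' : List (β ⊕ (U × ℕ))) (h : Good τ l)
    (h' : Good τ l') : Good τ (l ++ l') := by
  refine ⟨fun i i' u u' j j' h1 h2 hu => ?_, fun i u j h1 => ?_⟩
  · by_cases hi : i < l.length
    · rw [List.getElem?_append_left hi] at h1
      by_cases hi' : i' < l.length
      · rw [List.getElem?_append_left hi'] at h2
        exact h.1 i i' u u' j j' h1 h2 hu
      · have := h.2 i u j h1
        omega
    · rw [List.getElem?_append_right (not_lt.1 hi)] at h1
      by_cases hi' : i' < l.length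
      · rw [List.getElem?_append_left hi'] at h2
        have := h.2 i' u' j' h2
        omega
      · rw [List.getElem?_append_right (not_lt.1 hi')] at h2
        have := h'.1 _ _ u u' j j' h1 h2 hu
        omega
  · rw [List.length_append]
    by_cases hi : i < l.length
    · rw [List.getElem?_append_left hi] at h1
      have := h.2 i u j h1
      omega
    · rw [List.getElem?_append_right (not_lt.1 hi)] at h1
      have := h'.2 _ u j h1
      omega

theorem good_cons {β U : Type} (τ : ℕ) (a : β) (l : List (β ⊕ (U × ℕ))) (h : Good τ l) :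
    Good τ (Sum.inl a :: l) := by
  have h1 := good_append τ _ l (good_inl (U := U) τ [a]) h
  simpa using h1

theorem good_flatMap {β U ι : Type} (τ : ℕ) (f : ι → List (β ⊕ (U × ℕ))) (l : List ι)
    (h : ∀ a ∈ l, Good τ (f a)) : Good τ (l.flatMap f) := by
  induction l with
  | nil => simpa using good_inl (β := β) (U := U) τ []
  | cons a l ih =>
    rw [List.flatMap_cons]
    exact good_append τ _ _ (h a List.mem_cons_self)
      (ih fun b hb => h b (List.mem_cons_of_mem _ hb))

theorem good_map {β U V : Type} (τ : ℕ) (f : U → V) (l : List (β ⊕ (U × ℕ))) (h : Good τ l) :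
    Good τ (l.map (Sum.map id (fun v : U × ℕ => (f v.1, v.2)))) := by
  have key : ∀ (i : ℕ) (v : V) (j : ℕ),
      (l.map (Sum.map id (fun v : U × ℕ => (f v.1, v.2))))[i]? = some (Sum.inr (v, j)) →
      ∃ u, f u = v ∧ l[i]? = some (Sum.inr (u, j)) := by
    intro i v j hi
    rw [List.getElem?_map, Option.map_eq_some_iff] at hi
    obtain ⟨a, ha, hb⟩ := hi
    cases a with
    | inl a => exact absurd hb (by simp)
    | inr a =>
      obtain ⟨u, j'⟩ := a
      have h1 : (f u, j') = (v, j) := Sum.inr_injective hb
      have h2 : f u = v := congrArg Prod.fst h1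
      have h3 : j' = j := congrArg Prod.snd h1
      subst h3
      exact ⟨u, h2, ha⟩
  refine ⟨fun i i' v v' j j' h1 h2 hv => ?_, fun i v j h1 => ?_⟩
  · obtain ⟨u, hu, h3⟩ := key i v j h1
    obtain ⟨u', hu', h4⟩ := key i' v' j' h2
    refine h.1 i i' u u' j j' h3 h4 ?_
    rintro rfl
    exact hv (hu.symm.trans hu')
  · obtain ⟨u, _, h3⟩ := key i v j h1
    rw [List.length_map]
    exact h.2 i u j h3

theorem good_rec {U : Type} (g : ℕ) (u : U) : Good ((2 ^ g) ^ 2) (recT g u) := by
  unfold recT
  obtain ⟨A, hA⟩ : ∃ A : List (LA ⊕ (U × ℕ)), A = (List.range g).flatMap fun j =>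
      Sum.inr (u, j) :: List.replicate (2 ^ j) (Sum.inl LA.psh) := ⟨_, rfl⟩
  rw [← hA]
  have hA1 : ∀ (v : U) (j : ℕ), Sum.inr (v, j) ∈ A → v = u := by
    intro v j h
    rw [hA, List.mem_flatMap] at h
    obtain ⟨k, _, hk⟩ := h
    rw [List.mem_cons] at hk
    rcases hk with hk | hk
    · exact congrArg Prod.fst (Sum.inr_injective hk)
    · exact absurd (List.eq_of_mem_replicate hk) (by simp)
  have hr : ((redT g).map (Sum.inl : LA → LA ⊕ (U × ℕ))).length = (2 ^ g) ^ 2 + 1 := by
    rw [List.length_map, LEA.red_length]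
  have key : ∀ (i : ℕ) (v : U) (j : ℕ),
      (A ++ (redT g).map Sum.inl)[i]? = some (Sum.inr (v, j)) → v = u ∧ i < A.length := by
    intro i v j h
    by_cases hi : i < A.length
    · rw [List.getElem?_append_left hi] at h
      exact ⟨hA1 v j (List.mem_of_getElem? h), hi⟩
    · rw [List.getElem?_append_right (not_lt.1 hi)] at h
      have h1 := List.mem_of_getElem? h
      rw [List.mem_map] at h1
      obtain ⟨a, _, ha⟩ := h1
      exact absurd ha (by simp)
  refine ⟨fun i i' v v' j j' h1 h2 hv => ?_, fun i v j h1 => ?_⟩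
  · exact absurd ((key i v j h1).1.trans (key i' v' j' h2).1.symm) hv
  · have h2 := (key i v j h1).2
    rw [List.length_append, hr]
    omega

theorem good_leaf (g κ b : ℕ) (u : List Bool) : Good ((2 ^ g) ^ 2) (leafA g κ b u) := by
  unfold leafA
  refine good_flatMap _ _ _ fun j _ => good_cons _ _ _ ?_
  refine good_append _ _ _ (good_append _ _ _ (good_flatMap _ _ _ fun i _ => good_rec g _)
    (good_inl _ _)) ?_
  exact good_inl _ [LA.cls]

theorem good_tree (g κ b p : ℕ) : ∀ (h : ℕ) (u : List Bool),
    Good ((2 ^ g) ^ 2) (treeA g κ b p h u)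
  | 0, u => good_leaf g κ b u
  | h + 1, u => by
    unfold treeA
    refine good_cons _ _ _ ?_
    refine good_append _ _ _ (good_append _ _ _ (good_append _ _ _ (good_tree g κ b p h _)
      (good_tree g κ b p h _)) (good_inl _ _)) ?_
    exact good_inl _ [LA.cls]

theorem mem_rec {U : Type} (g : ℕ) (u : U) (l : ℕ) (hl : l < g) :
    Sum.inr (u, l) ∈ recT g u := by
  unfold recT
  rw [List.mem_append]
  left
  rw [List.mem_flatMap]
  exact ⟨l, List.mem_range.2 hl, List.mem_cons_self⟩

theorem mem_leaf (g κ b : ℕ) (u : List Bool) (j : Fin κ) (i : Fin b) (l : ℕ) (hl : l < g) :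
    Sum.inr ((u, j, i), l) ∈ leafA g κ b u := by
  unfold leafA
  rw [List.mem_flatMap]
  refine ⟨j, List.mem_finRange j, ?_⟩
  rw [List.mem_cons, List.mem_append, List.mem_append]
  right
  left
  left
  rw [List.mem_flatMap]
  exact ⟨i, List.mem_finRange i, mem_rec g _ l hl⟩

theorem mem_tree (g κ b p : ℕ) (j : Fin κ) (i : Fin b) (l : ℕ) (hl : l < g) (h : ℕ) :
    ∀ (u w : List Bool), w.length = h → Sum.inr ((u ++ w, j, i), l) ∈ treeA g κ b p h u := by
  induction h with
  | zero =>
    intro u w hw
    rw [List.length_eq_zero_iff.1 hw, List.append_nil]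
    exact mem_leaf g κ b u j i l hl
  | succ h ih =>
    intro u w hw
    cases w with
    | nil => simp at hw
    | cons c w =>
      have hw' : w.length = h := by simpa using hw
      have h1 := ih (u ++ [c]) w hw'
      rw [List.append_assoc, List.singleton_append] at h1
      simp only [treeA, List.mem_cons, List.mem_append]
      right
      left
      left
      cases c
      · exact Or.inl h1
      · exact Or.inr h1

theorem run_chk (lb : Bool) (r : ℕ) :
    ∀ (V : ℕ) (ok : Bool), run stpA (List.replicate r LA.chk)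
      ((lb, none, ok), List.replicate V true) =
        ((lb, none, ok && decide (r ≤ V)), List.replicate (V - r) true) := by
  induction r with
  | zero => intro V ok; simp [run]
  | succ r ih =>
    intro V ok
    have e : run stpA (List.replicate (r + 1) LA.chk) ((lb, none, ok), List.replicate V true) =
        run stpA (List.replicate r LA.chk)
          ((stpA LA.chk (lb, none, ok) (List.replicate V true).head?).1,
            (stpA LA.chk (lb, none, ok) (List.replicate V true).head?).2.apply
              (List.replicate V true)) := rfl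
    rw [e]
    cases V with
    | zero =>
      have h := ih 0 false
      have h2 : ((stpA LA.chk (lb, none, ok) (List.replicate 0 true).head?).1,
            (stpA LA.chk (lb, none, ok) (List.replicate 0 true).head?).2.apply
              (List.replicate 0 true)) = ((lb, none, false), List.replicate 0 true) := rfl
      rw [h2, h]
      simp
    | succ V =>
      have h := ih V ok
      have h2 : ((stpA LA.chk (lb, none, ok) (List.replicate (V + 1) true).head?).1,
            (stpA LA.chk (lb, none, ok) (List.replicate (V + 1) true).head?).2.apply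
              (List.replicate (V + 1) true)) = ((lb, none, ok), List.replicate V true) := rfl
      rw [h2, h]
      simp

theorem run_pad (k : ℕ) (c : (Bool × Option Bool × Bool) × List Bool) :
    run stpA (List.replicate k LA.pad) c = c := by
  induction k with
  | zero => rfl
  | succ k ih => exact ih

end LNA

theorem t_LNA (hWRA : S_WRA) : S_LNA := by
  intro g κ b p h n _ hg hMp hn
  obtain ⟨f, hf⟩ : ∃ f : List Bool × Fin κ × Fin b → ((Fin h → Bool) × Fin κ) × Fin b,
      f = fun v => ((adr h v.1, v.2.1), v.2.2) := ⟨_, rfl⟩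
  obtain ⟨L0, hL0⟩ : ∃ L0 : List (LA ⊕ ((((Fin h → Bool) × Fin κ) × Fin b) × ℕ)), L0 =
      (treeA g κ b p h []).map (Sum.map id
      (fun v : (List Bool × Fin κ × Fin b) × ℕ => (f v.1, v.2))) := ⟨_, rfl⟩
  obtain ⟨rest, hrest⟩ : ∃ rest : Fin p → List LA, rest = (fun r : Fin p =>
      List.replicate (r : ℕ) LA.chk ++
        List.replicate (n - (treeA g κ b p h []).length - (r : ℕ)) LA.pad) := ⟨_, rfl⟩
  have hlen0 : L0.length = (treeA g κ b p h []).length := by
    rw [hL0, List.length_map]
  have hlen : ∀ r : Fin p, (L0 ++ (rest r).map Sum.inl).length = n := by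
    intro r
    have hr := r.2
    rw [hrest]
    simp only [List.length_append, List.length_map, List.length_replicate, hlen0]
    omega
  refine ⟨fun r i => List.get _ (i.cast (hlen r).symm), fun r x => ?_, fun r v l hl => ?_,
    fun r r' i v hv => ?_, fun r => ?_⟩
  · have e1 : List.ofFn (bword (fun i : Fin n => List.get _ (i.cast (hlen r).symm)) encA x) =
        evA (fun v : List Bool × Fin κ × Fin b => x (f v))
          (treeA g κ b p h []) ++ (List.replicate (r : ℕ) LA.chk ++
            List.replicate (n - (treeA g κ b p h []).length - r) LA.pad) := by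
      have h1 := LNG.ofFn_get (Sum.elim id fun v => encA (x v.1) v.2) _ (hlen r)
      refine Eq.trans h1 ?_
      rw [List.map_append, List.map_map, hL0, List.map_map, hrest]
      congr 1
      · refine List.map_congr_left fun a _ => ?_
        cases a <;> rfl
      · exact List.map_id _
    rw [e1]
    obtain ⟨V, hV⟩ : ∃ V : ZMod p, V = val h (fun w =>
        ((lfN (fun j => ∑ i, x ((adr h w, j), i)) : ℕ) : ZMod p)) := ⟨_, rfl⟩
    obtain ⟨lb', e2⟩ : ∃ lb' : Bool, run stpA (evA (fun v : List Bool × Fin κ × Fin b => x (f v))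
        (treeA g κ b p h [])) ((false, none, true), []) =
        ((lb', none, true), List.replicate V.val true) := by
      obtain ⟨lb', h1⟩ := hWRA g κ b p hMp h [] (fun v => x (f v)) false []
      refine ⟨lb', ?_⟩
      rw [h1, List.append_nil, hV, hf]
      rfl
    rw [← hV]
    unfold LangA
    rw [Set.mem_ofPred_eq, LNG.run_append, LNG.run_append, e2, LNA.run_chk, LNA.run_pad]
    have hval : V = ((r : ℕ) : ZMod p) ↔ V.val = r := by
      constructor
      · rintro rfl
        exact ZMod.val_natCast_of_lt r.2
      · intro h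
        rw [← h, ZMod.natCast_zmod_val]
    rw [hval]
    simp only [Bool.true_and, decide_eq_true_eq, List.replicate_eq_nil_iff]
    omega
  · obtain ⟨⟨v, j⟩, i⟩ := v
    have h1 : Sum.inr ((List.ofFn v, j, i), l) ∈ treeA g κ b p h [] :=
      LNA.mem_tree g κ b p j i l hl h [] (List.ofFn v) (List.length_ofFn)
    have h2 : Sum.inr (((v, j), i), l) ∈ L0 := by
      rw [hL0, List.mem_map]
      refine ⟨_, h1, ?_⟩
      rw [hf]
      show Sum.inr (((adr h (List.ofFn v), j), i), l) = _
      rw [LNG2.adr_ofFn]
    have h3 : Sum.inr (((v, j), i), l) ∈ L0 ++ (rest r).map Sum.inl :=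
      List.mem_append_left _ h2
    obtain ⟨t, ht⟩ := List.get_of_mem h3
    refine ⟨t.cast (hlen r), ?_⟩
    exact ht
  · have h1 : (L0 ++ (rest r).map Sum.inl)[(i : ℕ)]'(by rw [hlen r]; exact i.2) = Sum.inr v := hv
    show (L0 ++ (rest r').map Sum.inl)[(i : ℕ)]'(by rw [hlen r']; exact i.2) = Sum.inr v
    by_cases hi : (i : ℕ) < L0.length
    · rw [List.getElem_append_left hi] at h1 ⊢
      exact h1
    · rw [List.getElem_append_right (not_lt.1 hi), List.getElem_map] at h1
      exact absurd h1 (by simp)
  · have hgood : LNA.Good ((2 ^ g) ^ 2) (L0 ++ (rest r).map Sum.inl) := by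
      refine LNA.good_append _ _ _ ?_ (LNA.good_inl _ _)
      rw [hL0]
      exact LNA.good_map _ f _ (LNA.good_tree g κ b p h [])
    intro i i' u u' j j' h1 h2 hu
    refine hgood.1 i i' u u' j j' ?_ ?_ hu
    · rw [List.getElem?_eq_getElem (by rw [hlen r]; exact i.2)]
      exact congrArg some h1
    · rw [List.getElem?_eq_getElem (by rw [hlen r]; exact i'.2)]
      exact congrArg some h2

end Pool.Agent.RLT
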