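import Pool.Agent.RLT.St4

/-!
# MP_5e85fc_lc, project RLT: module NUM (numerics)
-/

set_option autoImplicit false

namespace Pool.Agent.RLT

namespace NUM

theorem xs (C c D : ℕ) (hc : 1 ≤ c) (h m n s : ℕ) (hn : 2 ≤ n) (hnD : n ≤ 2 ^ (D * h))
    (hm : h ≤ 2 * c * m)
    (hs : (s : ℝ) ≤ (n : ℝ) ^ ((1 / (2 * c * (C + 1) * (D + 1) ^ 2) : ℝ) * Real.log n)) :
    (n : ℝ) ^ ((1 / (2 * c * (C + 1) * (D + 1) ^ 2) : ℝ) * Real.log n) * (s : ℝ) ^ C ≤
      2 ^ (m * h) := by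
  set γ : ℝ := (1 / (2 * c * (C + 1) * (D + 1) ^ 2) : ℝ) with hγ
  have hn0 : (0 : ℝ) < n := by exact_mod_cast (by omega : 0 < n)
  have hc0 : (1 : ℝ) ≤ c := by exact_mod_cast hc
  have hC0 : (0 : ℝ) ≤ C := Nat.cast_nonneg C
  have hD0 : (0 : ℝ) ≤ D := Nat.cast_nonneg D
  have hx0 : (0 : ℝ) ≤ (n : ℝ) ^ (γ * Real.log n) := Real.rpow_nonneg hn0.le _
  have h1 : (n : ℝ) ^ (γ * Real.log n) * (s : ℝ) ^ C ≤ ((n : ℝ) ^ (γ * Real.log n)) ^ (C + 1) := by
    rw [pow_succ, mul_comm]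
    exact mul_le_mul_of_nonneg_right (pow_le_pow_left₀ (Nat.cast_nonneg s) hs C) hx0
  refine h1.trans ?_
  have hL0 : 0 ≤ Real.log n := Real.log_nonneg (by exact_mod_cast (by omega : 1 ≤ n))
  have hl2 : 0 < Real.log 2 := Real.log_pos (by norm_num)
  have hl2' : Real.log 2 ≤ 1 := by
    have := Real.log_two_lt_d9
    linarith
  have hL1 : Real.log n ≤ D * h * Real.log 2 := by
    have : Real.log n ≤ Real.log ((2 : ℝ) ^ (D * h)) :=
      Real.log_le_log hn0 (by exact_mod_cast hnD)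
    rw [Real.log_pow] at this
    push_cast at this
    exact this
  rw [Real.rpow_def_of_pos hn0, ← Real.exp_nat_mul, ← Real.rpow_natCast, Real.rpow_def_of_pos
    (by norm_num : (0 : ℝ) < 2)]
  apply Real.exp_le_exp.2
  have hmr : (h : ℝ) ≤ 2 * c * m := by exact_mod_cast hm
  have hh0 : (0 : ℝ) ≤ h := Nat.cast_nonneg h
  have hL2 : Real.log n * Real.log n ≤ (D * h * Real.log 2) * (D * h * Real.log 2) :=
    mul_le_mul hL1 hL1 hL0 (by positivity)
  have hγC : ((C + 1 : ℕ) : ℝ) * γ = 1 / (2 * c * (D + 1) ^ 2) := by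
    rw [hγ]
    push_cast
    field_simp
  have e1 : ((C + 1 : ℕ) : ℝ) * (Real.log n * (γ * Real.log n)) =
      1 / (2 * c * (D + 1) ^ 2) * (Real.log n * Real.log n) := by
    rw [← hγC]; ring
  rw [e1]
  have hpos : (0 : ℝ) < 2 * c * (D + 1) ^ 2 := by positivity
  rw [one_div, inv_mul_le_iff₀ hpos]
  refine hL2.trans ?_
  push_cast
  have a1 : (D * h * Real.log 2) * (D * h * Real.log 2) ≤
      ((D + 1) * (D + 1)) * (h * (2 * c * m)) * (Real.log 2 * 1) := by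
    have b1 : (D : ℝ) * D ≤ (D + 1) * (D + 1) := by nlinarith
    have b2 : (h : ℝ) * h ≤ h * (2 * c * m) := mul_le_mul_of_nonneg_left hmr hh0
    have b3 : Real.log 2 * Real.log 2 ≤ Real.log 2 * 1 := mul_le_mul_of_nonneg_left hl2' hl2.le
    calc (D * h * Real.log 2) * (D * h * Real.log 2)
        = ((D * D) * (h * h)) * (Real.log 2 * Real.log 2) := by ring
      _ ≤ _ := by
        apply mul_le_mul _ b3 (by positivity) (by positivity)
        exact mul_le_mul b1 b2 (by positivity) (by positivity)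
  refine a1.trans (le_of_eq ?_)
  ring

theorem expo (C E g h m : ℕ) (hE : 1 ≤ E) (hg : g = 64 * E) (h1 : 2 * E ≤ h) (h2 : C + 5 ≤ h)
    (h3 : g + 1 ≤ m) :
    m * h + (1 + g * h + (1 + (C + 1) + h * (2 * m + 1) + h * (2 * m) + (4 * h + 2) * m)) ≤
      g * (m * (h / E)) := by
  have hd : h < E * (h / E) + E := by
    have := Nat.div_add_mod h E
    have h5 := Nat.mod_lt h (by omega : 0 < E)
    omega
  have hr : 32 * h ≤ g * (h / E) := by
    rw [hg, mul_assoc]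
    omega
  have hr2 : 32 * (m * h) ≤ g * (m * (h / E)) := by
    calc 32 * (m * h) = m * (32 * h) := by ring
      _ ≤ m * (g * (h / E)) := Nat.mul_le_mul_left _ hr
      _ = _ := by ring
  have h4 : (g + 1) * h ≤ m * h := Nat.mul_le_mul_right _ h3
  have h5 : m * 1 ≤ m * h := Nat.mul_le_mul_left _ (by omega)
  have h6 : 1 * h ≤ m * h := Nat.mul_le_mul_right _ (by omega)
  refine le_trans ?_ hr2
  nlinarith

theorem gen (a b c d e f : ℕ) : (2 : ℝ) ^ a * ((2 * 2 ^ b) * (2 * 2 ^ c * 2 ^ d * 2 ^ e * 2 ^ f)) =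
    2 ^ (a + (1 + b + (1 + c + d + e + f))) := by
  ring

end NUM

theorem t_NUM : S_NUM := by
  intro C c E hc hE
  refine ⟨64 * E, by omega, fun D => ⟨(1 / (2 * c * (C + 1) * (D + 1) ^ 2) : ℝ), by
    have : (1 : ℝ) ≤ c := by exact_mod_cast hc
    positivity, ?_⟩⟩
  filter_upwards [Filter.eventually_ge_atTop (2 * E + C + 5 + c * (64 * E + 4))] with h hh
  have hc4 : 4 * c ≤ h := by nlinarith
  have hcg : c * (64 * E + 2) ≤ h := by nlinarith
  have hq : 64 * E + 2 ≤ h / c := by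
    rw [Nat.le_div_iff_mul_le (by omega)]
    rw [mul_comm]; exact hcg
  have hdm := Nat.div_add_mod h c
  have hml := Nat.mod_lt h (by omega : 0 < c)
  obtain ⟨m, hm⟩ : ∃ m, h / c = m + 1 := ⟨h / c - 1, by omega⟩
  rw [hm] at hdm hq
  refine ⟨m, by omega, ?_⟩
  intro p n hp hn hnD s hs
  have hm2 : h ≤ 2 * c * m := by nlinarith
  have hX := NUM.xs C c D hc h m n s hn hnD hm2 hs
  have hexp := NUM.expo C E (64 * E) h m hE rfl (by omega) (by omega) (by omega)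
  set X : ℝ := (n : ℝ) ^ ((1 / (2 * c * (C + 1) * (D + 1) ^ 2) : ℝ) * Real.log n) with hXd
  have hpr : (p : ℝ) ≤ 2 * 2 ^ (64 * E * h) := by
    have : p ≤ 2 * 2 ^ (64 * E * h) := by
      rw [pow_mul]; exact hp
    exact_mod_cast this
  have hX0 : 0 ≤ X := Real.rpow_nonneg (Nat.cast_nonneg n) _
  calc X * (p * (2 * (s : ℝ) ^ C * 2 ^ (C + 1) * (2 ^ h) ^ (2 * m + 1) *
      (2 ^ h) ^ (2 * m) * (2 ^ (4 * h + 2)) ^ m))
      = (X * (s : ℝ) ^ C) * (p * (2 * 2 ^ (C + 1) * (2 ^ h) ^ (2 * m + 1) *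
      (2 ^ h) ^ (2 * m) * (2 ^ (4 * h + 2)) ^ m)) := by ring
    _ ≤ 2 ^ (m * h) * ((2 * 2 ^ (64 * E * h)) * (2 * 2 ^ (C + 1) * (2 ^ h) ^ (2 * m + 1) *
      (2 ^ h) ^ (2 * m) * (2 ^ (4 * h + 2)) ^ m)) := by
        apply mul_le_mul hX _ (by positivity) (by positivity)
        exact mul_le_mul_of_nonneg_right hpr (by positivity)
    _ = 2 ^ (m * h + (1 + 64 * E * h + (1 + (C + 1) + h * (2 * m + 1) + h * (2 * m) +
          (4 * h + 2) * m))) := by
        rw [← NUM.gen, ← pow_mul, ← pow_mul, ← pow_mul]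
    _ ≤ 2 ^ (64 * E * (m * (h / E))) := pow_le_pow_right₀ (by norm_num) hexp
    _ = _ := by rw [pow_mul]

end Pool.Agent.RLT
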