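import Pool.Agent.RLT.St5

/-!
# MP_5e85fc_lc, project RLT: the lengths (module PRA)
-/

set_option autoImplicit false

namespace Pool.Agent.RLT

namespace PRA

/-- the main estimate -/
theorem bound {M y z h R p : ℕ} (hM : 2 ≤ M) (hyz : y ≤ z) (hy : 1 ≤ y) (hh : h ≤ y)
    (hbig : 6 * M ^ 2 + 4 * M + 24 ≤ y) (hR : R ≤ 2 * M ^ 2) (hp : p ≤ 2 * z) :
    2 * ((y * (h * (M + 2) + z * M ^ 2) + (y - 1) * (2 * p ^ 2 + 2) + p) + y * h * R) ≤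
      z ^ 2 * y ^ 8 := by
  have hz : 1 ≤ z := hy.trans hyz
  have hyz2 : 1 ≤ y * z ^ 2 := Nat.one_le_iff_ne_zero.2 (by positivity)
  have a1 : y * (h * (M + 2)) ≤ y * z ^ 2 * (2 * M) := by
    calc y * (h * (M + 2)) ≤ y * (z * (2 * M)) :=
          Nat.mul_le_mul_left _ (Nat.mul_le_mul (hh.trans hyz) (by omega))
      _ ≤ y * (z ^ 2 * (2 * M)) := Nat.mul_le_mul_left _ (Nat.mul_le_mul_right _ (by nlinarith))
      _ = _ := by ring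
  have a2 : y * (z * M ^ 2) ≤ y * z ^ 2 * M ^ 2 := by
    calc y * (z * M ^ 2) ≤ y * (z ^ 2 * M ^ 2) :=
          Nat.mul_le_mul_left _ (Nat.mul_le_mul_right _ (by nlinarith))
      _ = _ := by ring
  have a3 : (y - 1) * (2 * p ^ 2 + 2) ≤ y * z ^ 2 * 10 := by
    have hp2 : p ^ 2 ≤ (2 * z) ^ 2 := Nat.pow_le_pow_left hp 2
    calc (y - 1) * (2 * p ^ 2 + 2) ≤ y * (10 * z ^ 2) :=
          Nat.mul_le_mul (Nat.sub_le _ _) (by nlinarith)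
      _ = _ := by ring
  have a4 : p ≤ y * z ^ 2 * 2 := by nlinarith
  have a5 : y * h * R ≤ y * z ^ 2 * (2 * M ^ 2) := by
    calc y * h * R ≤ y * z * (2 * M ^ 2) :=
          Nat.mul_le_mul (Nat.mul_le_mul_left _ (hh.trans hyz)) hR
      _ ≤ y * z ^ 2 * (2 * M ^ 2) := Nat.mul_le_mul_right _ (Nat.mul_le_mul_left _ (by nlinarith))
  have a6 : y ≤ y ^ 7 := Nat.le_self_pow (by norm_num) y
  calc 2 * ((y * (h * (M + 2) + z * M ^ 2) + (y - 1) * (2 * p ^ 2 + 2) + p) + y * h * R)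
      ≤ 2 * (y * z ^ 2 * (2 * M) + y * z ^ 2 * M ^ 2 + y * z ^ 2 * 10 + y * z ^ 2 * 2 +
        y * z ^ 2 * (2 * M ^ 2)) := by rw [mul_add y]; omega
    _ = y * z ^ 2 * (6 * M ^ 2 + 4 * M + 24) := by ring
    _ ≤ y * z ^ 2 * y ^ 7 := Nat.mul_le_mul_left _ (hbig.trans a6)
    _ = z ^ 2 * y ^ 8 := by ring

end PRA

open PRA in
theorem t_PRA : S_PRA := by
  intro g h₀ hg
  have hM : 2 ≤ 2 ^ g := by
    calc 2 = 2 ^ 1 := (pow_one 2).symm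
      _ ≤ 2 ^ g := Nat.pow_le_pow_right two_pos hg
  filter_upwards [Filter.eventually_ge_atTop
    (2 ^ ((2 * g + 8) * (h₀ + (6 * (2 ^ g) ^ 2 + 4 * 2 ^ g + 24))))] with n hn
  have hn0 : n ≠ 0 := by
    have : 0 < 2 ^ ((2 * g + 8) * (h₀ + (6 * (2 ^ g) ^ 2 + 4 * 2 ^ g + 24))) := by positivity
    omega
  have hL := (Nat.le_log_iff_pow_le one_lt_two hn0).2 hn
  obtain ⟨h, hh⟩ : ∃ h, h = Nat.log 2 n / (2 * g + 8) := ⟨_, rfl⟩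
  have hh1 : h₀ + (6 * (2 ^ g) ^ 2 + 4 * 2 ^ g + 24) ≤ h := by
    rw [hh, Nat.le_div_iff_mul_le (by omega), mul_comm]
    exact hL
  have hlow : 2 ^ ((2 * g + 8) * h) ≤ n := by
    refine (Nat.le_log_iff_pow_le one_lt_two hn0).1 ?_
    rw [hh, mul_comm]
    exact Nat.div_mul_le_self _ _
  have hup : n < 2 ^ ((2 * g + 8) * (h + 1)) := by
    refine (Nat.log_lt_iff_lt_pow one_lt_two hn0).1 ?_
    rw [hh]
    exact Nat.lt_mul_div_succ _ (by omega)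
  have hz0 : (2 ^ g) ^ h ≠ 0 := by positivity
  obtain ⟨p, hp, hp1, hp2⟩ := Nat.exists_prime_lt_and_le_two_mul _ hz0
  have hh2 : 1 ≤ h := by omega
  have hyz : 2 ^ h ≤ (2 ^ g) ^ h := Nat.pow_le_pow_left hM h
  have hhy : h < 2 ^ h := Nat.lt_two_pow_self
  have hgM : g < 2 ^ g := Nat.lt_two_pow_self
  have hR : (2 ^ g) ^ 2 + 2 ^ g + g ≤ 2 * (2 ^ g) ^ 2 := by nlinarith
  have hb := bound (M := 2 ^ g) (y := 2 ^ h) (z := (2 ^ g) ^ h) (h := h)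
    (R := (2 ^ g) ^ 2 + 2 ^ g + g) (p := p) hM hyz Nat.one_le_two_pow hhy.le (by omega) hR hp2
  have e1 : ((2 ^ g) ^ h) ^ 2 * (2 ^ h) ^ 8 = 2 ^ ((2 * g + 8) * h) := by
    rw [← pow_mul, ← pow_mul, ← pow_mul, ← pow_add]
    congr 1
    ring
  rw [e1] at hb
  have hb2 := hb.trans hlow
  obtain ⟨O, hO⟩ : ∃ O, O = 2 ^ h * (h * (2 ^ g + 2) + (2 ^ g) ^ h * (2 ^ g) ^ 2) +
    (2 ^ h - 1) * (2 * p ^ 2 + 2) + p := ⟨_, rfl⟩
  obtain ⟨Q, hQ⟩ : ∃ Q, Q = 2 ^ h * h * ((2 ^ g) ^ 2 + 2 ^ g + g) := ⟨_, rfl⟩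
  rw [← hO, ← hQ] at hb2
  have hQ0 : 0 < Q := by
    rw [hQ]
    have : 0 < h := hh2
    positivity
  have hd1 := Nat.div_mul_le_self (n - O) Q
  have hd2 := Nat.lt_mul_div_succ (n - O) hQ0
  obtain ⟨b, hbb⟩ : ∃ b, b = (n - O) / Q := ⟨_, rfl⟩
  rw [← hbb] at hd1 hd2
  have hd3 : Q * (b + 1) = b * Q + Q := by ring
  rw [hd3] at hd2
  have hnb : n ≤ 2 * (b * Q) := by omega
  refine ⟨h, b, p, by omega, hh2, hp, by omega, hp1.le, hp2, ?_, ?_, ?_, ?_⟩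
  · rcases Nat.eq_zero_or_pos b with h0 | h0
    · rw [h0] at hnb
      omega
    · exact h0
  · refine hup.le.trans (Nat.pow_le_pow_right two_pos ?_)
    calc (2 * g + 8) * (h + 1) ≤ (2 * g + 8) * (2 * h) := Nat.mul_le_mul_left _ (by omega)
      _ = (4 * g + 16) * h := by ring
  · have e2 : 2 ^ h * (h * (b * ((2 ^ g) ^ 2 + 2 ^ g + g) + 2 ^ g + 2) + (2 ^ g) ^ (h + 2)) +
        (2 ^ h - 1) * (2 * p ^ 2 + 2) + p = b * Q + O := by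
      rw [hO, hQ, pow_add (2 ^ g) h 2]
      ring
    rw [e2]
    omega
  · calc n ≤ 2 * (b * Q) := hnb
      _ = 2 * (2 ^ h * h * b) * ((2 ^ g) ^ 2 + 2 ^ g + g) := by rw [hQ]; ring
      _ ≤ 2 * (2 ^ h * h * b) * (2 * (2 ^ g) ^ 2) := Nat.mul_le_mul_left _ hR
      _ = 4 * (2 ^ g) ^ 2 * (2 ^ h * h * b) := by ring

end Pool.Agent.RLT
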