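import Pool.Agent.RLT.St3

/-!
# RLT_RTP: real-time deterministic machines are deterministic one-way pushdown automata
-/

set_option autoImplicit false

namespace Pool.Agent.RLT

open Pool.Agent.Heads

namespace RTP

variable {α Q Γ : Type}

/-- The transitions; the state `none` is the accepting state. -/
def dl (stp : α → Q → Option Γ → Q × Op Γ) (fin : Q → Option Γ → Bool) :
    Option Q → Sym α → Option Γ → Option (Option Q × (Fin 1 → Dir) × Op Γ)
  | some s, Sym.left, _ => some (some s, fun _ => Dir.R, Op.none)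
  | some s, Sym.letter a, g => some (some (stp a s g).1, fun _ => Dir.R, (stp a s g).2)
  | some s, Sym.right, g =>
      if fin s g = true then some (none, fun _ => Dir.S, Op.none) else none
  | none, _, _ => none

variable [hQ : Finite Q] [hΓ : Finite Γ]

/-- The automaton. -/
def aut (stp : α → Q → Option Γ → Q × Op Γ) (q₀ : Q) (fin : Q → Option Γ → Bool) : PDA α 1 where
  Q := Option Q
  Γ := Γ
  finQ := inferInstance
  finΓ := hΓ
  start := some q₀
  accept := {none}
  δ := fun q x g => {t | dl stp fin q (x 0) g = some t}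

variable (stp : α → Q → Option Γ → Q × Op Γ) (q₀ : Q) (fin : Q → Option Γ → Bool)

lemma det : (aut stp q₀ fin).Det := by
  intro q x g a ha b hb
  have ha' : dl stp fin q (x 0) g = some a := ha
  have hb' : dl stp fin q (x 0) g = some b := hb
  rw [ha'] at hb'
  exact Option.some.inj hb'

lemma step_iff (w : List α) (c c' : Cfg (Option Q) (Fin 1 → ℕ) Γ) :
    (aut stp q₀ fin).Step w c c' ↔ ∃ t, dl stp fin c.state (tape w (c.pos 0)) c.stack.head? = some t ∧
      c' = ⟨t.1, fun i => move (w.length + 1) (c.pos i) (t.2.1 i), t.2.2.apply c.stack⟩ :=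
  Iff.rfl

/-- The configuration after `t` steps. -/
def mk (s : Q × List Γ) (t : ℕ) : Cfg (Option Q) (Fin 1 → ℕ) Γ := ⟨some s.1, fun _ => t, s.2⟩

omit hQ hΓ in
lemma run_take_succ {w : List α} {t : ℕ} {a : α} (h : w[t]? = some a) (s : Q × List Γ) :
    run stp (w.take (t + 1)) s =
      ((stp a (run stp (w.take t) s).1 (run stp (w.take t) s).2.head?).1,
        (stp a (run stp (w.take t) s).1 (run stp (w.take t) s).2.head?).2.apply
          (run stp (w.take t) s).2) := by
  unfold run
  rw [List.take_add_one, h, List.foldl_append]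
  rfl

lemma tape_letter' {w : List α} {t : ℕ} {a : α} (h : w[t]? = some a) :
    tape w (t + 1) = Sym.letter a := by
  simp only [tape, h]

lemma tape_end' {w : List α} : tape w (w.length + 1) = Sym.right := by
  have h : w[w.length]? = none := List.getElem?_eq_none le_rfl
  simp only [tape, h]

lemma step_left (w : List α) (s : Q × List Γ) (c' : Cfg (Option Q) (Fin 1 → ℕ) Γ) :
    (aut stp q₀ fin).Step w (mk s 0) c' ↔ c' = mk s 1 := by
  rw [step_iff]
  obtain ⟨q, σ⟩ := s
  have h1 : dl stp fin (some q) (tape w 0) σ.head? =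
      some (some q, fun _ => Dir.R, Op.none) := rfl
  have h2 : (⟨some q, fun _ => move (w.length + 1) 0 Dir.R, σ⟩ :
      Cfg (Option Q) (Fin 1 → ℕ) Γ) = mk (q, σ) 1 := by
    have : move (w.length + 1) 0 Dir.R = 1 := by simp only [move]; omega
    rw [this]; rfl
  constructor
  · rintro ⟨t, ht, rfl⟩
    have ht' : dl stp fin (some q) (tape w 0) σ.head? = some t := ht
    rw [h1] at ht'
    obtain rfl := Option.some.inj ht'
    exact h2
  · rintro rfl
    exact ⟨_, h1, h2.symm⟩

lemma step_letter (w : List α) (s : Q × List Γ) (t : ℕ) (a : α)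
    (ha : w[t]? = some a) (c' : Cfg (Option Q) (Fin 1 → ℕ) Γ) :
    (aut stp q₀ fin).Step w (mk s (t + 1)) c' ↔
      c' = mk ((stp a s.1 s.2.head?).1, (stp a s.1 s.2.head?).2.apply s.2) (t + 2) := by
  rw [step_iff]
  obtain ⟨q, σ⟩ := s
  have ht : t < w.length := by
    by_contra hcon
    rw [List.getElem?_eq_none (by omega)] at ha
    exact absurd ha (by simp)
  have hmv : move (w.length + 1) (t + 1) Dir.R = t + 2 := by simp only [move]; omega
  have h1 : dl stp fin (some q) (tape w (t + 1)) σ.head? =
      some (some (stp a q σ.head?).1, fun _ => Dir.R, (stp a q σ.head?).2) := by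
    rw [tape_letter' ha]; rfl
  have h2 : (⟨some (stp a q σ.head?).1, fun _ => move (w.length + 1) (t + 1) Dir.R,
      (stp a q σ.head?).2.apply σ⟩ : Cfg (Option Q) (Fin 1 → ℕ) Γ) =
      mk ((stp a q σ.head?).1, (stp a q σ.head?).2.apply σ) (t + 2) := by
    rw [hmv]; rfl
  constructor
  · rintro ⟨tr', ht', rfl⟩
    have ht'' : dl stp fin (some q) (tape w (t + 1)) σ.head? = some tr' := ht'
    rw [h1] at ht''
    obtain rfl := Option.some.inj ht''
    exact h2
  · rintro rfl
    exact ⟨_, h1, h2.symm⟩

lemma step_end (w : List α) (s : Q × List Γ) (c' : Cfg (Option Q) (Fin 1 → ℕ) Γ) :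
    (aut stp q₀ fin).Step w (mk s (w.length + 1)) c' ↔
      fin s.1 s.2.head? = true ∧ c' = ⟨none, fun _ => w.length + 1, s.2⟩ := by
  rw [step_iff]
  obtain ⟨q, σ⟩ := s
  constructor
  · rintro ⟨tr, ht, rfl⟩
    have ht' : dl stp fin (some q) (tape w (w.length + 1)) σ.head? = some tr := ht
    rw [tape_end'] at ht'
    by_cases hf : fin q σ.head? = true
    · have h3 : dl stp fin (some q) Sym.right σ.head? =
          some (none, fun _ => Dir.S, Op.none) := if_pos hf
      rw [h3] at ht'
      obtain rfl := Option.some.inj ht'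
      exact ⟨hf, rfl⟩
    · have h3 : dl stp fin (some q) Sym.right σ.head? = none := if_neg hf
      rw [h3] at ht'
      exact absurd ht' (by simp)
  · rintro ⟨hv, rfl⟩
    refine ⟨(none, fun _ => Dir.S, Op.none), ?_, rfl⟩
    show dl stp fin (some q) (tape w (w.length + 1)) σ.head? = _
    rw [tape_end']
    exact if_pos hv

lemma step_acc (w : List α) (c c' : Cfg (Option Q) (Fin 1 → ℕ) Γ) (h : c.state = none) :
    ¬ (aut stp q₀ fin).Step w c c' := by
  rw [step_iff, h]
  rintro ⟨t, ht, -⟩
  exact absurd ht (by simp [dl])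

/-- The computation. -/
lemma reach (w : List α) (t : ℕ) : ∀ c, (aut stp q₀ fin).Reach w t c →
    (t ≤ w.length + 1 ∧ c = mk (run stp (w.take (t - 1)) (q₀, [])) t) ∨
    (t = w.length + 2 ∧ c.state = none ∧ c.pos 0 = w.length + 1 ∧
      fin (run stp w (q₀, [])).1 (run stp w (q₀, [])).2.head? = true) := by
  intro c h
  induction h with
  | zero => exact Or.inl ⟨Nat.zero_le _, rfl⟩
  | @succ t c c' h1 h2 ih =>
    rcases ih with ⟨h3, rfl⟩ | ⟨-, h3, -, -⟩
    · cases t with
      | zero =>
        have h2' := (step_left stp q₀ fin w _ _).1 h2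
        exact Or.inl ⟨by omega, h2'⟩
      | succ t =>
        rcases Nat.lt_or_ge t w.length with hlt | hge
        · obtain ⟨a, ha⟩ : ∃ a, w[t]? = some a := ⟨w[t], List.getElem?_eq_getElem hlt⟩
          have h2' := (step_letter stp q₀ fin w _ t a ha _).1 h2
          left
          refine ⟨by omega, ?_⟩
          rw [h2', show t + 1 + 1 - 1 = t + 1 by omega, run_take_succ stp ha]
          rfl
        · have ht : t = w.length := by omega
          subst ht
          obtain ⟨h4, h5⟩ := (step_end stp q₀ fin w _ _).1 h2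
          right
          rw [show w.length + 1 - 1 = w.length by omega, List.take_length] at h4
          rw [h5]
          exact ⟨rfl, rfl, rfl, h4⟩
    · exact absurd h2 (step_acc stp q₀ fin w c c' h3)

lemma exists_run (w : List α) (t : ℕ) : t ≤ w.length →
    (aut stp q₀ fin).Reach w (t + 1) (mk (run stp (w.take t) (q₀, [])) (t + 1)) := by
  induction t with
  | zero =>
    intro _
    refine PDA.Reach.succ PDA.Reach.zero ?_
    exact (step_left stp q₀ fin w (q₀, []) _).2 rfl
  | succ t ih =>
    intro ht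
    obtain ⟨a, ha⟩ : ∃ a, w[t]? = some a := ⟨w[t], List.getElem?_eq_getElem (by omega)⟩
    refine PDA.Reach.succ (ih (by omega)) ?_
    refine (step_letter stp q₀ fin w _ t a ha _).2 ?_
    exact congrArg (fun s => mk s (t + 2)) (run_take_succ stp ha (q₀, []))

lemma lang_eq : (aut stp q₀ fin).lang =
    {w | fin (run stp w (q₀, [])).1 (run stp w (q₀, [])).2.head? = true} := by
  ext w
  constructor
  · rintro ⟨t, c, h1, h2⟩
    have h2' : c.state = none := h2
    rcases reach stp q₀ fin w t c h1 with ⟨-, rfl⟩ | ⟨-, -, -, h3⟩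
    · exact absurd h2' (by simp [mk])
    · exact h3
  · intro hw
    have h1 := exists_run stp q₀ fin w w.length le_rfl
    rw [List.take_length] at h1
    refine ⟨w.length + 1 + 1, ⟨none, fun _ => w.length + 1, (run stp w (q₀, [])).2⟩,
      PDA.Reach.succ h1 ?_, rfl⟩
    exact (step_end stp q₀ fin w _ _).2 ⟨hw, rfl⟩

/-- The head moves right at every step, until it is on the right endmarker. -/
lemma pos_eq (w : List α) (t : ℕ) (c : Cfg (Option Q) (Fin 1 → ℕ) Γ)
    (h : (aut stp q₀ fin).Reach w t c) :
    c.pos 0 = min t (w.length + 1) ∧ t ≤ w.length + 2 := by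
  rcases reach stp q₀ fin w t c h with ⟨h1, rfl⟩ | ⟨h1, -, h2, -⟩
  · show t = min t (w.length + 1) ∧ t ≤ w.length + 2
    omega
  · omega

end RTP

theorem t_RTP : S_RTP := by
  intro α Q Γ _ _ stp q₀ fin
  exact ⟨RTP.aut stp q₀ fin, RTP.det stp q₀ fin, RTP.lang_eq stp q₀ fin,
    fun w t c h => RTP.pos_eq stp q₀ fin w t c h⟩

end Pool.Agent.RLT
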