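import Pool.Agent.RLT.St5

/-!
# MP_5e85fc_lc, project RLT: proof of `S_SIM` (a multihead automaton is simulated by a program
which reads digits)
-/

set_option autoImplicit false

namespace Pool.Agent.RLT

open Pool.Agent.Heads

namespace SIM

variable {β U : Type} {n M J N : ℕ}

/-- The assignment `y` agrees with the list `F` of guessed digits. -/
def Ag (F : Fin J → Option (Fin N × Fin M)) (y : Fin N → Fin M) : Prop :=
  ∀ j v d, F j = some (v, d) → y v = d

/-- The input word of the automaton. -/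
def W (T : Fin n → β ⊕ (U × ℕ)) (enc : Fin M → ℕ → β) (e : Fin N ≃ U) (y : Fin N → Fin M) :
    List β := List.ofFn (bword T enc (y ∘ e.symm))

lemma W_len (T : Fin n → β ⊕ (U × ℕ)) (enc : Fin M → ℕ → β) (e : Fin N ≃ U)
    (y : Fin N → Fin M) : (W T enc e y).length = n := by simp [W]

lemma tape_eq (T : Fin n → β ⊕ (U × ℕ)) (enc : Fin M → ℕ → β) (e : Fin N ≃ U)
    (y y' : Fin N → Fin M) (p : ℕ)
    (h : ∀ (i : Fin n) u l, p = (i : ℕ) + 1 → T i = Sum.inr (u, l) →
      y (e.symm u) = y' (e.symm u)) :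
    tape (W T enc e y) p = tape (W T enc e y') p := by
  cases p with
  | zero => rfl
  | succ p =>
    simp only [tape, W, List.getElem?_ofFn]
    by_cases hp : p < n
    · simp only [hp, dif_pos]
      congr 1
      unfold bword
      cases hT : T ⟨p, hp⟩ with
      | inl b => rfl
      | inr v =>
        obtain ⟨u, l⟩ := v
        simp only [Sum.elim_inr, Function.comp]
        rw [h ⟨p, hp⟩ u l rfl hT]
    · simp only [hp, dif_neg, not_false_eq_true]

/-- From `c` the automaton can come to `c'` on the word of every `y` which agrees with `F`. -/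
def LOC (A : FA β J) (T : Fin n → β ⊕ (U × ℕ)) (enc : Fin M → ℕ → β) (e : Fin N ≃ U)
    (c c' : A.Q × (Fin J → ℕ)) (F : Fin J → Option (Fin N × Fin M)) : Prop :=
  ∀ y, Ag F y → Relation.ReflTransGen (A.Step (W T enc e y)) c c'

/-- Configurations. -/
abbrev Cf (A : FA β J) (n : ℕ) : Type := A.Q × (Fin J → Fin (n + 2))

/-- The configuration of the automaton. -/
def ofCf (A : FA β J) {n : ℕ} (c : Cf A n) : A.Q × (Fin J → ℕ) := (c.1, fun j => (c.2 j : ℕ))

/-- States of the program. -/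
abbrev PS (A : FA β J) (n N M : ℕ) : Type :=
  Cf A n ⊕ (Cf A n × (Fin J → Option (Fin N × Fin M)) × Fin (J + 1))

/-- Free steps. -/
inductive Free (A : FA β J) (T : Fin n → β ⊕ (U × ℕ)) (enc : Fin M → ℕ → β) (e : Fin N ≃ U) :
    PS A n N M → PS A n N M → Prop
  | guess (c c' : Cf A n) (F : Fin J → Option (Fin N × Fin M)) :
      LOC A T enc e (ofCf A c) (ofCf A c') F → Free A T enc e (Sum.inl c) (Sum.inr (c', F, 0))
  | skip (c' : Cf A n) (F : Fin J → Option (Fin N × Fin M)) (j : Fin J) : F j = none →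
      Free A T enc e (Sum.inr (c', F, j.castSucc)) (Sum.inr (c', F, j.succ))
  | back (c' : Cf A n) (F : Fin J → Option (Fin N × Fin M)) :
      Free A T enc e (Sum.inr (c', F, Fin.last J)) (Sum.inl c')

/-- Tests. -/
inductive Tst (A : FA β J) (n : ℕ) (x : Fin N × Fin M) : PS A n N M → PS A n N M → Prop
  | mk (c' : Cf A n) (F : Fin J → Option (Fin N × Fin M)) (j : Fin J) : F j = some x →
      Tst A n x (Sum.inr (c', F, j.castSucc)) (Sum.inr (c', F, j.succ))

/-- The program. -/
def prog (A : FA β J) (T : Fin n → β ⊕ (U × ℕ)) (enc : Fin M → ℕ → β) (e : Fin N ≃ U) :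
    Prog (Fin M) N where
  S := PS A n N M
  fin := by
    have := A.finQ
    infer_instance
  start := Sum.inl (A.start, fun _ => 0)
  accept := {s | ∃ c : Cf A n, s = Sum.inl c ∧ c.1 ∈ A.accept}
  step s o := match o with
    | none => {s' | Free A T enc e s s'}
    | some x => {s' | Tst A n x s s'}

/-- The invariant. -/
def Inv (A : FA β J) (T : Fin n → β ⊕ (U × ℕ)) (enc : Fin M → ℕ → β) (e : Fin N ≃ U)
    (y : Fin N → Fin M) : PS A n N M → Prop
  | Sum.inl c => Relation.ReflTransGen (A.Step (W T enc e y)) (A.start, fun _ => 0) (ofCf A c)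
  | Sum.inr (c', F, j) => ∃ c, Relation.ReflTransGen (A.Step (W T enc e y))
      (A.start, fun _ => 0) c ∧ LOC A T enc e c (ofCf A c') F ∧
      ∀ j' : Fin J, (j' : ℕ) < (j : ℕ) → ∀ v d, F j' = some (v, d) → y v = d

lemma inv_free (A : FA β J) (T : Fin n → β ⊕ (U × ℕ)) (enc : Fin M → ℕ → β) (e : Fin N ≃ U)
    (y : Fin N → Fin M) (s s' : PS A n N M) (h : Free A T enc e s s')
    (hs : Inv A T enc e y s) : Inv A T enc e y s' := by
  cases h with
  | guess c c' F hL =>
    refine ⟨ofCf A c, hs, hL, ?_⟩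
    intro j' hj'
    simp at hj'
  | skip c' F j hF =>
    obtain ⟨c, h1, h2, h3⟩ := hs
    refine ⟨c, h1, h2, ?_⟩
    intro j' hj' v d hv
    rw [Fin.val_succ] at hj'
    rcases Nat.lt_succ_iff_lt_or_eq.mp hj' with h4 | h4
    · exact h3 j' (by simpa using h4) v d hv
    · have : j' = j := Fin.ext h4
      rw [this, hF] at hv
      cases hv
  | back c' F =>
    obtain ⟨c, h1, h2, h3⟩ := hs
    exact h1.trans (h2 y fun j v d hv => h3 j (by simp) v d hv)

lemma inv_tst (A : FA β J) (T : Fin n → β ⊕ (U × ℕ)) (enc : Fin M → ℕ → β) (e : Fin N ≃ U)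
    (y : Fin N → Fin M) (i : Fin N) (s s' : PS A n N M) (h : Tst A n (i, y i) s s')
    (hs : Inv A T enc e y s) : Inv A T enc e y s' := by
  cases h with
  | mk c' F j hF =>
    obtain ⟨c, h1, h2, h3⟩ := hs
    refine ⟨c, h1, h2, ?_⟩
    intro j' hj' v d hv
    rw [Fin.val_succ] at hj'
    rcases Nat.lt_succ_iff_lt_or_eq.mp hj' with h4 | h4
    · exact h3 j' (by simpa using h4) v d hv
    · have : j' = j := Fin.ext h4
      rw [this, hF] at hv
      simp only [Option.some.injEq, Prod.mk.injEq] at hv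
      rw [← hv.1, hv.2]

lemma inv_reach (A : FA β J) (T : Fin n → β ⊕ (U × ℕ)) (enc : Fin M → ℕ → β) (e : Fin N ≃ U)
    (y : Fin N → Fin M) (m : ℕ) (s : (prog A T enc e).S) (h : (prog A T enc e).Reach y m s) :
    Inv A T enc e y s := by
  induction h with
  | start => exact Relation.ReflTransGen.refl
  | free _ h2 ih => exact inv_free A T enc e y _ _ h2 ih
  | test i _ h2 ih => exact inv_tst A T enc e y i _ _ h2 ih

/-- The tests of one slice. -/
lemma chain (A : FA β J) (T : Fin n → β ⊕ (U × ℕ)) (enc : Fin M → ℕ → β) (e : Fin N ≃ U)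
    (y : Fin N → Fin M) (m : ℕ) (c' : Cf A n) (F : Fin J → Option (Fin N × Fin M)) (hF : Ag F y)
    (h : (prog A T enc e).Reach y m (Sum.inr (c', F, 0))) (j : ℕ) (hj : j < J + 1) :
    ∃ m' ≤ m + j, (prog A T enc e).Reach y m' (Sum.inr (c', F, ⟨j, hj⟩)) := by
  induction j with
  | zero => exact ⟨m, le_rfl, h⟩
  | succ j ih =>
    obtain ⟨m', hm, hr⟩ := ih (by omega)
    have hjJ : j < J := by omega
    cases hc : F ⟨j, hjJ⟩ with
    | none =>
      refine ⟨m', by omega, ?_⟩
      exact Prog.Reach.free hr (Free.skip c' F ⟨j, hjJ⟩ hc)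
    | some x =>
      obtain ⟨v, d⟩ := x
      have hy : y v = d := hF _ v d hc
      refine ⟨m' + 1, by omega, ?_⟩
      refine Prog.Reach.test v hr ?_
      rw [hy]
      exact Tst.mk c' F ⟨j, hjJ⟩ hc

/-- One slice. -/
lemma slice (A : FA β J) (T : Fin n → β ⊕ (U × ℕ)) (enc : Fin M → ℕ → β) (e : Fin N ≃ U)
    (y : Fin N → Fin M) (m : ℕ) (c c' : Cf A n) (F : Fin J → Option (Fin N × Fin M))
    (hF : Ag F y) (hL : LOC A T enc e (ofCf A c) (ofCf A c') F)
    (h : (prog A T enc e).Reach y m (Sum.inl c)) :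
    ∃ m' ≤ m + J, (prog A T enc e).Reach y m' (Sum.inl c') := by
  have h1 : (prog A T enc e).Reach y m (Sum.inr (c', F, 0)) :=
    Prog.Reach.free h (Free.guess c c' F hL)
  obtain ⟨m', hm, hr⟩ := chain A T enc e y m c' F hF h1 J (by omega)
  exact ⟨m', hm, Prog.Reach.free hr (Free.back c' F)⟩

/-- The computation as a function. -/
lemma traj {C : Type} (step : C → C → Prop) (c₀ : C) (i : ℕ) (c : C) (h : ReachN step c₀ i c) :
    ∃ σ : ℕ → C, σ 0 = c₀ ∧ σ i = c ∧ ∀ s < i, step (σ s) (σ (s + 1)) := by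
  induction h with
  | zero => exact ⟨fun _ => c₀, rfl, rfl, fun s hs => absurd hs (by omega)⟩
  | @succ t a a' _ h2 ih =>
    obtain ⟨σ, h0, h1, h3⟩ := ih
    refine ⟨fun s => if s ≤ t then σ s else a', by simp [h0], by simp, ?_⟩
    intro s hs
    rcases Nat.lt_or_ge s t with h4 | h4
    · have h5 : s ≤ t := by omega
      have h6 : s + 1 ≤ t := by omega
      simp only [h5, h6, if_true]
      exact h3 s h4
    · have h5 : s = t := by omega
      subst h5
      simp only [le_refl, if_true]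
      have h6 : ¬ s + 1 ≤ s := by omega
      simp only [h6, if_false]
      rw [h1]
      exact h2

lemma move_le (K p : ℕ) (d : Dir) (h : p ≤ K) : move K p d ≤ K := by
  cases d <;> simp only [move] <;> omega

lemma move_near (K p : ℕ) (d : Dir) (h : p ≤ K) : move K p d ≤ p + 1 ∧ p ≤ move K p d + 1 := by
  cases d <;> simp only [move] <;> omega

lemma pos_le (A : FA β J) (w : List β) (i : ℕ) (σ : ℕ → A.Q × (Fin J → ℕ))
    (h0 : σ 0 = (A.start, fun _ => 0)) (hs : ∀ s < i, A.Step w (σ s) (σ (s + 1))) (s : ℕ)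
    (hsi : s ≤ i) (j : Fin J) : (σ s).2 j ≤ w.length + 1 := by
  induction s with
  | zero => simp [h0]
  | succ s ih =>
    obtain ⟨t, _, h2⟩ := hs s (by omega)
    rw [h2]
    exact move_le _ _ _ (ih (by omega))

lemma pos_near (A : FA β J) (w : List β) (i : ℕ) (σ : ℕ → A.Q × (Fin J → ℕ))
    (h0 : σ 0 = (A.start, fun _ => 0)) (hs : ∀ s < i, A.Step w (σ s) (σ (s + 1))) (s k : ℕ)
    (hsi : s + k ≤ i) (j : Fin J) :
    (σ (s + k)).2 j ≤ (σ s).2 j + k ∧ (σ s).2 j ≤ (σ (s + k)).2 j + k := by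
  induction k with
  | zero => exact ⟨le_rfl, le_rfl⟩
  | succ k ih =>
    have h1 := ih (by omega)
    have h3 := pos_le A w i σ h0 hs (s + k) (by omega) j
    obtain ⟨t, _, h2⟩ := hs (s + k) (by omega)
    have h4 := move_near (w.length + 1) ((σ (s + k)).2 j) (t.2 j) h3
    have h5 : (σ (s + (k + 1))).2 j = move (w.length + 1) ((σ (s + k)).2 j) (t.2 j) := by
      rw [← Nat.add_assoc, h2]
    rw [h5]
    omega

/-- The configuration as an element of the finite set. -/
def toCf (A : FA β J) (n : ℕ) (c : A.Q × (Fin J → ℕ)) : Cf A n :=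
  (c.1, fun j => ⟨min (c.2 j) (n + 1), by omega⟩)

lemma of_to (A : FA β J) (n : ℕ) (c : A.Q × (Fin J → ℕ)) (h : ∀ j, c.2 j ≤ n + 1) :
    ofCf A (toCf A n c) = c := by
  obtain ⟨q, f⟩ := c
  simp only [ofCf, toCf]
  congr 1
  funext j
  exact min_eq_left (h j)

/-- A slice of a computation is local. -/
lemma loc (A : FA β J) (T : Fin n → β ⊕ (U × ℕ)) (enc : Fin M → ℕ → β) (e : Fin N ≃ U)
    (τ : ℕ) (hT : Apart τ T) (y : Fin N → Fin M) (i : ℕ) (σ : ℕ → A.Q × (Fin J → ℕ))
    (h0 : σ 0 = (A.start, fun _ => 0))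
    (hs : ∀ s < i, A.Step (W T enc e y) (σ s) (σ (s + 1))) (s s' : ℕ) (h1 : s ≤ s')
    (h2 : s' ≤ s + τ) (h3 : s' ≤ i) :
    ∃ F : Fin J → Option (Fin N × Fin M), Ag F y ∧ LOC A T enc e (σ s) (σ s') F := by
  classical
  let Q : Fin J → U → Prop := fun j u => ∃ r, s ≤ r ∧ r < s' ∧ ∃ (a : Fin n) (l : ℕ),
    (σ r).2 j = (a : ℕ) + 1 ∧ T a = Sum.inr (u, l)
  let F : Fin J → Option (Fin N × Fin M) := fun j =>
    if h : ∃ u, Q j u then some (e.symm h.choose, y (e.symm h.choose)) else none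
  have hQ : ∀ j u u', Q j u → Q j u' → u = u' := by
    rintro j u u' ⟨r, hr1, hr2, a, l, ha, hTa⟩ ⟨r', hr1', hr2', a', l', ha', hTa'⟩
    by_contra hne
    have hA := hT a a' u u' l l' hTa hTa' hne
    rcases Nat.le_total r r' with hrr | hrr
    · have := pos_near A (W T enc e y) i σ h0 hs r (r' - r) (by omega) j
      rw [Nat.add_sub_cancel' hrr, ha, ha'] at this
      omega
    · have := pos_near A (W T enc e y) i σ h0 hs r' (r - r') (by omega) j
      rw [Nat.add_sub_cancel' hrr, ha, ha'] at this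
      omega
  have hFQ : ∀ j u, Q j u → F j = some (e.symm u, y (e.symm u)) := by
    intro j u hu
    have h : ∃ u, Q j u := ⟨u, hu⟩
    have h4 : h.choose = u := hQ j _ _ h.choose_spec hu
    simp only [F]
    rw [dif_pos h, h4]
  refine ⟨F, ?_, ?_⟩
  · intro j v d hv
    by_cases h : ∃ u, Q j u
    · obtain ⟨u, hu⟩ := h
      rw [hFQ j u hu] at hv
      simp only [Option.some.injEq, Prod.mk.injEq] at hv
      rw [← hv.1, hv.2]
    · simp only [F] at hv
      rw [dif_neg h] at hv
      cases hv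
  · intro y' hy'
    have key : ∀ r, s ≤ r → r ≤ s' →
        Relation.ReflTransGen (A.Step (W T enc e y')) (σ s) (σ r) := by
      intro r hsr
      induction r, hsr using Nat.le_induction with
      | base => exact fun _ => Relation.ReflTransGen.refl
      | succ r hsr ih =>
        intro hr
        refine (ih (by omega)).tail ?_
        obtain ⟨t, ht1, ht2⟩ := hs r (by omega)
        refine ⟨t, ?_, ?_⟩
        · have h5 : (fun j => tape (W T enc e y') ((σ r).2 j)) =
              fun j => tape (W T enc e y) ((σ r).2 j) := by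
            funext j
            refine tape_eq T enc e y' y _ ?_
            intro a u l ha hTa
            exact hy' j _ _ (hFQ j u ⟨r, hsr, by omega, a, l, ha, hTa⟩)
          rw [h5]
          exact ht1
        · rw [W_len] at ht2 ⊢
          exact ht2
    exact key s' h1 le_rfl

/-- The simulation is fast. -/
lemma fast (A : FA β J) (T : Fin n → β ⊕ (U × ℕ)) (enc : Fin M → ℕ → β) (e : Fin N ≃ U)
    (τ : ℕ) (hT : Apart τ T) (y : Fin N → Fin M) (i : ℕ) (σ : ℕ → A.Q × (Fin J → ℕ))
    (h0 : σ 0 = (A.start, fun _ => 0))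
    (hs : ∀ s < i, A.Step (W T enc e y) (σ s) (σ (s + 1))) (q : ℕ) :
    ∃ m ≤ J * q, (prog A T enc e).Reach y m (Sum.inl (toCf A n (σ (min (q * τ) i)))) := by
  have hle : ∀ s ≤ i, ∀ j, (σ s).2 j ≤ n + 1 := by
    intro s hsi j
    have := pos_le A (W T enc e y) i σ h0 hs s hsi j
    rwa [W_len] at this
  induction q with
  | zero =>
    refine ⟨0, by simp, ?_⟩
    have h1 : toCf A n (σ (min (0 * τ) i)) = (A.start, fun _ => 0) := by
      simp only [Nat.zero_mul, Nat.zero_min, h0, toCf]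
      rfl
    rw [h1]
    exact Prog.Reach.start
  | succ q ih =>
    obtain ⟨m, hm, hr⟩ := ih
    have h1 : (q + 1) * τ = q * τ + τ := by ring
    obtain ⟨F, hF, hL⟩ := loc A T enc e τ hT y i σ h0 hs (min (q * τ) i) (min ((q + 1) * τ) i)
      (by omega) (by omega) (by omega)
    have h2 := slice A T enc e y m (toCf A n (σ (min (q * τ) i)))
      (toCf A n (σ (min ((q + 1) * τ) i))) F hF
      (by rw [of_to A n _ (hle _ (by omega)), of_to A n _ (hle _ (by omega))]; exact hL) hr
    obtain ⟨m', hm', hr'⟩ := h2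
    refine ⟨m', ?_, hr'⟩
    have h3 : J * (q + 1) = J * q + J := by ring
    omega

end SIM

open SIM in
theorem t_SIM : S_SIM := by
  intro β U n M J τ N A T enc e hτ hT
  refine ⟨prog A T enc e, ?_, ?_, ?_⟩
  · rintro y m s hr ⟨c, rfl, hc⟩
    exact ⟨ofCf A c, inv_reach A T enc e y m _ hr, hc⟩
  · rintro y t ⟨i, hi, c, hr, hc⟩
    obtain ⟨σ, h0, h1, h2⟩ := traj _ _ i c hr
    obtain ⟨m, hm, hR⟩ := fast A T enc e τ hT y i σ h0 h2 (t / τ + 1)
    have h3 : min ((t / τ + 1) * τ) i = i := by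
      refine min_eq_right ?_
      have h4 : t < (t / τ + 1) * τ := by
        have := Nat.lt_mul_div_succ t hτ
        rwa [mul_comm] at this
      omega
    rw [h3, h1] at hR
    exact ⟨m, hm, _, ⟨toCf A n c, rfl, hc⟩, hR⟩
  · have := A.finQ
    have h1 : Nat.card (Cf A n) = Nat.card A.Q * (n + 2) ^ J := by
      simp [Cf, Nat.card_prod]
    have h2 : Nat.card (PS A n N M) = Nat.card (Cf A n) + Nat.card (Cf A n) *
        ((N * M + 1) ^ J * (J + 1)) := by
      have h4 : Nat.card (Fin J → Option (Fin N × Fin M)) = (N * M + 1) ^ J := by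
        simp
      have h5 : Nat.card (Cf A n × (Fin J → Option (Fin N × Fin M)) × Fin (J + 1)) =
          Nat.card (Cf A n) * ((N * M + 1) ^ J * (J + 1)) := by
        rw [Nat.card_prod (Cf A n), Nat.card_prod (Fin J → Option (Fin N × Fin M)), h4,
          Nat.card_fin]
      rw [PS, Nat.card_sum, h5]
    have h3 : Nat.card (prog A T enc e).S = Nat.card (PS A n N M) := rfl
    rw [h3, h2, h1]
    apply le_of_eq
    ring

end Pool.Agent.RLT
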