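import Pool.Agent.RLT.St3

/-!
# The word of a tree
-/

set_option autoImplicit false

namespace Pool.Agent.RLT

open Pool.Agent.Heads

namespace WRD

theorem run_cons {α Q Γ : Type} (stp : α → Q → Option Γ → Q × Op Γ) (a : α) (w : List α)
    (c : Q × List Γ) : run stp (a :: w) c =
      run stp w ((stp a c.1 c.2.head?).1, (stp a c.1 c.2.head?).2.apply c.2) := rfl

theorem run_append {α Q Γ : Type} (stp : α → Q → Option Γ → Q × Op Γ) (w w' : List α)
    (c : Q × List Γ) : run stp (w ++ w') c = run stp w' (run stp w c) := List.foldl_append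

theorem ev_append {M : ℕ} {V : Type} (x : V → Fin M) (T T' : List (Lt M ⊕ V)) :
    ev x (T ++ T') = ev x T ++ ev x T' := List.map_append

theorem ev_inl {M : ℕ} {V : Type} (x : V → Fin M) (T : List (Lt M)) :
    ev x (T.map Sum.inl) = T := by
  unfold ev
  rw [List.map_map]
  exact List.map_id T

variable {M : ℕ} [NeZero M]

theorem run_dig {ι : Type} (d : ι → Fin M) : ∀ (l : List ι) (s : Fin M) (c : Fin (M + 1))
    (md : Option Bool) (ok : Bool) (stk : List Bool),
    run (stp M) (l.map fun i => Lt.dig (d i)) ((s, c, md, ok), stk) =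
      ((s + (l.map d).sum, c, md, ok), stk)
  | [], s, c, md, ok, stk => by
    rw [List.map_nil, List.map_nil, List.sum_nil, add_zero]
    rfl
  | i :: l, s, c, md, ok, stk => by
    rw [List.map_cons, run_cons]
    show run (stp M) _ ((s + d i, c, md, ok), stk) = _
    rw [run_dig d l, List.map_cons, List.sum_cons, add_assoc]

theorem run_psh (s : Fin M) (c : Fin (M + 1)) (md : Option Bool) (ok : Bool) : ∀ (N : ℕ)
    (stk : List Bool), run (stp M) (List.replicate N Lt.psh) ((s, c, md, ok), stk) =
      ((s, c, md, ok), List.replicate (if (c : ℕ) ≤ (s : ℕ) then N else 0) true ++ stk)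
  | 0, stk => by
    rw [ite_self]
    rfl
  | N + 1, stk => by
    rw [List.replicate_succ, run_cons]
    show run (stp M) _ ((s, c, md, ok), Op.apply (if (c : ℕ) ≤ (s : ℕ) then .push true else .none)
      stk) = _
    rw [run_psh s c md ok N]
    by_cases h : (c : ℕ) ≤ (s : ℕ)
    · rw [if_pos h, if_pos h, if_pos h]
      show _ = ((s, c, md, ok), List.replicate (N + 1) true ++ stk)
      rw [List.replicate_succ', List.append_assoc]
      rfl
    · rw [if_neg h, if_neg h, if_neg h]
      rfl

theorem run_runs (D : Fin M) (md : Option Bool) (ok : Bool) (N : ℕ) (stk : List Bool) :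
    ∀ (r : ℕ) (hr : r ≤ M),
    run (stp M) (List.replicate r (Lt.nxt :: List.replicate N Lt.psh)).flatten
      ((D, 0, md, ok), stk) =
      ((D, ⟨r, Nat.lt_succ_of_le hr⟩, md, ok), List.replicate (min r (D : ℕ) * N) true ++ stk)
  | 0, hr => by
    rw [Nat.zero_min, Nat.zero_mul]
    rfl
  | r + 1, hr => by
    rw [List.replicate_succ', List.flatten_append, run_append,
      run_runs D md ok N stk r (by omega)]
    have h1 : (List.flatten [Lt.nxt :: List.replicate N Lt.psh] : List (Lt M)) =
      Lt.nxt :: List.replicate N Lt.psh := by simp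
    rw [h1, run_cons]
    have h2 : (⟨r, Nat.lt_succ_of_le (by omega)⟩ : Fin (M + 1)) + 1 =
        ⟨r + 1, Nat.lt_succ_of_le hr⟩ := by
      apply Fin.ext
      rw [Fin.val_add]
      have hM : M ≠ 0 := NeZero.ne M
      have h3 : ((1 : Fin (M + 1)) : ℕ) = 1 := by
        rw [Fin.val_one']
        exact Nat.mod_eq_of_lt (by omega)
      rw [h3]
      exact Nat.mod_eq_of_lt (by simp only; omega)
    show run (stp M) _ ((D, (⟨r, Nat.lt_succ_of_le (by omega)⟩ : Fin (M + 1)) + 1, md, ok), _) = _
    rw [h2, run_psh]
    have h4 : min (r + 1) (D : ℕ) * N =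
        (if ((⟨r + 1, Nat.lt_succ_of_le hr⟩ : Fin (M + 1)) : ℕ) ≤ (D : ℕ) then N else 0) +
          min r (D : ℕ) * N := by
      simp only
      split_ifs with h
      · rw [min_eq_left h, min_eq_left (by omega)]
        ring
      · rw [min_eq_right (by omega), min_eq_right (by omega)]
        ring
    rw [h4, List.replicate_add, List.append_assoc]
    rfl

/-- the start state -/
abbrev q0 (M : ℕ) [NeZero M] : Fin M × Fin (M + 1) × Option Bool × Bool := (0, 0, none, true)

theorem run_digit (j N b : ℕ) (d : Fin b → Fin M) (stk : List Bool) (hN : N = M ^ j) :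
    run (stp M) ((List.finRange b).map (fun i => Lt.dig (d i)) ++ runs M j ++ [Lt.fin])
      (q0 M, stk) = (q0 M, List.replicate (((∑ i, d i : Fin M) : ℕ) * N) true ++ stk) := by
  rw [run_append, run_append, run_dig, zero_add, ← Fin.sum_univ_def]
  unfold runs
  rw [run_runs _ _ _ _ _ _ (by omega), run_cons, hN]
  have h1 : min (M - 1) ((∑ i, d i : Fin M) : ℕ) = ((∑ i, d i : Fin M) : ℕ) := by
    apply min_eq_right
    have := (∑ i, d i : Fin M).isLt
    omega
  rw [h1]
  rfl

theorem lfN_lt : ∀ {κ : ℕ} (d : Fin κ → Fin M), lfN d < M ^ κ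
  | 0, d => by simp [lfN]
  | κ + 1, d => by
    unfold lfN
    rw [Fin.sum_univ_castSucc]
    have h1 := lfN_lt (fun j : Fin κ => d j.castSucc)
    change ∑ j : Fin κ, (d j.castSucc : ℕ) * M ^ (j : ℕ) < M ^ κ at h1
    have h2 := (d (Fin.last κ)).isLt
    have h3 : ((d (Fin.last κ) : Fin M) : ℕ) * M ^ κ ≤ (M - 1) * M ^ κ :=
      Nat.mul_le_mul_right _ (by omega)
    have h4 : (M - 1) * M ^ κ + M ^ κ = M ^ (κ + 1) := by
      obtain ⟨M', hM'⟩ : ∃ M', M = M' + 1 := ⟨M - 1, by omega⟩
      rw [hM', Nat.add_sub_cancel]
      ring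
    simp only [Fin.val_castSucc, Fin.val_last]
    omega

theorem run_leaf (κ b : ℕ) (u : List Bool) (x : List Bool × Fin κ × Fin b → Fin M) :
    ∀ (l : List (Fin κ)) (stk : List Bool),
    run (stp M) (ev x (l.flatMap fun (j : Fin κ) =>
      (List.finRange b).map (fun i => Sum.inr (u, j, i)) ++ (runs M (j : ℕ)).map Sum.inl ++
        [Sum.inl Lt.fin])) (q0 M, stk) =
      (q0 M, List.replicate
        (l.map fun j : Fin κ => ((∑ i, x (u, j, i) : Fin M) : ℕ) * M ^ (j : ℕ)).sum true ++ stk)
  | [], stk => rfl
  | j :: l, stk => by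
    rw [List.flatMap_cons, ev_append, run_append]
    have h1 : ev x ((List.finRange b).map (fun i => (Sum.inr (u, j, i) :
        Lt M ⊕ (List Bool × Fin κ × Fin b))) ++ (runs M (j : ℕ)).map Sum.inl ++
        [Sum.inl Lt.fin]) =
        (List.finRange b).map (fun i => Lt.dig (x (u, j, i))) ++ runs M j ++ [Lt.fin] := by
      rw [ev_append, ev_append, ev_inl]
      unfold ev
      rw [List.map_map]
      rfl
    rw [h1, run_digit j (M ^ (j : ℕ)) b _ _ rfl, run_leaf κ b u x l, List.map_cons,
      List.sum_cons, Nat.add_comm (((∑ i, x (u, j, i) : Fin M) : ℕ) * M ^ (j : ℕ)),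
      List.replicate_add, List.append_assoc]

/-- one entry of the table -/
def ent (M p x : ℕ) : List (Lt M) := Lt.ent :: List.replicate (x ^ 2 % p) Lt.unt

theorem run_unt_none (stk : List Bool) : ∀ N : ℕ,
    run (stp M) (List.replicate N Lt.unt) ((0, 0, none, true), stk) = ((0, 0, none, true), stk)
  | 0 => rfl
  | N + 1 => by
    rw [List.replicate_succ, run_cons]
    exact run_unt_none stk N

theorem run_unt_false (stk : List Bool) : ∀ N : ℕ,
    run (stp M) (List.replicate N Lt.unt) ((0, 0, some false, true), stk) =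
      ((0, 0, some false, true), stk)
  | 0 => rfl
  | N + 1 => by
    rw [List.replicate_succ, run_cons]
    exact run_unt_false stk N

theorem run_unt_true : ∀ (N : ℕ) (stk : List Bool),
    run (stp M) (List.replicate N Lt.unt) ((0, 0, some true, true), stk) =
      ((0, 0, some true, true), List.replicate N true ++ stk)
  | 0, _ => rfl
  | N + 1, stk => by
    rw [List.replicate_succ, run_cons]
    refine (run_unt_true N (true :: stk)).trans ?_
    rw [List.replicate_succ', List.append_assoc]
    rfl

theorem run_tab1 (p K : ℕ) (stk : List Bool) : ∀ n ≤ K,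
    run (stp M) ((List.range n).flatMap (ent M p))
      ((0, 0, none, true), List.replicate K true ++ false :: stk) =
      ((0, 0, none, true), List.replicate (K - n) true ++ false :: stk)
  | 0, _ => rfl
  | n + 1, hn => by
    rw [List.range_succ, List.flatMap_append, run_append, run_tab1 p K stk n (by omega)]
    obtain ⟨m, hm⟩ : ∃ m, K - n = m + 1 := ⟨K - n - 1, by omega⟩
    have hm' : K - (n + 1) = m := by omega
    rw [hm, hm', List.flatMap_singleton, ent, List.replicate_succ, run_cons]
    exact run_unt_none _ _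

theorem run_tab3 (p : ℕ) (stk : List Bool) : ∀ (l : List ℕ) (β : Bool), ∃ β' : Bool,
    run (stp M) (l.flatMap (ent M p)) ((0, 0, some β, true), stk) =
      ((0, 0, some β', true), stk)
  | [], β => ⟨β, rfl⟩
  | n :: l, β => by
    obtain ⟨β', hβ'⟩ := run_tab3 p stk l false
    refine ⟨β', ?_⟩
    rw [List.flatMap_cons, run_append, ent, run_cons, ← hβ']
    exact congrArg _ (run_unt_false stk _)

theorem run_table (p S : ℕ) (hS : S < 2 * p - 1) (stk : List Bool) : ∃ β : Bool,
    run (stp M) (tableT M p) ((0, 0, none, true), List.replicate S true ++ false :: stk) =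
      ((0, 0, some β, true), List.replicate (S ^ 2 % p) true ++ stk) := by
  obtain ⟨n, hn⟩ : ∃ n, 2 * p - 1 = S + (n + 1) := ⟨2 * p - 1 - S - 1, by omega⟩
  have h1 : tableT M p = (List.range S).flatMap (ent M p) ++ (ent M p S ++
      (((List.range n).map Nat.succ).map (S + ·)).flatMap (ent M p)) := by
    show (List.range (2 * p - 1)).flatMap (ent M p) = _
    rw [hn, List.range_add, List.flatMap_append, List.range_succ_eq_map, List.map_cons,
      List.flatMap_cons]
    rfl
  rw [h1, run_append, run_append, run_tab1 p S stk S le_rfl, Nat.sub_self]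
  have h2 : run (stp M) (ent M p S)
      ((0, 0, none, true), List.replicate 0 true ++ false :: stk) =
      ((0, 0, some true, true), List.replicate (S ^ 2 % p) true ++ stk) := by
    rw [ent, run_cons]
    exact run_unt_true _ _
  rw [h2]
  exact run_tab3 p _ _ true

end WRD

open WRD in
theorem t_WRD : S_WRD := by
  intro M κ b p _ _ hMp h
  induction h with
  | zero =>
    intro u x stk
    rw [treeT, leafT, run_leaf, val]
    have h1 : ((List.finRange κ).map fun j : Fin κ =>
        ((∑ i, x (u, j, i) : Fin M) : ℕ) * M ^ (j : ℕ)).sum =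
        lfN (fun j => ∑ i, x (u ++ [], j, i)) := by
      rw [← Fin.sum_univ_def, List.append_nil]
      rfl
    rw [h1, ZMod.val_natCast_of_lt ((lfN_lt _).trans_le hMp)]
  | succ h ih =>
    intro u x stk
    obtain ⟨f, hf⟩ : ∃ f : List Bool → ZMod p, f = fun w =>
      ((lfN (fun j => ∑ i, x (u ++ w, j, i)) : ℕ) : ZMod p) := ⟨_, rfl⟩
    obtain ⟨s, hs⟩ : ∃ s, s = (val h fun w => f (false :: w)).val := ⟨_, rfl⟩
    obtain ⟨t, ht⟩ : ∃ t, t = (val h fun w => f (true :: w)).val := ⟨_, rfl⟩
    have hs1 : s < p := by
      rw [hs]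
      exact ZMod.val_lt _
    have ht1 : t < p := by
      rw [ht]
      exact ZMod.val_lt _
    have hsub : ∀ (d : Bool) (stk : List Bool),
        run (stp M) (ev x (treeT M κ b p h (u ++ [d]))) ((0, 0, none, true), stk) =
          ((0, 0, none, true),
            List.replicate (val h fun w => f (d :: w)).val true ++ stk) := by
      intro d stk
      rw [ih (u ++ [d]) x stk, hf]
      simp only [List.append_assoc, List.singleton_append]
    rw [← hf]
    have hval : (val (h + 1) f).val = (s + t) ^ 2 % p := by
      rw [val, ← ZMod.val_natCast]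
      congr 1
      push_cast
      rw [hs, ht, ZMod.natCast_zmod_val, ZMod.natCast_zmod_val]
    rw [hval, treeT]
    have hev : ev x (Sum.inl Lt.opn :: (treeT M κ b p h (u ++ [false]) ++
        treeT M κ b p h (u ++ [true]) ++ (tableT M p).map Sum.inl ++ [Sum.inl Lt.cls])) =
        Lt.opn :: (ev x (treeT M κ b p h (u ++ [false])) ++
          ev x (treeT M κ b p h (u ++ [true])) ++ tableT M p ++ [Lt.cls]) := by
      show Lt.opn :: ev x _ = _
      rw [ev_append, ev_append, ev_append, ev_inl]
      rfl
    rw [hev, run_cons, run_append, run_append, run_append]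
    have h1 : run (stp M) (ev x (treeT M κ b p h (u ++ [false])))
        (((0, 0, none, true) : Fin M × Fin (M + 1) × Option Bool × Bool), false :: stk) =
        ((0, 0, none, true), List.replicate s true ++ false :: stk) := by
      rw [hs]
      exact hsub false _
    obtain ⟨β, hβ⟩ := run_table (M := M) p (s + t) (by omega) stk
    have h2 : run (stp M) (ev x (treeT M κ b p h (u ++ [true])))
        ((0, 0, none, true), List.replicate s true ++ false :: stk) =
        ((0, 0, none, true), List.replicate (s + t) true ++ false :: stk) := by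
      rw [hsub true, ← ht, add_comm s t, List.replicate_add, List.append_assoc]
    show run (stp M) [Lt.cls] (run (stp M) (tableT M p) (run (stp M)
      (ev x (treeT M κ b p h (u ++ [true]))) (run (stp M)
      (ev x (treeT M κ b p h (u ++ [false]))) ((0, 0, none, true), false :: stk)))) = _
    rw [h1, h2, hβ]
    rfl

end Pool.Agent.RLT
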