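import Pool.Agent.RLT.St5
import Pool.Agent.RLT.WRD

/-!
# The word of a tree over the fixed alphabet
-/

set_option autoImplicit false

namespace Pool.Agent.RLT

open Pool.Agent.Heads

namespace WRA

open WRD (run_cons run_append lfN_lt)

theorem evA_append {M : ℕ} {U : Type} (x : U → Fin M) (T T' : List (LA ⊕ (U × ℕ))) :
    evA x (T ++ T') = evA x T ++ evA x T' := List.map_append

theorem evA_inl {M : ℕ} {U : Type} (x : U → Fin M) (T : List LA) :
    evA x (T.map Sum.inl) = T := by
  unfold evA
  rw [List.map_map]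
  exact List.map_id T

theorem evA_cons_inl {M : ℕ} {U : Type} (x : U → Fin M) (a : LA) (T : List (LA ⊕ (U × ℕ))) :
    evA x (Sum.inl a :: T) = a :: evA x T := rfl

theorem run_psh (lb : Bool) (md : Option Bool) (ok : Bool) : ∀ (N : ℕ) (stk : List Bool),
    run stpA (List.replicate N LA.psh) ((lb, md, ok), stk) =
      ((lb, md, ok), List.replicate (if lb = true then N else 0) true ++ stk)
  | 0, stk => by
    rw [ite_self]
    rfl
  | N + 1, stk => by
    rw [List.replicate_succ, run_cons]
    show run stpA _ ((lb, md, ok), Op.apply (if lb = true then .push true else .none) stk) = _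
    rw [run_psh lb md ok N]
    by_cases h : lb = true
    · rw [if_pos h, if_pos h, if_pos h]
      show _ = ((lb, md, ok), List.replicate (N + 1) true ++ stk)
      rw [List.replicate_succ', List.append_assoc]
      rfl
    · rw [if_neg h, if_neg h, if_neg h]
      rfl

theorem bit_mod (n g : ℕ) :
    (if n.testBit g = true then 2 ^ g else 0) + n % 2 ^ g = n % 2 ^ (g + 1) := by
  rw [pow_succ, Nat.mod_mul, Nat.testBit_eq_decide_div_mod_eq (x := n) (i := g)]
  rcases Nat.mod_two_eq_zero_or_one (n / 2 ^ g) with h1 | h1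
  · simp [h1]
  · simp [h1, Nat.add_comm]

/-- the first part of a record -/
theorem run_bits {M : ℕ} {U : Type} (x : U → Fin M) (u : U) (md : Option Bool) (ok : Bool) :
    ∀ (g : ℕ) (lb : Bool) (stk : List Bool), ∃ lb' : Bool,
    run stpA (evA x ((List.range g).flatMap fun j =>
      Sum.inr (u, j) :: List.replicate (2 ^ j) (Sum.inl LA.psh))) ((lb, md, ok), stk) =
      ((lb', md, ok), List.replicate ((x u : ℕ) % 2 ^ g) true ++ stk)
  | 0, lb, stk => ⟨lb, by
    rw [pow_zero, Nat.mod_one]
    rfl⟩
  | g + 1, lb, stk => by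
    obtain ⟨lb', h⟩ := run_bits x u md ok g lb stk
    refine ⟨(x u : ℕ).testBit g, ?_⟩
    rw [List.range_succ, List.flatMap_append, evA_append, run_append, h, List.flatMap_singleton]
    have h1 : evA x (Sum.inr (u, g) :: List.replicate (2 ^ g) (Sum.inl LA.psh)) =
        LA.bit ((x u : ℕ).testBit g) :: List.replicate (2 ^ g) LA.psh := by
      unfold evA
      rw [List.map_cons, List.map_replicate]
      rfl
    rw [h1, run_cons]
    show run stpA _ ((((x u : ℕ).testBit g), md, ok), List.replicate ((x u : ℕ) % 2 ^ g) true ++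
      stk) = _
    rw [run_psh, ← List.append_assoc, ← List.replicate_add]
    congr 3
    exact bit_mod _ _

/-- an entry of a table -/
def ent (e : LA) (w : ℕ → ℕ) (x : ℕ) : List LA := e :: List.replicate (w x) LA.unt

theorem run_unt_none (lb : Bool) (stk : List Bool) : ∀ N : ℕ,
    run stpA (List.replicate N LA.unt) ((lb, none, true), stk) = ((lb, none, true), stk)
  | 0 => rfl
  | N + 1 => by
    rw [List.replicate_succ, run_cons]
    exact run_unt_none lb stk N

theorem run_unt_false (lb : Bool) (stk : List Bool) : ∀ N : ℕ,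
    run stpA (List.replicate N LA.unt) ((lb, some false, true), stk) =
      ((lb, some false, true), stk)
  | 0 => rfl
  | N + 1 => by
    rw [List.replicate_succ, run_cons]
    exact run_unt_false lb stk N

theorem run_unt_true (lb : Bool) : ∀ (N : ℕ) (stk : List Bool),
    run stpA (List.replicate N LA.unt) ((lb, some true, true), stk) =
      ((lb, some true, true), List.replicate N true ++ stk)
  | 0, _ => rfl
  | N + 1, stk => by
    rw [List.replicate_succ, run_cons]
    refine (run_unt_true lb N (true :: stk)).trans ?_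
    rw [List.replicate_succ', List.append_assoc]
    rfl

theorem run_tab1 {e : LA} (he : ∀ lb, stpA e (lb, none, true) (some true) =
    ((lb, none, true), Op.pop)) (w : ℕ → ℕ) (lb : Bool) (K : ℕ) (stk : List Bool) : ∀ n ≤ K,
    run stpA ((List.range n).flatMap (ent e w))
      ((lb, none, true), List.replicate K true ++ stk) =
      ((lb, none, true), List.replicate (K - n) true ++ stk)
  | 0, _ => rfl
  | n + 1, hn => by
    rw [List.range_succ, List.flatMap_append, run_append, run_tab1 he w lb K stk n (by omega)]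
    obtain ⟨m, hm⟩ : ∃ m, K - n = m + 1 := ⟨K - n - 1, by omega⟩
    have hm' : K - (n + 1) = m := by omega
    rw [hm, hm', List.flatMap_singleton, ent, List.replicate_succ, run_cons]
    show run stpA _ ((stpA e (lb, none, true) (some true)).1,
      (stpA e (lb, none, true) (some true)).2.apply _) = _
    rw [he]
    exact run_unt_none _ _ _

theorem run_tab3 {e : LA} (he : ∀ lb β o, stpA e (lb, some β, true) o =
    ((lb, some false, true), Op.none)) (w : ℕ → ℕ) (lb : Bool) (stk : List Bool) :
    ∀ (l : List ℕ) (β : Bool), ∃ β' : Bool,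
    run stpA (l.flatMap (ent e w)) ((lb, some β, true), stk) =
      ((lb, some β', true), stk)
  | [], β => ⟨β, rfl⟩
  | n :: l, β => by
    obtain ⟨β', hβ'⟩ := run_tab3 he w lb stk l false
    refine ⟨β', ?_⟩
    rw [List.flatMap_cons, run_append, ent, run_cons, ← hβ']
    show run stpA _ (run stpA _ ((stpA e (lb, some β, true) stk.head?).1,
      (stpA e (lb, some β, true) stk.head?).2.apply stk)) = _
    rw [he]
    exact congrArg _ (run_unt_false lb stk _)

theorem run_table {e : LA} (he : ∀ lb, stpA e (lb, none, true) (some true) =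
      ((lb, none, true), Op.pop))
    (he' : ∀ lb β o, stpA e (lb, some β, true) o = ((lb, some false, true), Op.none))
    (w : ℕ → ℕ) (lb : Bool) (N S : ℕ) (hS : S < N) (stk stk' : List Bool)
    (hs : ∀ l : List LA, run stpA (e :: l) ((lb, none, true), stk) =
      run stpA l ((lb, some true, true), stk')) : ∃ β : Bool,
    run stpA ((List.range N).flatMap (ent e w))
      ((lb, none, true), List.replicate S true ++ stk) =
      ((lb, some β, true), List.replicate (w S) true ++ stk') := by
  obtain ⟨n, hn⟩ : ∃ n, N = S + (n + 1) := ⟨N - S - 1, by omega⟩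
  have h1 : (List.range N).flatMap (ent e w) = (List.range S).flatMap (ent e w) ++ (ent e w S ++
      (((List.range n).map Nat.succ).map (S + ·)).flatMap (ent e w)) := by
    rw [hn, List.range_add, List.flatMap_append, List.range_succ_eq_map, List.map_cons,
      List.flatMap_cons]
    rfl
  rw [h1, run_append, run_append, run_tab1 he w lb S stk S le_rfl, Nat.sub_self]
  have h2 : run stpA (ent e w S)
      ((lb, none, true), List.replicate 0 true ++ stk) =
      ((lb, some true, true), List.replicate (w S) true ++ stk') := by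
    rw [ent, List.replicate_zero, List.nil_append, hs]
    exact run_unt_true _ _ _
  rw [h2]
  exact run_tab3 he' _ _ _ _ true

theorem run_cls (lb : Bool) (md : Option Bool) (stk : List Bool) :
    run stpA [LA.cls] ((lb, md, true), stk) = ((lb, none, true), stk) := rfl

/-- a record -/
theorem run_rec {g : ℕ} {U : Type} (x : U → Fin (2 ^ g)) (u : U) (s : Fin (2 ^ g)) (lb : Bool)
    (stk : List Bool) : ∃ lb' : Bool,
    run stpA (evA x (recT g u)) ((lb, none, true), List.replicate (s : ℕ) true ++ false :: stk) =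
      ((lb', none, true), List.replicate ((s + x u : Fin (2 ^ g)) : ℕ) true ++ false :: stk) := by
  obtain ⟨lb', h⟩ := run_bits x u none true g lb (List.replicate (s : ℕ) true ++ false :: stk)
  have hM : 0 < 2 ^ g := pow_pos two_pos g
  have hs := s.isLt
  have hx := (x u).isLt
  obtain ⟨β, hβ⟩ := run_table (e := LA.rnt) (fun _ => rfl) (fun _ _ _ => rfl)
    (fun y => y % 2 ^ g) lb' (2 * 2 ^ g - 1) ((x u : ℕ) + s) (by omega) (false :: stk)
    (false :: stk) (fun l => rfl)
  refine ⟨lb', ?_⟩
  unfold recT
  rw [evA_append, run_append, evA_inl, h, ← List.append_assoc, ← List.replicate_add,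
    Nat.mod_eq_of_lt hx]
  unfold redT
  rw [run_append]
  have h1 : ((List.range (2 * 2 ^ g - 1)).flatMap fun x => LA.rnt :: List.replicate (x % 2 ^ g)
      LA.unt) = (List.range (2 * 2 ^ g - 1)).flatMap (ent LA.rnt fun y => y % 2 ^ g) := rfl
  rw [h1, hβ, run_cls, Fin.val_add, Nat.add_comm (s : ℕ)]

/-- the records of a block -/
theorem run_recs {g : ℕ} {U ι : Type} (x : U → Fin (2 ^ g)) (f : ι → U) : ∀ (l : List ι)
    (s : Fin (2 ^ g)) (lb : Bool) (stk : List Bool), ∃ lb' : Bool,
    run stpA (evA x (l.flatMap fun i => recT g (f i)))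
      ((lb, none, true), List.replicate (s : ℕ) true ++ false :: stk) =
      ((lb', none, true),
        List.replicate ((s + (l.map fun i => x (f i)).sum : Fin (2 ^ g)) : ℕ) true ++
          false :: stk)
  | [], s, lb, stk => ⟨lb, by
    rw [List.map_nil, List.sum_nil, add_zero]
    rfl⟩
  | i :: l, s, lb, stk => by
    obtain ⟨lb', h⟩ := run_rec x (f i) s lb stk
    obtain ⟨lb'', h'⟩ := run_recs x f l (s + x (f i)) lb' stk
    refine ⟨lb'', ?_⟩
    rw [List.flatMap_cons, evA_append, run_append, h, h', List.map_cons, List.sum_cons,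
      add_assoc]

/-- a block -/
theorem run_block {g : ℕ} {U : Type} (x : U → Fin (2 ^ g)) (b j : ℕ) (f : Fin b → U) (lb : Bool)
    (stk : List Bool) : ∃ lb' : Bool,
    run stpA (evA x (Sum.inl LA.opn :: (((List.finRange b).flatMap fun i => recT g (f i)) ++
      (digT g j).map Sum.inl ++ [Sum.inl LA.cls]))) ((lb, none, true), stk) =
      ((lb', none, true),
        List.replicate (((∑ i, x (f i) : Fin (2 ^ g)) : ℕ) * (2 ^ g) ^ j) true ++ stk) := by
  obtain ⟨lb', h⟩ := run_recs x f (List.finRange b) 0 lb stk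
  have hD := (∑ i, x (f i) : Fin (2 ^ g)).isLt
  obtain ⟨β, hβ⟩ := run_table (e := LA.ent) (fun _ => rfl) (fun _ _ _ => rfl)
    (fun y => y * (2 ^ g) ^ j) lb' (2 ^ g) ((∑ i, x (f i) : Fin (2 ^ g)) : ℕ) hD (false :: stk)
    stk (fun l => rfl)
  refine ⟨lb', ?_⟩
  rw [evA_cons_inl, run_cons, evA_append, evA_append, run_append, run_append, evA_inl]
  have h0 : (((0 : Fin (2 ^ g)) : ℕ)) = 0 := Fin.val_zero _
  rw [h0, zero_add, ← Fin.sum_univ_def] at h
  have h1 : run stpA (evA x ((List.finRange b).flatMap fun i => recT g (f i)))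
      ((lb, none, true), false :: stk) = ((lb', none, true),
        List.replicate ((∑ i, x (f i) : Fin (2 ^ g)) : ℕ) true ++ false :: stk) := h
  have h2 : digT g j = (List.range (2 ^ g)).flatMap (ent LA.ent fun y => y * (2 ^ g) ^ j) := rfl
  show run stpA (evA x [Sum.inl LA.cls]) (run stpA (digT g j) (run stpA
    (evA x ((List.finRange b).flatMap fun i => recT g (f i)))
      ((lb, none, true), false :: stk))) = _
  rw [h1, h2, hβ]
  rfl

theorem run_leaf (g κ b : ℕ) (u : List Bool) (x : List Bool × Fin κ × Fin b → Fin (2 ^ g)) :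
    ∀ (l : List (Fin κ)) (lb : Bool) (stk : List Bool), ∃ lb' : Bool,
    run stpA (evA x (l.flatMap fun (j : Fin κ) =>
      Sum.inl LA.opn :: (((List.finRange b).flatMap fun (i : Fin b) => recT g (u, j, i)) ++
        (digT g (j : ℕ)).map Sum.inl ++ [Sum.inl LA.cls]))) ((lb, none, true), stk) =
      ((lb', none, true), List.replicate
        (l.map fun j : Fin κ =>
          ((∑ i, x (u, j, i) : Fin (2 ^ g)) : ℕ) * (2 ^ g) ^ (j : ℕ)).sum true ++ stk)
  | [], lb, stk => ⟨lb, rfl⟩
  | j :: l, lb, stk => by
    obtain ⟨lb', h⟩ := run_block x b (j : ℕ) (fun i => (u, j, i)) lb stk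
    obtain ⟨lb'', h'⟩ := run_leaf g κ b u x l lb' (List.replicate
      (((∑ i, x (u, j, i) : Fin (2 ^ g)) : ℕ) * (2 ^ g) ^ (j : ℕ)) true ++ stk)
    refine ⟨lb'', ?_⟩
    rw [List.flatMap_cons, evA_append, run_append, h, h', List.map_cons, List.sum_cons,
      Nat.add_comm (((∑ i, x (u, j, i) : Fin (2 ^ g)) : ℕ) * (2 ^ g) ^ (j : ℕ)),
      List.replicate_add, List.append_assoc]

end WRA

open WRA WRD in
theorem t_WRA : S_WRA := by
  intro g κ b p _ hMp h
  induction h with
  | zero =>
    intro u x lb stk
    obtain ⟨lb', h⟩ := WRA.run_leaf g κ b u x (List.finRange κ) lb stk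
    refine ⟨lb', ?_⟩
    rw [treeA, leafA, h, val]
    have h1 : ((List.finRange κ).map fun j : Fin κ =>
        ((∑ i, x (u, j, i) : Fin (2 ^ g)) : ℕ) * (2 ^ g) ^ (j : ℕ)).sum =
        lfN (fun j => ∑ i, x (u ++ [], j, i)) := by
      rw [← Fin.sum_univ_def, List.append_nil]
      rfl
    rw [h1, ZMod.val_natCast_of_lt ((lfN_lt _).trans_le hMp)]
  | succ h ih =>
    intro u x lb stk
    obtain ⟨f, hf⟩ : ∃ f : List Bool → ZMod p, f = fun w =>
      ((lfN (fun j => ∑ i, x (u ++ w, j, i)) : ℕ) : ZMod p) := ⟨_, rfl⟩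
    obtain ⟨s, hs⟩ : ∃ s, s = (val h fun w => f (false :: w)).val := ⟨_, rfl⟩
    obtain ⟨t, ht⟩ : ∃ t, t = (val h fun w => f (true :: w)).val := ⟨_, rfl⟩
    have hs1 : s < p := by
      rw [hs]
      exact ZMod.val_lt _
    have ht1 : t < p := by
      rw [ht]
      exact ZMod.val_lt _
    have hsub : ∀ (d : Bool) (lb : Bool) (stk : List Bool), ∃ lb' : Bool,
        run stpA (evA x (treeA g κ b p h (u ++ [d]))) ((lb, none, true), stk) =
          ((lb', none, true),
            List.replicate (val h fun w => f (d :: w)).val true ++ stk) := by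
      intro d lb stk
      obtain ⟨lb', h1⟩ := ih (u ++ [d]) x lb stk
      refine ⟨lb', ?_⟩
      rw [h1, hf]
      simp only [List.append_assoc, List.singleton_append]
    rw [← hf]
    have hval : (val (h + 1) f).val = (s + t) ^ 2 % p := by
      rw [val, ← ZMod.val_natCast]
      congr 1
      push_cast
      rw [hs, ht, ZMod.natCast_zmod_val, ZMod.natCast_zmod_val]
    rw [hval, treeA]
    have hev : evA x (Sum.inl LA.opn :: (treeA g κ b p h (u ++ [false]) ++
        treeA g κ b p h (u ++ [true]) ++ (tableA p).map Sum.inl ++ [Sum.inl LA.cls])) =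
        LA.opn :: (evA x (treeA g κ b p h (u ++ [false])) ++
          evA x (treeA g κ b p h (u ++ [true])) ++ tableA p ++ [LA.cls]) := by
      rw [evA_cons_inl, evA_append, evA_append, evA_append, evA_inl]
      rfl
    rw [hev]
    obtain ⟨lb1, h1⟩ := hsub false lb (false :: stk)
    obtain ⟨lb2, h2⟩ := hsub true lb1 (List.replicate s true ++ false :: stk)
    rw [← hs] at h1
    rw [← ht, ← List.append_assoc, ← List.replicate_add] at h2
    obtain ⟨β, hβ⟩ := WRA.run_table (e := LA.ent) (fun _ => rfl) (fun _ _ _ => rfl)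
      (fun y => y ^ 2 % p) lb2 (2 * p - 1) (t + s) (by omega) (false :: stk) stk (fun l => rfl)
    refine ⟨lb2, ?_⟩
    rw [run_cons, run_append, run_append, run_append]
    have h3 : tableA p = (List.range (2 * p - 1)).flatMap (WRA.ent LA.ent fun y => y ^ 2 % p) :=
      rfl
    show run stpA [LA.cls] (run stpA (tableA p) (run stpA
      (evA x (treeA g κ b p h (u ++ [true]))) (run stpA
      (evA x (treeA g κ b p h (u ++ [false]))) ((lb, none, true), false :: stk)))) = _
    rw [h1, h2, h3, hβ, WRA.run_cls, add_comm t s]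

end Pool.Agent.RLT
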