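import Pool.Agent.RLT.Core
import Pool.Agent.RLT.FNA
import Pool.Agent.RLT.RTP
import Pool.Agent.RLT.LEA
import Pool.Agent.RLT.LNA
import Pool.Agent.RLT.WRA
import Pool.Agent.RLT.SIM
import Pool.Agent.RLT.NUM
import Pool.Agent.RLT.PRA

set_option autoImplicit false

namespace Pool.Agent.RLT

theorem finA : FinalA :=
  t_FNA t_RTP t_LEA (t_LNA t_WRA) t_SIM cor t_NUM t_PRA

end Pool.Agent.RLT
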