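import Pool.Agent.RLT.St3

/-!
# RLT, module LEN: the length of the template of the tree
-/

set_option autoImplicit false

namespace Pool.Agent.RLT

namespace LEN

theorem runs_length (M j : ℕ) : (runs M j).length = (M - 1) * (1 + M ^ j) := by
  unfold runs
  rw [List.length_flatten, List.map_replicate, List.sum_replicate, List.length_cons,
    List.length_replicate, smul_eq_mul, add_comm 1]

theorem sum_aux (N b κ : ℕ) :
    ∑ j ∈ Finset.range κ, (b + N * (1 + (N + 1) ^ j) + 1) + 1 =
      κ * (b + (N + 1)) + (N + 1) ^ κ := by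
  induction κ with
  | zero => simp
  | succ κ ih =>
    rw [Finset.sum_range_succ, add_right_comm, ih]
    ring

theorem leaf_length (M κ b : ℕ) (u : List Bool) (hM : 1 ≤ M) :
    (leafT M κ b u).length = κ * (b + M) + (M ^ κ - 1) := by
  obtain ⟨N, rfl⟩ : ∃ N, M = N + 1 := ⟨M - 1, by omega⟩
  have h1 : (leafT (N + 1) κ b u).length =
      ∑ j ∈ Finset.range κ, (b + N * (1 + (N + 1) ^ j) + 1) := by
    unfold leafT
    rw [List.length_flatMap, ← Fin.sum_univ_def,
      ← Fin.sum_univ_eq_sum_range (fun j => b + N * (1 + (N + 1) ^ j) + 1)]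
    refine Finset.sum_congr rfl fun j _ => ?_
    rw [List.length_append, List.length_append, List.length_map, List.length_map,
      List.length_finRange, runs_length, List.length_singleton, Nat.add_sub_cancel]
  have h2 := sum_aux N b κ
  rw [← h1] at h2
  have h3 : 1 ≤ (N + 1) ^ κ := Nat.one_le_pow _ _ (Nat.succ_pos N)
  omega

theorem table_length (M p : ℕ) (hp : 1 ≤ p) : (tableT M p).length ≤ 2 * p ^ 2 := by
  unfold tableT
  rw [List.length_flatMap]
  have h1 : ((List.range (2 * p - 1)).map fun x =>
      (Lt.ent :: List.replicate (x ^ 2 % p) Lt.unt : List (Lt M)).length).sum ≤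
      ((List.range (2 * p - 1)).map fun _ => p).sum := by
    refine List.sum_le_sum fun x _ => ?_
    rw [List.length_cons, List.length_replicate]
    exact Nat.mod_lt _ hp
  refine h1.trans ?_
  rw [List.map_const', List.sum_replicate, List.length_range, smul_eq_mul]
  calc (2 * p - 1) * p ≤ (2 * p) * p := Nat.mul_le_mul_right _ (Nat.sub_le _ _)
    _ = 2 * p ^ 2 := by ring

end LEN

open LEN in
theorem t_LEN : S_LEN := by
  intro M κ b p h u hM hp
  induction h generalizing u with
  | zero =>
    change (leafT M κ b u).length ≤ _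
    rw [leaf_length M κ b u hM]
    simp
  | succ h ih =>
    have e : (treeT M κ b p (h + 1) u).length = (treeT M κ b p h (u ++ [false])).length +
        (treeT M κ b p h (u ++ [true])).length + (tableT M p).length + 2 := by
      change (Sum.inl Lt.opn :: (treeT M κ b p h (u ++ [false]) ++
        treeT M κ b p h (u ++ [true]) ++ (tableT M p).map Sum.inl ++ [Sum.inl Lt.cls]) :
          List (Lt M ⊕ (List Bool × Fin κ × Fin b))).length = _
      rw [List.length_cons, List.length_append, List.length_append, List.length_append,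
        List.length_map, List.length_singleton]
    rw [e]
    have h1 := ih (u ++ [false])
    have h2 := ih (u ++ [true])
    have h3 := table_length M p hp
    obtain ⟨X, hX⟩ : ∃ X, X = κ * (b + M) + (M ^ κ - 1) := ⟨_, rfl⟩
    obtain ⟨Y, hY⟩ : ∃ Y, Y = 2 * p ^ 2 + 2 := ⟨_, rfl⟩
    rw [← hX, ← hY] at h1 h2 ⊢
    obtain ⟨z, hz⟩ : ∃ z, 2 ^ h = z + 1 :=
      ⟨2 ^ h - 1, by have := Nat.one_le_two_pow (n := h); omega⟩
    have e2 : 2 ^ (h + 1) * X + (2 ^ (h + 1) - 1) * Y =
        2 * (2 ^ h * X + (2 ^ h - 1) * Y) + Y := by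
      rw [pow_succ, hz]
      have e3 : (z + 1) * 2 - 1 = 2 * z + 1 := by omega
      rw [e3, Nat.add_sub_cancel]
      ring
    rw [e2]
    omega

end Pool.Agent.RLT
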