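import Pool.Agent.RLT.St3

set_option autoImplicit false

namespace Pool.Agent.RLT

namespace PAR

lemma h_le (g h : ℕ) (hg : 1 ≤ g) (hh : 1 ≤ h) : h * 2 ^ g ≤ 2 ^ (g * h) := by
  obtain ⟨k, rfl⟩ : ∃ k, h = k + 1 := ⟨h - 1, by omega⟩
  have h1 : k + 1 ≤ 2 ^ k := Nat.lt_two_pow_self
  have h2 : 2 ^ k ≤ 2 ^ (g * k) :=
    Nat.pow_le_pow_right (by norm_num) (Nat.le_mul_of_pos_left k hg)
  calc (k + 1) * 2 ^ g ≤ 2 ^ (g * k) * 2 ^ g := Nat.mul_le_mul_right _ (h1.trans h2)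
    _ = 2 ^ (g * (k + 1)) := by rw [← pow_add]; ring_nf

lemma size (g h p : ℕ) (hg : 1 ≤ g) (hh : 2 ≤ h) (hp : p ≤ 2 * 2 ^ (g * h)) :
    4 * (2 ^ h * (h * 2 ^ g + 2 ^ (g * h)) + 2 ^ h * (2 * p ^ 2 + 2) + p) + 4 * (2 ^ h * h)
      ≤ 2 ^ ((2 * g + 8) * h) := by
  have h1 := h_le g h hg (by omega)
  have hA4 : 4 ≤ 2 ^ h := by
    calc 4 = 2 ^ 2 := by norm_num
      _ ≤ 2 ^ h := Nat.pow_le_pow_right (by norm_num) hh
  have hB1 : 1 ≤ 2 ^ (g * h) := Nat.one_le_two_pow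
  have hhA : h ≤ 2 ^ h := Nat.lt_two_pow_self.le
  have hE : 2 ^ ((2 * g + 8) * h) = (2 ^ (g * h)) ^ 2 * (2 ^ h) ^ 8 := by
    rw [← pow_mul, ← pow_mul, ← pow_add]; ring_nf
  rw [hE]
  generalize 2 ^ h = A at *
  generalize 2 ^ (g * h) = B at *
  generalize h * 2 ^ g = X at *
  have hp2 : p ^ 2 ≤ (2 * B) ^ 2 := Nat.pow_le_pow_left hp 2
  have hBB : B ≤ B ^ 2 := by nlinarith
  have e1 : A * (X + B) ≤ 2 * (A * B ^ 2) := by
    calc A * (X + B) ≤ A * (B + B) := Nat.mul_le_mul_left _ (by omega)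
      _ = 2 * (A * B) := by ring
      _ ≤ 2 * (A * B ^ 2) := Nat.mul_le_mul_left _ (Nat.mul_le_mul_left _ hBB)
  have e0 : A ≤ A * B ^ 2 := Nat.le_mul_of_pos_right _ (by positivity)
  have e2 : A * (2 * p ^ 2 + 2) ≤ 10 * (A * B ^ 2) := by
    calc A * (2 * p ^ 2 + 2) ≤ A * (2 * (2 * B) ^ 2 + 2) := Nat.mul_le_mul_left _ (by omega)
      _ = 8 * (A * B ^ 2) + 2 * A := by ring
      _ ≤ 10 * (A * B ^ 2) := by omega
  have e3 : p ≤ 2 * (A * B ^ 2) := by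
    have : B ≤ A * B ^ 2 := by nlinarith
    omega
  have e4 : A * h ≤ A * A * B ^ 2 := by
    calc A * h ≤ A * A := Nat.mul_le_mul_left _ hhA
      _ ≤ A * A * B ^ 2 := Nat.le_mul_of_pos_right _ (by positivity)
  have e5 : A * B ^ 2 ≤ A * A * B ^ 2 := by
    apply Nat.mul_le_mul_right
    exact Nat.le_mul_of_pos_left _ (by omega)
  have e6 : 60 * (A * A * B ^ 2) ≤ B ^ 2 * A ^ 8 := by
    have h6 : 4 ^ 6 ≤ A ^ 6 := Nat.pow_le_pow_left hA4 6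
    calc 60 * (A * A * B ^ 2) ≤ A ^ 6 * (A * A * B ^ 2) :=
          Nat.mul_le_mul_right _ (by omega)
      _ = B ^ 2 * A ^ 8 := by ring
  omega

lemma expo (C E g h m s p : ℕ) (hE : 1 ≤ E) (hg : g = 64 * E) (hhE : E ≤ h) (h2 : 2 ≤ h)
    (hC : C + 3 ≤ h) (hm : g + 1 ≤ m) (hp : p ≤ 2 * 2 ^ (g * h))
    (hs : (2 ^ g) ^ (m * (h / E)) ≤ 2 * p * s ^ C * 2 ^ (C + 1) * (2 ^ h) ^ (2 * m + 1)
      * (2 ^ h) ^ (2 * m) * (2 ^ (4 * h + 2)) ^ m) : 2 ^ (m * h) ≤ s ^ C := by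
  have h1 : 2 * p * s ^ C * 2 ^ (C + 1) * (2 ^ h) ^ (2 * m + 1)
      * (2 ^ h) ^ (2 * m) * (2 ^ (4 * h + 2)) ^ m
      ≤ 2 * (2 * 2 ^ (g * h)) * s ^ C * 2 ^ (C + 1) * (2 ^ h) ^ (2 * m + 1)
      * (2 ^ h) ^ (2 * m) * (2 ^ (4 * h + 2)) ^ m := by gcongr
  have h3 : 2 * (2 * 2 ^ (g * h)) * s ^ C * 2 ^ (C + 1) * (2 ^ h) ^ (2 * m + 1)
      * (2 ^ h) ^ (2 * m) * (2 ^ (4 * h + 2)) ^ m
      = 2 ^ (2 + g * h + (C + 1) + h * (2 * m + 1) + h * (2 * m) + (4 * h + 2) * m) * s ^ C := by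
    simp only [pow_add, pow_mul]
    ring
  rw [h3] at h1
  have h4 := hs.trans h1
  rw [← pow_mul] at h4
  have h5 : h ≤ 2 * (E * (h / E)) := by
    have h6 : h < E * (h / E) + E := by
      have := Nat.lt_mul_div_succ h hE
      rw [mul_add, mul_one] at this
      exact this
    have h7 : E ≤ E * (h / E) := Nat.le_mul_of_pos_right _ (Nat.div_pos hhE hE)
    omega
  have h8 : 32 * (m * h) ≤ g * (m * (h / E)) := by
    calc 32 * (m * h) ≤ 32 * (m * (2 * (E * (h / E)))) :=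
          Nat.mul_le_mul_left _ (Nat.mul_le_mul_left _ h5)
      _ = g * (m * (h / E)) := by rw [hg]; ring
  have h9 : 2 + g * h + (C + 1) + h * (2 * m + 1) + h * (2 * m) + (4 * h + 2) * m + m * h
      ≤ 32 * (m * h) := by
    have a1 : (g + 1) * h ≤ m * h := Nat.mul_le_mul_right _ hm
    have a2 : m * 2 ≤ m * h := Nat.mul_le_mul_left _ h2
    have a3 : h ≤ m * h := Nat.le_mul_of_pos_left _ (by omega)
    have e : 2 + g * h + (C + 1) + h * (2 * m + 1) + h * (2 * m) + (4 * h + 2) * m + m * h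
      = (g + 1) * h + (C + 3) + 9 * (m * h) + m * 2 := by ring
    rw [e]
    omega
  have h10 : 2 ^ (2 + g * h + (C + 1) + h * (2 * m + 1) + h * (2 * m) + (4 * h + 2) * m)
      * 2 ^ (m * h) ≤ 2 ^ (2 + g * h + (C + 1) + h * (2 * m + 1) + h * (2 * m) + (4 * h + 2) * m)
      * s ^ C := by
    rw [← pow_add]
    exact (Nat.pow_le_pow_right (by norm_num) (h9.trans h8)).trans h4
  exact Nat.le_of_mul_le_mul_left h10 (by positivity)

lemma fin_ineq (C c a h m n s : ℕ) (hc : 1 ≤ c) (ha : 1 ≤ a) (hh : 1 ≤ h) (hm : 1 ≤ m)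
    (hn : 1 ≤ n) (hn2 : n < 2 ^ (a * (h + 1))) (hcm : h ≤ 2 * c * m)
    (hs : 2 ^ (m * h) ≤ s ^ C) :
    (n : ℝ) ^ ((1 / (16 * (a : ℝ) ^ 2 * c * (C + 1))) * Real.log n) ≤ s := by
  have hC : C ≠ 0 := by
    rintro rfl
    rw [pow_zero] at hs
    have h1 : 2 ^ 1 ≤ 2 ^ (m * h) := Nat.pow_le_pow_right (by norm_num) (Nat.mul_pos hm hh)
    omega
  have hs0 : s ≠ 0 := by
    rintro rfl
    rw [zero_pow hC] at hs
    have : 0 < 2 ^ (m * h) := by positivity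
    omega
  have hnR : (0 : ℝ) < n := by exact_mod_cast hn
  have hsR : (0 : ℝ) < s := by exact_mod_cast Nat.pos_of_ne_zero hs0
  have hl0 : 0 ≤ Real.log n := Real.log_nonneg (by exact_mod_cast hn)
  have hlog2 : Real.log 2 ≤ 1 := by
    have := Real.log_two_lt_d9
    linarith
  have hlog2' : 1 / 2 ≤ Real.log 2 := by
    have := Real.log_two_gt_d9
    linarith
  have hl1 : Real.log n ≤ 2 * a * h := by
    have h1 : Real.log n ≤ Real.log ((2 : ℝ) ^ (a * (h + 1))) := by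
      apply Real.log_le_log hnR
      exact_mod_cast hn2.le
    rw [Real.log_pow] at h1
    have h2 : ((a * (h + 1) : ℕ) : ℝ) * Real.log 2 ≤ ((a * (h + 1) : ℕ) : ℝ) * 1 :=
      mul_le_mul_of_nonneg_left hlog2 (by positivity)
    have h3 : ((a * (h + 1) : ℕ) : ℝ) ≤ 2 * a * h := by
      have : a * (h + 1) ≤ 2 * a * h := by nlinarith
      exact_mod_cast this
    linarith
  have hls : (m : ℝ) * h * (1 / 2) ≤ C * Real.log s := by
    have h1 : Real.log ((2 : ℝ) ^ (m * h)) ≤ Real.log ((s : ℝ) ^ C) := by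
      apply Real.log_le_log (by positivity)
      exact_mod_cast hs
    rw [Real.log_pow, Real.log_pow] at h1
    have h2 : ((m * h : ℕ) : ℝ) * (1 / 2) ≤ ((m * h : ℕ) : ℝ) * Real.log 2 :=
      mul_le_mul_of_nonneg_left hlog2' (by positivity)
    push_cast at h1 h2
    linarith
  have hls0 : 0 ≤ Real.log s := Real.log_nonneg (by exact_mod_cast Nat.pos_of_ne_zero hs0)
  rw [Real.rpow_def_of_pos hnR]
  rw [← Real.le_log_iff_exp_le hsR]
  have hcR : (1 : ℝ) ≤ c := by exact_mod_cast hc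
  have haR : (1 : ℝ) ≤ a := by exact_mod_cast ha
  have hhR : (1 : ℝ) ≤ h := by exact_mod_cast hh
  have hcmR : (h : ℝ) ≤ 2 * c * m := by exact_mod_cast hcm
  have hsq : Real.log n ^ 2 ≤ (2 * a * h) ^ 2 := pow_le_pow_left₀ hl0 hl1 2
  have hD : 0 < 16 * (a : ℝ) ^ 2 * c * (C + 1) := by positivity
  have e1 : Real.log n * ((1 / (16 * (a : ℝ) ^ 2 * c * (C + 1))) * Real.log n)
      = Real.log n ^ 2 / (16 * (a : ℝ) ^ 2 * c * (C + 1)) := by
    field_simp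
  rw [e1, div_le_iff₀ hD]
  have h5 : (h : ℝ) ^ 2 ≤ 4 * c * (C * Real.log s) := by
    have h6 : (h : ℝ) * h ≤ 2 * c * m * h := mul_le_mul_of_nonneg_right hcmR (by positivity)
    have h7 : 4 * (c : ℝ) * (m * h * (1 / 2)) ≤ 4 * c * (C * Real.log s) :=
      mul_le_mul_of_nonneg_left hls (by positivity)
    nlinarith
  have h8 : (C : ℝ) * Real.log s ≤ (C + 1) * Real.log s := by nlinarith
  calc Real.log n ^ 2 ≤ (2 * a * h) ^ 2 := hsq
    _ = 4 * (a : ℝ) ^ 2 * (h : ℝ) ^ 2 := by ring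
    _ ≤ 4 * (a : ℝ) ^ 2 * (4 * c * (C * Real.log s)) :=
        mul_le_mul_of_nonneg_left h5 (by positivity)
    _ ≤ 4 * (a : ℝ) ^ 2 * (4 * c * ((C + 1) * Real.log s)) := by gcongr
    _ = Real.log s * (16 * (a : ℝ) ^ 2 * c * (C + 1)) := by ring

end PAR

open PAR in
theorem t_PAR : S_PAR := by
  intro C c E hc hE
  have hg1 : 1 ≤ 64 * E := by omega
  refine ⟨2 ^ (64 * E), 1 / (16 * ((2 * (64 * E) + 8 : ℕ) : ℝ) ^ 2 * c * (C + 1)), ?_, ?_, ?_⟩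
  · calc 2 = 2 ^ 1 := by norm_num
      _ ≤ 2 ^ (64 * E) := Nat.pow_le_pow_right (by norm_num) hg1
  · have : (0 : ℝ) < c := by exact_mod_cast hc
    positivity
  generalize hg : 64 * E = g at *
  have ha1 : 1 ≤ 2 * g + 8 := by omega
  generalize ha : 2 * g + 8 = a at *
  filter_upwards [Filter.eventually_ge_atTop
    (2 ^ (a * (4 * c + 2 * E + C + 3 + c * (g + 2) + 2)))] with n hn
  have hn1 : 1 ≤ n := Nat.one_le_two_pow.trans hn
  have hn0 : n ≠ 0 := by omega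
  have hlog : a * (4 * c + 2 * E + C + 3 + c * (g + 2) + 2) ≤ Nat.log 2 n :=
    Nat.le_log_of_pow_le (by norm_num) hn
  have hh0 : 4 * c + 2 * E + C + 3 + c * (g + 2) + 2 ≤ Nat.log 2 n / a :=
    (Nat.le_div_iff_mul_le ha1).2 (by rw [mul_comm]; exact hlog)
  have hlow : 2 ^ (a * (Nat.log 2 n / a)) ≤ n :=
    (Nat.pow_le_pow_right (by norm_num) (Nat.mul_div_le _ _)).trans (Nat.pow_log_le_self 2 hn0)
  have hup : n < 2 ^ (a * (Nat.log 2 n / a + 1)) := by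
    have h1 : n < 2 ^ (Nat.log 2 n + 1) := Nat.lt_pow_succ_log_self (by norm_num) n
    have h2 : Nat.log 2 n < a * (Nat.log 2 n / a + 1) := Nat.lt_mul_div_succ _ ha1
    exact h1.trans_le (Nat.pow_le_pow_right (by norm_num) h2)
  generalize Nat.log 2 n / a = h at *
  obtain ⟨p, hpp, hp1, hp2⟩ := Nat.exists_prime_lt_and_le_two_mul (2 ^ (g * h)) (by positivity)
  have hh2 : 2 ≤ h := by omega
  have hsize := size g h p hg1 hh2 hp2
  rw [ha] at hsize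
  have hp3 : 2 < p := by
    have : 2 ^ 1 ≤ 2 ^ (g * h) := Nat.pow_le_pow_right (by norm_num)
      (Nat.mul_pos hg1 (by omega))
    omega
  have hhc : g + 2 ≤ h / c := by
    rw [Nat.le_div_iff_mul_le hc, mul_comm]
    omega
  have hm1 : h / c - 1 + 1 = h / c := by omega
  have hch : c * (h / c) ≤ h := Nat.mul_div_le _ _
  have hch2 : h < c * (h / c + 1) := Nat.lt_mul_div_succ _ hc
  have hb1 : 2 ^ h * h * ((n - (2 ^ h * (h * 2 ^ g + 2 ^ (g * h)) + 2 ^ h * (2 * p ^ 2 + 2) + p))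
      / (2 ^ h * h)) ≤ n - (2 ^ h * (h * 2 ^ g + 2 ^ (g * h)) + 2 ^ h * (2 * p ^ 2 + 2) + p) :=
    Nat.mul_div_le _ _
  have hAh : 0 < 2 ^ h * h := Nat.mul_pos (by positivity) (by omega)
  have hb2 := Nat.lt_mul_div_succ
    (n - (2 ^ h * (h * 2 ^ g + 2 ^ (g * h)) + 2 ^ h * (2 * p ^ 2 + 2) + p)) hAh
  generalize (n - (2 ^ h * (h * 2 ^ g + 2 ^ (g * h)) + 2 ^ h * (2 * p ^ 2 + 2) + p))
      / (2 ^ h * h) = b at *
  have hb3 : n ≤ 2 * (2 ^ h * h * b) := by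
    have e0 : 2 ^ h * h * (b + 1) = 2 ^ h * h * b + 2 ^ h * h := by ring
    rw [e0] at hb2
    omega
  refine ⟨h, b, p, h, h / c - 1, hpp, hp3, ?_, by omega, ?_, ?_, ?_, hb3, ?_⟩
  · rw [← pow_mul]; exact hp1.le
  · by_contra hb
    have : b = 0 := by omega
    rw [this] at hb3
    omega
  · rw [hm1]; exact hch
  · have e1 : (2 ^ g) ^ h = 2 ^ (g * h) := by rw [← pow_mul]
    rw [e1]
    have e2 : 2 ^ h * (h * (b + 2 ^ g) + (2 ^ (g * h) - 1))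
        ≤ 2 ^ h * h * b + 2 ^ h * (h * 2 ^ g + 2 ^ (g * h)) := by
      calc 2 ^ h * (h * (b + 2 ^ g) + (2 ^ (g * h) - 1))
          ≤ 2 ^ h * (h * (b + 2 ^ g) + 2 ^ (g * h)) :=
            Nat.mul_le_mul_left _ (Nat.add_le_add_left (Nat.sub_le _ _) _)
        _ = 2 ^ h * h * b + 2 ^ h * (h * 2 ^ g + 2 ^ (g * h)) := by ring
    have e3 : (2 ^ h - 1) * (2 * p ^ 2 + 2) ≤ 2 ^ h * (2 * p ^ 2 + 2) :=
      Nat.mul_le_mul_right _ (Nat.sub_le _ _)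
    omega
  · intro s hs
    have hm : g + 1 ≤ h / c - 1 := by omega
    have h1 := expo C E g h (h / c - 1) s p hE hg.symm (by omega) hh2 (by omega) hm hp2 hs
    have h2 : h ≤ 2 * c * (h / c - 1) := by
      obtain ⟨k, hk⟩ : ∃ k, h / c = k + 1 := ⟨h / c - 1, by omega⟩
      rw [hk] at hch2 ⊢
      simp only [Nat.add_sub_cancel]
      have e1 : c * (k + 1 + 1) = c * k + 2 * c := by ring
      have e2 : 2 * c * k = 2 * (c * k) := by ring
      rw [e1] at hch2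
      rw [e2]
      omega
    exact fin_ineq C c a h (h / c - 1) n s hc ha1 (by omega) (by omega) hn1 hup h2 h1

end Pool.Agent.RLT
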