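import Pool.Agent.RLT.St4
import Pool.Agent.RLT.PAR

set_option autoImplicit false

namespace Pool.Agent.RLT

open PAR in
theorem t_PRM : S_PRM := by
  intro g h₀ hg1
  have ha1 : 1 ≤ 2 * g + 8 := by omega
  have ha4 : 4 * g + 16 = 2 * (2 * g + 8) := by ring
  rw [ha4]
  generalize ha : 2 * g + 8 = a at *
  filter_upwards [Filter.eventually_ge_atTop (2 ^ (a * (h₀ + 2)))] with n hn
  have hn1 : 1 ≤ n := Nat.one_le_two_pow.trans hn
  have hn0 : n ≠ 0 := by omega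
  have hlog : a * (h₀ + 2) ≤ Nat.log 2 n := Nat.le_log_of_pow_le (by norm_num) hn
  have hh0 : h₀ + 2 ≤ Nat.log 2 n / a :=
    (Nat.le_div_iff_mul_le ha1).2 (by rw [mul_comm]; exact hlog)
  have hlow : 2 ^ (a * (Nat.log 2 n / a)) ≤ n :=
    (Nat.pow_le_pow_right (by norm_num) (Nat.mul_div_le _ _)).trans (Nat.pow_log_le_self 2 hn0)
  have hup : n < 2 ^ (a * (Nat.log 2 n / a + 1)) := by
    have h1 : n < 2 ^ (Nat.log 2 n + 1) := Nat.lt_pow_succ_log_self (by norm_num) n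
    have h2 : Nat.log 2 n < a * (Nat.log 2 n / a + 1) := Nat.lt_mul_div_succ _ ha1
    exact h1.trans_le (Nat.pow_le_pow_right (by norm_num) h2)
  generalize Nat.log 2 n / a = h at *
  obtain ⟨p, hpp, hp1, hp2⟩ := Nat.exists_prime_lt_and_le_two_mul (2 ^ (g * h)) (by positivity)
  have hh2 : 2 ≤ h := by omega
  have hsize := size g h p hg1 hh2 hp2
  rw [ha] at hsize
  have hp3 : 2 < p := by
    have : 2 ^ 1 ≤ 2 ^ (g * h) := Nat.pow_le_pow_right (by norm_num)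
      (Nat.mul_pos hg1 (by omega))
    omega
  have hb1 : 2 ^ h * h * ((n - (2 ^ h * (h * 2 ^ g + 2 ^ (g * h)) + 2 ^ h * (2 * p ^ 2 + 2) + p))
      / (2 ^ h * h)) ≤ n - (2 ^ h * (h * 2 ^ g + 2 ^ (g * h)) + 2 ^ h * (2 * p ^ 2 + 2) + p) :=
    Nat.mul_div_le _ _
  have hAh : 0 < 2 ^ h * h := Nat.mul_pos (by positivity) (by omega)
  have hb2 := Nat.lt_mul_div_succ
    (n - (2 ^ h * (h * 2 ^ g + 2 ^ (g * h)) + 2 ^ h * (2 * p ^ 2 + 2) + p)) hAh
  generalize (n - (2 ^ h * (h * 2 ^ g + 2 ^ (g * h)) + 2 ^ h * (2 * p ^ 2 + 2) + p))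
      / (2 ^ h * h) = b at *
  have hb3 : n ≤ 2 * (2 ^ h * h * b) := by
    have e0 : 2 ^ h * h * (b + 1) = 2 ^ h * h * b + 2 ^ h * h := by ring
    rw [e0] at hb2
    omega
  have e1 : (2 ^ g) ^ h = 2 ^ (g * h) := by rw [← pow_mul]
  refine ⟨h, b, p, by omega, by omega, hpp, hp3, by rw [e1]; exact hp1.le, by rw [e1]; exact hp2,
    ?_, ?_, ?_, hb3⟩
  · by_contra hb
    have : b = 0 := by omega
    rw [this] at hb3
    omega
  · refine hup.le.trans (Nat.pow_le_pow_right (by norm_num) ?_)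
    calc a * (h + 1) ≤ a * (2 * h) := Nat.mul_le_mul_left _ (by omega)
      _ = 2 * a * h := by ring
  · rw [e1]
    have e2 : 2 ^ h * (h * (b + 2 ^ g) + (2 ^ (g * h) - 1))
        ≤ 2 ^ h * h * b + 2 ^ h * (h * 2 ^ g + 2 ^ (g * h)) := by
      calc 2 ^ h * (h * (b + 2 ^ g) + (2 ^ (g * h) - 1))
          ≤ 2 ^ h * (h * (b + 2 ^ g) + 2 ^ (g * h)) :=
            Nat.mul_le_mul_left _ (Nat.add_le_add_left (Nat.sub_le _ _) _)
        _ = 2 ^ h * h * b + 2 ^ h * (h * 2 ^ g + 2 ^ (g * h)) := by ring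
    have e3 : (2 ^ h - 1) * (2 * p ^ 2 + 2) ≤ 2 ^ h * (2 * p ^ 2 + 2) :=
      Nat.mul_le_mul_right _ (Nat.sub_le _ _)
    omega

end Pool.Agent.RLT
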