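import Pool.Agent.RLT.St4

/-!
# RLT_UPA: an upper bound for deterministic real-time pushdown languages
-/

set_option autoImplicit false

namespace Pool.Agent.RLT

open Pool.Agent.Heads

namespace UPA

/-- The goals. `W i j q g q'`: from state `q` with top symbol `g` the machine, reading the letters
`i, …, j - 1`, removes `g` with the last one and ends in state `q'`. `F i q o`: from state `q` with top
symbol `o` the machine, reading the letters from `i` on, accepts without going below this symbol. -/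
inductive Goal (Q Γ : Type) where
  | W (i j : ℕ) (q : Q) (g : Γ) (q' : Q) : Goal Q Γ
  | F (i : ℕ) (q : Q) (o : Option Γ) : Goal Q Γ

variable {α Q Γ : Type}

/-- The positions of the goal are at most `n`. -/
def Ok (n : ℕ) : Goal Q Γ → Prop
  | Goal.W i j _ _ _ => i ≤ n ∧ j ≤ n
  | Goal.F i _ _ => i ≤ n

/-- The size of the goal. -/
def sz (n : ℕ) : Goal Q Γ → ℕ
  | Goal.W i j _ _ _ => j - i
  | Goal.F i _ _ => n - i

section

variable (stp : α → Q → Option Γ → Q × Op Γ) (fin : Q → Option Γ → Bool) {n : ℕ}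

/-- The true goals. -/
inductive T (w : Fin n → α) : Goal Q Γ → Prop
  | wpop (i : Fin n) (q : Q) (g : Γ) (q' : Q) : stp (w i) q (some g) = (q', Op.pop) →
      T w (Goal.W i (i + 1) q g q')
  | wnone (i : Fin n) (j : ℕ) (q : Q) (g : Γ) (q' q₁ : Q) :
      stp (w i) q (some g) = (q₁, Op.none) → T w (Goal.W (i + 1) j q₁ g q') →
      T w (Goal.W i j q g q')
  | wpush (i : Fin n) (j m : ℕ) (q : Q) (g : Γ) (q' q₁ : Q) (g' : Γ) (q₂ : Q) :
      stp (w i) q (some g) = (q₁, Op.push g') → T w (Goal.W (i + 1) m q₁ g' q₂) →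
      T w (Goal.W m j q₂ g q') → T w (Goal.W i j q g q')
  | fend (q : Q) (o : Option Γ) : fin q o = true → T w (Goal.F n q o)
  | fnone (i : Fin n) (q : Q) (o : Option Γ) (q₁ : Q) : stp (w i) q o = (q₁, Op.none) →
      T w (Goal.F (i + 1) q₁ o) → T w (Goal.F i q o)
  | fpop (i : Fin n) (q : Q) (q₁ : Q) : stp (w i) q none = (q₁, Op.pop) →
      T w (Goal.F (i + 1) q₁ none) → T w (Goal.F i q none)
  | fpush (i : Fin n) (q : Q) (o : Option Γ) (q₁ : Q) (g' : Γ) :
      stp (w i) q o = (q₁, Op.push g') → T w (Goal.F (i + 1) q₁ (some g')) → T w (Goal.F i q o)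
  | fpush2 (i : Fin n) (m : ℕ) (q : Q) (o : Option Γ) (q₁ : Q) (g' : Γ) (q₂ : Q) :
      stp (w i) q o = (q₁, Op.push g') → T w (Goal.W (i + 1) m q₁ g' q₂) →
      T w (Goal.F m q₂ o) → T w (Goal.F i q o)

/-- The free steps on lists of goals. -/
inductive Fr (n : ℕ) : List (Goal Q Γ) → List (Goal Q Γ) → Prop
  | fend (q : Q) (o : Option Γ) (r : List (Goal Q Γ)) : fin q o = true →
      Fr n (Goal.F n q o :: r) r

/-- The steps with a test. -/
inductive Ts (i : ℕ) (a : α) : List (Goal Q Γ) → List (Goal Q Γ) → Prop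
  | wpop (q : Q) (g : Γ) (q' : Q) (r : List (Goal Q Γ)) : stp a q (some g) = (q', Op.pop) →
      Ts i a (Goal.W i (i + 1) q g q' :: r) r
  | wnone (j : ℕ) (q : Q) (g : Γ) (q' q₁ : Q) (r : List (Goal Q Γ)) :
      stp a q (some g) = (q₁, Op.none) →
      Ts i a (Goal.W i j q g q' :: r) (Goal.W (i + 1) j q₁ g q' :: r)
  | wpushA (j m : ℕ) (q : Q) (g : Γ) (q' q₁ : Q) (g' : Γ) (q₂ : Q) (r : List (Goal Q Γ)) :
      stp a q (some g) = (q₁, Op.push g') →
      Ts i a (Goal.W i j q g q' :: r) (Goal.W (i + 1) m q₁ g' q₂ :: Goal.W m j q₂ g q' :: r)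
  | wpushB (j m : ℕ) (q : Q) (g : Γ) (q' q₁ : Q) (g' : Γ) (q₂ : Q) (r : List (Goal Q Γ)) :
      stp a q (some g) = (q₁, Op.push g') →
      Ts i a (Goal.W i j q g q' :: r) (Goal.W m j q₂ g q' :: Goal.W (i + 1) m q₁ g' q₂ :: r)
  | fnone (q : Q) (o : Option Γ) (q₁ : Q) (r : List (Goal Q Γ)) : stp a q o = (q₁, Op.none) →
      Ts i a (Goal.F i q o :: r) (Goal.F (i + 1) q₁ o :: r)
  | fpop (q : Q) (q₁ : Q) (r : List (Goal Q Γ)) : stp a q none = (q₁, Op.pop) →
      Ts i a (Goal.F i q none :: r) (Goal.F (i + 1) q₁ none :: r)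
  | fpush (q : Q) (o : Option Γ) (q₁ : Q) (g' : Γ) (r : List (Goal Q Γ)) :
      stp a q o = (q₁, Op.push g') →
      Ts i a (Goal.F i q o :: r) (Goal.F (i + 1) q₁ (some g') :: r)
  | fpushA (m : ℕ) (q : Q) (o : Option Γ) (q₁ : Q) (g' : Γ) (q₂ : Q) (r : List (Goal Q Γ)) :
      stp a q o = (q₁, Op.push g') →
      Ts i a (Goal.F i q o :: r) (Goal.W (i + 1) m q₁ g' q₂ :: Goal.F m q₂ o :: r)
  | fpushB (m : ℕ) (q : Q) (o : Option Γ) (q₁ : Q) (g' : Γ) (q₂ : Q) (r : List (Goal Q Γ)) :
      stp a q o = (q₁, Op.push g') →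
      Ts i a (Goal.F i q o :: r) (Goal.F m q₂ o :: Goal.W (i + 1) m q₁ g' q₂ :: r)

/-- The run from the position `i` on. -/
def rn (w : Fin n → α) (i : ℕ) (c : Q × List Γ) : Q × List Γ :=
  run stp ((List.ofFn w).drop i) c

/-- The run from the position `i` on accepts. -/
def acc (w : Fin n → α) (i : ℕ) (c : Q × List Γ) : Prop :=
  fin (rn stp w i c).1 (rn stp w i c).2.head? = true

theorem rn_step (w : Fin n → α) (i : Fin n) (c : Q × List Γ) :
    rn stp w i c =
      rn stp w (i + 1) ((stp (w i) c.1 c.2.head?).1, (stp (w i) c.1 c.2.head?).2.apply c.2) := by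
  unfold rn run
  have h : (List.ofFn w).drop i = w i :: (List.ofFn w).drop (i + 1) := by
    have hi : (i : ℕ) < (List.ofFn w).length := by rw [List.length_ofFn]; exact i.2
    rw [List.drop_eq_getElem_cons hi]
    congr 1
    simp
  rw [h, List.foldl_cons]

theorem rn_end (w : Fin n → α) (c : Q × List Γ) : rn stp w n c = c := by
  unfold rn run
  rw [List.drop_of_length_le (by rw [List.length_ofFn])]
  rfl

/-- what a true goal says -/
def Sem (w : Fin n → α) : Goal Q Γ → Prop
  | Goal.W i j q g q' => i < j ∧ j ≤ n ∧ ∀ st, rn stp w i (q, g :: st) = rn stp w j (q', st)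
  | Goal.F i q o => i ≤ n ∧ ∀ st : List Γ, st.head? = o → acc stp fin w i (q, st)

theorem sem (w : Fin n → α) (x : Goal Q Γ) (hx : T stp fin w x) : Sem stp fin w x := by
  induction hx with
  | wpop i q g q' h =>
    refine ⟨Nat.lt_succ_self _, i.2, fun st => ?_⟩
    rw [rn_step]
    simp only [List.head?_cons, h, Op.apply, List.tail_cons]
  | wnone i j q g q' q₁ h _ ih =>
    obtain ⟨h1, h2, h3⟩ := ih
    refine ⟨by omega, h2, fun st => ?_⟩
    rw [rn_step]
    simp only [List.head?_cons, h, Op.apply]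
    exact h3 st
  | wpush i j m q g q' q₁ g' q₂ h _ _ ih1 ih2 =>
    obtain ⟨h1, h2, h3⟩ := ih1
    obtain ⟨h4, h5, h6⟩ := ih2
    refine ⟨by omega, h5, fun st => ?_⟩
    rw [rn_step]
    simp only [List.head?_cons, h, Op.apply]
    rw [h3, h6]
  | fend q o h =>
    refine ⟨le_rfl, fun st hst => ?_⟩
    unfold acc
    rw [rn_end]
    simp only [hst, h]
  | fnone i q o q₁ h _ ih =>
    obtain ⟨h1, h2⟩ := ih
    refine ⟨by omega, fun st hst => ?_⟩
    unfold acc
    rw [rn_step]
    simp only [hst, h, Op.apply]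
    exact h2 st hst
  | fpop i q q₁ h _ ih =>
    obtain ⟨h1, h2⟩ := ih
    refine ⟨by omega, fun st hst => ?_⟩
    have hst' : st = [] := List.head?_eq_none_iff.mp hst
    subst hst'
    unfold acc
    rw [rn_step]
    simp only [List.head?_nil, h, Op.apply, List.tail_nil]
    exact h2 [] rfl
  | fpush i q o q₁ g' h _ ih =>
    obtain ⟨h1, h2⟩ := ih
    refine ⟨by omega, fun st hst => ?_⟩
    unfold acc
    rw [rn_step]
    simp only [hst, h, Op.apply]
    exact h2 (g' :: st) rfl
  | fpush2 i m q o q₁ g' q₂ h _ _ ih1 ih2 =>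
    obtain ⟨h1, h2, h3⟩ := ih1
    obtain ⟨h4, h5⟩ := ih2
    refine ⟨by omega, fun st hst => ?_⟩
    unfold acc
    rw [rn_step]
    simp only [hst, h, Op.apply]
    rw [h3]
    exact h5 st hst

theorem ok_of_T (w : Fin n → α) (x : Goal Q Γ) (hx : T stp fin w x) : Ok n x := by
  have h := sem stp fin w x hx
  cases x with
  | W i j q g q' => exact ⟨by have := h.1; have := h.2.1; omega, h.2.1⟩
  | F i q o => exact h.1

theorem complA (w : Fin n → α) : ∀ (s i : ℕ), i ≤ n → n - i = s → ∀ (q : Q) (g : Γ),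
    (∃ j q', T stp fin w (Goal.W i j q g q')) ∨
      ∀ st, acc stp fin w i (q, g :: st) → T stp fin w (Goal.F i q (some g)) := by
  intro s
  induction s using Nat.strong_induction_on with
  | _ s ih =>
    intro i hi hs q g
    rcases Nat.lt_or_ge i n with hin | hin
    · obtain ⟨i', rfl⟩ : ∃ i' : Fin n, (i' : ℕ) = i := ⟨⟨i, hin⟩, rfl⟩
      rcases hop : stp (w i') q (some g) with ⟨q₁, op⟩
      have hst : ∀ st, rn stp w i' (q, g :: st) = rn stp w (i' + 1) (q₁, op.apply (g :: st)) := by
        intro st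
        rw [rn_step]
        simp only [List.head?_cons, hop]
      cases op with
      | pop => exact Or.inl ⟨_, _, T.wpop i' q g q₁ hop⟩
      | none =>
        rcases ih (n - (i' + 1)) (by omega) (i' + 1) hin rfl q₁ g with ⟨j, q', h⟩ | h
        · exact Or.inl ⟨j, q', T.wnone i' j q g q' q₁ hop h⟩
        · refine Or.inr fun st hacc => T.fnone i' q (some g) q₁ hop (h st ?_)
          unfold acc at hacc ⊢
          rw [hst] at hacc
          exact hacc
      | push g' =>
        rcases ih (n - (i' + 1)) (by omega) (i' + 1) hin rfl q₁ g' with ⟨m, q₂, h⟩ | h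
        · obtain ⟨h1, h2, h3⟩ := sem stp fin w _ h
          rcases ih (n - m) (by omega) m h2 rfl q₂ g with ⟨j, q', h'⟩ | h'
          · exact Or.inl ⟨j, q', T.wpush i' j m q g q' q₁ g' q₂ hop h h'⟩
          · refine Or.inr fun st hacc =>
              T.fpush2 i' m q (some g) q₁ g' q₂ hop h (h' st ?_)
            unfold acc at hacc ⊢
            rw [hst] at hacc
            simp only [Op.apply] at hacc
            rw [h3] at hacc
            exact hacc
        · refine Or.inr fun st hacc => T.fpush i' q (some g) q₁ g' hop (h (g :: st) ?_)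
          unfold acc at hacc ⊢
          rw [hst] at hacc
          exact hacc
    · obtain rfl : i = n := le_antisymm hi hin
      refine Or.inr fun st hacc => T.fend q (some g) ?_
      unfold acc at hacc
      rw [rn_end] at hacc
      exact hacc

theorem complB (w : Fin n → α) : ∀ (s i : ℕ), i ≤ n → n - i = s → ∀ (q : Q),
    acc stp fin w i (q, []) → T stp fin w (Goal.F i q none) := by
  intro s
  induction s using Nat.strong_induction_on with
  | _ s ih =>
    intro i hi hs q hacc
    rcases Nat.lt_or_ge i n with hin | hin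
    · obtain ⟨i', rfl⟩ : ∃ i' : Fin n, (i' : ℕ) = i := ⟨⟨i, hin⟩, rfl⟩
      rcases hop : stp (w i') q none with ⟨q₁, op⟩
      have hst : rn stp w i' (q, []) = rn stp w (i' + 1) (q₁, op.apply []) := by
        rw [rn_step]
        simp only [List.head?_nil, hop]
      unfold acc at hacc
      rw [hst] at hacc
      cases op with
      | pop =>
        exact T.fpop i' q q₁ hop (ih (n - (i' + 1)) (by omega) (i' + 1) hin rfl q₁ hacc)
      | none =>
        exact T.fnone i' q none q₁ hop (ih (n - (i' + 1)) (by omega) (i' + 1) hin rfl q₁ hacc)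
      | push g' =>
        rcases complA stp fin w (n - (i' + 1)) (i' + 1) hin rfl q₁ g' with ⟨m, q₂, h⟩ | h
        · obtain ⟨h1, h2, h3⟩ := sem stp fin w _ h
          simp only [Op.apply] at hacc
          rw [h3] at hacc
          exact T.fpush2 i' m q none q₁ g' q₂ hop h (ih (n - m) (by omega) m h2 rfl q₂ hacc)
        · exact T.fpush i' q none q₁ g' hop (h [] hacc)
    · obtain rfl : i = n := le_antisymm hi hin
      refine T.fend q none ?_
      unfold acc at hacc
      rw [rn_end] at hacc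
      exact hacc

theorem Fr_sound (w : Fin n → α) {l l' : List (Goal Q Γ)} (h : Fr fin n l l')
    (hl : ∀ x ∈ l', T stp fin w x) : ∀ x ∈ l, T stp fin w x := by
  cases h with
  | fend q o r hf =>
    intro x hx
    rcases List.mem_cons.mp hx with rfl | hx
    · exact T.fend q o hf
    · exact hl x hx

theorem Ts_sound (w : Fin n → α) (i : Fin n) {l l' : List (Goal Q Γ)}
    (h : Ts stp i (w i) l l') (hl : ∀ x ∈ l', T stp fin w x) : ∀ x ∈ l, T stp fin w x := by
  cases h with
  | wpop q g q' r hs =>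
    intro x hx
    rcases List.mem_cons.mp hx with rfl | hx
    · exact T.wpop i q g q' hs
    · exact hl x hx
  | wnone j q g q' q₁ r hs =>
    intro x hx
    rcases List.mem_cons.mp hx with rfl | hx
    · exact T.wnone i j q g q' q₁ hs (hl _ (by simp))
    · exact hl x (by simp [hx])
  | wpushA j m q g q' q₁ g' q₂ r hs =>
    intro x hx
    rcases List.mem_cons.mp hx with rfl | hx
    · exact T.wpush i j m q g q' q₁ g' q₂ hs (hl _ (by simp)) (hl _ (by simp))
    · exact hl x (by simp [hx])
  | wpushB j m q g q' q₁ g' q₂ r hs =>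
    intro x hx
    rcases List.mem_cons.mp hx with rfl | hx
    · exact T.wpush i j m q g q' q₁ g' q₂ hs (hl _ (by simp)) (hl _ (by simp))
    · exact hl x (by simp [hx])
  | fnone q o q₁ r hs =>
    intro x hx
    rcases List.mem_cons.mp hx with rfl | hx
    · exact T.fnone i q o q₁ hs (hl _ (by simp))
    · exact hl x (by simp [hx])
  | fpop q q₁ r hs =>
    intro x hx
    rcases List.mem_cons.mp hx with rfl | hx
    · exact T.fpop i q q₁ hs (hl _ (by simp))
    · exact hl x (by simp [hx])
  | fpush q o q₁ g' r hs =>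
    intro x hx
    rcases List.mem_cons.mp hx with rfl | hx
    · exact T.fpush i q o q₁ g' hs (hl _ (by simp))
    · exact hl x (by simp [hx])
  | fpushA m q o q₁ g' q₂ r hs =>
    intro x hx
    rcases List.mem_cons.mp hx with rfl | hx
    · exact T.fpush2 i m q o q₁ g' q₂ hs (hl _ (by simp)) (hl _ (by simp))
    · exact hl x (by simp [hx])
  | fpushB m q o q₁ g' q₂ r hs =>
    intro x hx
    rcases List.mem_cons.mp hx with rfl | hx
    · exact T.fpush2 i m q o q₁ g' q₂ hs (hl _ (by simp)) (hl _ (by simp))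
    · exact hl x (by simp [hx])

/-- The states: lists of at most `K` goals. -/
def St (Q Γ : Type) (n K : ℕ) : Type :=
  {l : List (Goal Q Γ) // l.length ≤ K ∧ ∀ x ∈ l, Ok n x}

/-- The code of a goal. -/
def code (n : ℕ) : Goal Q Γ →
    (Fin (n + 1) × Fin (n + 1) × Q × Γ × Q) ⊕ (Fin (n + 1) × Q × Option Γ)
  | Goal.W i j q g q' => Sum.inl (Fin.ofNat (n + 1) i, Fin.ofNat (n + 1) j, q, g, q')
  | Goal.F i q o => Sum.inr (Fin.ofNat (n + 1) i, q, o)

theorem ofNat_inj {i j : ℕ} (hi : i ≤ n) (hj : j ≤ n)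
    (h : Fin.ofNat (n + 1) i = Fin.ofNat (n + 1) j) : i = j := by
  have h1 := congrArg Fin.val h
  simp only [Fin.val_ofNat] at h1
  rwa [Nat.mod_eq_of_lt (by omega), Nat.mod_eq_of_lt (by omega)] at h1

theorem code_inj {x y : Goal Q Γ} (hx : Ok n x) (hy : Ok n y) (h : code n x = code n y) :
    x = y := by
  cases x with
  | W i j q g q' =>
    cases y with
    | W i₁ j₁ q₁ g₁ q₁' =>
      simp only [code, Sum.inl.injEq, Prod.mk.injEq] at h
      obtain ⟨h1, h2, rfl, rfl, rfl⟩ := h
      rw [ofNat_inj hx.1 hy.1 h1, ofNat_inj hx.2 hy.2 h2]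
    | F i₁ q₁ o₁ => simp [code] at h
  | F i q o =>
    cases y with
    | W i₁ j₁ q₁ g₁ q₁' => simp [code] at h
    | F i₁ q₁ o₁ =>
      simp only [code, Sum.inr.injEq, Prod.mk.injEq] at h
      obtain ⟨h1, rfl, rfl⟩ := h
      rw [ofNat_inj hx hy h1]

/-- The code of a state. -/
def codes (n K : ℕ) (s : St Q Γ n K) :
    Fin K → Option ((Fin (n + 1) × Fin (n + 1) × Q × Γ × Q) ⊕ (Fin (n + 1) × Q × Option Γ)) :=
  fun i => (s.1[(i : ℕ)]?).map (code n)

theorem codes_inj (n K : ℕ) : Function.Injective (codes (Q := Q) (Γ := Γ) n K) := by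
  rintro ⟨l, hl, hok⟩ ⟨l', hl', hok'⟩ h
  apply Subtype.ext
  apply List.ext_getElem?
  intro i
  change l[i]? = l'[i]?
  rcases Nat.lt_or_ge i K with hi | hi
  · have h1 := congrFun h ⟨i, hi⟩
    simp only [codes] at h1
    rcases hx : l[i]? with _ | x
    · rcases hy : l'[i]? with _ | y
      · rfl
      · rw [hx, hy] at h1
        simp at h1
    · rcases hy : l'[i]? with _ | y
      · rw [hx, hy] at h1
        simp at h1
      · rw [hx, hy] at h1
        simp only [Option.map_some, Option.some.injEq] at h1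
        rw [code_inj (hok x (List.mem_of_getElem? hx)) (hok' y (List.mem_of_getElem? hy)) h1]
  · rw [List.getElem?_eq_none (by omega), List.getElem?_eq_none (by omega)]

theorem fin_St [Finite Q] [Finite Γ] (n K : ℕ) : Finite (St Q Γ n K) :=
  Finite.of_injective _ (codes_inj n K)

theorem card_St [Finite Q] [Finite Γ] (n K : ℕ) : Nat.card (St Q Γ n K) ≤
    ((n + 1) ^ 2 * (Nat.card Q ^ 2 * Nat.card Γ + Nat.card Q * (Nat.card Γ + 1)) + 1) ^ K := by
  refine (Nat.card_le_card_of_injective _ (codes_inj n K)).trans ?_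
  rw [Nat.card_fun, Nat.card_eq_fintype_card (α := Fin K), Fintype.card_fin]
  refine Nat.pow_le_pow_left ?_ K
  rw [Finite.card_option]
  refine Nat.add_le_add_right ?_ 1
  rw [Nat.card_sum, Nat.card_prod, Nat.card_prod, Nat.card_prod, Nat.card_prod, Nat.card_prod,
    Nat.card_prod, Finite.card_option, Nat.card_eq_fintype_card (α := Fin (n + 1)),
    Fintype.card_fin]
  have h1 : (n + 1) * (Nat.card Q * (Nat.card Γ + 1)) ≤
      (n + 1) ^ 2 * (Nat.card Q * (Nat.card Γ + 1)) :=
    Nat.mul_le_mul_right _ (Nat.le_self_pow (by norm_num) _)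
  calc _ ≤ (n + 1) * ((n + 1) * (Nat.card Q * (Nat.card Γ * Nat.card Q))) +
        (n + 1) ^ 2 * (Nat.card Q * (Nat.card Γ + 1)) := Nat.add_le_add_left h1 _
    _ = _ := by ring

/-- The program. -/
def prg [Finite Q] [Finite Γ] (q₀ : Q) (n K : ℕ) (hK : 1 ≤ K) : Prog α n where
  S := St Q Γ n K
  fin := fin_St n K
  start := ⟨[Goal.F 0 q₀ none], hK, fun x hx => by
    rw [List.mem_singleton.mp hx]
    exact Nat.zero_le n⟩
  accept := {s | s.1 = []}
  step := fun s o => match o with
    | none => {t | Fr fin n s.1 t.1}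
    | some (i, a) => {t | Ts stp i a s.1 t.1}

theorem prg_sound [Finite Q] [Finite Γ] (q₀ : Q) (K : ℕ) (hK : 1 ≤ K) (w : Fin n → α) (m : ℕ)
    (s : (prg stp fin q₀ n K hK).S) (h : (prg stp fin q₀ n K hK).Reach w m s) :
    (∀ x ∈ s.1, T stp fin w x) → T stp fin w (Goal.F 0 q₀ none) := by
  induction h with
  | start => exact fun h => h _ (List.mem_singleton.mpr rfl)
  | free _ ht ih => exact fun h => ih (Fr_sound stp fin w ht h)
  | test i _ ht ih => exact fun h => ih (Ts_sound stp fin w i ht h)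

theorem prg_compl [Finite Q] [Finite Γ] (q₀ : Q) (K : ℕ) (hK : 1 ≤ K) (w : Fin n → α) :
    ∀ (s : ℕ) (x : Goal Q Γ), T stp fin w x → sz n x = s → ∀ (r : List (Goal Q Γ))
      (hr : ∀ y ∈ r, Ok n y) (hl : r.length + 1 + Nat.log 2 (s + 1) ≤ K) (m : ℕ)
      (h1 : (x :: r).length ≤ K ∧ ∀ y ∈ x :: r, Ok n y)
      (h2 : r.length ≤ K ∧ ∀ y ∈ r, Ok n y),
      (prg stp fin q₀ n K hK).Reach w m ⟨x :: r, h1⟩ →
      (prg stp fin q₀ n K hK).Reach w (m + s) ⟨r, h2⟩ := by
  intro s
  induction s using Nat.strong_induction_on with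
  | _ s ih =>
    intro x hx hs r hr hl m h1 h2 hreach
    have hlen : ∀ y : Goal Q Γ, (y :: r).length ≤ K := by
      intro y
      rw [List.length_cons]
      omega
    -- a step to one goal
    have one : ∀ (i : Fin n) (y : Goal Q Γ), T stp fin w y → sz n y + 1 = s →
        Ts stp i (w i) (x :: r) (y :: r) → (prg stp fin q₀ n K hK).Reach w (m + s) ⟨r, h2⟩ := by
      intro i y hy hsy hts
      have hok : ∀ z ∈ y :: r, Ok n z := by
        intro z hz
        rcases List.mem_cons.mp hz with rfl | hz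
        · exact ok_of_T stp fin w _ hy
        · exact hr z hz
      have hstep : (prg stp fin q₀ n K hK).Reach w (m + 1) ⟨y :: r, hlen y, hok⟩ :=
        Prog.Reach.test i hreach hts
      have hlog : Nat.log 2 (sz n y + 1) ≤ Nat.log 2 (s + 1) := Nat.log_mono_right (by omega)
      have := ih (sz n y) (by omega) y hy rfl r hr (by omega) (m + 1) ⟨hlen y, hok⟩ h2 hstep
      rwa [show m + 1 + sz n y = m + s by omega] at this
    -- a step to two goals, the smaller one first
    have two : ∀ (i : Fin n) (y z : Goal Q Γ), T stp fin w y → T stp fin w z →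
        sz n y + sz n z + 1 = s → sz n y ≤ sz n z →
        Ts stp i (w i) (x :: r) (y :: z :: r) →
        (prg stp fin q₀ n K hK).Reach w (m + s) ⟨r, h2⟩ := by
      intro i y z hy hz hsum hle hts
      have hokz : ∀ u ∈ z :: r, Ok n u := by
        intro u hu
        rcases List.mem_cons.mp hu with rfl | hu
        · exact ok_of_T stp fin w _ hz
        · exact hr u hu
      have hoky : ∀ u ∈ y :: z :: r, Ok n u := by
        intro u hu
        rcases List.mem_cons.mp hu with rfl | hu
        · exact ok_of_T stp fin w _ hy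
        · exact hokz u hu
      have hlog1 : Nat.log 2 (sz n y + 1) + 1 ≤ Nat.log 2 (s + 1) := by
        have h3 : Nat.log 2 ((sz n y + 1) * 2) = Nat.log 2 (sz n y + 1) + 1 :=
          Nat.log_mul_base (by norm_num) (by omega)
        rw [← h3]
        exact Nat.log_mono_right (by omega)
      have hlog2 : Nat.log 2 (sz n z + 1) ≤ Nat.log 2 (s + 1) := Nat.log_mono_right (by omega)
      have hleny : (y :: z :: r).length ≤ K := by
        rw [List.length_cons, List.length_cons]
        omega
      have hstep : (prg stp fin q₀ n K hK).Reach w (m + 1) ⟨y :: z :: r, hleny, hoky⟩ :=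
        Prog.Reach.test i hreach hts
      have h4 := ih (sz n y) (by omega) y hy rfl (z :: r) hokz
        (by rw [List.length_cons]; omega) (m + 1) ⟨hleny, hoky⟩ ⟨hlen z, hokz⟩ hstep
      have h5 := ih (sz n z) (by omega) z hz rfl r hr (by omega) (m + 1 + sz n y)
        ⟨hlen z, hokz⟩ h2 h4
      rwa [show m + 1 + sz n y + sz n z = m + s by omega] at h5
    cases hx with
    | wpop i q g q' h =>
      have hs1 : s = 1 := by
        rw [← hs]
        simp [sz]
      subst hs1
      exact Prog.Reach.test i hreach (Ts.wpop q g q' r h)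
    | wnone i j q g q' q₁ h h' =>
      have h3 := (sem stp fin w _ h').1
      refine one i _ h' ?_ (Ts.wnone j q g q' q₁ r h)
      simp only [sz] at hs ⊢
      omega
    | wpush i j k q g q' q₁ g' q₂ h h' h'' =>
      have h3 := (sem stp fin w _ h').1
      have h4 := (sem stp fin w _ h'').1
      rcases le_total (sz n (Goal.W (i + 1) k q₁ g' q₂)) (sz n (Goal.W k j q₂ g q')) with hle | hle
      · refine two i _ _ h' h'' ?_ hle (Ts.wpushA j k q g q' q₁ g' q₂ r h)
        simp only [sz] at hs ⊢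
        omega
      · refine two i _ _ h'' h' ?_ hle (Ts.wpushB j k q g q' q₁ g' q₂ r h)
        simp only [sz] at hs ⊢
        omega
    | fend q o h =>
      have hs1 : s = 0 := by
        rw [← hs]
        simp [sz]
      subst hs1
      exact Prog.Reach.free hreach (Fr.fend q o r h)
    | fnone i q o q₁ h h' =>
      refine one i _ h' ?_ (Ts.fnone q o q₁ r h)
      simp only [sz] at hs ⊢
      omega
    | fpop i q q₁ h h' =>
      refine one i _ h' ?_ (Ts.fpop q q₁ r h)
      simp only [sz] at hs ⊢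
      omega
    | fpush i q o q₁ g' h h' =>
      refine one i _ h' ?_ (Ts.fpush q o q₁ g' r h)
      simp only [sz] at hs ⊢
      omega
    | fpush2 i k q o q₁ g' q₂ h h' h'' =>
      have h3 := (sem stp fin w _ h').1
      have h4 := (sem stp fin w _ h'').1
      rcases le_total (sz n (Goal.W (i + 1) k q₁ g' q₂)) (sz n (Goal.F k q₂ o)) with hle | hle
      · refine two i _ _ h' h'' ?_ hle (Ts.fpushA k q o q₁ g' q₂ r h)
        simp only [sz] at hs ⊢
        omega
      · refine two i _ _ h'' h' ?_ hle (Ts.fpushB k q o q₁ g' q₂ r h)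
        simp only [sz] at hs ⊢
        omega

end

end UPA

theorem t_UPA : S_UPA := by
  intro α Q Γ _ _ _ stp q₀ fin n
  refine ⟨UPA.prg stp fin q₀ n (Nat.log 2 (n + 1) + 1) (Nat.le_add_left 1 _), ?_,
    UPA.card_St n (Nat.log 2 (n + 1) + 1)⟩
  intro w
  have hrn : ∀ c, UPA.rn stp w 0 c = run stp (List.ofFn w) c := by
    intro c
    unfold UPA.rn
    rw [List.drop_zero]
  refine ⟨fun m s hs ha => ?_, fun hw => ?_⟩
  · have hs0 : s.1 = [] := ha
    have h1 := UPA.prg_sound stp fin q₀ _ _ w m s hs (by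
      intro x hx
      rw [hs0] at hx
      exact absurd hx List.not_mem_nil)
    have h2 := (UPA.sem stp fin w _ h1).2 [] rfl
    unfold UPA.acc at h2
    rw [hrn] at h2
    exact h2
  · have h1 : UPA.T stp fin w (UPA.Goal.F 0 q₀ none) := by
      refine UPA.complB stp fin w n 0 (Nat.zero_le n) (Nat.sub_zero n) q₀ ?_
      unfold UPA.acc
      rw [hrn]
      exact hw
    refine ⟨n, le_rfl, ⟨[], Nat.zero_le _, fun x hx => absurd hx List.not_mem_nil⟩, rfl, ?_⟩
    have h2 := UPA.prg_compl stp fin q₀ (Nat.log 2 (n + 1) + 1) (Nat.le_add_left 1 _) w n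
      (UPA.Goal.F 0 q₀ none) h1 (Nat.sub_zero n) [] (fun x hx => absurd hx List.not_mem_nil)
      (by simp; omega) 0 _ ⟨Nat.zero_le _, fun x hx => absurd hx List.not_mem_nil⟩
      Prog.Reach.start
    rwa [Nat.zero_add] at h2

end Pool.Agent.RLT
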