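import Pool.Agent.RLT.St4

/-!
# MP_5e85fc_lc, project RLT: UPB, numerics of the matching upper bound
-/

set_option autoImplicit false

namespace Pool.Agent.RLT

open Pool.Agent.Heads

namespace UPB

/-- The numerical inequality. -/
lemma num (A n : ℕ) (hn : 2 ≤ n) :
    ((((n + 1) ^ 2 * A + 1) ^ (Nat.log 2 (n + 1) + 1) : ℕ) : ℝ) ≤
      (n : ℝ) ^ (((6 * (A + 5) : ℕ) : ℝ) * Real.log n) := by
  have hn1 : (1 : ℝ) < n := by exact_mod_cast (show 1 < n by omega)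
  have hn0 : (0 : ℝ) < n := by linarith
  have hl2 : (0.6931471803 : ℝ) < Real.log 2 := Real.log_two_gt_d9
  have hlog2 : Real.log 2 ≤ Real.log n :=
    Real.log_le_log (by norm_num) (by exact_mod_cast hn)
  have hlogn : 0 < Real.log n := by linarith
  -- base
  have hsq : n + 1 ≤ n ^ 2 := by nlinarith
  have hb : (n + 1) ^ 2 * A + 1 ≤ n ^ (A + 5) := by
    have h1 : (n + 1) ^ 2 ≤ n ^ 4 := by
      calc (n + 1) ^ 2 ≤ (n ^ 2) ^ 2 := Nat.pow_le_pow_left hsq 2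
        _ = n ^ 4 := by ring
    have h2 : A + 1 ≤ n ^ (A + 1) := by
      calc A + 1 ≤ 2 ^ (A + 1) := Nat.lt_two_pow_self.le
        _ ≤ n ^ (A + 1) := Nat.pow_le_pow_left hn _
    have h3 : 1 ≤ (n + 1) ^ 2 := Nat.one_le_pow _ _ (by omega)
    calc (n + 1) ^ 2 * A + 1 ≤ (n + 1) ^ 2 * A + (n + 1) ^ 2 := by omega
      _ = (n + 1) ^ 2 * (A + 1) := by ring
      _ ≤ n ^ 4 * n ^ (A + 1) := Nat.mul_le_mul h1 h2
      _ = n ^ (A + 5) := by rw [← pow_add]; congr 1; omega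
  -- exponent
  have hL : ((Nat.log 2 (n + 1) : ℕ) : ℝ) * Real.log 2 ≤ 2 * Real.log n := by
    have h1 : 2 ^ Nat.log 2 (n + 1) ≤ n + 1 := Nat.pow_log_le_self 2 (by omega)
    have h2 : ((2 : ℝ) ^ Nat.log 2 (n + 1)) ≤ (n : ℝ) ^ 2 := by
      exact_mod_cast h1.trans hsq
    have h3 := Real.log_le_log (by positivity) h2
    rw [Real.log_pow, Real.log_pow] at h3
    simpa using h3
  have hL2 : ((Nat.log 2 (n + 1) + 1 : ℕ) : ℝ) ≤ 6 * Real.log n := by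
    push_cast
    have hx : (0 : ℝ) ≤ ((Nat.log 2 (n + 1) : ℕ) : ℝ) := Nat.cast_nonneg _
    have h4 : ((Nat.log 2 (n + 1) : ℕ) : ℝ) * (1 / 2) ≤ 2 * Real.log n := by
      refine le_trans ?_ hL
      exact mul_le_mul_of_nonneg_left (by linarith) hx
    linarith
  have hA : (0 : ℝ) ≤ ((A + 5 : ℕ) : ℝ) := Nat.cast_nonneg _
  calc ((((n + 1) ^ 2 * A + 1) ^ (Nat.log 2 (n + 1) + 1) : ℕ) : ℝ)
      ≤ (((n ^ (A + 5)) ^ (Nat.log 2 (n + 1) + 1) : ℕ) : ℝ) := by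
        exact_mod_cast Nat.pow_le_pow_left hb _
    _ = (n : ℝ) ^ (((A + 5 : ℕ) : ℝ) * ((Nat.log 2 (n + 1) + 1 : ℕ) : ℝ)) := by
        rw [← Nat.cast_mul, Real.rpow_natCast]
        push_cast
        rw [pow_mul]
    _ ≤ (n : ℝ) ^ (((6 * (A + 5) : ℕ) : ℝ) * Real.log n) := by
        apply Real.rpow_le_rpow_of_exponent_le hn1.le
        calc ((A + 5 : ℕ) : ℝ) * ((Nat.log 2 (n + 1) + 1 : ℕ) : ℝ)
            ≤ ((A + 5 : ℕ) : ℝ) * (6 * Real.log n) := mul_le_mul_of_nonneg_left hL2 hA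
          _ = ((6 * (A + 5) : ℕ) : ℝ) * Real.log n := by push_cast; ring

end UPB

theorem t_UPB (hUPA : S_UPA) : S_UPB := by
  intro α Q Γ _ _ _ stp q₀ fin
  refine ⟨6 * (Nat.card Q ^ 2 * Nat.card Γ + Nat.card Q * (Nat.card Γ + 1) + 5), fun n hn => ?_⟩
  obtain ⟨P, hP, hc⟩ := hUPA α Q Γ stp q₀ fin n
  refine ⟨P, hP, ?_⟩
  refine le_trans (by exact_mod_cast hc) (UPB.num _ n hn)

end Pool.Agent.RLT
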