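import Pool.Agent.RLT.Core
import Pool.Agent.RLT.FNB
import Pool.Agent.RLT.RTP
import Pool.Agent.RLT.LEN
import Pool.Agent.RLT.LNG2
import Pool.Agent.RLT.WRD
import Pool.Agent.RLT.NUM
import Pool.Agent.RLT.PRM
import Pool.Agent.RLT.UPB
import Pool.Agent.RLT.UPA

set_option autoImplicit false

namespace Pool.Agent.RLT

theorem finB : FinalB :=
  t_FNB t_RTP t_LEN (t_LNG2 t_WRD) cor t_NUM t_PRM (t_UPB t_UPA)

end Pool.Agent.RLT
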