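import Pool.Agent.RLT.St6

/-!
# MP_5e85fc_lc, project RLT: proof of `S_SIMJ` (a machine with heads and jumps is simulated by a
program which reads digits); adapted from the file of helper67 for `S_SIM`
-/

set_option autoImplicit false

namespace Pool.Agent.RLT

open Pool.Agent.Heads

namespace SIMJ

variable {β U : Type} {n M J N : ℕ}

/-- The assignment `y` agrees with the list `F` of guessed digits. -/
def Ag (F : Fin J → Option (Fin N × Fin M)) (y : Fin N → Fin M) : Prop :=
  ∀ j v d, F j = some (v, d) → y v = d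

/-- The input word of the machine. -/
def W (T : Fin n → β ⊕ (U × ℕ)) (enc : Fin M → ℕ → β) (e : Fin N ≃ U) (y : Fin N → Fin M) :
    List β := List.ofFn (bword T enc (y ∘ e.symm))

lemma tape_eq (T : Fin n → β ⊕ (U × ℕ)) (enc : Fin M → ℕ → β) (e : Fin N ≃ U)
    (y y' : Fin N → Fin M) (p : ℕ)
    (h : ∀ (i : Fin n) u l, p = (i : ℕ) + 1 → T i = Sum.inr (u, l) →
      y (e.symm u) = y' (e.symm u)) :
    tape (W T enc e y) p = tape (W T enc e y') p := by
  cases p with
  | zero => rfl
  | succ p =>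
    simp only [tape, W, List.getElem?_ofFn]
    by_cases hp : p < n
    · simp only [hp, dif_pos]
      congr 1
      unfold bword
      cases hT : T ⟨p, hp⟩ with
      | inl b => rfl
      | inr v =>
        obtain ⟨u, l⟩ := v
        simp only [Sum.elim_inr, Function.comp]
        rw [h ⟨p, hp⟩ u l rfl hT]
    · simp only [hp, dif_neg, not_false_eq_true]

/-- One step of the machine. -/
def Stp (A : Machine β J) (w : List β) (s s' : A.S) : Prop :=
  s' ∈ A.step s (fun j => tape w (A.pos s j))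

/-- No head moves by more than one cell. -/
def Near (A : Machine β J) (s s' : A.S) : Prop :=
  ∀ j, A.pos s' j ≤ A.pos s j + 1 ∧ A.pos s j ≤ A.pos s' j + 1

/-- From `c` the machine can come to `c'` on the word of every `y` which agrees with `F`. -/
def LOC (A : Machine β J) (T : Fin n → β ⊕ (U × ℕ)) (enc : Fin M → ℕ → β) (e : Fin N ≃ U)
    (c c' : A.S) (F : Fin J → Option (Fin N × Fin M)) : Prop :=
  ∀ y, Ag F y → Relation.ReflTransGen (Stp A (W T enc e y)) c c'

/-- States of the program. -/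
abbrev PS (A : Machine β J) (N M : ℕ) : Type :=
  A.S ⊕ (A.S × (Fin J → Option (Fin N × Fin M)) × Fin (J + 1))

/-- Free steps. -/
inductive Free (A : Machine β J) (T : Fin n → β ⊕ (U × ℕ)) (enc : Fin M → ℕ → β)
    (e : Fin N ≃ U) : PS A N M → PS A N M → Prop
  | guess (c c' : A.S) (F : Fin J → Option (Fin N × Fin M)) :
      LOC A T enc e c c' F → Free A T enc e (Sum.inl c) (Sum.inr (c', F, 0))
  | skip (c' : A.S) (F : Fin J → Option (Fin N × Fin M)) (j : Fin J) : F j = none →
      Free A T enc e (Sum.inr (c', F, j.castSucc)) (Sum.inr (c', F, j.succ))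
  | back (c' : A.S) (F : Fin J → Option (Fin N × Fin M)) :
      Free A T enc e (Sum.inr (c', F, Fin.last J)) (Sum.inl c')

/-- Tests. -/
inductive Tst (A : Machine β J) (x : Fin N × Fin M) : PS A N M → PS A N M → Prop
  | mk (c' : A.S) (F : Fin J → Option (Fin N × Fin M)) (j : Fin J) : F j = some x →
      Tst A x (Sum.inr (c', F, j.castSucc)) (Sum.inr (c', F, j.succ))

/-- The program. -/
def prog (A : Machine β J) (T : Fin n → β ⊕ (U × ℕ)) (enc : Fin M → ℕ → β) (e : Fin N ≃ U) :
    Prog (Fin M) N where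
  S := PS A N M
  fin := by
    have := A.fin
    infer_instance
  start := Sum.inl A.start
  accept := {s | ∃ c : A.S, s = Sum.inl c ∧ c ∈ A.accept}
  step s o := match o with
    | none => {s' | Free A T enc e s s'}
    | some x => {s' | Tst A x s s'}

/-- The invariant. -/
def Inv (A : Machine β J) (T : Fin n → β ⊕ (U × ℕ)) (enc : Fin M → ℕ → β) (e : Fin N ≃ U)
    (y : Fin N → Fin M) : PS A N M → Prop
  | Sum.inl c => Relation.ReflTransGen (Stp A (W T enc e y)) A.start c
  | Sum.inr (c', F, j) => ∃ c, Relation.ReflTransGen (Stp A (W T enc e y)) A.start c ∧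
      LOC A T enc e c c' F ∧
      ∀ j' : Fin J, (j' : ℕ) < (j : ℕ) → ∀ v d, F j' = some (v, d) → y v = d

lemma inv_free (A : Machine β J) (T : Fin n → β ⊕ (U × ℕ)) (enc : Fin M → ℕ → β)
    (e : Fin N ≃ U) (y : Fin N → Fin M) (s s' : PS A N M) (h : Free A T enc e s s')
    (hs : Inv A T enc e y s) : Inv A T enc e y s' := by
  cases h with
  | guess c c' F hL =>
    refine ⟨c, hs, hL, ?_⟩
    intro j' hj'
    simp at hj'
  | skip c' F j hF =>
    obtain ⟨c, h1, h2, h3⟩ := hs
    refine ⟨c, h1, h2, ?_⟩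
    intro j' hj' v d hv
    rw [Fin.val_succ] at hj'
    rcases Nat.lt_succ_iff_lt_or_eq.mp hj' with h4 | h4
    · exact h3 j' (by simpa using h4) v d hv
    · have : j' = j := Fin.ext h4
      rw [this, hF] at hv
      cases hv
  | back c' F =>
    obtain ⟨c, h1, h2, h3⟩ := hs
    exact h1.trans (h2 y fun j v d hv => h3 j (by simp) v d hv)

lemma inv_tst (A : Machine β J) (T : Fin n → β ⊕ (U × ℕ)) (enc : Fin M → ℕ → β)
    (e : Fin N ≃ U) (y : Fin N → Fin M) (i : Fin N) (s s' : PS A N M) (h : Tst A (i, y i) s s')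
    (hs : Inv A T enc e y s) : Inv A T enc e y s' := by
  cases h with
  | mk c' F j hF =>
    obtain ⟨c, h1, h2, h3⟩ := hs
    refine ⟨c, h1, h2, ?_⟩
    intro j' hj' v d hv
    rw [Fin.val_succ] at hj'
    rcases Nat.lt_succ_iff_lt_or_eq.mp hj' with h4 | h4
    · exact h3 j' (by simpa using h4) v d hv
    · have : j' = j := Fin.ext h4
      rw [this, hF] at hv
      simp only [Option.some.injEq, Prod.mk.injEq] at hv
      rw [← hv.1, hv.2]

lemma inv_reach (A : Machine β J) (T : Fin n → β ⊕ (U × ℕ)) (enc : Fin M → ℕ → β)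
    (e : Fin N ≃ U) (y : Fin N → Fin M) (m : ℕ) (s : (prog A T enc e).S)
    (h : (prog A T enc e).Reach y m s) : Inv A T enc e y s := by
  induction h with
  | start => exact Relation.ReflTransGen.refl
  | free _ h2 ih => exact inv_free A T enc e y _ _ h2 ih
  | test i _ h2 ih => exact inv_tst A T enc e y i _ _ h2 ih

/-- The tests of one slice. -/
lemma chain (A : Machine β J) (T : Fin n → β ⊕ (U × ℕ)) (enc : Fin M → ℕ → β) (e : Fin N ≃ U)
    (y : Fin N → Fin M) (m : ℕ) (c' : A.S) (F : Fin J → Option (Fin N × Fin M)) (hF : Ag F y)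
    (h : (prog A T enc e).Reach y m (Sum.inr (c', F, 0))) (j : ℕ) (hj : j < J + 1) :
    ∃ m' ≤ m + j, (prog A T enc e).Reach y m' (Sum.inr (c', F, ⟨j, hj⟩)) := by
  induction j with
  | zero => exact ⟨m, le_rfl, h⟩
  | succ j ih =>
    obtain ⟨m', hm, hr⟩ := ih (by omega)
    have hjJ : j < J := by omega
    cases hc : F ⟨j, hjJ⟩ with
    | none =>
      refine ⟨m', by omega, ?_⟩
      exact Prog.Reach.free hr (Free.skip c' F ⟨j, hjJ⟩ hc)
    | some x =>
      obtain ⟨v, d⟩ := x
      have hy : y v = d := hF _ v d hc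
      refine ⟨m' + 1, by omega, ?_⟩
      refine Prog.Reach.test v hr ?_
      rw [hy]
      exact Tst.mk c' F ⟨j, hjJ⟩ hc

/-- One slice. -/
lemma slice (A : Machine β J) (T : Fin n → β ⊕ (U × ℕ)) (enc : Fin M → ℕ → β) (e : Fin N ≃ U)
    (y : Fin N → Fin M) (m : ℕ) (c c' : A.S) (F : Fin J → Option (Fin N × Fin M))
    (hF : Ag F y) (hL : LOC A T enc e c c' F)
    (h : (prog A T enc e).Reach y m (Sum.inl c)) :
    ∃ m' ≤ m + J, (prog A T enc e).Reach y m' (Sum.inl c') := by
  have h1 : (prog A T enc e).Reach y m (Sum.inr (c', F, 0)) :=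
    Prog.Reach.free h (Free.guess c c' F hL)
  obtain ⟨m', hm, hr⟩ := chain A T enc e y m c' F hF h1 J (by omega)
  exact ⟨m', hm, Prog.Reach.free hr (Free.back c' F)⟩

/-- The computation as a function, with the set `Z` of the times of the jumps. -/
lemma traj (A : Machine β J) (w : List β) (i k : ℕ) (c : A.S) (h : A.Reach w i k c) :
    ∃ (σ : ℕ → A.S) (Z : Finset ℕ), σ 0 = A.start ∧ σ i = c ∧
      (∀ s < i, Stp A w (σ s) (σ (s + 1))) ∧ (∀ s < i, s ∉ Z → Near A (σ s) (σ (s + 1))) ∧
      Z.card ≤ k := by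
  have ext : ∀ (i : ℕ) (σ : ℕ → A.S) (s s' : A.S), σ i = s → Stp A w s s' →
      (∀ r < i, Stp A w (σ r) (σ (r + 1))) →
      ∃ σ' : ℕ → A.S, (∀ r ≤ i, σ' r = σ r) ∧ σ' (i + 1) = s' ∧
        ∀ r < i + 1, Stp A w (σ' r) (σ' (r + 1)) := by
    intro i σ s s' h1 h2 h3
    have e1 : ∀ r ≤ i, (fun r => if r ≤ i then σ r else s') r = σ r := by
      intro r hr
      simp [hr]
    have e2 : (fun r => if r ≤ i then σ r else s') (i + 1) = s' := by simp
    refine ⟨fun r => if r ≤ i then σ r else s', e1, e2, ?_⟩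
    intro r hr
    rcases Nat.lt_succ_iff_lt_or_eq.mp hr with h4 | h4
    · rw [e1 r (by omega), e1 (r + 1) (by omega)]
      exact h3 r h4
    · subst h4
      rw [e1 r le_rfl, e2, h1]
      exact h2
  induction h with
  | start =>
    exact ⟨fun _ => A.start, ∅, rfl, rfl, fun s hs => absurd hs (by omega),
      fun s hs => absurd hs (by omega), le_rfl⟩
  | @move i r s s' _ hst hnear ih =>
    obtain ⟨σ, Z, h0, h1, h2, h3, h4⟩ := ih
    obtain ⟨σ', g1, g2, g3⟩ := ext i σ s s' h1 hst h2
    refine ⟨σ', Z, by rw [g1 0 (by omega)]; exact h0, g2, g3, ?_, h4⟩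
    intro q hq hqZ
    rcases Nat.lt_succ_iff_lt_or_eq.mp hq with h5 | h5
    · rw [g1 q (by omega), g1 (q + 1) (by omega)]
      exact h3 q h5 hqZ
    · subst h5
      rw [g1 q le_rfl, g2, h1]
      exact hnear
  | @jump i r s s' _ hst ih =>
    obtain ⟨σ, Z, h0, h1, h2, h3, h4⟩ := ih
    obtain ⟨σ', g1, g2, g3⟩ := ext i σ s s' h1 hst h2
    refine ⟨σ', insert i Z, by rw [g1 0 (by omega)]; exact h0, g2, g3, ?_,
      (Finset.card_insert_le _ _).trans (by omega)⟩
    intro q hq hqZ
    rw [Finset.mem_insert, not_or] at hqZ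
    rcases Nat.lt_succ_iff_lt_or_eq.mp hq with h5 | h5
    · rw [g1 q (by omega), g1 (q + 1) (by omega)]
      exact h3 q h5 hqZ.2
    · exact absurd h5 hqZ.1

lemma pos_near (A : Machine β J) (σ : ℕ → A.S) (s k : ℕ)
    (hs : ∀ r, s ≤ r → r < s + k → Near A (σ r) (σ (r + 1))) (j : Fin J) :
    A.pos (σ (s + k)) j ≤ A.pos (σ s) j + k ∧ A.pos (σ s) j ≤ A.pos (σ (s + k)) j + k := by
  induction k with
  | zero => exact ⟨le_rfl, le_rfl⟩
  | succ k ih =>
    have h1 := ih (fun r hr1 hr2 => hs r hr1 (by omega))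
    have h2 := hs (s + k) (by omega) (by omega) j
    rw [Nat.add_assoc] at h2
    omega

/-- A slice of a computation is local: all its steps but perhaps the last one are moves. -/
lemma loc (A : Machine β J) (T : Fin n → β ⊕ (U × ℕ)) (enc : Fin M → ℕ → β) (e : Fin N ≃ U)
    (τ : ℕ) (hT : Apart τ T) (y : Fin N → Fin M) (σ : ℕ → A.S) (s s' : ℕ)
    (hs : ∀ r, s ≤ r → r < s' → Stp A (W T enc e y) (σ r) (σ (r + 1)))
    (hn : ∀ r, s ≤ r → r + 1 < s' → Near A (σ r) (σ (r + 1))) (h1 : s ≤ s')
    (h2 : s' ≤ s + τ) :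
    ∃ F : Fin J → Option (Fin N × Fin M), Ag F y ∧ LOC A T enc e (σ s) (σ s') F := by
  classical
  let Q : Fin J → U → Prop := fun j u => ∃ r, s ≤ r ∧ r < s' ∧ ∃ (a : Fin n) (l : ℕ),
    A.pos (σ r) j = (a : ℕ) + 1 ∧ T a = Sum.inr (u, l)
  let F : Fin J → Option (Fin N × Fin M) := fun j =>
    if h : ∃ u, Q j u then some (e.symm h.choose, y (e.symm h.choose)) else none
  have hQ : ∀ j u u', Q j u → Q j u' → u = u' := by
    rintro j u u' ⟨r, hr1, hr2, a, l, ha, hTa⟩ ⟨r', hr1', hr2', a', l', ha', hTa'⟩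
    by_contra hne
    have hA := hT a a' u u' l l' hTa hTa' hne
    rcases Nat.le_total r r' with hrr | hrr
    · have := pos_near A σ r (r' - r) (fun q hq1 hq2 => hn q (by omega) (by omega)) j
      rw [Nat.add_sub_cancel' hrr, ha, ha'] at this
      omega
    · have := pos_near A σ r' (r - r') (fun q hq1 hq2 => hn q (by omega) (by omega)) j
      rw [Nat.add_sub_cancel' hrr, ha, ha'] at this
      omega
  have hFQ : ∀ j u, Q j u → F j = some (e.symm u, y (e.symm u)) := by
    intro j u hu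
    have h : ∃ u, Q j u := ⟨u, hu⟩
    have h4 : h.choose = u := hQ j _ _ h.choose_spec hu
    simp only [F]
    rw [dif_pos h, h4]
  refine ⟨F, ?_, ?_⟩
  · intro j v d hv
    by_cases h : ∃ u, Q j u
    · obtain ⟨u, hu⟩ := h
      rw [hFQ j u hu] at hv
      simp only [Option.some.injEq, Prod.mk.injEq] at hv
      rw [← hv.1, hv.2]
    · simp only [F] at hv
      rw [dif_neg h] at hv
      cases hv
  · intro y' hy'
    have key : ∀ r, s ≤ r → r ≤ s' →
        Relation.ReflTransGen (Stp A (W T enc e y')) (σ s) (σ r) := by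
      intro r hsr
      induction r, hsr using Nat.le_induction with
      | base => exact fun _ => Relation.ReflTransGen.refl
      | succ r hsr ih =>
        intro hr
        refine (ih (by omega)).tail ?_
        have ht := hs r hsr (by omega)
        have h5 : (fun j => tape (W T enc e y') (A.pos (σ r) j)) =
            fun j => tape (W T enc e y) (A.pos (σ r) j) := by
          funext j
          refine tape_eq T enc e y' y _ ?_
          intro a u l ha hTa
          exact hy' j _ _ (hFQ j u ⟨r, hsr, by omega, a, l, ha, hTa⟩)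
        unfold Stp at ht ⊢
        rw [h5]
        exact ht
    exact key s' h1 le_rfl

/-- The simulation is fast. -/
lemma fast (A : Machine β J) (T : Fin n → β ⊕ (U × ℕ)) (enc : Fin M → ℕ → β) (e : Fin N ≃ U)
    (τ : ℕ) (hτ : 1 ≤ τ) (hT : Apart τ T) (y : Fin N → Fin M) (i : ℕ) (σ : ℕ → A.S)
    (Z : Finset ℕ) (hs : ∀ s < i, Stp A (W T enc e y) (σ s) (σ (s + 1)))
    (hn : ∀ s < i, s ∉ Z → Near A (σ s) (σ (s + 1))) :
    ∀ (l a : ℕ), a + l = i → ∀ m, (prog A T enc e).Reach y m (Sum.inl (σ a)) →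
      ∃ m' ≤ m + J * (l / τ + (Z.filter (fun z => a ≤ z)).card + 1),
        (prog A T enc e).Reach y m' (Sum.inl (σ i)) := by
  classical
  intro l
  induction l using Nat.strong_induction_on with
  | _ l ih =>
    intro a hal m hr
    -- one slice from `a` to `b`
    have one : ∀ b, a ≤ b → b ≤ i → b ≤ a + τ → (∀ r, a ≤ r → r + 1 < b → r ∉ Z) →
        ∃ m' ≤ m + J, (prog A T enc e).Reach y m' (Sum.inl (σ b)) := by
      intro b hab hbi hbt hZ
      obtain ⟨F, hF, hL⟩ := loc A T enc e τ hT y σ a b (fun r _ h2 => hs r (by omega))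
        (fun r h1 h2 => hn r (by omega) (hZ r h1 h2)) hab hbt
      exact slice A T enc e y m _ _ F hF hL hr
    by_cases hj : ∃ z ∈ Z, a ≤ z ∧ z < a + τ ∧ z < i
    · -- the first jump
      have hex : ∃ z, z ∈ Z ∧ a ≤ z ∧ z < a + τ ∧ z < i := by
        obtain ⟨z, h1, h2⟩ := hj
        exact ⟨z, h1, h2⟩
      obtain ⟨hz1, hz2, hz3, hz4⟩ := Nat.find_spec hex
      set z := Nat.find hex with hz
      have hmin : ∀ r, a ≤ r → r + 1 < z + 1 → r ∉ Z := by
        intro r h1 h2 h3
        exact Nat.find_min hex (m := r) (by omega) ⟨h3, h1, by omega, by omega⟩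
      obtain ⟨m1, hm1, hr1⟩ := one (z + 1) (by omega) (by omega) (by omega) hmin
      obtain ⟨m2, hm2, hr2⟩ := ih (i - (z + 1)) (by omega) (z + 1) (by omega) m1 hr1
      refine ⟨m2, hm2.trans ?_, hr2⟩
      have h5 : (i - (z + 1)) / τ ≤ l / τ := Nat.div_le_div_right (by omega)
      have h6 : (Z.filter (fun w => z + 1 ≤ w)).card + 1 ≤
          (Z.filter (fun w => a ≤ w)).card := by
        have h7 : Z.filter (fun w => z + 1 ≤ w) ⊆ (Z.filter (fun w => a ≤ w)).erase z := by
          intro w hw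
          rw [Finset.mem_filter] at hw
          rw [Finset.mem_erase, Finset.mem_filter]
          exact ⟨by omega, hw.1, by omega⟩
        have h8 : z ∈ Z.filter (fun w => a ≤ w) := Finset.mem_filter.mpr ⟨hz1, hz2⟩
        have h9 := Finset.card_le_card h7
        rw [Finset.card_erase_of_mem h8] at h9
        have h10 : 0 < (Z.filter (fun w => a ≤ w)).card := Finset.card_pos.mpr ⟨z, h8⟩
        omega
      calc m1 + J * ((i - (z + 1)) / τ + (Z.filter (fun w => z + 1 ≤ w)).card + 1)
          ≤ m + J + J * ((i - (z + 1)) / τ + (Z.filter (fun w => z + 1 ≤ w)).card + 1) :=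
            Nat.add_le_add_right hm1 _
        _ = m + J * ((i - (z + 1)) / τ + ((Z.filter (fun w => z + 1 ≤ w)).card + 1) + 1) := by
            ring
        _ ≤ m + J * (l / τ + (Z.filter (fun w => a ≤ w)).card + 1) := by gcongr
    · push Not at hj
      by_cases hl : l ≤ τ
      · obtain ⟨m1, hm1, hr1⟩ := one i (by omega) le_rfl (by omega)
          (fun r h1 h2 h3 => absurd (hj r h3 h1 (by omega)) (by omega))
        refine ⟨m1, hm1.trans ?_, hr1⟩
        have h11 : J * 1 ≤ J * (l / τ + (Z.filter (fun w => a ≤ w)).card + 1) :=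
          Nat.mul_le_mul_left _ (Nat.le_add_left 1 _)
        omega
      · obtain ⟨m1, hm1, hr1⟩ := one (a + τ) (by omega) (by omega) le_rfl
          (fun r h1 h2 h3 => absurd (hj r h3 h1 (by omega)) (by omega))
        obtain ⟨m2, hm2, hr2⟩ := ih (l - τ) (by omega) (a + τ) (by omega) m1 hr1
        refine ⟨m2, hm2.trans ?_, hr2⟩
        have h5 : (l - τ) / τ + 1 = l / τ := by
          have h6 : l = (l - τ) + τ := by omega
          conv_rhs => rw [h6]
          rw [Nat.add_div_right _ (by omega)]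
        have h6 : (Z.filter (fun w => a + τ ≤ w)).card ≤ (Z.filter (fun w => a ≤ w)).card := by
          refine Finset.card_le_card fun w hw => ?_
          rw [Finset.mem_filter] at hw ⊢
          exact ⟨hw.1, by omega⟩
        calc m1 + J * ((l - τ) / τ + (Z.filter (fun w => a + τ ≤ w)).card + 1)
            ≤ m + J + J * ((l - τ) / τ + (Z.filter (fun w => a + τ ≤ w)).card + 1) :=
              Nat.add_le_add_right hm1 _
          _ = m + J * (((l - τ) / τ + 1) + (Z.filter (fun w => a + τ ≤ w)).card + 1) := by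
              ring
          _ ≤ m + J * (l / τ + (Z.filter (fun w => a ≤ w)).card + 1) := by
              rw [h5]
              gcongr

/-- A sequence of steps is a computation (all steps counted as jumps). -/
lemma reach_of (A : Machine β J) (w : List β) (c : A.S)
    (h : Relation.ReflTransGen (Stp A w) A.start c) : ∃ i k, A.Reach w i k c := by
  induction h with
  | refl => exact ⟨0, 0, Machine.Reach.start⟩
  | tail _ h2 ih =>
    obtain ⟨i, k, h⟩ := ih
    exact ⟨i + 1, k + 1, Machine.Reach.jump h h2⟩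

end SIMJ

open SIMJ in
theorem t_SIMJ : S_SIMJ := by
  intro β U n M J τ N A T enc e hτ hT
  refine ⟨prog A T enc e, ?_, ?_, ?_⟩
  · rintro y m s hr ⟨c, rfl, hc⟩
    obtain ⟨i, k, h⟩ := reach_of A _ c (inv_reach A T enc e y m _ hr)
    exact ⟨i, k, i, le_rfl, k, le_rfl, c, hc, h⟩
  · rintro y t r ⟨i, hi, k, hk, c, hc, hr⟩
    obtain ⟨σ, Z, h0, h1, h2, h3, h4⟩ := traj A _ i k c hr
    obtain ⟨m, hm, hR⟩ := fast A T enc e τ hτ hT y i σ Z h2 h3 i 0 (by omega) 0
      (by rw [h0]; exact Prog.Reach.start)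
    rw [h1] at hR
    refine ⟨m, hm.trans ?_, _, ⟨c, rfl, hc⟩, hR⟩
    have h5 : (Z.filter (fun z => 0 ≤ z)).card ≤ r :=
      (Finset.card_filter_le _ _).trans (h4.trans hk)
    have h6 : i / τ ≤ t / τ := Nat.div_le_div_right hi
    rw [Nat.zero_add]
    exact Nat.mul_le_mul_left _ (by omega)
  · have := A.fin
    have h2 : Nat.card (PS A N M) = Nat.card A.S + Nat.card A.S *
        ((N * M + 1) ^ J * (J + 1)) := by
      have h4 : Nat.card (Fin J → Option (Fin N × Fin M)) = (N * M + 1) ^ J := by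
        simp
      have h5 : Nat.card (A.S × (Fin J → Option (Fin N × Fin M)) × Fin (J + 1)) =
          Nat.card A.S * ((N * M + 1) ^ J * (J + 1)) := by
        rw [Nat.card_prod, Nat.card_prod, h4, Nat.card_fin]
      rw [PS, Nat.card_sum, h5]
    have h3 : Nat.card (prog A T enc e).S = Nat.card (PS A N M) := rfl
    rw [h3, h2]
    apply le_of_eq
    ring

end Pool.Agent.RLT
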