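import Pool.Agent.RLT.St6

/-!
# RLT_UPJ: the matching upper bound with few jumps
-/

set_option autoImplicit false

namespace Pool.Agent.RLT

open Pool.Agent.Heads

namespace UPJ

/-- The goals. `W i j q γ q'`: from state `q` with `γ` on top of the stack the machine, reading the
letters `i, …, j - 1`, removes exactly `γ` and ends in state `q'`. `F i q γ e`: from state `q` with `γ`
on top of the stack the machine, reading the letters from `i` on, accepts; if `e = false` it never
removes the last symbol of `γ`, if `e = true` then `γ` is the whole stack. -/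
inductive Goal (Q Γ : Type) where
  | W (i j : ℕ) (q : Q) (γ : List Γ) (q' : Q) : Goal Q Γ
  | F (i : ℕ) (q : Q) (γ : List Γ) (e : Bool) : Goal Q Γ

variable {α Q Γ : Type}

/-- The positions of the goal are at most `n`, its string has length at most `2 b`. -/
def Ok (n b : ℕ) : Goal Q Γ → Prop
  | Goal.W i j _ γ _ => i ≤ n ∧ j ≤ n ∧ γ.length ≤ 2 * b
  | Goal.F i _ γ _ => i ≤ n ∧ γ.length ≤ 2 * b

/-- The first position of the goal. -/
def ps : Goal Q Γ → ℕ
  | Goal.W i _ _ _ _ => i
  | Goal.F i _ _ _ => i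

theorem apply_app (op : Op Γ) (g : Γ) (γ₁ γ₂ : List Γ) :
    op.apply (g :: (γ₁ ++ γ₂)) = op.apply (g :: γ₁) ++ γ₂ := by
  cases op <;> simp [Op.apply]

theorem len_apply (op : Op Γ) (g : Γ) (γ : List Γ) : γ.length ≤ (op.apply (g :: γ)).length := by
  cases op
  · simp only [Op.apply, List.length_cons]; omega
  · simp only [Op.apply, List.length_cons]; omega
  · simp only [Op.apply, List.tail_cons]; omega

theorem len_apply' (op : Op Γ) (γ : List Γ) : (op.apply γ).length ≤ γ.length + 1 := by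
  cases op
  · simp only [Op.apply]; omega
  · simp only [Op.apply, List.length_cons]; omega
  · simp only [Op.apply, List.length_tail]; omega

section

variable (stp : α → Q → Option Γ → Q × Op Γ) (fin : Q → Option Γ → Bool) (w : List α)

/-- The true goals `W`. -/
inductive TW : ℕ → ℕ → Q → List Γ → Q → Prop
  | done (i : ℕ) (q : Q) : i ≤ w.length → TW i i q [] q
  | read (i j : ℕ) (q : Q) (g : Γ) (γ : List Γ) (q' : Q) (a : α) (q₁ : Q) (op : Op Γ) :
      w[i]? = some a → stp a q (some g) = (q₁, op) → TW (i + 1) j q₁ (op.apply (g :: γ)) q' →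
      TW i j q (g :: γ) q'

/-- The true goals `F`. -/
inductive TF : ℕ → Q → List Γ → Bool → Prop
  | done (i : ℕ) (q : Q) (γ : List Γ) (e : Bool) : i = w.length → fin q γ.head? = true →
      (e = true ∨ γ ≠ []) → TF i q γ e
  | read (i : ℕ) (q : Q) (γ : List Γ) (e : Bool) (a : α) (q₁ : Q) (op : Op Γ) :
      w[i]? = some a → (e = true ∨ γ ≠ []) → stp a q γ.head? = (q₁, op) →
      TF (i + 1) q₁ (op.apply γ) e → TF i q γ e

variable {stp fin w}

theorem lt_of_get {i : ℕ} {a : α} (h : w[i]? = some a) : i < w.length :=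
  (List.getElem?_eq_some_iff.mp h).1

theorem TW.le {i j : ℕ} {q : Q} {γ : List Γ} {q' : Q} (h : TW stp w i j q γ q') :
    i + γ.length ≤ j ∧ j ≤ w.length := by
  induction h with
  | done i q hi => exact ⟨le_rfl, hi⟩
  | read i j q g γ q' a q₁ op ha hs _ ih =>
    refine ⟨?_, ih.2⟩
    have h1 := len_apply op g γ
    have h2 := ih.1
    simp only [List.length_cons]
    omega

theorem TW.split {i j : ℕ} {q : Q} {γ : List Γ} {q' : Q} (h : TW stp w i j q γ q') :
    ∀ γ₁ γ₂ : List Γ, γ = γ₁ ++ γ₂ →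
      ∃ (m : ℕ) (q₂ : Q), TW stp w i m q γ₁ q₂ ∧ TW stp w m j q₂ γ₂ q' := by
  induction h with
  | done i q hi =>
    intro γ₁ γ₂ he
    obtain ⟨rfl, rfl⟩ := List.append_eq_nil_iff.mp he.symm
    exact ⟨i, q, TW.done i q hi, TW.done i q hi⟩
  | read i j q g γ q' a q₁ op ha hs hT ih =>
    intro γ₁ γ₂ he
    cases γ₁ with
    | nil =>
      rw [List.nil_append] at he
      subst he
      exact ⟨i, q, TW.done i q (lt_of_get ha).le, TW.read i j q g γ q' a q₁ op ha hs hT⟩
    | cons g₁ γ₁ =>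
      rw [List.cons_append, List.cons.injEq] at he
      obtain ⟨rfl, rfl⟩ := he
      obtain ⟨m, q₂, h1, h2⟩ := ih (op.apply (g :: γ₁)) γ₂ (apply_app op g γ₁ γ₂)
      exact ⟨m, q₂, TW.read _ _ _ _ _ _ a q₁ op ha hs h1, h2⟩

theorem TW.append {i m : ℕ} {q : Q} {γ₁ : List Γ} {q₂ : Q} (h : TW stp w i m q γ₁ q₂) {j : ℕ}
    {γ₂ : List Γ} {q' : Q} : TW stp w m j q₂ γ₂ q' → TW stp w i j q (γ₁ ++ γ₂) q' := by
  induction h with
  | done i q hi => exact fun h' => h'
  | read i m q g γ q₂ a q₁ op ha hs _ ih =>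
    intro h'
    refine TW.read i j q g (γ ++ γ₂) q' a q₁ op ha hs ?_
    rw [apply_app]
    exact ih h'

theorem TF.split {i : ℕ} {q : Q} {γ : List Γ} {e : Bool} (h : TF stp fin w i q γ e) :
    ∀ γ₁ γ₂ : List Γ, γ = γ₁ ++ γ₂ → TF stp fin w i q γ₁ false ∨
      ∃ (m : ℕ) (q₂ : Q), TW stp w i m q γ₁ q₂ ∧ TF stp fin w m q₂ γ₂ e := by
  induction h with
  | done i q γ e hi hf he =>
    intro γ₁ γ₂ hγ
    cases γ₁ with
    | nil =>
      rw [List.nil_append] at hγ
      subst hγ
      exact Or.inr ⟨i, q, TW.done i q hi.le, TF.done i q γ e hi hf he⟩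
    | cons g₁ γ₁ =>
      subst hγ
      exact Or.inl (TF.done i q (g₁ :: γ₁) false hi hf (Or.inr (List.cons_ne_nil _ _)))
  | read i q γ e a q₁ op ha he hs hT ih =>
    intro γ₁ γ₂ hγ
    cases γ₁ with
    | nil =>
      rw [List.nil_append] at hγ
      subst hγ
      exact Or.inr ⟨i, q, TW.done i q (lt_of_get ha).le, TF.read i q γ e a q₁ op ha he hs hT⟩
    | cons g₁ γ₁ =>
      subst hγ
      rcases ih (op.apply (g₁ :: γ₁)) γ₂ (apply_app op g₁ γ₁ γ₂) with h1 | ⟨m, q₂, h1, h2⟩
      · exact Or.inl (TF.read i q (g₁ :: γ₁) false a q₁ op ha (Or.inr (List.cons_ne_nil _ _)) hs h1)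
      · exact Or.inr ⟨m, q₂, TW.read i m q g₁ γ₁ q₂ a q₁ op ha hs h1, h2⟩

theorem TF.append {i m : ℕ} {q : Q} {γ₁ : List Γ} {q₂ : Q} (h : TW stp w i m q γ₁ q₂)
    {γ₂ : List Γ} {e : Bool} : TF stp fin w m q₂ γ₂ e → TF stp fin w i q (γ₁ ++ γ₂) e := by
  induction h with
  | done i q hi => exact fun h' => h'
  | read i m q g γ q₂ a q₁ op ha hs _ ih =>
    intro h'
    refine TF.read i q (g :: (γ ++ γ₂)) e a q₁ op ha (Or.inr (List.cons_ne_nil _ _)) hs ?_
    rw [apply_app]
    exact ih h'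

theorem TF.weak {i : ℕ} {q : Q} {γ : List Γ} {e : Bool} (h : TF stp fin w i q γ e) :
    ∀ (γ₂ : List Γ) (e' : Bool), e = false → TF stp fin w i q (γ ++ γ₂) e' := by
  induction h with
  | done i q γ e hi hf he =>
    intro γ₂ e' h0
    subst h0
    rcases he with he | he
    · exact absurd he (by decide)
    · obtain ⟨g, γ', rfl⟩ := List.exists_cons_of_ne_nil he
      exact TF.done i q _ e' hi hf (Or.inr (List.cons_ne_nil _ _))
  | read i q γ e a q₁ op ha he hs hT ih =>
    intro γ₂ e' h0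
    subst h0
    rcases he with he | he
    · exact absurd he (by decide)
    · obtain ⟨g, γ', rfl⟩ := List.exists_cons_of_ne_nil he
      refine TF.read i q _ e' a q₁ op ha (Or.inr (List.cons_ne_nil _ _)) hs ?_
      rw [List.cons_append, apply_app]
      exact ih γ₂ e' rfl

theorem run_drop {i : ℕ} {a : α} (ha : w[i]? = some a) (q : Q) (γ : List Γ) :
    run stp (w.drop i) (q, γ) =
      run stp (w.drop (i + 1)) ((stp a q γ.head?).1, (stp a q γ.head?).2.apply γ) := by
  obtain ⟨hi, rfl⟩ := List.getElem?_eq_some_iff.mp ha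
  unfold run
  rw [List.drop_eq_getElem_cons hi, List.foldl_cons]

theorem TF.acc {i : ℕ} {q : Q} {γ : List Γ} {e : Bool} (h : TF stp fin w i q γ e) :
    fin (run stp (w.drop i) (q, γ)).1 (run stp (w.drop i) (q, γ)).2.head? = true := by
  induction h with
  | done i q γ e hi hf he =>
    rw [hi, List.drop_length]
    exact hf
  | read i q γ e a q₁ op ha he hs hT ih =>
    rw [run_drop ha, hs]
    exact ih

theorem TF.of_acc : ∀ (d i : ℕ), i + d = w.length → ∀ (q : Q) (γ : List Γ),
    fin (run stp (w.drop i) (q, γ)).1 (run stp (w.drop i) (q, γ)).2.head? = true →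
    TF stp fin w i q γ true := by
  intro d
  induction d with
  | zero =>
    intro i hi q γ h
    rw [Nat.add_zero] at hi
    rw [hi, List.drop_length] at h
    exact TF.done i q γ true hi h (Or.inl rfl)
  | succ d ih =>
    intro i hi q γ h
    have hlt : i < w.length := by omega
    have ha : w[i]? = some w[i] := List.getElem?_eq_getElem hlt
    rw [run_drop ha] at h
    exact TF.read i q γ true w[i] _ _ ha (Or.inl rfl) rfl (ih (i + 1) (by omega) _ _ h)

variable (stp fin w)

/-- The true goals. -/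
def Tr : Goal Q Γ → Prop
  | Goal.W i j q γ q' => TW stp w i j q γ q'
  | Goal.F i q γ e => TF stp fin w i q γ e

/-- The steps on lists of goals which are counted as jumps. -/
inductive Fr (n : ℕ) : List (Goal Q Γ) → List (Goal Q Γ) → Prop
  | doneW (i : ℕ) (q : Q) (r : List (Goal Q Γ)) : i ≤ n → Fr n (Goal.W i i q [] q :: r) r
  | doneF (q : Q) (γ : List Γ) (e : Bool) (r : List (Goal Q Γ)) : fin q γ.head? = true →
      (e = true ∨ γ ≠ []) → Fr n (Goal.F n q γ e :: r) r
  | splitWA (i j : ℕ) (q : Q) (γ₁ γ₂ : List Γ) (q' : Q) (m : ℕ) (q₂ : Q) (r : List (Goal Q Γ)) :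
      Fr n (Goal.W i j q (γ₁ ++ γ₂) q' :: r) (Goal.W i m q γ₁ q₂ :: Goal.W m j q₂ γ₂ q' :: r)
  | splitWB (i j : ℕ) (q : Q) (γ₁ γ₂ : List Γ) (q' : Q) (m : ℕ) (q₂ : Q) (r : List (Goal Q Γ)) :
      Fr n (Goal.W i j q (γ₁ ++ γ₂) q' :: r) (Goal.W m j q₂ γ₂ q' :: Goal.W i m q γ₁ q₂ :: r)
  | splitFA (i : ℕ) (q : Q) (γ₁ γ₂ : List Γ) (e : Bool) (m : ℕ) (q₂ : Q) (r : List (Goal Q Γ)) :
      Fr n (Goal.F i q (γ₁ ++ γ₂) e :: r) (Goal.W i m q γ₁ q₂ :: Goal.F m q₂ γ₂ e :: r)
  | splitFB (i : ℕ) (q : Q) (γ₁ γ₂ : List Γ) (e : Bool) (m : ℕ) (q₂ : Q) (r : List (Goal Q Γ)) :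
      Fr n (Goal.F i q (γ₁ ++ γ₂) e :: r) (Goal.F m q₂ γ₂ e :: Goal.W i m q γ₁ q₂ :: r)

/-- The steps which read the letter `a`. -/
inductive Rd (a : α) : List (Goal Q Γ) → List (Goal Q Γ) → Prop
  | readW (i j : ℕ) (q : Q) (g : Γ) (γ : List Γ) (q' q₁ : Q) (op : Op Γ) (r : List (Goal Q Γ)) :
      stp a q (some g) = (q₁, op) →
      Rd a (Goal.W i j q (g :: γ) q' :: r) (Goal.W (i + 1) j q₁ (op.apply (g :: γ)) q' :: r)
  | readF (i : ℕ) (q : Q) (γ : List Γ) (e : Bool) (q₁ : Q) (op : Op Γ) (r : List (Goal Q Γ)) :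
      (e = true ∨ γ ≠ []) → stp a q γ.head? = (q₁, op) →
      Rd a (Goal.F i q γ e :: r) (Goal.F (i + 1) q₁ (op.apply γ) e :: r)
  | readG (i : ℕ) (q : Q) (g : Γ) (γ₁ γ₂ : List Γ) (e : Bool) (q₁ : Q) (op : Op Γ)
      (r : List (Goal Q Γ)) : stp a q (some g) = (q₁, op) →
      Rd a (Goal.F i q (g :: (γ₁ ++ γ₂)) e :: r)
        (Goal.F (i + 1) q₁ (op.apply (g :: γ₁)) false :: r)

variable {stp fin w}

theorem Fr_sound {n : ℕ} (hn : w.length = n) {l l' : List (Goal Q Γ)} (h : Fr fin n l l')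
    (hl : ∀ x ∈ l', Tr stp fin w x) : ∀ x ∈ l, Tr stp fin w x := by
  cases h with
  | doneW i q r hi =>
    intro x hx
    rcases List.mem_cons.mp hx with rfl | hx
    · exact TW.done i q (by omega)
    · exact hl x hx
  | doneF q γ e r hf he =>
    intro x hx
    rcases List.mem_cons.mp hx with rfl | hx
    · exact TF.done n q γ e hn.symm hf he
    · exact hl x hx
  | splitWA i j q γ₁ γ₂ q' m q₂ r =>
    intro x hx
    have h1 : TW stp w i m q γ₁ q₂ := hl (Goal.W i m q γ₁ q₂) (by simp)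
    have h2 : TW stp w m j q₂ γ₂ q' := hl (Goal.W m j q₂ γ₂ q') (by simp)
    rcases List.mem_cons.mp hx with rfl | hx
    · exact h1.append h2
    · exact hl x (by simp [hx])
  | splitWB i j q γ₁ γ₂ q' m q₂ r =>
    intro x hx
    have h1 : TW stp w i m q γ₁ q₂ := hl (Goal.W i m q γ₁ q₂) (by simp)
    have h2 : TW stp w m j q₂ γ₂ q' := hl (Goal.W m j q₂ γ₂ q') (by simp)
    rcases List.mem_cons.mp hx with rfl | hx
    · exact h1.append h2
    · exact hl x (by simp [hx])
  | splitFA i q γ₁ γ₂ e m q₂ r =>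
    intro x hx
    have h1 : TW stp w i m q γ₁ q₂ := hl (Goal.W i m q γ₁ q₂) (by simp)
    have h2 : TF stp fin w m q₂ γ₂ e := hl (Goal.F m q₂ γ₂ e) (by simp)
    rcases List.mem_cons.mp hx with rfl | hx
    · exact TF.append h1 h2
    · exact hl x (by simp [hx])
  | splitFB i q γ₁ γ₂ e m q₂ r =>
    intro x hx
    have h1 : TW stp w i m q γ₁ q₂ := hl (Goal.W i m q γ₁ q₂) (by simp)
    have h2 : TF stp fin w m q₂ γ₂ e := hl (Goal.F m q₂ γ₂ e) (by simp)
    rcases List.mem_cons.mp hx with rfl | hx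
    · exact TF.append h1 h2
    · exact hl x (by simp [hx])

/-- The position of the head. -/
def hd (n : ℕ) : List (Goal Q Γ) → ℕ
  | [] => n + 1
  | x :: _ => ps x + 1

theorem tape_get {i : ℕ} {a : α} : tape w (i + 1) = Sym.letter a ↔ w[i]? = some a := by
  rcases h : w[i]? with _ | c
  · simp [tape, h]
  · simp [tape, h]

theorem Rd_sound {n : ℕ} {a : α} {l l' : List (Goal Q Γ)} (ha : tape w (hd n l) = Sym.letter a)
    (h : Rd stp a l l') (hl : ∀ x ∈ l', Tr stp fin w x) : ∀ x ∈ l, Tr stp fin w x := by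
  cases h with
  | readW i j q g γ q' q₁ op r hs =>
    intro x hx
    rcases List.mem_cons.mp hx with rfl | hx
    · exact TW.read i j q g γ q' a q₁ op (tape_get.mp ha) hs
        (hl (Goal.W (i + 1) j q₁ (op.apply (g :: γ)) q') (by simp))
    · exact hl x (by simp [hx])
  | readF i q γ e q₁ op r he hs =>
    intro x hx
    rcases List.mem_cons.mp hx with rfl | hx
    · exact TF.read i q γ e a q₁ op (tape_get.mp ha) he hs
        (hl (Goal.F (i + 1) q₁ (op.apply γ) e) (by simp))
    · exact hl x (by simp [hx])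
  | readG i q g γ₁ γ₂ e q₁ op r hs =>
    intro x hx
    rcases List.mem_cons.mp hx with rfl | hx
    · have h1 : TF stp fin w (i + 1) q₁ (op.apply (g :: γ₁)) false :=
        hl (Goal.F (i + 1) q₁ (op.apply (g :: γ₁)) false) (by simp)
      have h2 : TF stp fin w i q (g :: γ₁) false :=
        TF.read i q (g :: γ₁) false a q₁ op (tape_get.mp ha)
          (Or.inr (List.cons_ne_nil _ _)) hs h1
      exact h2.weak γ₂ e rfl
    · exact hl x (by simp [hx])

/-- The lists of goals which are allowed. -/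
def Okl (n b K : ℕ) (l : List (Goal Q Γ)) : Prop := l.length ≤ K ∧ ∀ x ∈ l, Ok n b x

/-- The states: lists of at most `K` goals. -/
def St (Q Γ : Type) (n b K : ℕ) : Type := {l : List (Goal Q Γ) // Okl n b K l}

/-- The code of a goal. -/
def code (n b : ℕ) : Goal Q Γ →
    ((Fin (n + 1) × Fin (n + 1)) × (Q × Q) × (Fin (2 * b) → Option Γ)) ⊕
      ((Fin (n + 1) × Q) × Bool × (Fin (2 * b) → Option Γ))
  | Goal.W i j q γ q' => Sum.inl ((Fin.ofNat (n + 1) i, Fin.ofNat (n + 1) j), (q, q'),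
      fun k => γ[(k : ℕ)]?)
  | Goal.F i q γ e => Sum.inr ((Fin.ofNat (n + 1) i, q), e, fun k => γ[(k : ℕ)]?)

theorem ofNat_inj {n i j : ℕ} (hi : i ≤ n) (hj : j ≤ n)
    (h : Fin.ofNat (n + 1) i = Fin.ofNat (n + 1) j) : i = j := by
  have h1 := congrArg Fin.val h
  simp only [Fin.val_ofNat] at h1
  rwa [Nat.mod_eq_of_lt (by omega), Nat.mod_eq_of_lt (by omega)] at h1

theorem list_inj {A : Type} {K : ℕ} {γ γ' : List A} (hγ : γ.length ≤ K) (hγ' : γ'.length ≤ K)
    (h : (fun k : Fin K => γ[(k : ℕ)]?) = fun k : Fin K => γ'[(k : ℕ)]?) : γ = γ' := by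
  apply List.ext_getElem?
  intro i
  rcases Nat.lt_or_ge i K with hi | hi
  · exact congrFun h ⟨i, hi⟩
  · rw [List.getElem?_eq_none (by omega), List.getElem?_eq_none (by omega)]

theorem code_inj {n b : ℕ} {x y : Goal Q Γ} (hx : Ok n b x) (hy : Ok n b y)
    (h : code n b x = code n b y) : x = y := by
  cases x with
  | W i j q γ q' =>
    cases y with
    | W i₁ j₁ q₁ γ₁ q₁' =>
      simp only [code, Sum.inl.injEq, Prod.mk.injEq] at h
      obtain ⟨⟨h1, h2⟩, ⟨rfl, rfl⟩, h3⟩ := h
      rw [ofNat_inj hx.1 hy.1 h1, ofNat_inj hx.2.1 hy.2.1 h2, list_inj hx.2.2 hy.2.2 h3]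
    | F i₁ q₁ γ₁ e₁ => simp [code] at h
  | F i q γ e =>
    cases y with
    | W i₁ j₁ q₁ γ₁ q₁' => simp [code] at h
    | F i₁ q₁ γ₁ e₁ =>
      simp only [code, Sum.inr.injEq, Prod.mk.injEq] at h
      obtain ⟨⟨h1, rfl⟩, rfl, h3⟩ := h
      rw [ofNat_inj hx.1 hy.1 h1, list_inj hx.2 hy.2 h3]

/-- The code of a state. -/
def codes (n b K : ℕ) (s : St Q Γ n b K) : Fin K → Option
    (((Fin (n + 1) × Fin (n + 1)) × (Q × Q) × (Fin (2 * b) → Option Γ)) ⊕
      ((Fin (n + 1) × Q) × Bool × (Fin (2 * b) → Option Γ))) :=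
  fun i => (s.1[(i : ℕ)]?).map (code n b)

theorem codes_inj (n b K : ℕ) : Function.Injective (codes (Q := Q) (Γ := Γ) n b K) := by
  rintro ⟨l, hl, hok⟩ ⟨l', hl', hok'⟩ h
  apply Subtype.ext
  apply List.ext_getElem?
  intro i
  change l[i]? = l'[i]?
  rcases Nat.lt_or_ge i K with hi | hi
  · have h1 := congrFun h ⟨i, hi⟩
    simp only [codes] at h1
    rcases hx : l[i]? with _ | x
    · rcases hy : l'[i]? with _ | y
      · rfl
      · rw [hx, hy] at h1
        simp at h1
    · rcases hy : l'[i]? with _ | y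
      · rw [hx, hy] at h1
        simp at h1
      · rw [hx, hy] at h1
        simp only [Option.map_some, Option.some.injEq] at h1
        rw [code_inj (hok x (List.mem_of_getElem? hx)) (hok' y (List.mem_of_getElem? hy)) h1]
  · rw [List.getElem?_eq_none (by omega), List.getElem?_eq_none (by omega)]

theorem fin_St [Finite Q] [Finite Γ] (n b K : ℕ) : Finite (St Q Γ n b K) :=
  Finite.of_injective _ (codes_inj n b K)

theorem card_St [Finite Q] [Finite Γ] (n b K : ℕ) : Nat.card (St Q Γ n b K) ≤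
    (((n + 1) ^ 2 * Nat.card Q ^ 2 + 2 * (n + 1) * Nat.card Q) *
      (Nat.card Γ + 1) ^ (2 * b) + 1) ^ K := by
  refine (Nat.card_le_card_of_injective _ (codes_inj n b K)).trans ?_
  rw [Nat.card_fun, Nat.card_eq_fintype_card (α := Fin K), Fintype.card_fin]
  refine Nat.pow_le_pow_left ?_ K
  rw [Finite.card_option]
  refine Nat.add_le_add_right ?_ 1
  simp only [Nat.card_sum, Nat.card_prod, Nat.card_fun, Finite.card_option, Nat.card_fin,
    Nat.card_eq_fintype_card (α := Bool), Fintype.card_bool]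
  apply le_of_eq
  ring

variable (stp fin)

/-- The machine. -/
def mch [Finite Q] [Finite Γ] (q₀ : Q) (n b K : ℕ) (hK : 1 ≤ K) : Machine α 1 where
  S := St Q Γ n b K
  fin := fin_St n b K
  start := ⟨[Goal.F 0 q₀ [] true], hK, fun x hx => by
    rw [List.mem_singleton.mp hx]
    exact ⟨Nat.zero_le n, Nat.zero_le _⟩⟩
  accept := {s | s.1 = []}
  pos := fun s _ => hd n s.1
  step := fun s x => {t | Fr fin n s.1 t.1 ∨ ∃ a, x 0 = Sym.letter a ∧ Rd stp a s.1 t.1}

theorem mch_sound [Finite Q] [Finite Γ] (q₀ : Q) (n b K : ℕ) (hK : 1 ≤ K) (hw : w.length = n)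
    (t r : ℕ) (s : (mch stp fin q₀ n b K hK).S)
    (h : (mch stp fin q₀ n b K hK).Reach w t r s) :
    (∀ x ∈ s.1, Tr stp fin w x) → TF stp fin w 0 q₀ [] true := by
  have key : ∀ s s' : (mch stp fin q₀ n b K hK).S,
      s' ∈ (mch stp fin q₀ n b K hK).step s
        (fun j => tape w ((mch stp fin q₀ n b K hK).pos s j)) →
      (∀ x ∈ s'.1, Tr stp fin w x) → ∀ x ∈ s.1, Tr stp fin w x := by
    intro s s' hs hl
    rcases hs with hs | ⟨a, ha, hs⟩
    · exact Fr_sound hw hs hl
    · exact Rd_sound (n := n) ha hs hl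
  induction h with
  | start => exact fun h => h (Goal.F 0 q₀ [] true) (List.mem_singleton.mpr rfl)
  | move _ ht _ ih => exact fun h => ih (key _ _ ht h)
  | jump _ ht ih => exact fun h => ih (key _ _ ht h)

section compl

variable [Finite Q] [Finite Γ] (q₀ : Q) (n b K : ℕ) (hK : 1 ≤ K) (w)

/-- The list `l` is reached. -/
def R (t j : ℕ) (l : List (Goal Q Γ)) : Prop :=
  ∃ h : Okl n b K l, (mch stp fin q₀ n b K hK).Reach w t j ⟨l, h⟩

variable {stp fin q₀ n b K hK w}

theorem R.fr {t j : ℕ} {l l' : List (Goal Q Γ)} (h : R stp fin w q₀ n b K hK t j l)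
    (hs : Fr fin n l l') (hl : Okl n b K l') : R stp fin w q₀ n b K hK (t + 1) (j + 1) l' := by
  obtain ⟨h1, h2⟩ := h
  exact ⟨hl, Machine.Reach.jump h2 (Or.inl hs)⟩

theorem R.rd {t j : ℕ} {x y : Goal Q Γ} {r : List (Goal Q Γ)} {a : α}
    (h : R stp fin w q₀ n b K hK t j (x :: r)) (ha : w[ps x]? = some a)
    (hs : Rd stp a (x :: r) (y :: r)) (hp : ps y = ps x + 1) (hr : ∀ z ∈ r, Ok n b z)
    (hy : Ok n b y) : R stp fin w q₀ n b K hK (t + 1) j (y :: r) := by
  obtain ⟨h1, h2⟩ := h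
  have hl : Okl n b K (y :: r) := by
    refine ⟨h1.1, ?_⟩
    intro z hz
    rcases List.mem_cons.mp hz with rfl | hz
    · exact hy
    · exact hr z hz
  refine ⟨hl, Machine.Reach.move h2 (Or.inr ⟨a, ?_, hs⟩) ?_⟩
  · exact tape_get.mpr ha
  · intro _
    change ps y + 1 ≤ ps x + 1 + 1 ∧ ps x + 1 ≤ ps y + 1 + 1
    omega

omit [Finite Q] [Finite Γ] in
theorem okl_cons {x : Goal Q Γ} {r : List (Goal Q Γ)} (hx : Ok n b x) (hr : ∀ z ∈ r, Ok n b z) :
    ∀ z ∈ x :: r, Ok n b z := by
  intro z hz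
  rcases List.mem_cons.mp hz with rfl | hz
  · exact hx
  · exact hr z hz

omit [Finite Γ] in
theorem halves {γ : List Γ} (h : γ.length = 2 * b) : ∃ γ₁ γ₂ : List Γ, γ = γ₁ ++ γ₂ ∧
    γ₁.length = b ∧ γ₂.length = b := by
  refine ⟨γ.take b, γ.drop b, (List.take_append_drop b γ).symm, ?_, ?_⟩
  · rw [List.length_take]; omega
  · rw [List.length_drop]; omega

theorem half_pow {a a' k : ℕ} (h : a + a' < 2 ^ (k + 1)) (hle : a ≤ a') : a < 2 ^ k := by
  rw [pow_succ] at h
  omega

theorem complW (hb : 1 ≤ b) (hw : w.length = n) : ∀ (s k i j : ℕ) (q : Q) (γ : List Γ) (q' : Q),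
    TW stp w i j q γ q' → γ.length ≤ 2 * b → j - i = s → s < 2 ^ k →
    ∀ r : List (Goal Q Γ), (∀ y ∈ r, Ok n b y) → r.length + 1 + k ≤ K → ∀ t₀ j₀ : ℕ,
    R stp fin w q₀ n b K hK t₀ j₀ (Goal.W i j q γ q' :: r) →
    ∃ l : ℕ, b * (l + 1) ≤ max s b ∧
      R stp fin w q₀ n b K hK (t₀ + s + (2 * l + 1)) (j₀ + (2 * l + 1)) r := by
  intro s
  induction s using Nat.strong_induction_on with
  | _ s ih =>
    intro k i j q γ q' hT hγ hs hk r hr hl t₀ j₀ hR
    cases hT with
    | done i q hi =>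
      have hs0 : s = 0 := by omega
      subst hs0
      refine ⟨0, by simp, ?_⟩
      exact hR.fr (Fr.doneW i q r (by omega)) ⟨by omega, hr⟩
    | read i j q g γ q' a q₁ op ha hst hT' =>
      have hle := hT'.le
      have hlen1 := len_apply op g γ
      have hlt := lt_of_get ha
      by_cases hlen : (op.apply (g :: γ)).length ≤ 2 * b
      · have h1 := hR.rd (y := Goal.W (i + 1) j q₁ (op.apply (g :: γ)) q') ha
          (Rd.readW i j q g γ q' q₁ op r hst) rfl hr ⟨by omega, by omega, hlen⟩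
        obtain ⟨l, h2, h3⟩ := ih (s - 1) (by omega) k (i + 1) j q₁ _ q' hT' hlen (by omega)
          (by omega) r hr hl (t₀ + 1) j₀ h1
        refine ⟨l, h2.trans (max_le_max (Nat.sub_le s 1) le_rfl), ?_⟩
        rwa [show t₀ + 1 + (s - 1) + (2 * l + 1) = t₀ + s + (2 * l + 1) by omega] at h3
      · have hlen2 := len_apply' op (g :: γ)
        have hlen3 : (g :: γ).length = 2 * b := by omega
        obtain ⟨γ₁, γ₂, hγ12, hγ1, hγ2⟩ := halves hlen3
        have hT : TW stp w i j q (g :: γ) q' := TW.read i j q g γ q' a q₁ op ha hst hT'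
        obtain ⟨m, q₂, hT1, hT2⟩ := hT.split γ₁ γ₂ hγ12
        rw [hγ12] at hR
        have hle1 := hT1.le
        have hle2 := hT2.le
        obtain ⟨k', rfl⟩ : ∃ k', k = k' + 1 := by
          cases k with
          | zero => exfalso; rw [pow_zero] at hk; omega
          | succ k' => exact ⟨k', rfl⟩
        have hok1 : Ok n b (Goal.W i m q γ₁ q₂) := ⟨by omega, by omega, by omega⟩
        have hok2 : Ok n b (Goal.W m j q₂ γ₂ q') := ⟨by omega, by omega, by omega⟩
        rcases le_total (m - i) (j - m) with hc | hc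
        · have h1 := hR.fr (Fr.splitWA i j q γ₁ γ₂ q' m q₂ r)
            ⟨by simp only [List.length_cons]; omega, okl_cons hok1 (okl_cons hok2 hr)⟩
          obtain ⟨l₁, h2, h3⟩ := ih (m - i) (by omega) k' i m q γ₁ q₂ hT1 (by omega) rfl
            (half_pow (a' := j - m) (by omega) hc) (Goal.W m j q₂ γ₂ q' :: r) (okl_cons hok2 hr)
            (by simp only [List.length_cons]; omega) _ _ h1
          obtain ⟨l₂, h4, h5⟩ := ih (j - m) (by omega) (k' + 1) m j q₂ γ₂ q' hT2 (by omega) rfl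
            (by omega) r hr hl _ _ h3
          refine ⟨l₁ + l₂ + 1, ?_, ?_⟩
          · have e1 : max (m - i) b = m - i := max_eq_left (by omega)
            have e2 : max (j - m) b = j - m := max_eq_left (by omega)
            rw [e1] at h2
            rw [e2] at h4
            refine le_trans ?_ (le_max_left _ _)
            calc b * (l₁ + l₂ + 1 + 1) = b * (l₁ + 1) + b * (l₂ + 1) := by ring
              _ ≤ (m - i) + (j - m) := Nat.add_le_add h2 h4
              _ = s := by omega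
          · have e3 : t₀ + 1 + (m - i) + (2 * l₁ + 1) + (j - m) + (2 * l₂ + 1) =
                t₀ + s + (2 * (l₁ + l₂ + 1) + 1) := by omega
            have e4 : j₀ + 1 + (2 * l₁ + 1) + (2 * l₂ + 1) =
                j₀ + (2 * (l₁ + l₂ + 1) + 1) := by omega
            rwa [e3, e4] at h5
        · have h1 := hR.fr (Fr.splitWB i j q γ₁ γ₂ q' m q₂ r)
            ⟨by simp only [List.length_cons]; omega, okl_cons hok2 (okl_cons hok1 hr)⟩
          obtain ⟨l₂, h4, h3⟩ := ih (j - m) (by omega) k' m j q₂ γ₂ q' hT2 (by omega) rfl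
            (half_pow (a' := m - i) (by omega) hc) (Goal.W i m q γ₁ q₂ :: r) (okl_cons hok1 hr)
            (by simp only [List.length_cons]; omega) _ _ h1
          obtain ⟨l₁, h2, h5⟩ := ih (m - i) (by omega) (k' + 1) i m q γ₁ q₂ hT1 (by omega) rfl
            (by omega) r hr hl _ _ h3
          refine ⟨l₁ + l₂ + 1, ?_, ?_⟩
          · have e1 : max (m - i) b = m - i := max_eq_left (by omega)
            have e2 : max (j - m) b = j - m := max_eq_left (by omega)
            rw [e1] at h2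
            rw [e2] at h4
            refine le_trans ?_ (le_max_left _ _)
            calc b * (l₁ + l₂ + 1 + 1) = b * (l₁ + 1) + b * (l₂ + 1) := by ring
              _ ≤ (m - i) + (j - m) := Nat.add_le_add h2 h4
              _ = s := by omega
          · have e3 : t₀ + 1 + (j - m) + (2 * l₂ + 1) + (m - i) + (2 * l₁ + 1) =
                t₀ + s + (2 * (l₁ + l₂ + 1) + 1) := by omega
            have e4 : j₀ + 1 + (2 * l₂ + 1) + (2 * l₁ + 1) =
                j₀ + (2 * (l₁ + l₂ + 1) + 1) := by omega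
            rwa [e3, e4] at h5

omit [Finite Q] [Finite Γ] in
theorem TF.le {i : ℕ} {q : Q} {γ : List Γ} {e : Bool} (h : TF stp fin w i q γ e) :
    i ≤ w.length := by
  cases h with
  | done _ _ _ _ hi _ _ => exact hi.le
  | read _ _ _ _ a _ _ ha _ _ _ => exact (lt_of_get ha).le

theorem complF (hb : 1 ≤ b) (hw : w.length = n) : ∀ (s k i : ℕ) (q : Q) (γ : List Γ) (e : Bool),
    TF stp fin w i q γ e → γ.length ≤ 2 * b → n - i = s → s < 2 ^ k →
    ∀ r : List (Goal Q Γ), (∀ y ∈ r, Ok n b y) → r.length + 1 + k ≤ K → ∀ t₀ j₀ : ℕ,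
    R stp fin w q₀ n b K hK t₀ j₀ (Goal.F i q γ e :: r) →
    ∃ l : ℕ, b * (l + 1) ≤ s + b ∧
      R stp fin w q₀ n b K hK (t₀ + s + (2 * l + 1)) (j₀ + (2 * l + 1)) r := by
  intro s
  induction s using Nat.strong_induction_on with
  | _ s ih =>
    intro k i q γ e hT hγ hs hk r hr hl t₀ j₀ hR
    cases hT with
    | done i q γ e hi hf he =>
      have hin : i = n := by omega
      subst hin
      have hs0 : s = 0 := by omega
      subst hs0
      refine ⟨0, by simp, ?_⟩
      exact hR.fr (Fr.doneF q γ e r hf he) ⟨by omega, hr⟩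
    | read i q γ e a q₁ op ha he hst hT' =>
      have hlt := lt_of_get ha
      have hi1 := hT'.le
      by_cases hlen : (op.apply γ).length ≤ 2 * b
      · have h1 := hR.rd (y := Goal.F (i + 1) q₁ (op.apply γ) e) ha
          (Rd.readF i q γ e q₁ op r he hst) rfl hr ⟨by omega, hlen⟩
        obtain ⟨l, h2, h3⟩ := ih (s - 1) (by omega) k (i + 1) q₁ _ e hT' hlen (by omega)
          (by omega) r hr hl (t₀ + 1) j₀ h1
        refine ⟨l, by omega, ?_⟩
        rwa [show t₀ + 1 + (s - 1) + (2 * l + 1) = t₀ + s + (2 * l + 1) by omega] at h3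
      · have hlen2 := len_apply' op γ
        have hlen3 : γ.length = 2 * b := by omega
        obtain ⟨γ₁, γ₂, hγ12, hγ1, hγ2⟩ := halves hlen3
        have hT : TF stp fin w i q γ e := TF.read i q γ e a q₁ op ha he hst hT'
        have hne : γ₁ ≠ [] := by
          intro h0
          rw [h0, List.length_nil] at hγ1
          omega
        obtain ⟨g, γ₁', rfl⟩ := List.exists_cons_of_ne_nil hne
        have hhd : γ.head? = some g := by rw [hγ12]; rfl
        rcases hT.split (g :: γ₁') γ₂ hγ12 with hT1 | ⟨m, q₂, hT1, hT2⟩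
        · -- forget the lower half and read
          have hT3 : TF stp fin w (i + 1) q₁ (op.apply (g :: γ₁')) false := by
            cases hT1 with
            | done _ _ _ _ hi _ _ => exact absurd hi (by omega)
            | read _ _ _ _ a' q₁' op' ha' _ hst' hT4 =>
              rw [ha] at ha'
              obtain rfl := Option.some.inj ha'
              rw [hhd] at hst
              have h5 : (q₁, op) = (q₁', op') := hst.symm.trans hst'
              obtain ⟨rfl, rfl⟩ := Prod.mk.inj h5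
              exact hT4
          have hlen4 := len_apply' op (g :: γ₁')
          have hlen5 : (op.apply (g :: γ₁')).length ≤ 2 * b := by omega
          rw [hhd] at hst
          rw [hγ12] at hR
          have h1 := hR.rd (y := Goal.F (i + 1) q₁ (op.apply (g :: γ₁')) false) ha
            (Rd.readG i q g γ₁' γ₂ e q₁ op r hst) rfl hr ⟨by omega, hlen5⟩
          obtain ⟨l, h2, h3⟩ := ih (s - 1) (by omega) k (i + 1) q₁ _ false hT3 hlen5 (by omega)
            (by omega) r hr hl (t₀ + 1) j₀ h1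
          refine ⟨l, by omega, ?_⟩
          rwa [show t₀ + 1 + (s - 1) + (2 * l + 1) = t₀ + s + (2 * l + 1) by omega] at h3
        · rw [hγ12] at hR
          have hle1 := hT1.le
          have hle2 := hT2.le
          obtain ⟨k', rfl⟩ : ∃ k', k = k' + 1 := by
            cases k with
            | zero => exfalso; rw [pow_zero] at hk; omega
            | succ k' => exact ⟨k', rfl⟩
          have hok1 : Ok n b (Goal.W i m q (g :: γ₁') q₂) := ⟨by omega, by omega, by omega⟩
          have hok2 : Ok n b (Goal.F m q₂ γ₂ e) := ⟨by omega, by omega⟩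
          rcases le_total (m - i) (n - m) with hc | hc
          · have h1 := hR.fr (Fr.splitFA i q (g :: γ₁') γ₂ e m q₂ r)
              ⟨by simp only [List.length_cons]; omega, okl_cons hok1 (okl_cons hok2 hr)⟩
            obtain ⟨l₁, h2, h3⟩ := complW hb hw (m - i) k' i m q (g :: γ₁') q₂ hT1 (by omega) rfl
              (half_pow (a' := n - m) (by omega) hc) (Goal.F m q₂ γ₂ e :: r) (okl_cons hok2 hr)
              (by simp only [List.length_cons]; omega) _ _ h1
            obtain ⟨l₂, h4, h5⟩ := ih (n - m) (by omega) (k' + 1) m q₂ γ₂ e hT2 (by omega) rfl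
              (by omega) r hr hl _ _ h3
            refine ⟨l₁ + l₂ + 1, ?_, ?_⟩
            · have e1 : max (m - i) b = m - i := max_eq_left (by omega)
              rw [e1] at h2
              calc b * (l₁ + l₂ + 1 + 1) = b * (l₁ + 1) + b * (l₂ + 1) := by ring
                _ ≤ (m - i) + (n - m + b) := Nat.add_le_add h2 h4
                _ = s + b := by omega
            · have e3 : t₀ + 1 + (m - i) + (2 * l₁ + 1) + (n - m) + (2 * l₂ + 1) =
                  t₀ + s + (2 * (l₁ + l₂ + 1) + 1) := by omega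
              have e4 : j₀ + 1 + (2 * l₁ + 1) + (2 * l₂ + 1) =
                  j₀ + (2 * (l₁ + l₂ + 1) + 1) := by omega
              rwa [e3, e4] at h5
          · have h1 := hR.fr (Fr.splitFB i q (g :: γ₁') γ₂ e m q₂ r)
              ⟨by simp only [List.length_cons]; omega, okl_cons hok2 (okl_cons hok1 hr)⟩
            obtain ⟨l₂, h4, h3⟩ := ih (n - m) (by omega) k' m q₂ γ₂ e hT2 (by omega) rfl
              (half_pow (a' := m - i) (by omega) hc) (Goal.W i m q (g :: γ₁') q₂ :: r)
              (okl_cons hok1 hr) (by simp only [List.length_cons]; omega) _ _ h1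
            obtain ⟨l₁, h2, h5⟩ := complW hb hw (m - i) (k' + 1) i m q (g :: γ₁') q₂ hT1
              (by omega) rfl (by omega) r hr hl _ _ h3
            refine ⟨l₁ + l₂ + 1, ?_, ?_⟩
            · have e1 : max (m - i) b = m - i := max_eq_left (by omega)
              rw [e1] at h2
              calc b * (l₁ + l₂ + 1 + 1) = b * (l₁ + 1) + b * (l₂ + 1) := by ring
                _ ≤ (m - i) + (n - m + b) := Nat.add_le_add h2 h4
                _ = s + b := by omega
            · have e3 : t₀ + 1 + (n - m) + (2 * l₂ + 1) + (m - i) + (2 * l₁ + 1) =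
                  t₀ + s + (2 * (l₁ + l₂ + 1) + 1) := by omega
              have e4 : j₀ + 1 + (2 * l₂ + 1) + (2 * l₁ + 1) =
                  j₀ + (2 * (l₁ + l₂ + 1) + 1) := by omega
              rwa [e3, e4] at h5

end compl

end

end UPJ

theorem t_UPJ : S_UPJ := by
  intro α Q Γ _ _ stp q₀ fin n b hb
  have hK : 1 ≤ Nat.size n + 1 := Nat.le_add_left 1 _
  refine ⟨UPJ.mch stp fin q₀ n b (Nat.size n + 1) hK, ?_, UPJ.card_St n b (Nat.size n + 1)⟩
  intro w hw
  refine ⟨?_, ?_⟩
  · rintro ⟨t, r, i, _, k, _, s, ha, hs⟩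
    have hs0 : s.1 = [] := ha
    have h1 := UPJ.mch_sound stp fin q₀ n b _ hK hw i k s hs (by
      intro x hx
      rw [hs0] at hx
      exact absurd hx List.not_mem_nil)
    have h2 := h1.acc
    rwa [List.drop_zero] at h2
  · intro hacc
    have h1 : UPJ.TF stp fin w 0 q₀ [] true := by
      refine UPJ.TF.of_acc w.length 0 (Nat.zero_add _) q₀ [] ?_
      rwa [List.drop_zero]
    obtain ⟨l, h2, h3, h4⟩ := UPJ.complF (q₀ := q₀) (K := Nat.size n + 1) (hK := hK) hb hw n
      (Nat.size n) 0 q₀ [] true h1 (Nat.zero_le _) (Nat.sub_zero n) (Nat.lt_size_self n) []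
      (fun y hy => absurd hy List.not_mem_nil) (by simp only [List.length_nil]; omega) 0 0
      ⟨(UPJ.mch stp fin q₀ n b (Nat.size n + 1) hK).start.2, Machine.Reach.start⟩
    have h5 : l ≤ n / b := by
      rw [Nat.le_div_iff_mul_le (by omega)]
      have h6 : b * (l + 1) = l * b + b := by ring
      omega
    refine ⟨0 + n + (2 * l + 1), by omega, 0 + (2 * l + 1), by omega, _, ?_, h4⟩
    rfl

end Pool.Agent.RLT
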