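import Pool.Agent.RLT.St6

/-!
# MP_5e85fc_lc, project RLT: UPK, numerics of the matching upper bound with few jumps
-/

set_option autoImplicit false

namespace Pool.Agent.RLT

open Pool.Agent.Heads

namespace UPK

/-- The numerical inequality. -/
lemma num (q γ n : ℕ) (hn : 2 ≤ n) :
    (((((n + 1) ^ 2 * q ^ 2 + 2 * (n + 1) * q) * (γ + 1) ^ (2 * Nat.log 2 n) + 1) ^
      (Nat.size n + 1) : ℕ) : ℝ) ≤
      (n : ℝ) ^ (((6 * (q ^ 2 + 2 * q + 5 + 2 * γ) + 5 : ℕ) : ℝ) * Real.log n) := by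
  have hn1 : (1 : ℝ) < n := by exact_mod_cast (show 1 < n by omega)
  have hn0 : (0 : ℝ) < n := by linarith
  have hl2 : (0.6931471803 : ℝ) < Real.log 2 := Real.log_two_gt_d9
  have hlog2 : Real.log 2 ≤ Real.log n :=
    Real.log_le_log (by norm_num) (by exact_mod_cast hn)
  have hlogn : 0 < Real.log n := by linarith
  have hsq : n + 1 ≤ n ^ 2 := by nlinarith
  obtain ⟨A, hA⟩ : ∃ A, A = q ^ 2 + 2 * q := ⟨_, rfl⟩
  have h1 : (n + 1) ^ 2 ≤ n ^ 4 := by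
    calc (n + 1) ^ 2 ≤ (n ^ 2) ^ 2 := Nat.pow_le_pow_left hsq 2
      _ = n ^ 4 := by ring
  have h2 : A + 1 ≤ n ^ (A + 1) := by
    calc A + 1 ≤ 2 ^ (A + 1) := Nat.lt_two_pow_self.le
      _ ≤ n ^ (A + 1) := Nat.pow_le_pow_left hn _
  have h3 : (γ + 1) ^ (2 * Nat.log 2 n) ≤ n ^ (2 * γ) := by
    have h4 : γ + 1 ≤ 2 ^ γ := Nat.lt_two_pow_self
    have h5 : 2 ^ Nat.log 2 n ≤ n := Nat.pow_log_le_self 2 (by omega)
    calc (γ + 1) ^ (2 * Nat.log 2 n) ≤ (2 ^ γ) ^ (2 * Nat.log 2 n) := Nat.pow_le_pow_left h4 _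
      _ = (2 ^ Nat.log 2 n) ^ (2 * γ) := by
        rw [← pow_mul, ← pow_mul]
        congr 1
        ring
      _ ≤ n ^ (2 * γ) := Nat.pow_le_pow_left h5 _
  have h6 : (n + 1) ^ 2 * q ^ 2 + 2 * (n + 1) * q ≤ n ^ 4 * A := by
    have h7 : 2 * (n + 1) * q ≤ (n + 1) ^ 2 * (2 * q) := by
      have h8 : n + 1 ≤ (n + 1) ^ 2 := by nlinarith
      calc 2 * (n + 1) * q = (n + 1) * (2 * q) := by ring
        _ ≤ (n + 1) ^ 2 * (2 * q) := Nat.mul_le_mul_right _ h8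
    calc (n + 1) ^ 2 * q ^ 2 + 2 * (n + 1) * q ≤ (n + 1) ^ 2 * q ^ 2 + (n + 1) ^ 2 * (2 * q) :=
          Nat.add_le_add_left h7 _
      _ = (n + 1) ^ 2 * A := by rw [hA]; ring
      _ ≤ n ^ 4 * A := Nat.mul_le_mul_right _ h1
  have hb : ((n + 1) ^ 2 * q ^ 2 + 2 * (n + 1) * q) * (γ + 1) ^ (2 * Nat.log 2 n) + 1 ≤
      n ^ (A + 5 + 2 * γ) := by
    have h9 : 1 ≤ n ^ 4 * n ^ (2 * γ) := Nat.mul_pos (pow_pos (by omega) _) (pow_pos (by omega) _)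
    calc ((n + 1) ^ 2 * q ^ 2 + 2 * (n + 1) * q) * (γ + 1) ^ (2 * Nat.log 2 n) + 1
        ≤ (n ^ 4 * A) * n ^ (2 * γ) + n ^ 4 * n ^ (2 * γ) := Nat.add_le_add (Nat.mul_le_mul h6 h3) h9
      _ = n ^ 4 * n ^ (2 * γ) * (A + 1) := by ring
      _ ≤ n ^ 4 * n ^ (2 * γ) * n ^ (A + 1) := Nat.mul_le_mul_left _ h2
      _ = n ^ (A + 5 + 2 * γ) := by
        rw [← pow_add, ← pow_add]
        congr 1
        ring
  have hL : ((Nat.log 2 n : ℕ) : ℝ) * Real.log 2 ≤ Real.log n := by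
    have h1 : 2 ^ Nat.log 2 n ≤ n := Nat.pow_log_le_self 2 (by omega)
    have h2 : ((2 : ℝ) ^ Nat.log 2 n) ≤ (n : ℝ) := by exact_mod_cast h1
    have h3 := Real.log_le_log (by positivity) h2
    rw [Real.log_pow] at h3
    exact h3
  have hsize : Nat.size n ≤ Nat.log 2 n + 1 :=
    Nat.size_le.mpr (Nat.lt_pow_succ_log_self (by norm_num) n)
  have hL2 : ((Nat.size n + 1 : ℕ) : ℝ) ≤ 6 * Real.log n := by
    have hx : (0 : ℝ) ≤ ((Nat.log 2 n : ℕ) : ℝ) := Nat.cast_nonneg _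
    have h4 : ((Nat.log 2 n : ℕ) : ℝ) * (1 / 2) ≤ Real.log n := by
      refine le_trans ?_ hL
      exact mul_le_mul_of_nonneg_left (by linarith) hx
    have h5 : ((Nat.size n + 1 : ℕ) : ℝ) ≤ ((Nat.log 2 n : ℕ) : ℝ) + 2 := by
      have : Nat.size n + 1 ≤ Nat.log 2 n + 2 := by omega
      exact_mod_cast this
    linarith
  rw [← hA]
  have hA0 : (0 : ℝ) ≤ ((A + 5 + 2 * γ : ℕ) : ℝ) := Nat.cast_nonneg _
  calc (((((n + 1) ^ 2 * q ^ 2 + 2 * (n + 1) * q) * (γ + 1) ^ (2 * Nat.log 2 n) + 1) ^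
      (Nat.size n + 1) : ℕ) : ℝ)
      ≤ (((n ^ (A + 5 + 2 * γ)) ^ (Nat.size n + 1) : ℕ) : ℝ) := by
        exact_mod_cast Nat.pow_le_pow_left hb _
    _ = (n : ℝ) ^ (((A + 5 + 2 * γ : ℕ) : ℝ) * ((Nat.size n + 1 : ℕ) : ℝ)) := by
        rw [← Nat.cast_mul, Real.rpow_natCast]
        push_cast
        rw [pow_mul]
    _ ≤ (n : ℝ) ^ (((6 * (A + 5 + 2 * γ) + 5 : ℕ) : ℝ) * Real.log n) := by
        apply Real.rpow_le_rpow_of_exponent_le hn1.le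
        calc ((A + 5 + 2 * γ : ℕ) : ℝ) * ((Nat.size n + 1 : ℕ) : ℝ)
            ≤ ((A + 5 + 2 * γ : ℕ) : ℝ) * (6 * Real.log n) := mul_le_mul_of_nonneg_left hL2 hA0
          _ ≤ ((6 * (A + 5 + 2 * γ) + 5 : ℕ) : ℝ) * Real.log n := by push_cast; nlinarith

end UPK

theorem t_UPK (hUPJ : S_UPJ) : S_UPK := by
  intro α Q Γ _ _ stp q₀ fin
  refine ⟨6 * (Nat.card Q ^ 2 + 2 * Nat.card Q + 5 + 2 * Nat.card Γ) + 5, fun n hn => ?_⟩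
  have hb1 : 1 ≤ Nat.log 2 n := Nat.log_pos (by norm_num) hn
  obtain ⟨P, hP, hc⟩ := hUPJ α Q Γ stp q₀ fin n (Nat.log 2 n) hb1
  refine ⟨P, le_trans (by exact_mod_cast hc) (UPK.num _ _ n hn), fun w hw => ?_⟩
  obtain ⟨h1, h2⟩ := hP w hw
  refine ⟨h1, fun h => ?_⟩
  obtain ⟨i, hi, k, hk, s, hs, hr⟩ := h2 h
  have hbn : Nat.log 2 n ≤ n := Nat.log_le_self 2 n
  have hq1 : 1 ≤ n / Nat.log 2 n := (Nat.one_le_div_iff hb1).mpr hbn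
  have hq2 : n / Nat.log 2 n ≤ n := Nat.div_le_self _ _
  obtain ⟨C, hC⟩ : ∃ C, C = 6 * (Nat.card Q ^ 2 + 2 * Nat.card Q + 5 + 2 * Nat.card Γ) + 5 :=
    ⟨_, rfl⟩
  rw [← hC]
  have hC5 : 5 ≤ C := by omega
  refine ⟨i, hi.trans ?_, k, hk.trans ?_, s, hs, hr⟩
  · calc n + 2 * (n / Nat.log 2 n) + 2 ≤ 5 * n := by omega
      _ ≤ C * n := Nat.mul_le_mul_right _ hC5
  · calc 2 * (n / Nat.log 2 n) + 2 ≤ 4 * (n / Nat.log 2 n) := by omega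
      _ ≤ 4 * n / Nat.log 2 n := Nat.mul_div_le_mul_div_assoc _ _ _
      _ ≤ C * n / Nat.log 2 n := Nat.div_le_div_right (Nat.mul_le_mul_right _ (by omega))

end Pool.Agent.RLT
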