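import Pool.Agent.RLT.Core
import Pool.Agent.RLT.FNU
import Pool.Agent.RLT.RTP
import Pool.Agent.RLT.LEA
import Pool.Agent.RLT.LNA
import Pool.Agent.RLT.WRA
import Pool.Agent.RLT.SIMJ
import Pool.Agent.RLT.EMB
import Pool.Agent.RLT.NUM
import Pool.Agent.RLT.PRA
import Pool.Agent.RLT.UPJ
import Pool.Agent.RLT.UPK

set_option autoImplicit false

namespace Pool.Agent.RLT

theorem finU : FinalU :=
  t_FNU t_RTP t_LEA (t_LNA t_WRA) t_SIMJ t_EMB cor t_NUM t_PRA (t_UPK t_UPJ)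

end Pool.Agent.RLT
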