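import Pool.Agent.RLT.St7
import Pool.Agent.RLT.FNU

/-!
# MP_5e85fc_lc, project RLT: LBA, the lower bound for machines and `LangA`
-/

set_option autoImplicit false

namespace Pool.Agent.RLT

open Pool.Agent.Heads
open FNU

theorem t_LBA (hLEA : S_LEA) (hLNA : S_LNA) (hSIMJ : S_SIMJ) (hCOR : S_COR) (hNUM : S_NUM)
    (hPRA : S_PRA) : S_LBA := by
  intro J t
  obtain ⟨C, c, E, hc, hE, hCor⟩ := hCOR (J * (4 * t + 5))
  obtain ⟨g, hg, hnum⟩ := hNUM C c E hc hE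
  obtain ⟨γ, hγ, hev⟩ := hnum (4 * g + 16)
  have hM0 : NeZero (2 ^ g) := ⟨(Nat.two_pow_pos g).ne'⟩
  refine ⟨(2 ^ g) ^ 2, Nat.one_le_pow _ _ (Nat.two_pow_pos g), γ / 2, by positivity, ?_⟩
  obtain ⟨h₀, hh₀⟩ := Filter.eventually_atTop.mp hev
  filter_upwards [hPRA g h₀ hg, Filter.eventually_ge_atTop 2,
    FNA.poly ((2 ^ g + 1) ^ J * (J + 1) + 1) J (γ / 2) (by positivity)] with n hn hn2 hpoly
  obtain ⟨h, b, p, hh, h1h, hp, h2p, hMp, hp2, hb, hnD, hlen, hnn⟩ := hn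
  obtain ⟨m, hcm, hN⟩ := hh₀ h hh
  have hpF : Fact p.Prime := ⟨hp⟩
  have hlen2 : (treeA g h b p h []).length + p ≤ n :=
    le_trans (Nat.add_le_add_right (hLEA g h b p h [] hg hp.one_lt.le) p) hlen
  obtain ⟨T, hT1, hT2, hT3, hT4⟩ := hLNA g h b p h n hg hMp hlen2
  have hN1 : 1 ≤ 2 ^ h * h * b := Nat.mul_pos (Nat.mul_pos (Nat.two_pow_pos h) h1h) hb
  have hNn : 2 ^ h * h * b ≤ n := by
    have h1 : h * b ≤ h * (b * ((2 ^ g) ^ 2 + 2 ^ g + g) + 2 ^ g + 2) := by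
      apply Nat.mul_le_mul_left
      have h0 : b ≤ b * ((2 ^ g) ^ 2 + 2 ^ g + g) :=
        Nat.le_mul_of_pos_right b (Nat.add_pos_right _ hg)
      exact le_trans h0 (le_trans (Nat.le_add_right _ _) (Nat.le_add_right _ _))
    have h2 : 2 ^ h * (h * b) ≤
        2 ^ h * (h * (b * ((2 ^ g) ^ 2 + 2 ^ g + g) + 2 ^ g + 2) + (2 ^ g) ^ (h + 2)) :=
      Nat.mul_le_mul_left _ (le_trans h1 (Nat.le_add_right _ _))
    have h3 : 2 ^ h * h * b = 2 ^ h * (h * b) := by ring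
    omega
  have htn : J * (t * n / (2 ^ g) ^ 2 + n / (2 ^ g) ^ 2 + 1) ≤
      J * (4 * t + 5) * (2 ^ h * h * b) := by
    have h1 : t * n / (2 ^ g) ^ 2 ≤ 4 * t * (2 ^ h * h * b) := by
      apply Nat.div_le_of_le_mul
      calc t * n ≤ t * (4 * (2 ^ g) ^ 2 * (2 ^ h * h * b)) := Nat.mul_le_mul_left t hnn
        _ = (2 ^ g) ^ 2 * (4 * t * (2 ^ h * h * b)) := by ring
    have h1' : n / (2 ^ g) ^ 2 ≤ 4 * (2 ^ h * h * b) := by
      apply Nat.div_le_of_le_mul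
      calc n ≤ 4 * (2 ^ g) ^ 2 * (2 ^ h * h * b) := hnn
        _ = (2 ^ g) ^ 2 * (4 * (2 ^ h * h * b)) := by ring
    calc J * (t * n / (2 ^ g) ^ 2 + n / (2 ^ g) ^ 2 + 1) ≤
        J * (4 * t * (2 ^ h * h * b) + 4 * (2 ^ h * h * b) + 2 ^ h * h * b) :=
          Nat.mul_le_mul_left J (Nat.add_le_add (Nat.add_le_add h1 h1') hN1)
      _ = J * (4 * t + 5) * (2 ^ h * h * b) := by ring
  obtain ⟨H, hHc, hHL, hHP⟩ := key hSIMJ J t (n / (2 ^ g) ^ 2) (J * (4 * t + 5)) g b p h n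
    (2 ^ h * h * b)
    (fun s => 2 * s ^ C * 2 ^ (C + 1) * (2 ^ h) ^ (2 * m + 1) * (2 ^ h) ^ (2 * m) *
      (2 ^ (4 * h + 2)) ^ m)
    (by
      intro x y hxy
      dsimp only
      gcongr)
    ((2 ^ g) ^ (m * (h / E))) rfl
    (fun P T ρ H hs hf => hCor (2 ^ g) h b p h (2 ^ h * h * b) m (Fin (2 ^ g)) P id T ρ H h2p
      hMp h1h hb hcm hs hf) T hT1 hT2 hT3 hT4 htn
  have hn1 : (1 : ℝ) < (n : ℝ) := by exact_mod_cast (by omega : 1 < n)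
  have hlog : 0 < Real.log n := Real.log_pos hn1
  have hN0 : (0 : ℝ) < (n : ℝ) ^ (γ * Real.log n) := Real.rpow_pos_of_pos (by linarith) _
  have hHpos : 0 < H.card := by
    rw [hHc]
    exact pow_pos (Nat.two_pow_pos g) _
  refine ⟨H, Finset.card_pos.mp hHpos, hHL, fun A hA hs => ?_⟩
  have h1 := hHP A hA
  rw [← hHc] at h1
  have hfin := A.fin
  have hne : Nonempty A.S := ⟨A.start⟩
  have hQpos : 0 < Nat.card A.S := Nat.card_pos
  obtain ⟨s, hsdef⟩ : ∃ s : ℕ, s = Nat.card A.S *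
    ((2 ^ h * h * b * 2 ^ g + 1) ^ J * (J + 1) + 1) := ⟨_, rfl⟩
  rw [← hsdef] at h1
  have hspos : 0 < s := by
    rw [hsdef]
    positivity
  have hsle : (s : ℝ) ≤ (n : ℝ) ^ (γ * Real.log n) := by
    have e1 : (n : ℝ) ^ (γ * Real.log n) =
        (n : ℝ) ^ (γ / 2 * Real.log n) * (n : ℝ) ^ (γ / 2 * Real.log n) := by
      rw [← Real.rpow_add (by linarith : (0 : ℝ) < (n : ℝ))]
      congr 1
      ring
    have e2 : (2 ^ h * h * b * 2 ^ g + 1) ^ J * (J + 1) + 1 ≤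
        ((2 ^ g + 1) ^ J * (J + 1) + 1) * n ^ J := by
      have e3 : 2 ^ h * h * b * 2 ^ g + 1 ≤ (2 ^ g + 1) * n := by
        have e4 : 2 ^ h * h * b * 2 ^ g ≤ n * 2 ^ g := Nat.mul_le_mul_right _ hNn
        have e5 : (2 ^ g + 1) * n = n * 2 ^ g + n := by ring
        omega
      have e6 : 1 ≤ n ^ J := Nat.one_le_pow _ _ (by omega)
      calc (2 ^ h * h * b * 2 ^ g + 1) ^ J * (J + 1) + 1
          ≤ ((2 ^ g + 1) * n) ^ J * (J + 1) + n ^ J :=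
            Nat.add_le_add (Nat.mul_le_mul_right _ (Nat.pow_le_pow_left e3 J)) e6
        _ = ((2 ^ g + 1) ^ J * (J + 1) + 1) * n ^ J := by
            rw [mul_pow]
            ring
    have e7 : (((2 ^ h * h * b * 2 ^ g + 1) ^ J * (J + 1) + 1 : ℕ) : ℝ) ≤
        (n : ℝ) ^ (γ / 2 * Real.log n) := by
      refine le_trans ?_ hpoly
      exact_mod_cast e2
    rw [e1, hsdef, Nat.cast_mul]
    exact mul_le_mul hs e7 (Nat.cast_nonneg _) (by positivity)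
  have hQ : 0 < 2 * s ^ C * 2 ^ (C + 1) * (2 ^ h) ^ (2 * m + 1) * (2 ^ h) ^ (2 * m) *
      (2 ^ (4 * h + 2)) ^ m := by positivity
  have h2 := hN p n hp2 hn2 hnD s hsle
  have h3 := FNB.arith (N := (n : ℝ) ^ (γ * Real.log n)) h1 hp.pos hQ
    (by push_cast; exact h2) hN0
  refine le_trans h3 ?_
  rw [Real.rpow_neg (by linarith : (0 : ℝ) ≤ (n : ℝ))]
  refine mul_le_mul_of_nonneg_right ?_ (Nat.cast_nonneg _)
  refine inv_anti₀ (Real.rpow_pos_of_pos (by linarith) _)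
    (Real.rpow_le_rpow_of_exponent_le hn1.le ?_)
  nlinarith [mul_pos hγ hlog]

end Pool.Agent.RLT
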