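import Pool.Agent.RLT.St7

/-!
# MP_5e85fc_lc, project RLT: the lower bound `n log n` for `LangB`
-/

set_option autoImplicit false

namespace Pool.Agent.RLT

open Pool.Agent.Heads

namespace LOB

/-- The natural logarithm and the logarithm to base two. -/
theorem log_le {m : ℕ} (hm : 2 ≤ m) : Real.log (m : ℝ) ≤ 2 * (Nat.log 2 m : ℝ) := by
  have h1 : m < 2 ^ (Nat.log 2 m + 1) := Nat.lt_pow_succ_log_self (by norm_num) m
  have h2 : 1 ≤ Nat.log 2 m := Nat.le_log_of_pow_le (by norm_num) (by simpa using hm)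
  have h3 : (m : ℝ) ≤ 2 ^ (Nat.log 2 m + 1) := by exact_mod_cast h1.le
  have hm0 : (0 : ℝ) < m := by
    have : 0 < m := by omega
    exact_mod_cast this
  have h4 := Real.log_le_log hm0 h3
  rw [Real.log_pow] at h4
  have h5 : Real.log 2 ≤ 1 := by
    have := Real.log_two_lt_d9
    linarith
  have h6 : (0 : ℝ) ≤ Real.log 2 := Real.log_nonneg (by norm_num)
  have h7 : (1 : ℝ) ≤ (Nat.log 2 m : ℝ) := by exact_mod_cast h2
  push_cast at h4
  nlinarith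

/-- The number of states in natural numbers. -/
theorem card_le {c : ℕ} {x : ℝ} (h : (c : ℝ) ≤ (2 : ℝ) ^ x) : c ≤ 2 ^ ⌈x⌉₊ := by
  have h1 : (2 : ℝ) ^ x ≤ (2 : ℝ) ^ ((⌈x⌉₊ : ℕ) : ℝ) :=
    Real.rpow_le_rpow_of_exponent_le (by norm_num) (Nat.le_ceil x)
  rw [Real.rpow_natCast] at h1
  exact_mod_cast h.trans h1

/-- The exponent of the number of states is small. -/
theorem small (k q : ℕ) (ε : ℝ) (hq : 2 ≤ q) (hqe : 2 ≤ q * ε) {n : ℕ}
    (hn : (k + 2) ^ q * 2 ^ (q - 1) ≤ n) (hn2 : 2 ≤ n) :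
    (⌈(n : ℝ) ^ (1 - ε)⌉₊ + k) ^ q ≤ (n - 1) ^ (q - 1) := by
  have hn1 : (1 : ℝ) ≤ n := by
    have : 1 ≤ n := by omega
    exact_mod_cast this
  have hn0 : (0 : ℝ) < n := by linarith
  set y : ℝ := max ((n : ℝ) ^ (1 - ε)) 1 with hy
  have hy1 : 1 ≤ y := le_max_right _ _
  have hs : ((⌈(n : ℝ) ^ (1 - ε)⌉₊ + k : ℕ) : ℝ) ≤ ((k + 2 : ℕ) : ℝ) * y := by
    push_cast
    have h1 : ((⌈(n : ℝ) ^ (1 - ε)⌉₊ : ℕ) : ℝ) < (n : ℝ) ^ (1 - ε) + 1 :=
      Nat.ceil_lt_add_one (Real.rpow_nonneg hn0.le _)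
    have h2 : (n : ℝ) ^ (1 - ε) ≤ y := le_max_left _ _
    have hk : (0 : ℝ) ≤ k := Nat.cast_nonneg k
    nlinarith
  have hyq : y ^ q ≤ (n : ℝ) ^ (q - 2) := by
    rcases le_total ((n : ℝ) ^ (1 - ε)) 1 with h | h
    · rw [hy, max_eq_right h, one_pow]
      exact one_le_pow₀ hn1
    · rw [hy, max_eq_left h, ← Real.rpow_natCast, ← Real.rpow_mul hn0.le,
        ← Real.rpow_natCast (n : ℝ) (q - 2)]
      refine Real.rpow_le_rpow_of_exponent_le hn1 ?_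
      rw [Nat.cast_sub hq]
      push_cast
      nlinarith
  have hnR : ((k + 2 : ℕ) : ℝ) ^ q * 2 ^ (q - 1) ≤ n := by exact_mod_cast hn
  have hfin : (((⌈(n : ℝ) ^ (1 - ε)⌉₊ + k : ℕ) : ℝ)) ^ q ≤ (((n - 1 : ℕ) : ℝ)) ^ (q - 1) := by
    have h1 : (((⌈(n : ℝ) ^ (1 - ε)⌉₊ + k : ℕ) : ℝ)) ^ q ≤ (((k + 2 : ℕ) : ℝ) * y) ^ q :=
      pow_le_pow_left₀ (Nat.cast_nonneg _) hs q
    have h2 : (((k + 2 : ℕ) : ℝ) * y) ^ q ≤ ((k + 2 : ℕ) : ℝ) ^ q * (n : ℝ) ^ (q - 2) := by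
      rw [mul_pow]
      exact mul_le_mul_of_nonneg_left hyq (by positivity)
    have h3 : ((k + 2 : ℕ) : ℝ) ^ q * (n : ℝ) ^ (q - 2) ≤ ((n : ℝ) / 2) ^ (q - 1) := by
      have e : q - 1 = (q - 2) + 1 := by omega
      have h4 : (n : ℝ) ^ (q - 1) = (n : ℝ) ^ (q - 2) * n := by rw [e, pow_succ]
      rw [div_pow, le_div_iff₀ (by positivity), h4]
      have h5 : (0 : ℝ) ≤ (n : ℝ) ^ (q - 2) := by positivity
      nlinarith
    have h6 : ((n : ℝ) / 2) ^ (q - 1) ≤ (((n - 1 : ℕ) : ℝ)) ^ (q - 1) := by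
      refine pow_le_pow_left₀ (by positivity) ?_ _
      rw [Nat.cast_sub (by omega)]
      have : (2 : ℝ) ≤ n := by exact_mod_cast hn2
      push_cast
      linarith
    exact h1.trans (h2.trans (h3.trans h6))
  exact_mod_cast hfin

end LOB

open LOB

theorem t_LOB (hD : S_DYK) (hM : S_MAP) (hS : S_SUF) : S_LOB := by
  intro k ε hk hε
  obtain ⟨q₀, hq₀⟩ := exists_nat_ge (2 / ε)
  set q : ℕ := max q₀ 2 with hqdef
  have hq2 : 2 ≤ q := le_max_right _ _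
  have hqe : 2 ≤ (q : ℝ) * ε := by
    have h1 : (2 / ε : ℝ) ≤ q := hq₀.trans (by exact_mod_cast le_max_left q₀ 2)
    rwa [div_le_iff₀ hε] at h1
  obtain ⟨n₀, hlb⟩ := Pool.Agent.Time.lower_bound k q hk (by omega)
  have hC : (0 : ℝ) < 8000 * q * (k * k) := by
    have h1 : (0 : ℝ) < q := by
      have : 0 < q := by omega
      exact_mod_cast this
    have h2 : (0 : ℝ) < k := by
      have : 0 < k := by omega
      exact_mod_cast this
    positivity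
  refine ⟨1 / (8000 * q * (k * k)), by positivity, ?_⟩
  filter_upwards [Filter.eventually_ge_atTop (max (n₀ + 1) (max 3 ((k + 2) ^ q * 2 ^ (q - 1))))]
    with n hn A hsound hcard
  have hn1 : n₀ + 1 ≤ n := (le_max_left _ _).trans hn
  have hn3 : 3 ≤ n := (le_max_left _ _).trans ((le_max_right _ _).trans hn)
  have hn4 : (k + 2) ^ q * 2 ^ (q - 1) ≤ n := (le_max_right _ _).trans ((le_max_right _ _).trans hn)
  have hsm := small k q ε hq2 hqe hn4 (by omega)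
  have hcN : Nat.card A.Q ≤ 2 ^ ⌈(n : ℝ) ^ (1 - ε)⌉₊ := card_le hcard
  have hn0 : (0 : ℝ) < n := by
    have : 0 < n := by omega
    exact_mod_cast this
  -- the last step, common to both cases
  have key : ∀ (m t : ℕ), n ≤ 2 * m → 2 ≤ m → n ≤ m * m → m * Nat.log 2 m ≤ 1000 * q * (k * k) * t →
      1 / (8000 * (q : ℝ) * (k * k)) * ((n : ℝ) * Real.log n) ≤ t := by
    intro m t h2m hm2 hmm hmt
    have hm0 : (0 : ℝ) < m := by
      have : 0 < m := by omega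
      exact_mod_cast this
    have hlm := log_le hm2
    have hln : Real.log n ≤ 2 * Real.log m := by
      have h1 : (n : ℝ) ≤ (m : ℝ) ^ 2 := by
        rw [pow_two]
        exact_mod_cast hmm
      have h2 := Real.log_le_log hn0 h1
      rw [Real.log_pow] at h2
      exact_mod_cast h2
    have h2mR : (n : ℝ) ≤ 2 * m := by exact_mod_cast h2m
    have hmtR : (m : ℝ) * (Nat.log 2 m : ℝ) ≤ 1000 * q * (k * k) * t := by exact_mod_cast hmt
    have hlogn : 0 ≤ Real.log n := Real.log_natCast_nonneg n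
    rw [one_div, inv_mul_le_iff₀ hC]
    have hL : (0 : ℝ) ≤ (Nat.log 2 m : ℝ) := Nat.cast_nonneg _
    have h3 : (n : ℝ) * Real.log n ≤ (2 * m) * (4 * (Nat.log 2 m : ℝ)) :=
      mul_le_mul h2mR (by linarith) hlogn (by positivity)
    nlinarith
  rcases Nat.even_or_odd n with hev | hodd
  · obtain ⟨A₁, hA₁c, hA₁⟩ := (hM _ _ (Sum.inr : Time.Br → LA ⊕ Time.Br) k).1 A
    have hs1 : (⌈(n : ℝ) ^ (1 - ε)⌉₊ + k) ^ q ≤ n ^ (q - 1) :=
      hsm.trans (Nat.pow_le_pow_left (by omega) _)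
    have hc1 : Nat.card A₁.Q ≤ 2 ^ (⌈(n : ℝ) ^ (1 - ε)⌉₊ + k) := by
      rw [hA₁c]
      exact hcN.trans (Nat.pow_le_pow_right (by norm_num) (by omega))
    obtain ⟨w, hwl, hwD, hwt⟩ := hlb n (by omega) hev A₁ _ hs1 hc1 (by
      intro w hw hacc
      have h1 : A.Accepts (w.map Sum.inr) := ((hA₁ w).1).1 hacc
      exact (hD.2.1 w).1 (hsound _ (by rw [List.length_map, hw]) h1))
    refine ⟨w.map Sum.inr, (hD.2.1 w).2 hwD, by rw [List.length_map, hwl], ?_⟩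
    intro t ht
    obtain ⟨i, hi, c, hc, hca⟩ := ((hA₁ w).2 t).2 ht
    refine key n t (by omega) (by omega) (Nat.le_mul_self n) ?_
    exact (hwt i c hc hca).trans (Nat.mul_le_mul_left _ hi)
  · obtain ⟨A₂, hA₂c, hA₂⟩ := hS _ k A (Sum.inl LA.pad)
    obtain ⟨A₁, hA₁c, hA₁⟩ := (hM _ _ (Sum.inr : Time.Br → LA ⊕ Time.Br) k).1 A₂
    have hc1 : Nat.card A₁.Q ≤ 2 ^ (⌈(n : ℝ) ^ (1 - ε)⌉₊ + k) := by
      rw [hA₁c, hA₂c, pow_add]
      exact Nat.mul_le_mul_right _ hcN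
    have hev : Even (n - 1) := by
      obtain ⟨r, hr⟩ := hodd
      exact ⟨r, by omega⟩
    obtain ⟨w, hwl, hwD, hwt⟩ := hlb (n - 1) (by omega) hev A₁ _ hsm hc1 (by
      intro w hw hacc
      have h1 : A₂.Accepts (w.map Sum.inr) := ((hA₁ w).1).1 hacc
      have h2 := ((hA₂ _).1).1 h1
      exact (hD.2.2 w).1 (hsound _ (by
        rw [List.length_append, List.length_map, hw, List.length_singleton]
        omega) h2))
    refine ⟨w.map Sum.inr ++ [Sum.inl LA.pad], (hD.2.2 w).2 hwD, by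
      rw [List.length_append, List.length_map, hwl, List.length_singleton]
      omega, ?_⟩
    intro t ht
    obtain ⟨i, hi, c, hc, hca⟩ := ((hA₁ w).2 t).2 (((hA₂ _).2 t).2 ht)
    refine key (n - 1) t (by omega) (by omega) ?_ ?_
    · obtain ⟨m, rfl⟩ : ∃ m, n = m + 3 := ⟨n - 3, by omega⟩
      have : m + 3 - 1 = m + 2 := by omega
      rw [this]
      nlinarith
    · exact (hwt i c hc hca).trans (Nat.mul_le_mul_left _ hi)

end Pool.Agent.RLT
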