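import Pool.Agent.RLT.St7

/-!
# MP_5e85fc_lc, project RLT: renaming of letters (S_MAP)
-/

set_option autoImplicit false

namespace Pool.Agent.RLT

open Pool.Agent.Heads

namespace MAP

/-- Renaming of a scanned symbol. -/
def sm {α β : Type} (φ : α → β) : Sym α → Sym β
  | Sym.left => Sym.left
  | Sym.letter a => Sym.letter (φ a)
  | Sym.right => Sym.right

theorem tape_map {α β : Type} (φ : α → β) (w : List α) (p : ℕ) :
    tape (w.map φ) p = sm φ (tape w p) := by
  cases p with
  | zero => rfl
  | succ p =>
    simp only [tape, List.getElem?_map]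
    cases w[p]? with
    | none => rfl
    | some a => rfl

/-- The renamed automaton. -/
def fa {α β : Type} (φ : α → β) {k : ℕ} (A : FA β k) : FA α k where
  Q := A.Q
  finQ := A.finQ
  start := A.start
  accept := A.accept
  δ q x := A.δ q (fun j => sm φ (x j))

theorem fa_step {α β : Type} (φ : α → β) {k : ℕ} (A : FA β k) (w : List α) :
    (fa φ A).Step w = A.Step (w.map φ) := by
  funext c c'
  simp only [FA.Step, tape_map, List.length_map]
  rfl

/-- The renamed machine. -/
def mc {α β : Type} (φ : α → β) {k : ℕ} (P : Machine β k) : Machine α k where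
  S := P.S
  fin := P.fin
  start := P.start
  accept := P.accept
  pos := P.pos
  step s x := P.step s (fun j => sm φ (x j))

theorem mc_reach1 {α β : Type} (φ : α → β) {k : ℕ} (P : Machine β k) (w : List α)
    {i r : ℕ} {s : (mc φ P).S} (h : (mc φ P).Reach w i r s) :
    Machine.Reach P (w.map φ) i r s := by
  induction h with
  | start => exact Machine.Reach.start (P := P) (w := w.map φ)
  | move _ hs hp ih =>
    refine Machine.Reach.move ih ?_ hp
    simp only [tape_map]
    exact hs
  | jump _ hs ih =>
    refine Machine.Reach.jump ih ?_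
    simp only [tape_map]
    exact hs

theorem mc_reach2 {α β : Type} (φ : α → β) {k : ℕ} (P : Machine β k) (w : List α)
    {i r : ℕ} {s : P.S} (h : P.Reach (w.map φ) i r s) : (mc φ P).Reach w i r s := by
  induction h with
  | start => exact Machine.Reach.start (P := mc φ P) (w := w)
  | move _ hs hp ih =>
    simp only [tape_map] at hs
    exact Machine.Reach.move ih hs hp
  | jump _ hs ih =>
    simp only [tape_map] at hs
    exact Machine.Reach.jump ih hs

theorem mc_acceptsIn {α β : Type} (φ : α → β) {k : ℕ} (P : Machine β k) (w : List α) (t r : ℕ) :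
    (mc φ P).AcceptsIn w t r ↔ P.AcceptsIn (w.map φ) t r := by
  constructor
  · rintro ⟨i, hi, m, hm, s, hs, h⟩
    exact ⟨i, hi, m, hm, s, hs, mc_reach1 φ P w h⟩
  · rintro ⟨i, hi, m, hm, s, hs, h⟩
    exact ⟨i, hi, m, hm, s, hs, mc_reach2 φ P w h⟩

end MAP

open MAP in
theorem t_MAP : S_MAP := by
  intro α β φ k
  refine ⟨fun A => ⟨fa φ A, rfl, fun w => ⟨?_, fun t => ?_⟩⟩,
    fun P => ⟨mc φ P, rfl, fun w => ⟨?_, fun t r => mc_acceptsIn φ P w t r⟩⟩⟩
  · unfold FA.Accepts
    rw [fa_step]
    rfl
  · unfold AcceptsIn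
    rw [fa_step]
    rfl
  · unfold Machine.Accepts
    simp only [mc_acceptsIn]

end Pool.Agent.RLT
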