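import Pool.Agent.RLT.St7

/-!
# MP_5e85fc_lc, project RLT: one more letter at the end of the word
-/

set_option autoImplicit false

namespace Pool.Agent.RLT

open Pool.Agent.Heads

namespace SUF

lemma rtg_iff {A : Type} (S : A → A → Prop) (a b : A) :
    Relation.ReflTransGen S a b ↔ ∃ t, ReachN S a t b := by
  constructor
  · intro h
    induction h with
    | refl => exact ⟨0, ReachN.zero⟩
    | tail _ hs ih =>
      obtain ⟨t, ht⟩ := ih
      exact ⟨t + 1, ReachN.succ ht hs⟩
  · rintro ⟨t, h⟩
    induction h with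
    | zero => exact Relation.ReflTransGen.refl
    | succ _ hs ih => exact Relation.ReflTransGen.tail ih hs

/-- the symbol seen by the automaton on the longer word -/
def sA {α : Type} (a : α) (fl : Bool) : Sym α → Sym α
  | Sym.left => Sym.left
  | Sym.letter b => Sym.letter b
  | Sym.right => if fl then Sym.right else Sym.letter a

/-- new flag and direction on the shorter word -/
def upd {α : Type} (fl : Bool) : Sym α → Dir → Bool × Dir
  | Sym.left, d => (false, d)
  | Sym.letter _, d => (false, d)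
  | Sym.right, d =>
    match fl, d with
    | false, Dir.L => (false, Dir.L)
    | false, Dir.S => (false, Dir.S)
    | false, Dir.R => (true, Dir.S)
    | true, Dir.L => (false, Dir.S)
    | true, Dir.S => (true, Dir.S)
    | true, Dir.R => (true, Dir.S)

/-- the position on the longer word -/
def ps (m : ℕ) (fl : Bool) (p : ℕ) : ℕ := if fl then m + 2 else p

lemma tape_right {α : Type} (w : List α) : tape w (w.length + 1) = Sym.right := by
  have h : w[w.length]? = none := by simp
  unfold tape
  simp [h]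

lemma tape_ne {α : Type} (w : List α) {p : ℕ} (hp : p ≤ w.length) (a : α) :
    tape (w ++ [a]) p = tape w p ∧ (tape w p = Sym.left ∨ ∃ b, tape w p = Sym.letter b) := by
  cases p with
  | zero => exact ⟨rfl, Or.inl rfl⟩
  | succ p =>
    have h1 : p < w.length := by omega
    have h2 : w[p]? = some w[p] := List.getElem?_eq_getElem h1
    have h3 : (w ++ [a])[p]? = some w[p] := by
      rw [List.getElem?_append_left h1, h2]
    constructor
    · simp only [tape, h2, h3]
    · right
      exact ⟨w[p], by simp only [tape, h2]⟩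

lemma tape_last {α : Type} (w : List α) (a : α) :
    tape (w ++ [a]) (w.length + 1) = Sym.letter a := by
  have h : (w ++ [a])[w.length]? = some a := by simp
  simp only [tape, h]

lemma tape_end {α : Type} (w : List α) (a : α) :
    tape (w ++ [a]) (w.length + 2) = Sym.right := by
  have h : (w ++ [a]).length + 1 = w.length + 2 := by simp
  rw [← h]
  exact tape_right _

/-- one head -/
lemma head {α : Type} (w : List α) (a : α) (fl : Bool) (p : ℕ) (hp : p ≤ w.length + 1)
    (hf : fl = true → p = w.length + 1) (d : Dir) :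
    tape (w ++ [a]) (ps w.length fl p) = sA a fl (tape w p) ∧
    move (w.length + 2) (ps w.length fl p) d =
      ps w.length (upd fl (tape w p) d).1 (move (w.length + 1) p (upd fl (tape w p) d).2) ∧
    move (w.length + 1) p (upd fl (tape w p) d).2 ≤ w.length + 1 ∧
    ((upd fl (tape w p) d).1 = true →
      move (w.length + 1) p (upd fl (tape w p) d).2 = w.length + 1) := by
  rcases Nat.lt_or_ge w.length p with h | h
  · have hp' : p = w.length + 1 := by omega
    subst hp'
    rw [tape_right]
    cases fl with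
    | false =>
      refine ⟨by simpa [ps, sA] using tape_last w a, ?_⟩
      cases d <;> simp [upd, ps, move]
    | true =>
      refine ⟨by simpa [ps, sA] using tape_end w a, ?_⟩
      cases d <;> simp [upd, ps, move]
  · have hfl : fl = false := by
      cases fl with
      | false => rfl
      | true => have := hf rfl; omega
    subst hfl
    obtain ⟨h1, h2⟩ := tape_ne w h a
    have h3 : sA a false (tape w p) = tape w p := by
      rcases h2 with h2 | ⟨b, h2⟩ <;> rw [h2] <;> rfl
    have h4 : upd false (tape w p) d = (false, d) := by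
      rcases h2 with h2 | ⟨b, h2⟩ <;> rw [h2] <;> rfl
    rw [h3, h4]
    refine ⟨by simpa [ps] using h1, ?_, ?_, by simp⟩
    · cases d
      · simp [ps, move]
      · simp [ps, move]
      · simp only [ps, move]
        simp
        omega
    · cases d
      · simp only [move]; omega
      · simp only [move]; omega
      · simp only [move]; omega

/-- the automaton for the shorter word -/
def mk {α : Type} {k : ℕ} (A : FA α k) (a : α) : FA α k where
  Q := A.Q × (Fin k → Bool)
  finQ := by
    have := A.finQ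
    infer_instance
  start := (A.start, fun _ => false)
  accept := {x | x.1 ∈ A.accept}
  δ := fun q x => {y | ∃ t ∈ A.δ q.1 (fun j => sA a (q.2 j) (x j)),
    y = ((t.1, fun j => (upd (q.2 j) (x j) (t.2 j)).1), fun j => (upd (q.2 j) (x j) (t.2 j)).2)}

/-- the configuration on the longer word -/
def emb {α : Type} {k : ℕ} (A : FA α k) (a : α) (m : ℕ) (c : (mk A a).Q × (Fin k → ℕ)) :
    A.Q × (Fin k → ℕ) := (c.1.1, fun j => ps m (c.1.2 j) (c.2 j))

/-- admissible configurations -/
def ok {α : Type} {k : ℕ} (A : FA α k) (a : α) (m : ℕ) (c : (mk A a).Q × (Fin k → ℕ)) : Prop :=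
  ∀ j, c.2 j ≤ m + 1 ∧ (c.1.2 j = true → c.2 j = m + 1)

variable {α : Type} {k : ℕ} (A : FA α k) (a : α) (w : List α)

lemma fwd (c c' : (mk A a).Q × (Fin k → ℕ)) (hc : ok A a w.length c)
    (h : (mk A a).Step w c c') :
    A.Step (w ++ [a]) (emb A a w.length c) (emb A a w.length c') ∧ ok A a w.length c' := by
  obtain ⟨y, ⟨t, ht, rfl⟩, rfl⟩ := h
  have hl : (w ++ [a]).length + 1 = w.length + 2 := by simp
  refine ⟨⟨t, ?_, ?_⟩, ?_⟩
  · have e : (fun j => tape (w ++ [a]) ((emb A a w.length c).2 j)) =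
        fun j => sA a (c.1.2 j) (tape w (c.2 j)) := by
      funext j
      exact (head w a (c.1.2 j) (c.2 j) (hc j).1 (hc j).2 Dir.S).1
    rw [e]
    exact ht
  · refine Prod.ext rfl ?_
    funext j
    show ps w.length _ _ = move ((w ++ [a]).length + 1) (ps w.length (c.1.2 j) (c.2 j)) (t.2 j)
    rw [hl]
    exact (head w a (c.1.2 j) (c.2 j) (hc j).1 (hc j).2 (t.2 j)).2.1.symm
  · intro j
    exact (head w a (c.1.2 j) (c.2 j) (hc j).1 (hc j).2 (t.2 j)).2.2

lemma bwd (c : (mk A a).Q × (Fin k → ℕ)) (hc : ok A a w.length c) (d : A.Q × (Fin k → ℕ))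
    (h : A.Step (w ++ [a]) (emb A a w.length c) d) :
    ∃ c', (mk A a).Step w c c' ∧ emb A a w.length c' = d ∧ ok A a w.length c' := by
  obtain ⟨t, ht, rfl⟩ := h
  have hl : (w ++ [a]).length + 1 = w.length + 2 := by simp
  have e : (fun j => tape (w ++ [a]) ((emb A a w.length c).2 j)) =
      fun j => sA a (c.1.2 j) (tape w (c.2 j)) := by
    funext j
    exact (head w a (c.1.2 j) (c.2 j) (hc j).1 (hc j).2 Dir.S).1
  rw [e] at ht
  refine ⟨((t.1, fun j => (upd (c.1.2 j) (tape w (c.2 j)) (t.2 j)).1), fun j =>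
    move (w.length + 1) (c.2 j) (upd (c.1.2 j) (tape w (c.2 j)) (t.2 j)).2),
    ⟨_, ⟨t, ht, rfl⟩, rfl⟩, ?_, ?_⟩
  · refine Prod.ext rfl ?_
    funext j
    show ps w.length _ _ = move ((w ++ [a]).length + 1) (ps w.length (c.1.2 j) (c.2 j)) (t.2 j)
    rw [hl]
    exact (head w a (c.1.2 j) (c.2 j) (hc j).1 (hc j).2 (t.2 j)).2.1.symm
  · intro j
    exact (head w a (c.1.2 j) (c.2 j) (hc j).1 (hc j).2 (t.2 j)).2.2

lemma ok0 : ok A a w.length ((mk A a).start, fun _ => 0) := fun j =>
  ⟨Nat.zero_le _, fun h => by simp [mk] at h⟩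

lemma reach_fwd (t : ℕ) (c : (mk A a).Q × (Fin k → ℕ))
    (h : ReachN ((mk A a).Step w) ((mk A a).start, fun _ => 0) t c) :
    ReachN (A.Step (w ++ [a])) (A.start, fun _ => 0) t (emb A a w.length c) ∧
      ok A a w.length c := by
  induction h with
  | zero => exact ⟨ReachN.zero, ok0 A a w⟩
  | succ _ hs ih =>
    obtain ⟨h1, h2⟩ := fwd A a w _ _ ih.2 hs
    exact ⟨ReachN.succ ih.1 h1, h2⟩

lemma reach_bwd (t : ℕ) (d : A.Q × (Fin k → ℕ))
    (h : ReachN (A.Step (w ++ [a])) (A.start, fun _ => 0) t d) :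
    ∃ c, ReachN ((mk A a).Step w) ((mk A a).start, fun _ => 0) t c ∧
      emb A a w.length c = d ∧ ok A a w.length c := by
  induction h with
  | zero => exact ⟨_, ReachN.zero, rfl, ok0 A a w⟩
  | succ _ hs ih =>
    obtain ⟨c, hc, rfl, hok⟩ := ih
    obtain ⟨c', h1, h2, h3⟩ := bwd A a w c hok _ hs
    exact ⟨c', ReachN.succ hc h1, h2, h3⟩

end SUF

theorem t_SUF : S_SUF := by
  intro α k A a
  have := A.finQ
  refine ⟨SUF.mk A a, ?_, fun w => ⟨?_, fun t => ?_⟩⟩
  · show Nat.card (A.Q × (Fin k → Bool)) = _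
    rw [Nat.card_prod]
    congr 1
    simp
  · constructor
    · rintro ⟨c, hr, hc⟩
      obtain ⟨t, ht⟩ := (SUF.rtg_iff _ _ _).1 hr
      exact ⟨_, (SUF.rtg_iff _ _ _).2 ⟨t, (SUF.reach_fwd A a w t c ht).1⟩, hc⟩
    · rintro ⟨d, hr, hd⟩
      obtain ⟨t, ht⟩ := (SUF.rtg_iff _ _ _).1 hr
      obtain ⟨c, h1, rfl, _⟩ := SUF.reach_bwd A a w t d ht
      exact ⟨c, (SUF.rtg_iff _ _ _).2 ⟨t, h1⟩, hd⟩
  · constructor
    · rintro ⟨i, hi, c, hr, hc⟩
      exact ⟨i, hi, _, (SUF.reach_fwd A a w i c hr).1, hc⟩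
    · rintro ⟨i, hi, d, hr, hd⟩
      obtain ⟨c, h1, rfl, _⟩ := SUF.reach_bwd A a w i d hr
      exact ⟨i, hi, c, h1, hd⟩

end Pool.Agent.RLT
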