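import Pool.Agent.RLT.Core
import Pool.Agent.RLT.FNV
import Pool.Agent.RLT.LBA
import Pool.Agent.RLT.LOB
import Pool.Agent.RLT.DYK
import Pool.Agent.RLT.MAP
import Pool.Agent.RLT.SUF
import Pool.Agent.RLT.RTP
import Pool.Agent.RLT.LEA
import Pool.Agent.RLT.LNA
import Pool.Agent.RLT.WRA
import Pool.Agent.RLT.SIMJ
import Pool.Agent.RLT.NUM
import Pool.Agent.RLT.PRA
import Pool.Agent.RLT.UPJ
import Pool.Agent.RLT.UPK

set_option autoImplicit false

namespace Pool.Agent.RLT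

theorem finV : FinalV :=
  t_FNV t_RTP t_DYK t_MAP (t_LOB t_DYK t_MAP t_SUF)
    (t_LBA t_LEA (t_LNA t_WRA) t_SIMJ cor t_NUM t_PRA) (t_UPK t_UPJ)

end Pool.Agent.RLT
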