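import Pool.Agent.RLT.St3

/-!
# MP_5e85fc_lc, project RLT: the inequality (module INE)
-/

set_option autoImplicit false

namespace Pool.Agent.RLT

namespace INE

theorem lfN_eq {M κ : ℕ} (d : Fin κ → Fin M) : lfN d = (finFunctionFinEquiv d : Fin (M ^ κ)) :=
  (finFunctionFinEquiv_apply d).symm

theorem lfN_lt {M κ : ℕ} (d : Fin κ → Fin M) : lfN d < M ^ κ := by
  rw [lfN_eq]
  exact (finFunctionFinEquiv d).2

theorem lfN_inj {M κ : ℕ} {d d' : Fin κ → Fin M} (h : lfN d = lfN d') : d = d' := by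
  rw [lfN_eq, lfN_eq] at h
  exact finFunctionFinEquiv.injective (Fin.ext h)

theorem arith {G X Y A Q P2 Z : ℕ} (hX : 0 < X) (hY : 0 < Y) (h1 : X ≤ P2 * G)
    (h2 : G * (Y * Y) ≤ A * X * (Q * Y)) (hZ : P2 * A * Q = Z) : Y ≤ Z := by
  have h3 : Y * (X * Y) ≤ Z * (X * Y) := by
    calc Y * (X * Y) = X * (Y * Y) := by ring
      _ ≤ P2 * G * (Y * Y) := Nat.mul_le_mul_right _ h1
      _ = P2 * (G * (Y * Y)) := by ring
      _ ≤ P2 * (A * X * (Q * Y)) := Nat.mul_le_mul_left _ h2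
      _ = Z * (X * Y) := by rw [← hZ]; ring
  exact Nat.le_of_mul_le_mul_right h3 (Nat.mul_pos hX hY)

end INE

open INE in
theorem t_INE (hCNT : S_CNT) (hDES : S_DES) (hLNG : S_LNG) (hLEN : S_LEN) : S_INE := by
  intro k
  obtain ⟨C, c, E, hc, hE, hmain⟩ := hCNT (32 * k + 1) (by omega)
  refine ⟨C, c, E, hc, hE, ?_⟩
  intro M κ b p h n m _ _ hp2 hMp hκ hb hcm hlen hn P hP
  have hM : 1 ≤ M := NeZero.one_le
  have hp : p.Prime := Fact.out
  obtain ⟨T, hT⟩ := hLNG M κ b p h n hMp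
    (le_trans (Nat.add_le_add_right (hLEN M κ b p h [] hM hp.one_le) p) hlen)
  have : NeZero p := ⟨hp.ne_zero⟩
  let V : ((Fin h → Bool) × Fin κ → Fin M) → ZMod p := fun d =>
    val h (fun w => ((lfN (fun j => d (adr h w, j)) : ℕ) : ZMod p))
  let rt : ((Fin h → Bool) × Fin κ → Fin M) → Fin p := fun d => ⟨(V d).val, ZMod.val_lt _⟩
  have hrt : ∀ d r, rt d = r ↔ V d = ((r : ℕ) : ZMod p) := by
    intro d r
    constructor
    · intro e
      rw [← e]
      show V d = (((V d).val : ℕ) : ZMod p)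
      rw [ZMod.natCast_zmod_val]
    · intro e
      apply Fin.ext
      show (V d).val = _
      rw [e, ZMod.val_natCast_of_lt r.2]
  obtain ⟨tmp, s, r, G, hG, hG1, hG2⟩ := hDES (Lt M) n M h κ b p k P (Lang M) Lt.dig T rt hb hn hP
    (fun r x => (hT r x).trans (hrt (fun v => ∑ i, x (v, i)) r).symm)
  have hneq : (2 : ZMod p) ≠ 0 := by
    intro h0
    have h1 : ((2 : ℕ) : ZMod p) = 0 := by exact_mod_cast h0
    rw [ZMod.natCast_eq_zero_iff] at h1
    exact absurd (Nat.le_of_dvd two_pos h1) (by omega)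
  have h2 := hmain (ZMod p) hneq (Lt M) n M h κ m P (Lang M) Lt.dig tmp
    (fun v d => ((lfN (fun j => d j + s (v, j)) : ℕ) : ZMod p)) ((r : ℕ) : ZMod p) G hκ hcm
    (fun v d d' he => by
      have h3 : ((lfN (fun j => d j + s (v, j)) : ℕ) : ZMod p) =
        ((lfN (fun j => d' j + s (v, j)) : ℕ) : ZMod p) := he
      have h4 := congrArg ZMod.val h3
      rw [ZMod.val_natCast_of_lt (lt_of_lt_of_le (lfN_lt _) hMp),
        ZMod.val_natCast_of_lt (lt_of_lt_of_le (lfN_lt _) hMp)] at h4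
      funext j
      exact add_right_cancel (congrFun (lfN_inj h4) j))
    (fun x hx => (hrt (fun v => x v + s v) r).1 ((hG1 x).1 hx))
    (fun y k s hs ha => (hP y).1 k s hs ha)
    (fun x hx => by
      obtain ⟨τ, σ, lab, h3, h4, h5⟩ := hG2 x hx
      refine ⟨τ, σ, lab, h3, h4, ?_⟩
      calc _ ≤ 8 * (4 * k * (2 ^ h * κ)) := Nat.mul_le_mul_left _ h5
        _ = 32 * k * (2 ^ h * κ) := by ring
        _ ≤ _ := Nat.mul_le_mul_right _ (by omega))
  have e1 : M ^ (2 * m * (κ / E)) = M ^ (m * (κ / E)) * M ^ (m * (κ / E)) := by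
    rw [← pow_add]
    congr 1
    ring
  have e2 : (2 ^ (4 * h + 2) * M ^ (κ / E)) ^ m = (2 ^ (4 * h + 2)) ^ m * M ^ (m * (κ / E)) := by
    rw [mul_pow, ← pow_mul M, mul_comm (κ / E)]
  rw [e1, e2] at h2
  exact arith (pow_pos hM _) (pow_pos hM _) hG h2 (by ring)

end Pool.Agent.RLT
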