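import Pool.Agent.RLT.St2

/-!
# RLT, RND: the random colours
-/

set_option autoImplicit false

namespace Pool.Agent.RLT

namespace RND

open Finset

/-- the number of the colourings with given values on two small disjoint sets -/
theorem count {W : ℕ} (q : ℕ) (P Q : Finset (Fin W)) (hP : P.card ≤ q) (hQ : Q.card ≤ q)
    (hd : Disjoint P Q) :
    2 ^ W ≤ 4 ^ q * (univ.filter (fun β : Fin W → Bool =>
      (∀ w ∈ P, β w = true) ∧ (∀ w ∈ Q, β w = false))).card := by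
  classical
  set s : Fin W → Finset Bool := fun w => if w ∈ P then {true} else if w ∈ Q then {false} else univ
    with hs
  have h1 : (Fintype.piFinset s).card ≤ (univ.filter (fun β : Fin W → Bool =>
      (∀ w ∈ P, β w = true) ∧ (∀ w ∈ Q, β w = false))).card := by
    refine card_le_card fun β hβ => ?_
    rw [Fintype.mem_piFinset] at hβ
    refine mem_filter.2 ⟨mem_univ _, fun w hw => ?_, fun w hw => ?_⟩
    · have := hβ w
      simp only [hs, if_pos hw, mem_singleton] at this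
      exact this
    · have := hβ w
      have hn : w ∉ P := fun h => disjoint_left.1 hd h hw
      simp only [hs, if_neg hn, if_pos hw, mem_singleton] at this
      exact this
  have h2 : (Fintype.piFinset s).card = ∏ w, (s w).card := Fintype.card_piFinset s
  have h3 : ∀ w, (s w).card * (if w ∈ P ∪ Q then 2 else 1) = 2 := by
    intro w
    by_cases h : w ∈ P
    · simp [hs, h]
    · by_cases h' : w ∈ Q
      · simp [hs, h, h']
      · simp [hs, h, h']
  have h4 : (∏ w, (s w).card) * (∏ w : Fin W, (if w ∈ P ∪ Q then 2 else 1)) = 2 ^ W := by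
    rw [← prod_mul_distrib, prod_congr rfl fun w _ => h3 w, prod_const, card_univ, Fintype.card_fin]
  have h5 : (∏ w : Fin W, (if w ∈ P ∪ Q then 2 else 1)) = 2 ^ (P ∪ Q).card := by
    rw [prod_ite_mem, univ_inter, prod_const]
  have h6 : 2 ^ (P ∪ Q).card ≤ 4 ^ q := by
    have h7 : (P ∪ Q).card ≤ 2 * q := (card_union_le P Q).trans (by omega)
    calc 2 ^ (P ∪ Q).card ≤ 2 ^ (2 * q) := Nat.pow_le_pow_right (by norm_num) h7
      _ = 4 ^ q := by rw [pow_mul]; norm_num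
  calc 2 ^ W = (∏ w, (s w).card) * 2 ^ (P ∪ Q).card := by rw [← h4, h5]
    _ ≤ (∏ w, (s w).card) * 4 ^ q := Nat.mul_le_mul_left _ h6
    _ = 4 ^ q * (Fintype.piFinset s).card := by rw [h2, mul_comm]
    _ ≤ _ := Nat.mul_le_mul_left _ h1

/-- the number of the disjoint pairs -/
theorem pairs {ι : Type} [DecidableEq ι] {W : ℕ} (q κ' : ℕ) (GA GB : Finset ι)
    (wA wB : ι → Finset (Fin W)) (hq : 1 ≤ q)
    (hA : 3 * κ' ≤ 4 * GA.card ∧ GA.card ≤ κ') (hB : 3 * κ' ≤ 4 * GB.card ∧ GB.card ≤ κ')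
    (hwA : ∀ a ∈ GA, (wA a).card ≤ q)
    (hs : ∀ w, 16 * q * (GB.filter (fun a => w ∈ wB a)).card ≤ κ') :
    κ' ^ 2 ≤ 2 * ((GA ×ˢ GB).filter (fun x => Disjoint (wA x.1) (wB x.2))).card := by
  classical
  have h1 : ((GA ×ˢ GB).filter (fun x => Disjoint (wA x.1) (wB x.2))).card +
      ((GA ×ˢ GB).filter (fun x => ¬ Disjoint (wA x.1) (wB x.2))).card = GA.card * GB.card := by
    rw [card_filter_add_card_filter_not, card_product]
  have h2 : 16 * q * ((GA ×ˢ GB).filter (fun x => ¬ Disjoint (wA x.1) (wB x.2))).card ≤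
      q * κ' ^ 2 := by
    have h3 : ((GA ×ˢ GB).filter (fun x => ¬ Disjoint (wA x.1) (wB x.2))) ⊆
        GA.biUnion fun a => (wA a).biUnion fun w => (GB.filter (fun a' => w ∈ wB a')).image
          fun a' => (a, a') := by
      rintro ⟨a, a'⟩ hx
      obtain ⟨hx1, hx2⟩ := mem_filter.1 hx
      obtain ⟨ha, ha'⟩ := mem_product.1 hx1
      obtain ⟨w, hw1, hw2⟩ := not_disjoint_iff.1 hx2
      exact mem_biUnion.2 ⟨a, ha, mem_biUnion.2 ⟨w, hw1, mem_image.2 ⟨a',
        mem_filter.2 ⟨ha', hw2⟩, rfl⟩⟩⟩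
    have h4 : ((GA ×ˢ GB).filter (fun x => ¬ Disjoint (wA x.1) (wB x.2))).card ≤
        ∑ a ∈ GA, ∑ w ∈ wA a, (GB.filter (fun a' => w ∈ wB a')).card := by
      refine (card_le_card h3).trans (card_biUnion_le.trans (sum_le_sum fun a _ => ?_))
      refine card_biUnion_le.trans (sum_le_sum fun w _ => card_image_le)
    have h5 : 16 * q * ∑ a ∈ GA, ∑ w ∈ wA a, (GB.filter (fun a' => w ∈ wB a')).card ≤
        ∑ a ∈ GA, q * κ' := by
      rw [mul_sum]
      refine sum_le_sum fun a ha => ?_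
      rw [mul_sum]
      calc ∑ w ∈ wA a, 16 * q * (GB.filter (fun a' => w ∈ wB a')).card
          ≤ ∑ w ∈ wA a, κ' := sum_le_sum fun w _ => hs w
        _ = (wA a).card * κ' := by rw [sum_const, smul_eq_mul]
        _ ≤ q * κ' := Nat.mul_le_mul_right _ (hwA a ha)
    calc _ ≤ 16 * q * ∑ a ∈ GA, ∑ w ∈ wA a, (GB.filter (fun a' => w ∈ wB a')).card :=
          Nat.mul_le_mul_left _ h4
      _ ≤ ∑ a ∈ GA, q * κ' := h5
      _ = GA.card * (q * κ') := by rw [sum_const, smul_eq_mul]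
      _ ≤ κ' * (q * κ') := Nat.mul_le_mul_right _ hA.2
      _ = q * κ' ^ 2 := by ring
  have h6 : 16 * ((GA ×ˢ GB).filter (fun x => ¬ Disjoint (wA x.1) (wB x.2))).card ≤ κ' ^ 2 := by
    have h7 : q * (16 * ((GA ×ˢ GB).filter (fun x => ¬ Disjoint (wA x.1) (wB x.2))).card) ≤
        q * κ' ^ 2 := by
      calc _ = 16 * q * ((GA ×ˢ GB).filter (fun x => ¬ Disjoint (wA x.1) (wB x.2))).card := by ring
        _ ≤ _ := h2
    exact Nat.le_of_mul_le_mul_left h7 (by omega)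
  have h8 : 9 * κ' ^ 2 ≤ 16 * (GA.card * GB.card) := by
    calc 9 * κ' ^ 2 = (3 * κ') * (3 * κ') := by ring
      _ ≤ (4 * GA.card) * (4 * GB.card) := Nat.mul_le_mul hA.1 hB.1
      _ = 16 * (GA.card * GB.card) := by ring
  rw [← h1] at h8
  omega

/-- the average of the products -/
theorem avg {ι : Type} [DecidableEq ι] {W : ℕ} (q κ' : ℕ) (GA GB : Finset ι)
    (wA wB : ι → Finset (Fin W)) (hq : 1 ≤ q)
    (hA : 3 * κ' ≤ 4 * GA.card ∧ GA.card ≤ κ') (hB : 3 * κ' ≤ 4 * GB.card ∧ GB.card ≤ κ')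
    (hwA : ∀ a ∈ GA, (wA a).card ≤ q) (hwB : ∀ a ∈ GB, (wB a).card ≤ q)
    (hs : ∀ w, 16 * q * (GB.filter (fun a => w ∈ wB a)).card ≤ κ') :
    2 ^ W * κ' ^ 2 ≤ 2 * 4 ^ q * ∑ β : Fin W → Bool,
      (GA.filter (fun a => ∀ w ∈ wA a, β w = true)).card *
        (GB.filter (fun a => ∀ w ∈ wB a, β w = false)).card := by
  classical
  have h1 : ∀ β : Fin W → Bool, (GA.filter (fun a => ∀ w ∈ wA a, β w = true)).card *
        (GB.filter (fun a => ∀ w ∈ wB a, β w = false)).card =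
      ∑ x ∈ GA ×ˢ GB, if (∀ w ∈ wA x.1, β w = true) ∧ (∀ w ∈ wB x.2, β w = false) then 1 else 0 := by
    intro β
    rw [← card_product, ← filter_product, card_filter]
  simp only [h1]
  rw [sum_comm]
  have h2 : ∀ x : ι × ι, ∑ β : Fin W → Bool,
      (if (∀ w ∈ wA x.1, β w = true) ∧ (∀ w ∈ wB x.2, β w = false) then 1 else 0) =
      (univ.filter (fun β : Fin W → Bool =>
        (∀ w ∈ wA x.1, β w = true) ∧ (∀ w ∈ wB x.2, β w = false))).card := by
    intro x
    rw [card_filter]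
  simp only [h2]
  have h3 : ((GA ×ˢ GB).filter (fun x => Disjoint (wA x.1) (wB x.2))).card * 2 ^ W ≤
      4 ^ q * ∑ x ∈ GA ×ˢ GB, (univ.filter (fun β : Fin W → Bool =>
        (∀ w ∈ wA x.1, β w = true) ∧ (∀ w ∈ wB x.2, β w = false))).card := by
    rw [mul_sum, ← smul_eq_mul, ← sum_const]
    refine (sum_le_sum fun x hx => ?_).trans (sum_le_sum_of_subset (filter_subset
      (fun x : ι × ι => Disjoint (wA x.1) (wB x.2)) _))
    obtain ⟨hx1, hx2⟩ := mem_filter.1 hx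
    obtain ⟨ha, ha'⟩ := mem_product.1 hx1
    exact count q _ _ (hwA _ ha) (hwB _ ha') hx2
  have h4 := pairs q κ' GA GB wA wB hq hA hB hwA hs
  calc 2 ^ W * κ' ^ 2 ≤ 2 ^ W *
        (2 * ((GA ×ˢ GB).filter (fun x => Disjoint (wA x.1) (wB x.2))).card) :=
          Nat.mul_le_mul_left _ h4
    _ = 2 * (((GA ×ˢ GB).filter (fun x => Disjoint (wA x.1) (wB x.2))).card * 2 ^ W) := by ring
    _ ≤ 2 * (4 ^ q * ∑ x ∈ GA ×ˢ GB, (univ.filter (fun β : Fin W → Bool =>
        (∀ w ∈ wA x.1, β w = true) ∧ (∀ w ∈ wB x.2, β w = false))).card) :=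
          Nat.mul_le_mul_left _ h3
    _ = _ := by ring

end RND

open Finset in
theorem t_RND : S_RND := by
  classical
  intro q m W κ' ι _ GA GB wA wB hq hκ hA hB hwA hwB hs
  set gA : Fin m → (Fin W → Bool) → ℕ := fun t β =>
    ((GA t).filter (fun a => ∀ w ∈ wA t a, β w = true)).card with hgA
  set gB : Fin m → (Fin W → Bool) → ℕ := fun t β =>
    ((GB t).filter (fun a => ∀ w ∈ wB t a, β w = false)).card with hgB
  have h1 : ∀ t, 2 ^ W * κ' ^ 2 ≤ 2 * 4 ^ q * ∑ β : Fin W → Bool, gA t β * gB t β := fun t =>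
    RND.avg q κ' (GA t) (GB t) (wA t) (wB t) hq (hA t) (hB t) (hwA t) (hwB t) (hs t)
  have h2 : ∑ _β : Fin W → Bool, m * κ' ^ 2 ≤
      ∑ β : Fin W → Bool, 2 * 4 ^ q * ∑ t, gA t β * gB t β := by
    calc ∑ _β : Fin W → Bool, m * κ' ^ 2 = ∑ _t : Fin m, 2 ^ W * κ' ^ 2 := by
          simp only [sum_const, card_univ, Fintype.card_fun, Fintype.card_bool, Fintype.card_fin,
            smul_eq_mul]
          ring
      _ ≤ ∑ t : Fin m, 2 * 4 ^ q * ∑ β : Fin W → Bool, gA t β * gB t β :=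
          sum_le_sum fun t _ => h1 t
      _ = ∑ β : Fin W → Bool, 2 * 4 ^ q * ∑ t, gA t β * gB t β := by
          rw [← mul_sum, sum_comm, mul_sum]
  obtain ⟨β, -, hβ⟩ := exists_le_of_sum_le univ_nonempty h2
  have hleA : ∀ t, gA t β ≤ κ' := fun t => (card_le_card (filter_subset _ _)).trans (hA t).2
  have hleB : ∀ t, gB t β ≤ κ' := fun t => (card_le_card (filter_subset _ _)).trans (hB t).2
  set T : Finset (Fin m) := univ.filter fun t => κ' ^ 2 ≤ 4 ^ (q + 1) * (gA t β * gB t β) with hT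
  refine ⟨β, T, ?_, ?_⟩
  · have h3 : ∑ t, 4 ^ (q + 1) * (gA t β * gB t β) ≤ 4 ^ (q + 1) * T.card * κ' ^ 2 + m * κ' ^ 2 := by
      have h4 : ∀ t, 4 ^ (q + 1) * (gA t β * gB t β) ≤
          (if t ∈ T then 4 ^ (q + 1) * κ' ^ 2 else 0) + κ' ^ 2 := by
        intro t
        by_cases ht : t ∈ T
        · rw [if_pos ht]
          have h5 : gA t β * gB t β ≤ κ' ^ 2 := by
            rw [sq]
            exact Nat.mul_le_mul (hleA t) (hleB t)
          exact (Nat.mul_le_mul_left _ h5).trans (Nat.le_add_right _ _)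
        · rw [if_neg ht, zero_add]
          have h5 : ¬ κ' ^ 2 ≤ 4 ^ (q + 1) * (gA t β * gB t β) := fun h =>
            ht (mem_filter.2 ⟨mem_univ _, h⟩)
          omega
      calc ∑ t, 4 ^ (q + 1) * (gA t β * gB t β)
          ≤ ∑ t, ((if t ∈ T then 4 ^ (q + 1) * κ' ^ 2 else 0) + κ' ^ 2) :=
            sum_le_sum fun t _ => h4 t
        _ = 4 ^ (q + 1) * T.card * κ' ^ 2 + m * κ' ^ 2 := by
            rw [sum_add_distrib, sum_ite_mem, univ_inter, sum_const, sum_const, card_univ,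
              Fintype.card_fin, smul_eq_mul, smul_eq_mul]
            ring
    have h6 : 2 * (m * κ' ^ 2) ≤ ∑ t, 4 ^ (q + 1) * (gA t β * gB t β) := by
      rw [← mul_sum]
      calc 2 * (m * κ' ^ 2) ≤ 2 * (2 * 4 ^ q * ∑ t, gA t β * gB t β) := Nat.mul_le_mul_left _ hβ
        _ = 4 ^ (q + 1) * ∑ t, gA t β * gB t β := by ring
    have h7 : m * κ' ^ 2 ≤ 4 ^ (q + 1) * T.card * κ' ^ 2 := by omega
    exact Nat.le_of_mul_le_mul_right h7 (by positivity)
  · intro t ht
    have h3 : κ' ^ 2 ≤ 4 ^ (q + 1) * (gA t β * gB t β) := (mem_filter.1 ht).2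
    constructor
    · have h4 : κ' * κ' ≤ (4 ^ (q + 1) * gA t β) * κ' := by
        calc κ' * κ' = κ' ^ 2 := by ring
          _ ≤ 4 ^ (q + 1) * (gA t β * gB t β) := h3
          _ ≤ 4 ^ (q + 1) * (gA t β * κ') :=
              Nat.mul_le_mul_left _ (Nat.mul_le_mul_left _ (hleB t))
          _ = _ := by ring
      exact Nat.le_of_mul_le_mul_right h4 (by omega)
    · have h4 : κ' * κ' ≤ (4 ^ (q + 1) * gB t β) * κ' := by
        calc κ' * κ' = κ' ^ 2 := by ring
          _ ≤ 4 ^ (q + 1) * (gA t β * gB t β) := h3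
          _ ≤ 4 ^ (q + 1) * (κ' * gB t β) :=
              Nat.mul_le_mul_left _ (Nat.mul_le_mul_right _ (hleA t))
          _ = _ := by ring
      exact Nat.le_of_mul_le_mul_right h4 (by omega)

end Pool.Agent.RLT
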