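import Pool.Agent.RLT.Defs

/-!
# MP_5e85fc_lc, project RLT: internal definitions and statements

For every `k` there is a real-time DCFL such that nonuniform nondeterministic programs with random
access and at most `k n` tests need `n ^ (c log n)` configurations. Complete paper proof: note
`IDEA2 MP_5e85fc_lc` of helper20. Every statement below has a complete proof in its doc string.
-/

set_option autoImplicit false

namespace Pool.Agent.RLT

open Polynomial

/-! ## Part 1: algebra -/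

/-- The value of the complete binary tree of height `h` with node function `(x + y) ^ 2`; the leaves
are the lists of length `h` (first entry = direction at the root). -/
def val {F : Type} [Field F] : ℕ → (List Bool → F) → F
  | 0, x => x []
  | h + 1, x => (val h (fun w => x (false :: w)) + val h (fun w => x (true :: w))) ^ 2

/-- The compositions of `e` maps `t ↦ (t + c) ^ 2`. -/
inductive SqP {F : Type} [Field F] : ℕ → F[X] → Prop
  | base : SqP 0 X
  | step (e : ℕ) (Q : F[X]) (c : F) : SqP e Q → SqP (e + 1) ((Q + C c) ^ 2)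

/-- A pair of joins on a path of the tree: from top to bottom `U` (levels above the upper join), `T`
(value of the sibling at the upper join), `V` (levels between), `R` (value of the sibling at the
lower join). -/
structure Pr (F : Type) [Field F] where
  u : ℕ
  v : ℕ
  t : ℕ
  r : ℕ
  U : F[X]
  V : F[X]
  T : F[X]
  R : F[X]
  hU : SqP u U
  hV : SqP v V
  hT : SqP t T
  hR : SqP r R

/-- The value at the top of the path with bottom value `t₀` and `m` pairs of joins (index `0` is the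
top pair); `x i` is the leaf at the lower join of pair `i`, `y i` the leaf at the upper join. -/
noncomputable def cval {F : Type} [Field F] (t₀ : F) :
    {m : ℕ} → (Fin m → Pr F) → (Fin m → F) → (Fin m → F) → F
  | 0, _, _, _ => t₀
  | _ + 1, P, x, y =>
      (P 0).U.eval (((P 0).V.eval ((cval t₀ (Fin.tail P) (Fin.tail x) (Fin.tail y) +
        (P 0).R.eval (x 0)) ^ 2) + (P 0).T.eval (y 0)) ^ 2)

/-- FIB (60 lines). Proof: induction on `SqP`: monic, degree `2 ^ e` (`natDegree_add_C`,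
`Monic.pow`, `Monic.natDegree_pow`); the set of roots of `Q - C c` is finite with at most `2 ^ e`
elements (`Polynomial.card_roots'`; `Q - C c` is not `0` because its degree is `2 ^ e ≥ 1`): take
`s = (Q - C c).roots.toFinset`. -/
def S_FIB : Prop := ∀ (F : Type) [Field F] (e : ℕ) (Q : F[X]), SqP e Q →
  Q.Monic ∧ Q.natDegree = 2 ^ e ∧ ∀ c : F, ∃ s : Finset F, s.card ≤ 2 ^ e ∧
    ∀ a, Q.eval a = c → a ∈ s

/-- ALG (120 lines). Proof: let `G(t) = V((q₁ + t)²) - V((q₂ + t)²) - δ` in `F[t]`. If `q₁ = q₂` then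
`G = -δ ≠ 0`. Otherwise: `V` is monic of degree `E = 2 ^ v`, so `V(t²) = t ^ (2E) + (a polynomial of
degree ≤ 2E - 2)` (only even powers of `t`), hence `V((q + t)²) = (t + q) ^ (2E) + W(t + q)` with
`deg W ≤ 2E - 2`, and the coefficient of `t ^ (2E - 1)` in `G` is `2E q₁ - 2E q₂` (for `E ≥ 1`;
`2E - 1 ≥ 1` so `δ` does not matter), and `2E` is a power of `2`, not `0` in `F`. So `G ≠ 0` and
`deg G ≤ 2E = 2 ^ (v + 1)`. `R` is monic of degree `2 ^ r ≥ 1`, so `G.comp R ≠ 0`
(`Polynomial.comp_eq_zero_iff`; or `natDegree_comp`) has degree at most `2 ^ (v + 1) * 2 ^ r`: take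
its roots. (One may also prove, by induction on `SqP v V`, that the coefficient of `t ^ (2E)` of
`V((q + t)²)` is `1`, that of `t ^ (2E - 1)` is `2E q`, and the degree is `2E`: squaring
`t ^ n + b t ^ (n-1) + ...` gives `t ^ (2n) + 2 b t ^ (2n-1) + ...`.) -/
def S_ALG : Prop := ∀ (F : Type) [Field F], (2 : F) ≠ 0 → ∀ (v r : ℕ) (V R : F[X]), SqP v V →
  SqP r R → ∀ q₁ q₂ δ : F, δ ≠ 0 → ∃ s : Finset F, s.card ≤ 2 ^ (v + 1 + r) ∧
    ∀ a, V.eval ((q₁ + R.eval a) ^ 2) - V.eval ((q₂ + R.eval a) ^ 2) = δ → a ∈ s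

/-- RECT (250 lines), the rectangle lemma. Hypotheses `S_FIB`, `S_ALG`. Proof by induction on `m`
(for all `P, X, Y, Θ`). Put `K = 2 ^ (4 h + 2)`. If `X` or `Y` is empty: trivial. `m = 0`: `X`, `Y`
have at most one element. Step `m + 1`; write `U, V, T, R, u, v` for the data of `P 0`. For `x ∈ X`
the numbers `s = V((q + R(x 0))²) + T(y 0)` with `U(s²) ∈ Θ x`, `q = cval ..(tail x) (tail y)`, lie in
a set of at most `(Θ x).card * 2 ^ u * 2 ≤ 2 ^ h` elements which depends only on `x` (`S_FIB` for `U`,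
two square roots). `Θ x` is not empty, so `∑ (u_i + v_i + 2) ≤ h`, in particular `u + v + 2 ≤ h`.
Let `B` be the set of the values `y 0`, `y ∈ Y`; `|B| ≤ E`. For `b ∈ B` let
`Y_b = {tail y | y ∈ Y, y 0 = b}`; `|Y| = ∑_b |Y_b|`.
CASE 1: `|B| ≤ 2 ^ (2 h)`. For each value `a` of `x 0` let `X_a = {tail x | x ∈ X, x 0 = a}`. For
`a`, `b` the induction hypothesis applies to `X_a × Y_b` with
`Θ' x' = {q | U((V((q + R a)²) + T b)²) ∈ Θ (cons a x')}`, of cardinality at most
`(Θ _).card * 2 ^ u * 2 * 2 ^ v * 2`. So `|X||Y| = ∑ |X_a||Y_b| ≤ E * 2 ^ (2h) * (K E) ^ m`.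
CASE 2: `|B| > 2 ^ (2 h)`. The fibres of `b ↦ T(b)` have at most `2 ^ t ≤ 2 ^ h` elements, so there is
a set `B' ⊆ B` of exactly `2 ^ h + 1` elements on which `T` is injective (choose representatives of
the `> 2 ^ h` values). Choose `y_b ∈ Y` with `y_b 0 = b` for `b ∈ B'`. For `x ∈ X` two elements
`b ≠ b'` of `B'` have the same `s` (pigeonhole), so with `q_b = cval _ (tail x) (tail y_b)`:
`V((q_b + R(x 0))²) - V((q_b' + R(x 0))²) = T b' - T b ≠ 0`, and `q_b`, `q_b'` depend only on
`tail x`. By `S_ALG` the entry `x 0` lies in a set `Bad (tail x)` (union over the pairs `(b, b')`) of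
at most `(2 ^ h + 1) ^ 2 * 2 ^ (v + 1 + r) ≤ 2 ^ (2h+2) * 2 ^ (2h) = K` elements (`r ≤ h`,
`v + 1 ≤ h`). So `|X| ≤ K |X'|`, `X' = image of X under tail`. For `x' ∈ X'` choose `a(x')` with
`cons a(x') x' ∈ X`; for each `b ∈ B` the induction hypothesis applies to `X' × Y_b` with
`Θ' x' = {q | U((V((q + R a(x'))²) + T b)²) ∈ Θ (cons a(x') x')}`. So
`|X||Y| ≤ K ∑_b |X'||Y_b| ≤ K * E * (K E) ^ m`. -/
def S_RECT : Prop := ∀ (F : Type) [Field F] [DecidableEq F], (2 : F) ≠ 0 →
  ∀ (h m : ℕ) (P : Fin m → Pr F) (t₀ : F) (E : ℕ) (X Y : Finset (Fin m → F))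
    (Θ : (Fin m → F) → Finset F),
    (∀ i, (P i).t ≤ h ∧ (P i).r ≤ h) →
    (∀ x ∈ X, (Θ x).card * 2 ^ (∑ i, ((P i).u + (P i).v + 2)) ≤ 2 ^ h) →
    (∀ x ∈ X, ∀ y ∈ Y, cval t₀ P x y ∈ Θ x) →
    (∀ i, (X.image (fun x => x i)).card ≤ E) → (∀ i, (Y.image (fun y => y i)).card ≤ E) →
    X.card * Y.card ≤ (2 ^ (4 * h + 2) * E) ^ m

/-- ONE (60 lines). Proof: induction on `h`. `h = 0`: `c = []`, `Q = X`. Step: `c = b :: c'`; the
subtree of direction `b` has value `Q'(z)` by induction (applied to `fun w => ρ (b :: w)`, the update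
of `ρ` at `b :: c'` composed with `cons b` is the update at `c'`), the other one is a constant `k`
(the update does not concern it): `Q = (Q' + C k) ^ 2`. -/
def S_ONE : Prop := ∀ (F : Type) [Field F] (h : ℕ) (c : List Bool) (ρ : List Bool → F),
  c.length = h → ∃ Q : F[X], SqP h Q ∧ ∀ z : F, val h (Function.update ρ c z) = Q.eval z

/-- The leaf assignment which has the value `x i` at the leaf `A i` and is `ρ` elsewhere. -/
noncomputable def upd {F : Type} {m : ℕ} (A : Fin m → List Bool) (x : Fin m → F)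
    (ρ : List Bool → F) : List Bool → F := by
  classical exact fun w => if h : ∃ i, A i = w then x h.choose else ρ w

/-- The path to the leaf `c` leaves the path to the leaf `l` at depth `d`. -/
def Br (l c : List Bool) (d : ℕ) : Prop :=
  c.length = l.length ∧ d < l.length ∧ c.take d = l.take d ∧ c.getD d false ≠ l.getD d false

/-- Around the base leaf `l` the leaves `B 0, A 0, B 1, A 1, …` leave the path to `l` at strictly
increasing depths (pair `0` is the top pair). -/
def Comb (l : List Bool) {m : ℕ} (A B : Fin m → List Bool) : Prop :=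
  ∃ a b : Fin m → ℕ, (∀ i, Br l (A i) (a i)) ∧ (∀ i, Br l (B i) (b i)) ∧ (∀ i, b i < a i) ∧
    ∀ i j, i < j → a i < b j

/-- TCH (250 lines), hypothesis `S_ONE`. Proof: by induction on `h` prove together
(S1) the statement, and
(S2) the same when the top lower leaf `A 0` comes first: for `A : Fin (m+1) → List Bool`,
`B : Fin m → List Bool`, depths `a 0 < b 0 < a 1 < b 1 < …`: there are `t₀`, `P : Fin m → Pr F`,
polynomials `V`, `R` with `SqP v V`, `SqP r R`, `r ≤ h`, `v + 1 + ∑ (u_i + v_i + 2) ≤ h` and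
`val h (upd A x (upd B y ρ)) = V.eval ((cval t₀ P (tail x) y + R.eval (x 0)) ^ 2)`.
Step `h + 1`, `l = d :: l'`. The subtree of direction `d` contains all leaves which branch at depth
`≥ 1` (drop their first letter `d`), the other subtree (direction `!d`) contains at most one leaf of
the comb: the first one, if it branches at depth `0`.
If no leaf branches at depth `0`: the other subtree is a constant `k`, the induction hypothesis for
`h` gives the chain, and the first polynomial (`U` of pair `0` in (S1); `V` in (S2); `t₀` if `m = 0`)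
becomes `(U + C k) ^ 2`.
If in (S1) `B 0` branches at depth `0`: the other subtree has the value `T(y 0)` by `S_ONE` (applied
with the leaf `(B 0).tail`), the chain of the subtree of direction `d` is given by (S2) with the
leaves `A` and `tail B`: the new pair `0` has `U = X`, `u = 0`, this `T`, `t = h`, and `V`, `R`, `v`,
`r` of (S2). If in (S2) `A 0` branches at depth `0`: the other subtree has the value `R(x 0)` by
`S_ONE`, the subtree of direction `d` is given by (S1) with `tail A`, `B`: `V = X`, `v = 0`.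
(`h = 0`: then `m = 0` and (S2) is void, because depths are `< l.length = 0`.) It is convenient to
use instead of `upd` any assignment `Z` with `Z (A i) = x i`, `Z (B i) = y i`, `Z w = ρ w` for the
other `w` of length `h`, and to show first that `val h` only depends on the values at the lists of
length `h`. The leaves `A i`, `B i` are pairwise different (different branching depths). -/
def S_TCH : Prop := ∀ (F : Type) [Field F] (h m : ℕ) (l : List Bool) (A B : Fin m → List Bool)
  (ρ : List Bool → F), l.length = h → Comb l A B →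
  ∃ (t₀ : F) (P : Fin m → Pr F), (∑ i, ((P i).u + (P i).v + 2) ≤ h) ∧
    (∀ i, (P i).t ≤ h ∧ (P i).r ≤ h) ∧
    ∀ x y : Fin m → F, val h (upd A x (upd B y ρ)) = cval t₀ P x y

/-- TRL (30 lines), hypotheses `S_RECT`, `S_TCH`: take `Θ x = {r}`. -/
def S_TRL : Prop := ∀ (F : Type) [Field F] [DecidableEq F], (2 : F) ≠ 0 →
  ∀ (h m : ℕ) (l : List Bool) (A B : Fin m → List Bool) (ρ : List Bool → F) (r : F) (E : ℕ)
    (X Y : Finset (Fin m → F)), l.length = h → Comb l A B →
    (∀ x ∈ X, ∀ y ∈ Y, val h (upd A x (upd B y ρ)) = r) →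
    (∀ i, (X.image (fun x => x i)).card ≤ E) → (∀ i, (Y.image (fun y => y i)).card ≤ E) →
    X.card * Y.card ≤ (2 ^ (4 * h + 2) * E) ^ m

/-! ## Part 2: combinatorics of leaves and times -/

/-- DIS (100 lines). Proof: if `c = 0` take `U' = ∅` on the right. Suppose the first alternative
fails: then for every `w ∈ U` the set `{v ∈ U | lo v < hi w ∧ hi w < hi v}` (it does not contain
`w`) has fewer than `c` elements. Greedy: for `t ≤ c` there are `D, R ⊆ U`, `D.card = t`,
`U.card ≤ R.card + t * c`, `D` pairwise as wanted, and `hi v < lo w` for `v ∈ D`, `w ∈ R`. Step: `R`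
is not empty (`t < c`, `c (c + 1) ≤ U.card`), take `v ∈ R` with least `hi v`, put
`D' = D ∪ {v}`, `R' = {w ∈ R | hi v < lo w}`; the elements of `R` which are lost are `v` and the
`w ≠ v` with `lo w ≤ hi v`, so `lo w < hi v < hi w` (distinctness and minimality): fewer than `c` of
them, so at most `c` in all. (`v ∉ D` because `hi v' < lo v ≤ hi v` for `v' ∈ D`.) -/
def S_DIS : Prop := ∀ (U : Finset (List Bool)) (lo hi : List Bool → ℕ) (c : ℕ),
  (∀ v ∈ U, lo v ≤ hi v) →
  (∀ v ∈ U, ∀ w ∈ U, v ≠ w → hi v ≠ lo w ∧ hi v ≠ hi w) →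
  c * (c + 1) ≤ U.card →
  (∃ U' ⊆ U, c ≤ U'.card ∧ ∃ w ∈ U, w ∉ U' ∧ ∀ v ∈ U', lo v < hi w ∧ hi w < hi v) ∨
  (∃ U' ⊆ U, c ≤ U'.card ∧ ∀ v ∈ U', ∀ w ∈ U', v ≠ w → hi v < lo w ∨ hi w < lo v)

/-- The time `s` separates the quantiles number `k` from those number `k + 1`. -/
def Sep (U : Finset (List Bool)) (Q : List Bool → ℕ → ℕ) (k s : ℕ) : Prop :=
  ∀ v ∈ U, Q v k < s ∧ s < Q v (k + 1)

/-- The intervals `[Q v i, Q v j]` are pairwise disjoint. -/
def Dis (U : Finset (List Bool)) (Q : List Bool → ℕ → ℕ) (i j : ℕ) : Prop :=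
  ∀ v ∈ U, ∀ w ∈ U, v ≠ w → Q v j < Q w i ∨ Q w j < Q v i

/-- For all `i ≤ j ≤ r`: the intervals are disjoint or some place between is separated. -/
def SplP (U : Finset (List Bool)) (Q : List Bool → ℕ → ℕ) (r : ℕ) : Prop :=
  ∀ i j, i ≤ j → j ≤ r → Dis U Q i j ∨ ∃ k s, i ≤ k ∧ k < j ∧ Sep U Q k s

/-- SPL (150 lines), hypothesis `S_DIS`. Proof: both properties are hereditary (subsets of `U`). One
pair `(i, j)`: if `((r + 2) * c) ^ 2 ≤ U.card`, `1 ≤ c`, then there is `U' ⊆ U` with `c ≤ U'.card`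
and `Dis U' Q i j` or `Sep U' Q k s` for some `i ≤ k < j`: apply `S_DIS` with `lo v = Q v i`,
`hi v = Q v j` and `(r + 1) * c` in place of `c` (indeed
`(r+1) c ((r+1) c + 1) ≤ ((r+2) c) ^ 2`). In the second alternative done. In the first one put
`s = hi w = Q w j`, `w ∉ U'`; for `v ∈ U'` and all `k ≤ r` one has `Q v k ≠ s` (distinctness), and
`Q v i < s < Q v j`, so there is `k` with `i ≤ k < j`, `Q v k < s < Q v (k + 1)` (the largest `k` with
`Q v k < s`); there are at most `r + 1` values of `k`, so one of them occurs for at least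
`c` elements (`Finset.exists_le_card_fiber_of_mul_le_card_of_maps_to` or similar).
All pairs: list them, `N ≤ (r + 1) ^ 2` pairs; with `b_0 = c`, `b_(t+1) = ((r + 2) b_t) ^ 2` one has
`b_t * (r + 2) ^ 2 ≤ ((r + 2) ^ 2 * c) ^ (2 ^ t)`; process the pairs one after another. -/
def S_SPL : Prop := ∀ (r c : ℕ) (U : Finset (List Bool)) (Q : List Bool → ℕ → ℕ), 1 ≤ c →
  (∀ v ∈ U, Monotone (Q v)) →
  (∀ v ∈ U, ∀ w ∈ U, v ≠ w → ∀ i j, i ≤ r → j ≤ r → Q v i ≠ Q w j) →
  ((r + 2) ^ 2 * c) ^ (2 ^ ((r + 1) ^ 2)) ≤ U.card →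
  ∃ U' ⊆ U, c ≤ U'.card ∧ SplP U' Q r

/-- Below the node `u` the set `U` contains an embedded complete binary tree of height `j`. -/
def Emb (U : Finset (List Bool)) : ℕ → List Bool → Prop
  | 0, u => ∃ v ∈ U, u <+: v
  | j + 1, u => ∃ u', u <+: u' ∧ Emb U j (u' ++ [false]) ∧ Emb U j (u' ++ [true])

/-- SSH (100 lines). Proof: for `u` with `|u| ≤ h` put `U_u = {v ∈ U | u <+: v}`. Claim, by induction
on `h' = h - |u|`, for all `u`, `j`: if `X ^ j * (X + 1) ^ h' < U_u.card * X ^ h'` then `Emb U j u`.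
`j = 0`: `U_u` is not empty. `h' = 0`, `j ≥ 1`: `U_u.card ≤ 1` and `X ^ j ≥ 1`, void. Step
`h' = h'' + 1`, `j = j' + 1`: `U_u.card ≤ U_(u0).card + U_(u1).card` (every `v ∈ U_u` is longer than
`u`). If both `u0 = u ++ [false]` and `u1 = u ++ [true]` satisfy the hypothesis for `j'` then
`Emb U j' u0`, `Emb U j' u1`, take `u' = u`. Otherwise one of them, say `u1`, has
`U_(u1).card * X ^ h'' ≤ X ^ j' * (X + 1) ^ h''`, so
`U_(u0).card * X ^ (h'' + 1) > X ^ (j'+1) (X+1) ^ (h''+1) - X ^ (j'+1) (X+1) ^ h''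
= X ^ (j' + 1) (X + 1) ^ h'' * X`, the hypothesis for `u0` and `j' + 1`; and `Emb U (j' + 1) u0` gives
`Emb U (j' + 1) u`. -/
def S_SSH : Prop := ∀ (U : Finset (List Bool)) (h j X : ℕ), 1 ≤ X → (∀ v ∈ U, v.length = h) →
  X ^ j * (X + 1) ^ h < U.card * X ^ h → Emb U j []

/-- MUL (80 lines). Proof: induction on `D`. `D = 0`: `f = fun _ => u` (the second clause is void).
Step: `Emb U (D + 1 + j) u` gives `u'` and `Emb U (D + j)` at `u' ++ [false]` and at `u' ++ [true]`,
so by induction families `f₀`, `f₁` of `2 ^ D` nodes below them; a node below `u' ++ [false]` is never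
an initial segment of a node below `u' ++ [true]` and conversely. `Fin (2 ^ (D+1))` is the sum of two
copies of `Fin (2 ^ D)`. -/
def S_MUL : Prop := ∀ (U : Finset (List Bool)) (D j : ℕ) (u : List Bool), Emb U (D + j) u →
  ∃ f : Fin (2 ^ D) → List Bool, (∀ i, u <+: f i ∧ Emb U j (f i)) ∧
    ∀ i i', i ≠ i' → ¬ f i <+: f i'

/-- CRL (250 lines), hypothesis `S_MUL`; the critical leaf. `sg v w i`: sign number `i ≤ r` of the
pair `(v, w)`. Put `D = 2 ^ (r + 1) + 1`.
TRIPLE: if `W` is a set of more than `2 ^ (2 ^ (r + 1))` elements of `U`, there are pairwise different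
... in fact `p, a, b ∈ W`, `a ≠ p`, `b ≠ p` and `sg a p i = sg p b i` for all `i ≤ r`: otherwise put
`Out p = {sign vectors of (p, b), b ∈ W, b ≠ p}` (a set of vectors in `Fin (r + 1) → Bool`); for
`p ≠ b` the vector of `(p, b)` is in `Out p` and it is not in `Out b` (there it would be the vector
of some `(b, c)`, so `(p, b, c)` would be a triple as wanted); so `Out` is injective on `W`,
contradiction with the number `2 ^ (2 ^ (r+1))` of sets of vectors.
BLOCKS: for all `J`, `u`: `Emb U (D * J) u` implies: there are `l ∈ U` with `u <+: l`, and for each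
`t < J` a type `δ_t`, leaves `a_t, b_t ∈ U` and depths `α_t, β_t` with `Br l a_t α_t`, `Br l b_t β_t`,
`|u| ≤ α_t, β_t`, `sg a_t l i = δ_t i = sg l b_t i` for `i ≤ r`, and for `t < t'` all depths of block
`t` are smaller than all depths of block `t'`. Induction on `J`: `J = 0` clear. `J + 1`: `S_MUL` with
`j = D * J` gives `2 ^ D` nodes `f i`, induction gives base leaves `l_i` below `f i`, pairwise
different (the `f i` are incomparable), so by TRIPLE (`2 ^ D > 2 ^ (2 ^ (r+1))`) there are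
`p = l_i`, `a = l_(i')`, `b = l_(i'')` (`i', i'' ≠ i`). New base leaf `l = l_i`, new top block
`(δ, a, b)`: the path to `a` leaves that to `l` at a depth `≥ |u|` (both are below `u`) and
`< |f i|` (because `f i` is not an initial segment of `a`: `a` is below `f i'`, two initial segments
of `a` are comparable). The other blocks are those of `l_i`, with depths `≥ |f i|`.
All leaves have length `h`, so for two different leaves the depth where they separate exists.
MAJORITY: `J = 2 ^ (r + 2) * m` blocks, `2 ^ (r + 1)` types: some `δ` occurs for `≥ 2 m` blocks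
`t_0 < t_1 < …`; take `B s = b_(t_(2s))`, `A s = a_(t_(2s+1))`, `s < m`. -/
def S_CRL : Prop := ∀ (r h m : ℕ) (U : Finset (List Bool))
  (sg : List Bool → List Bool → ℕ → Bool), (∀ v ∈ U, v.length = h) →
  (∀ v ∈ U, ∀ w ∈ U, v ≠ w → ∀ i ≤ r, sg w v i = !(sg v w i)) →
  Emb U ((2 ^ (r + 1) + 1) * (2 ^ (r + 2) * m)) [] →
  ∃ l ∈ U, ∃ (δ : ℕ → Bool) (A B : Fin m → List Bool), Comb l A B ∧
    ∀ t, A t ∈ U ∧ B t ∈ U ∧ ∀ i ≤ r, sg (A t) l i = δ i ∧ sg l (B t) i = δ i

/-- CMB (200 lines), hypotheses `S_SPL`, `S_SSH`, `S_CRL`: the comb lemma. Proof: if `m = 0`, one only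
needs a nonempty `U'` with `SplP`; in general put `N = 2 ^ ((r + 1) ^ 2)`,
`ρ` with `(r + 2) ^ 2 ≤ 2 ^ ρ`, `e = (h - 1) / N - ρ` (natural division). Then
`((r + 2) ^ 2 * 2 ^ e) ^ N ≤ 2 ^ (N (ρ + e)) ≤ 2 ^ (h - 1) ≤ U.card`, so `S_SPL` with `c = 2 ^ e` gives
`U'` with `2 ^ e ≤ U'.card`, `SplP U' Q r`. Apply `S_SSH` to `U'` with
`j = (2 ^ (r + 1) + 1) * (2 ^ (r + 2) * m)` and `X = 2 ^ ξ`, `2 ^ ξ ≥ 16 N`: one needs
`X ^ j * (X + 1) ^ h < 2 ^ e * X ^ h`: `(1 + 1/X) ^ h ≤ exp (h / X) ≤ 2 ^ (2 h / X)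
≤ 2 ^ (h / (8 N))` (real exponents), `X ^ j = 2 ^ (ξ j)` and `ξ j ≤ h / (8 N)` if
`c m ≤ h` with `c ≥ 8 N ξ (2 ^ (r + 1) + 1) 2 ^ (r + 2)`, and `e ≥ h / (2 N)` (real) if `h ≥ c` is
large compared with `N (ρ + 2)`; note `h ≥ c (m + 1) ≥ c`. Then `S_CRL` with
`sg v w i = decide (Q v i < Q w i)` (antisymmetric by distinctness). -/
def S_CMB : Prop := ∀ r : ℕ, ∃ c : ℕ, 1 ≤ c ∧ ∀ (h m : ℕ) (U : Finset (List Bool))
  (Q : List Bool → ℕ → ℕ), c * (m + 1) ≤ h → (∀ v ∈ U, v.length = h) → 2 ^ h ≤ 2 * U.card →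
  (∀ v ∈ U, Monotone (Q v)) →
  (∀ v ∈ U, ∀ w ∈ U, v ≠ w → ∀ i j, i ≤ r → j ≤ r → Q v i ≠ Q w j) →
  ∃ U' ⊆ U, SplP U' Q r ∧ ∃ l ∈ U', ∃ (δ : ℕ → Bool) (A B : Fin m → List Bool), Comb l A B ∧
    ∀ t, A t ∈ U' ∧ B t ∈ U' ∧ ∀ i ≤ r, (Q (A t) i < Q l i ↔ δ i = true) ∧
      (Q l i < Q (B t) i ↔ δ i = true)

end Pool.Agent.RLT
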