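import Pool.Agent.RLT.St3

/-!
# MP_5e85fc_lc, project RLT: statements, part 4 (average case, matching upper bound)
-/

set_option autoImplicit false

namespace Pool.Agent.RLT

open Pool.Agent.Heads

/-- DES2 (200 lines), hypothesis `S_TRC`: as `S_DES` (proof there; copy of that file) for one
template `T` and a set `H` of assignments which are accepted fast. Proof: if `H` is empty take
`G = ∅`, any `tmp`, e.g. made from `i₀ = 0` (`1 ≤ b`) as below. For `x ∈ H` fix an accepting run with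
at most `K 2 ^ h κ b` tests; for `i₀ : Fin b` let `N x i₀ = #{t | lab t = some (i, _),
T i = inr (v, i₀) for some v}`. `∑_(i₀) N x i₀ ≤ K 2 ^ h κ b`, so at least half of the `i₀` satisfy
`N x i₀ ≤ 2 K 2 ^ h κ`. Some `i₀` satisfies this for a set `G₁ ⊆ H`, `H.card ≤ 2 * G₁.card`; some
assignment `ρ` of the digits `(v, i)`, `i ≠ i₀`, occurs for `G₂ ⊆ G₁`,
`G₁.card ≤ G₂.card * M ^ (2 ^ h κ (b - 1))`. `tmp j = inl c` if `T j = inl c`, `inr v` if
`T j = inr (v, i₀)`, `inl (dg (ρ (v, i)))` if `T j = inr (v, i)`, `i ≠ i₀`; `s v = ∑_(i ≠ i₀) ρ (v, i)`;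
`G = {x (·, i₀) | x ∈ G₂}`; for `x' : V → Fin M` the `y` of the second clause is `x'` at `i₀` and `ρ`
elsewhere. -/
def S_DES2 : Prop := ∀ (α : Type) (n M h κ b K : ℕ) [NeZero M] (P : Prog α n) (dg : Fin M → α)
  (T : Fin n → α ⊕ (((Fin h → Bool) × Fin κ) × Fin b))
  (H : Finset (((Fin h → Bool) × Fin κ) × Fin b → Fin M)), 1 ≤ b →
  (∀ x ∈ H, ∃ m ≤ K * (2 ^ h * κ * b), ∃ s ∈ P.accept, P.Reach (word T dg x) m s) →
  ∃ (tmp : Fin n → α ⊕ ((Fin h → Bool) × Fin κ)) (s : (Fin h → Bool) × Fin κ → Fin M)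
    (G : Finset ((Fin h → Bool) × Fin κ → Fin M)),
    H.card * M ^ (2 ^ h * κ) ≤ 2 * G.card * M ^ (2 ^ h * κ * b) ∧
    (∀ x, ∃ y : ((Fin h → Bool) × Fin κ) × Fin b → Fin M, word tmp dg x = word T dg y ∧
      ∀ v, ∑ i, y (v, i) = x v + s v) ∧
    ∀ x ∈ G, ∃ (τ : ℕ) (σ : ℕ → P.S) (lab : ℕ → Option (Fin n × α)),
      Trace P (word tmp dg x) τ σ lab ∧ σ τ ∈ P.accept ∧
      {t | t < τ ∧ ∃ i a v, lab t = some (i, a) ∧ tmp i = Sum.inr v}.ncard ≤ 2 * K * (2 ^ h * κ)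

/-- COR (100 lines), hypotheses `S_CNT`, `S_DES2`: the core inequality. Proof: `q = 16 K + 1`,
`C, c, E` from `S_CNT`. `S_DES2` gives `tmp, s, G`. Apply `S_CNT` with `F = ZMod p` (`2 ≠ 0`, `2 < p`),
`lf v d = ((lfN (fun j => d j + s (v, j)) : ℕ) : ZMod p)` (injective: base `M` digits and
`lfN < M ^ κ ≤ p`) and
`L = {l | ∃ y k s, l = List.ofFn y ∧ P.Reach y k s ∧ s ∈ P.accept}` (`List.ofFn` is injective): its
membership hypothesis is the soundness here, by the second clause of `S_DES2`;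
`8 * (2 K 2 ^ h κ) ≤ q 2 ^ h κ`. With `e = κ / E`, `N` = the product of the first four factors of
`S_CNT`: `H.card M ^ (2 ^ h κ) M ^ (2 m e) ≤ 2 M ^ (2 ^ h κ b) G.card M ^ (2 m e) ≤
2 M ^ (2 ^ h κ b) N M ^ (2 ^ h κ) (2 ^ (4h+2)) ^ m M ^ (e m)`; cancel `M ^ (2 ^ h κ) M ^ (m e)`. -/
def S_COR : Prop := ∀ K : ℕ, ∃ C c E : ℕ, 1 ≤ c ∧ 1 ≤ E ∧
  ∀ (M κ b p h n m : ℕ) [NeZero M] [Fact p.Prime] (α : Type) (P : Prog α n) (dg : Fin M → α)
    (T : Fin n → α ⊕ (((Fin h → Bool) × Fin κ) × Fin b)) (ρ : ZMod p)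
    (H : Finset (((Fin h → Bool) × Fin κ) × Fin b → Fin M)),
  2 < p → M ^ κ ≤ p → 1 ≤ κ → 1 ≤ b → c * (m + 1) ≤ h →
  (∀ y k s, P.Reach (word T dg y) k s → s ∈ P.accept →
    val h (fun w => ((lfN (fun j => ∑ i, y ((adr h w, j), i)) : ℕ) : ZMod p)) = ρ) →
  (∀ x ∈ H, ∃ m' ≤ K * (2 ^ h * κ * b), ∃ s ∈ P.accept, P.Reach (word T dg x) m' s) →
  H.card * M ^ (m * (κ / E)) ≤ 2 * (Nat.card P.S) ^ C * 2 ^ (C + 1) * (2 ^ h) ^ (2 * m + 1) *
    (2 ^ κ) ^ (2 * m) * (2 ^ (4 * h + 2)) ^ m * M ^ (2 ^ h * κ * b)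

/-- NUM (150 lines), numerics. `D h` bounds `log₂ n`. Proof: `g = 64 E`, `M = 2 ^ g`; for `D` take
`γ = log 2 / (2 c (C + 1) (D + 1) ^ 2)` or smaller, for large `h`, `m = h / c - 1 ≥ h / (2 c)`.
`n ^ (γ log n) = exp (γ (log n)²) ≤ exp (γ D² h² (log 2)²)`. Logarithms to base 2:
`M ^ (m (h / E))`: `g m (h / E) ≥ 32 m h` (`h ≥ 2 E`). `2 p ≤ 4 * 2 ^ (g h)`: `g h + 2`.
`s ^ C`: at most `C γ D² h² ≤ m h`. `n ^ (γ log n)` on the other side: at most `m h`. The other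
factors: `C + 1 + h (2m+1) + 2 h m + (4h+2) m ≤ 9 m h + …`. As `m ≥ g + 1`, `h ≥ C + 5`, the sum of
all is at most `20 m h`, less than `32 m h`. -/
def S_NUM : Prop := ∀ C c E : ℕ, 1 ≤ c → 1 ≤ E → ∃ g : ℕ, 1 ≤ g ∧ ∀ D : ℕ, ∃ γ : ℝ, 0 < γ ∧
  ∀ᶠ h : ℕ in Filter.atTop, ∃ m : ℕ, c * (m + 1) ≤ h ∧ ∀ (p n : ℕ), p ≤ 2 * (2 ^ g) ^ h → 2 ≤ n →
    n ≤ 2 ^ (D * h) → ∀ s : ℕ, (s : ℝ) ≤ (n : ℝ) ^ (γ * Real.log n) →
    (n : ℝ) ^ (γ * Real.log n) * (p * (2 * (s : ℝ) ^ C * 2 ^ (C + 1) * (2 ^ h) ^ (2 * m + 1) *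
      (2 ^ h) ^ (2 * m) * (2 ^ (4 * h + 2)) ^ m)) ≤ ((2 ^ g) ^ (m * (h / E)) : ℝ)

/-- PRM (150 lines), the lengths. Proof: for `n ≥ 1` let `h = Nat.log 2 n / (2 g + 8)`, so
`2 ^ ((2g+8) h) ≤ n < 2 ^ ((2g+8)(h+1))`, `h` tends to infinity (`h₀ ≤ h`), `n ≤ 2 ^ ((4g+16) h)`. `p` a
prime with `M ^ h < p ≤ 2 M ^ h` (`Nat.exists_prime_lt_and_le_two_mul`), `M = 2 ^ g`, `κ = h`. `O` = the
left side of the length inequality with `b = 0` (at most
`2 ^ h (h 2 ^ g + 2 ^ (g h)) + 2 ^ h (8 * 2 ^ (2 g h) + 2) + 2 * 2 ^ (g h)`), `b = (n - O) / (2 ^ h h)`;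
for large `h`: `4 O + 4 * 2 ^ h h ≤ 2 ^ ((2g+8) h) ≤ n`. So `2 ^ h κ b ≥ n - O - 2 ^ h h ≥ n / 2`, `b ≥ 1`,
and the length is `≤ 2 ^ h κ b + O ≤ n`. -/
def S_PRM : Prop := ∀ (g h₀ : ℕ), 1 ≤ g → ∀ᶠ n : ℕ in Filter.atTop, ∃ h b p : ℕ, h₀ ≤ h ∧
  1 ≤ h ∧ p.Prime ∧ 2 < p ∧ (2 ^ g) ^ h ≤ p ∧ p ≤ 2 * (2 ^ g) ^ h ∧ 1 ≤ b ∧
  n ≤ 2 ^ ((4 * g + 16) * h) ∧
  2 ^ h * (h * (b + 2 ^ g) + ((2 ^ g) ^ h - 1)) + (2 ^ h - 1) * (2 * p ^ 2 + 2) + p ≤ n ∧
  n ≤ 2 * (2 ^ h * h * b)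

/-- LNG2 (60 lines on top of `LNG`), hypothesis `S_WRD`: as `S_LNG` (same templates `T r`, see the
proof there), with two more facts: every variable occurs in every template (`((v, j), i)` occurs in
the leaf with the address `List.ofFn v`, `adr h (List.ofFn v) = v`; by induction on `h` the letters
`inr (u', j, i)` of `treeT … h u` are exactly those with `u' = u ++ w`, `w.length = h`), and at the
same places in all templates (the variables are in the first part `treeT …`, which does not depend on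
`r`). -/
def S_LNG2 : Prop := ∀ (M κ b p h n : ℕ) [NeZero M] [Fact p.Prime], M ^ κ ≤ p →
  (treeT M κ b p h []).length + p ≤ n →
  ∃ T : Fin p → Fin n → Lt M ⊕ (((Fin h → Bool) × Fin κ) × Fin b),
    (∀ r x, List.ofFn (word (T r) Lt.dig x) ∈ Lang M ↔
      val h (fun w => ((lfN (fun j => ∑ i, x ((adr h w, j), i)) : ℕ) : ZMod p)) =
        ((r : ℕ) : ZMod p)) ∧
    (∀ r v, ∃ i, T r i = Sum.inr v) ∧ ∀ r r' i v, T r i = Sum.inr v → T r' i = Sum.inr v

/-- UPA (250 lines), the matching upper bound: a read-once program with a short list of goals.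
A goal is `W i j q g q'` (`i ≤ j ≤ n`): from state `q` with top symbol `g` the machine, reading the
letters `i, …, j - 1`, removes `g` with the last of these letters and ends in state `q'` (the part of
the stack below `g` is not touched), or `F i q o` (`o : Option Γ`): from state `q` with top symbol
`o` (`none`: empty stack), reading the letters `i, …, n - 1`, the machine never goes below this
symbol and is accepting at the end. Configurations of the program: lists of at most `K` goals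
(`Fin (n+1)` for positions), start `[F 0 q₀ none]`, accepting: `[]`. Steps from `x :: rest`:
free: `F n q o → rest` if `fin q o = true`;
test of the letter `i` being `a`, with `stp a q (top) = (q₁, op)`:
`W i j q g q'`, `i < j`: `op = pop`: if `j = i + 1`, `q' = q₁`: `rest`; `op = none`: `W (i+1) j q₁ g q'`;
`op = push g'`: `W (i+1) m q₁ g' q₂` and `W m j q₂ g q'` (guess `m`, `q₂`), in either order;
`F i q o`, `i < n`: `op = none`: `F (i+1) q₁ o`; `op = pop`: only if `o = none`: `F (i+1) q₁ none`;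
`op = push g'`: `F (i+1) q₁ (some g')`, or `W (i+1) m q₁ g' q₂` and `F m q₂ o` in either order.
SOUND: the invariant 'if all goals of the list are true then the first goal is true' along
`Reach`; so `F 0 q₀ none` is true and `w ∈ L`. (Truth of a goal by recursion on its size, `j - i` or
`n - i`, is independent of the rest of the stack: define truth by the same recursion, e.g. as an
inductive predicate `True' w goal`, and prove once that `True' w (F 0 q₀ none)` iff `w ∈ L`: the run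
from `(q, o.toList ++ st)`.) COMPLETE: if a goal of size `s` is true and `rest.length + 1 + log₂(s + 1)
≤ K` then from `goal :: rest` one reaches `rest` with exactly `s` tests: by strong induction on `s`; of
two subgoals of sizes `a ≤ b`, `a + b ≤ s - 1`, put the smaller one first: `log₂ (a + 1) ≤
log₂ (s + 1) - 1` pays for the waiting one. With `K = Nat.log 2 (n + 1) + 1` the first goal (size `n`)
works. -/
def S_UPA : Prop := ∀ (α Q Γ : Type) [Finite Q] [Finite Γ] [Finite α]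
  (stp : α → Q → Option Γ → Q × Op Γ) (q₀ : Q) (fin : Q → Option Γ → Bool) (n : ℕ),
  ∃ P : Prog α n,
    P.Recognizes {w | fin (run stp w (q₀, [])).1 (run stp w (q₀, [])).2.head? = true} n ∧
    Nat.card P.S ≤ ((n + 1) ^ 2 * (Nat.card Q ^ 2 * Nat.card Γ + Nat.card Q * (Nat.card Γ + 1)) +
      1) ^ (Nat.log 2 (n + 1) + 1)

/-- UPB (80 lines), hypothesis `S_UPA`. Proof: `(c₀ (n+1)² + 1) ^ (log₂ (n+1) + 1) ≤ n ^ (C log n)` for
`n ≥ 2` and a constant `C` (depending on `c₀`): take logarithms; `log (c₀ (n+1)² + 1) ≤ c₁ log n`,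
`log₂ (n + 1) + 1 ≤ c₂ log n` for `n ≥ 2`. -/
def S_UPB : Prop := ∀ (α Q Γ : Type) [Finite Q] [Finite Γ] [Finite α]
  (stp : α → Q → Option Γ → Q × Op Γ) (q₀ : Q) (fin : Q → Option Γ → Bool),
  ∃ C : ℕ, ∀ n, 2 ≤ n → ∃ P : Prog α n,
    P.Recognizes {w | fin (run stp w (q₀, [])).1 (run stp w (q₀, [])).2.head? = true} n ∧
    (Nat.card P.S : ℝ) ≤ (n : ℝ) ^ (C * Real.log n)

/-- The theorem on random access, strong form: worst case, average case and upper bound. -/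
def FinalB : Prop := ∀ k : ℕ, ∃ (α : Type) (_ : Finite α) (L : Set (List α)),
  (∃ M : PDA α 1, M.Det ∧ M.lang = L ∧
    ∀ w t c, M.Reach w t c → c.pos 0 = min t (w.length + 1) ∧ t ≤ w.length + 2) ∧
  (∃ c : ℝ, 0 < c ∧ ∀ᶠ n : ℕ in Filter.atTop,
    (∀ P : Prog α n, P.Recognizes L (k * n) → (n : ℝ) ^ (c * Real.log n) ≤ Nat.card P.S) ∧
    ∃ H : Finset (Fin n → α), H.Nonempty ∧ (∀ w ∈ H, List.ofFn w ∈ L) ∧
      ∀ P : Prog α n, (∀ w m s, P.Reach w m s → s ∈ P.accept → List.ofFn w ∈ L) →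
        (Nat.card P.S : ℝ) ≤ (n : ℝ) ^ (c * Real.log n) →
        ({w | w ∈ H ∧ ∃ m ≤ k * n, ∃ s ∈ P.accept, P.Reach w m s}.ncard : ℝ) ≤
          (n : ℝ) ^ (-(c * Real.log n)) * H.card) ∧
  ∃ C : ℕ, ∀ n, 2 ≤ n → ∃ P : Prog α n, P.Recognizes L n ∧
    (Nat.card P.S : ℝ) ≤ (n : ℝ) ^ (C * Real.log n)

/-- FNB (200 lines), hypotheses `S_RTP`, `S_LEN`, `S_LNG2`, `S_COR`, `S_NUM`, `S_PRM`, `S_UPB`. Proof:
`K = 2 k`; `C, c, E` from `S_COR`, `g` from `S_NUM`, `M = 2 ^ g`, `D = 4 g + 16`, `γ`; `α = Lt M`,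
`L = Lang M` with the automaton of `S_RTP` (`stp M`, `q₀ = (0, 0, none, true)`,
`fin q o = q.2.2.2 && o.isNone`); the upper bound is `S_UPB` for the same data. For large `n`: `h, b, p`
from `S_PRM`, `m` from `S_NUM`, `κ = h`, `T` from `S_LNG2` (length by `S_LEN`).
For `x : V × Fin b → Fin M` let `r x : Fin p` be the number of its root value. `H` = the image of
`x ↦ word (T (r x)) Lt.dig x`; all these words are in `L`; the map is injective: a position `i` with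
`T r i = inr v` (all `r`) shows `x v`. So `H.card = M ^ (2 ^ h h b) > 0`.
AVERAGE: for sound `P` let `A` be the set of the `x` whose word is accepted with `≤ k n` tests; for
`r : Fin p` let `A_r = {x ∈ A | r x = r}`; `k n ≤ K (2 ^ h h b)`, so `S_COR` with `T r`, `ρ = r`,
`H = A_r` (soundness: an accepted word `word (T r) dig y` is in `L`, so its value is `r`) gives
`A_r.card * M ^ (m (h / E)) ≤ (…) M ^ (2 ^ h h b)`; sum over the `p` values of `r` and use `S_NUM`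
(with `s = Nat.card P.S`): `A.card * n ^ (γ log n) ≤ H.card`. `c = γ` here; the set of accepted
words in `H` is the injective image of `A`.
WORST CASE: if `P` recognizes `L` with `k n` tests and `card P.S < n ^ (γ log n)`, then all words of
`H` are accepted fast, so `H.card ≤ n ^ (- γ log n) H.card`, which is false for `n ≥ 2`
(`n ^ (γ log n) > 1`). -/
def S_FNB : Prop := FinalB

end Pool.Agent.RLT
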