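import Pool.Agent.RLT.St4
import Pool.Agent.RLT.Defs2

/-!
# MP_5e85fc_lc, project RLT: statements, part 5 (Theorem A of helper16: one language over a fixed
alphabet against all two-way multihead nondeterministic finite automata in linear time)
-/

set_option autoImplicit false

namespace Pool.Agent.RLT

open Pool.Agent.Heads

/-- The fixed alphabet. `bit b`: store the bit `b`; `psh`: push a unit if the stored bit is `1`;
`opn`: push a marker; `ent`: next entry of a table (when it is selected the marker is removed);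
`rnt`: the same but the marker is kept; `unt`: push a unit if the present entry is selected; `cls`: end
of the table; `chk`: pop one unit; `pad`: nothing. -/
inductive LA where
  | bit (b : Bool)
  | psh
  | opn
  | ent
  | rnt
  | unt
  | cls
  | chk
  | pad

/-- States: stored bit, mode, no error. Stack symbols: `true` = unit, `false` = marker. -/
def stpA : LA → Bool × Option Bool × Bool → Option Bool → (Bool × Option Bool × Bool) × Op Bool
  | .bit b, (_, md, ok), _ => ((b, md, ok), .none)
  | .psh, (lb, md, ok), _ => ((lb, md, ok), if lb = true then .push true else .none)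
  | .opn, q, _ => (q, .push false)
  | .ent, (lb, none, ok), some true => ((lb, none, ok), .pop)
  | .ent, (lb, none, ok), some false => ((lb, some true, ok), .pop)
  | .ent, (lb, none, ok), none => ((lb, some false, ok), .none)
  | .ent, (lb, some _, ok), _ => ((lb, some false, ok), .none)
  | .rnt, (lb, none, ok), some true => ((lb, none, ok), .pop)
  | .rnt, (lb, none, ok), some false => ((lb, some true, ok), .none)
  | .rnt, (lb, none, ok), none => ((lb, some false, ok), .none)
  | .rnt, (lb, some _, ok), _ => ((lb, some false, ok), .none)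
  | .unt, (lb, md, ok), _ => ((lb, md, ok), if md = some true then .push true else .none)
  | .cls, (lb, _, ok), _ => ((lb, none, ok), .none)
  | .chk, (lb, md, ok), some true => ((lb, md, ok), .pop)
  | .chk, (lb, md, _), _ => ((lb, md, false), .none)
  | .pad, q, _ => (q, .none)

/-- The language: after the word the stack is empty and there was no error. -/
def LangA : Set (List LA) :=
  {w | (run stpA w ((false, none, true), [])).1.2.2 = true ∧
    (run stpA w ((false, none, true), [])).2 = []}

/-- The reduction table modulo `2 ^ g`. -/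
def redT (g : ℕ) : List LA :=
  ((List.range (2 * 2 ^ g - 1)).flatMap fun x => LA.rnt :: List.replicate (x % 2 ^ g) LA.unt) ++
    [LA.cls]

/-- The record of the digit `u` (`g` bits). -/
def recT {U : Type} (g : ℕ) (u : U) : List (LA ⊕ (U × ℕ)) :=
  ((List.range g).flatMap fun j => Sum.inr (u, j) :: List.replicate (2 ^ j) (Sum.inl LA.psh)) ++
    (redT g).map Sum.inl

/-- The table `D ↦ D * M ^ j`, `D < M = 2 ^ g`. -/
def digT (g j : ℕ) : List LA :=
  (List.range (2 ^ g)).flatMap fun D => LA.ent :: List.replicate (D * (2 ^ g) ^ j) LA.unt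

/-- The template of the leaf `u`. -/
def leafA (g κ b : ℕ) (u : List Bool) : List (LA ⊕ ((List Bool × Fin κ × Fin b) × ℕ)) :=
  (List.finRange κ).flatMap fun (j : Fin κ) =>
    Sum.inl LA.opn :: (((List.finRange b).flatMap fun (i : Fin b) => recT g (u, j, i)) ++
      (digT g (j : ℕ)).map Sum.inl ++ [Sum.inl LA.cls])

/-- The table `x ↦ x ^ 2 % p`, `x < 2 p - 1`. -/
def tableA (p : ℕ) : List LA :=
  (List.range (2 * p - 1)).flatMap fun x => LA.ent :: List.replicate (x ^ 2 % p) LA.unt

/-- The template of the tree of height `h` below the node `u`. -/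
def treeA (g κ b p : ℕ) : ℕ → List Bool → List (LA ⊕ ((List Bool × Fin κ × Fin b) × ℕ))
  | 0, u => leafA g κ b u
  | h + 1, u => Sum.inl LA.opn :: (treeA g κ b p h (u ++ [false]) ++
      treeA g κ b p h (u ++ [true]) ++ (tableA p).map Sum.inl ++ [Sum.inl LA.cls])

/-- The letter for the bit number `j` of the digit `d`. -/
def encA {M : ℕ} (d : Fin M) (j : ℕ) : LA := LA.bit ((d : ℕ).testBit j)

/-- The word of a template (list form). -/
def evA {M : ℕ} {U : Type} (x : U → Fin M) (T : List (LA ⊕ (U × ℕ))) : List LA :=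
  T.map (Sum.elim id fun v => encA (x v.1) v.2)

/-- WRA (250 lines; compare `WRD.lean`). Proof: `run` of a concatenation is the composition.
RECORD: from the stack `1^s` above a marker, `s < M = 2 ^ g`, the first part of the record of the
digit `d` pushes `∑_(j < g) d_j 2 ^ j = d` units (`Nat.testBit`), the reduction table (entries
`x < s + d` pop a unit, the entry `s + d ≤ 2 M - 2` keeps the marker and pushes `(s + d) % M` units,
the later entries do nothing) leaves `1^((s + d) % M)` above the marker. BLOCK: `opn`, `b` records: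
`1^D`, `D = ∑ i, x (u, j, i)` in `Fin (2 ^ g)`; the table `digT` pops the `D` units and the marker and
pushes `D * M ^ j` units. LEAF: in all `lfN < M ^ κ ≤ p` units. NODE: as in `S_WRD`. The stored bit at
the end is not controlled: `∃ lb'`. -/
def S_WRA : Prop := ∀ (g κ b p : ℕ) [Fact p.Prime], (2 ^ g) ^ κ ≤ p →
  ∀ (h : ℕ) (u : List Bool) (x : List Bool × Fin κ × Fin b → Fin (2 ^ g)) (lb : Bool)
    (stk : List Bool), ∃ lb' : Bool,
    run stpA (evA x (treeA g κ b p h u)) ((lb, none, true), stk) =
      ((lb', none, true), List.replicate (val h (fun w =>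
        ((lfN (fun j => ∑ i, x (u ++ w, j, i)) : ℕ) : ZMod p))).val true ++ stk)

/-- LEA (100 lines). Proof: `M = 2 ^ g`. `(redT g).length = M ^ 2 + 1`
(`∑_(x < 2M-1) (1 + x % M) = (2M - 1) + (M - 1) ^ 2`), `(recT g u).length = g + (M - 1) + M ^ 2 + 1`,
`(digT g j).length = M + M ^ j * (M (M - 1) / 2) ≤ M + M ^ (j + 2) / 2`, and
`∑_(j < κ) M ^ (j + 2) ≤ 2 * M ^ (κ + 1)` … (for `M = 1`, i.e. `g = 0`, the digits tables have length
`M`); the table `tableA` has length at most `2 p * p`. -/
def S_LEA : Prop := ∀ (g κ b p h : ℕ) (u : List Bool), 1 ≤ g → 1 ≤ p →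
  (treeA g κ b p h u).length ≤
    2 ^ h * (κ * (b * ((2 ^ g) ^ 2 + 2 ^ g + g) + 2 ^ g + 2) + (2 ^ g) ^ (κ + 2)) +
      (2 ^ h - 1) * (2 * p ^ 2 + 2)

/-- The word of a template (function form). -/
def bword {β U : Type} {n M : ℕ} (T : Fin n → β ⊕ (U × ℕ)) (enc : Fin M → ℕ → β)
    (x : U → Fin M) : Fin n → β := fun i => Sum.elim id (fun v => enc (x v.1) v.2) (T i)

/-- The places of different digits have distance greater than `τ`. -/
def Apart {β U : Type} {n : ℕ} (τ : ℕ) (T : Fin n → β ⊕ (U × ℕ)) : Prop :=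
  ∀ (i i' : Fin n) (u u' : U) (j j' : ℕ), T i = Sum.inr (u, j) → T i' = Sum.inr (u', j') →
    u ≠ u' → (i : ℕ) + τ < i' ∨ (i' : ℕ) + τ < i

/-- LNA (200 lines; compare `LNG2.lean`), hypothesis `S_WRA`. Proof: `T r` is the list
`treeA g κ b p h [] ++ r letters chk ++ (n - length - r) letters pad` with `inr ((u, j, i), l)`
replaced by `inr (((adr h u, j), i), l)`, as a function on `Fin n`. Membership: as in `S_LNG` (after
the tree `V` units on the empty stack). Places of the digits: every `(v, l)`, `l < g`, occurs, at the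
same places for all `r`. APART: call a list `l` of `LA ⊕ (U × ℕ)` good if any two entries
`inr (u, _)`, `inr (u', _)`, `u ≠ u'`, have distance `> M ^ 2`, and every entry `inr _` at place `i` has
`i + M ^ 2 + 1 < l.length`. Lists of `inl`'s are good, concatenations of good lists are good, `recT g u`
is good (only one digit; the reduction table at its end has `M ^ 2 + 1` letters; see `S_LEA`). So
`treeA` is good for the original names; names which are different after the replacement are
different before. -/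
def S_LNA : Prop := ∀ (g κ b p h n : ℕ) [Fact p.Prime], 1 ≤ g → (2 ^ g) ^ κ ≤ p →
  (treeA g κ b p h []).length + p ≤ n →
  ∃ T : Fin p → Fin n → LA ⊕ ((((Fin h → Bool) × Fin κ) × Fin b) × ℕ),
    (∀ r (x : ((Fin h → Bool) × Fin κ) × Fin b → Fin (2 ^ g)),
      List.ofFn (bword (T r) encA x) ∈ LangA ↔
        val h (fun w => ((lfN (fun j => ∑ i, x ((adr h w, j), i)) : ℕ) : ZMod p)) =
          ((r : ℕ) : ZMod p)) ∧
    (∀ r v, ∀ l < g, ∃ i, T r i = Sum.inr (v, l)) ∧
    (∀ r r' i v, T r i = Sum.inr v → T r' i = Sum.inr v) ∧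
    ∀ r, Apart ((2 ^ g) ^ 2) (T r)

/-- SIM (250 lines), simulation of a `J`-head automaton by a program which reads digits. Proof:
`Cf = A.Q × (Fin J → Fin (n + 2))` (configurations; heads never leave `0, …, n + 1`). For `c, c'` in
`Cf` and `F : Fin J → Option (Fin N × Fin M)` let `LOC c c' F` mean: there are `y₀ : Fin N → Fin M` with
`y₀ v = d` whenever `F j = some (v, d)`, and a computation `c = c_0, …, c_l = c'` of `A`, `l ≤ τ`, on the
word of `y₀`, such that every cell `i + 1` with `T i = inr (u, _)` scanned by some head in some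
`c_t`, `t < l`, has `F j = some (e.symm u, _)` for some `j`. Then on the word of every `y` with
`y v = d` for all `F j = some (v, d)` the same sequence is a computation (each scanned symbol is the
same). States of `P`: `Cf ⊕ (Cf × (Fin J → Option (Fin N × Fin M)) × Fin (J + 1))`; start: the initial
configuration; accepting: the `c` with `c.1 ∈ A.accept`; steps: `c → (c', F, 0)` free if `LOC c c' F`;
`(c', F, j) → (c', F, j + 1)` free if `F j = none`, with the test that the letter `v` is `d` if
`F j = some (v, d)`; `(c', F, J) → c'` free. SOUND: along `P.Reach y`, each `c` is reachable for `A` on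
the word of `y`, and in a state `(c', F, j)` there is a reachable `c` with `LOC c c' F` and
`y v = d` for the first `j` entries of `F`. FAST: a computation of length `i ≤ t` is cut into
`≤ t / τ + 1` slices of `≤ τ` steps; in a slice a head scans cells in an interval of length `< τ` (it
moves by at most one cell in a step), so by `Apart` it meets at most one digit `u`; let `F j` be this
digit of head `j` with its value in `y` (`none` if there is no such digit): at most `J` tests. -/
def S_SIM : Prop := ∀ (β U : Type) (n M J τ N : ℕ) (A : FA β J) (T : Fin n → β ⊕ (U × ℕ))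
  (enc : Fin M → ℕ → β) (e : Fin N ≃ U), 1 ≤ τ → Apart τ T →
  ∃ P : Prog (Fin M) N,
    (∀ (y : Fin N → Fin M) m s, P.Reach y m s → s ∈ P.accept →
      A.Accepts (List.ofFn (bword T enc (y ∘ e.symm)))) ∧
    (∀ (y : Fin N → Fin M) t, AcceptsIn A (List.ofFn (bword T enc (y ∘ e.symm))) t →
      ∃ m ≤ J * (t / τ + 1), ∃ s ∈ P.accept, P.Reach y m s) ∧
    Nat.card P.S ≤ Nat.card A.Q * (n + 2) ^ J * ((N * M + 1) ^ J * (J + 1) + 1)

/-- PRA (150 lines; compare `PRM.lean`), the lengths. Proof: as `S_PRM` with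
`h = Nat.log 2 n / (2 g + 8)`; `R = (2 ^ g) ^ 2 + 2 ^ g + g ≤ 2 (2 ^ g) ^ 2`; `O` = left side with `b = 0`,
`b = (n - O) / (2 ^ h h R)`; for large `h` (`g` is fixed) `4 O + 4 * 2 ^ h h R ≤ 2 ^ ((2g+8) h) ≤ n`, so
`2 ^ h h b R ≥ n / 2`. -/
def S_PRA : Prop := ∀ (g h₀ : ℕ), 1 ≤ g → ∀ᶠ n : ℕ in Filter.atTop, ∃ h b p : ℕ, h₀ ≤ h ∧
  1 ≤ h ∧ p.Prime ∧ 2 < p ∧ (2 ^ g) ^ h ≤ p ∧ p ≤ 2 * (2 ^ g) ^ h ∧ 1 ≤ b ∧
  n ≤ 2 ^ ((4 * g + 16) * h) ∧
  2 ^ h * (h * (b * ((2 ^ g) ^ 2 + 2 ^ g + g) + 2 ^ g + 2) + (2 ^ g) ^ (h + 2)) +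
    (2 ^ h - 1) * (2 * p ^ 2 + 2) + p ≤ n ∧
  n ≤ 4 * (2 ^ g) ^ 2 * (2 ^ h * h * b)

/-- Theorem A: one real-time DCFL over a fixed alphabet against two-way nondeterministic finite
automata with any number of heads in linear time. -/
def FinalA : Prop := ∃ (α : Type) (_ : Finite α) (L : Set (List α)),
  (∃ M : PDA α 1, M.Det ∧ M.lang = L ∧
    ∀ w t c, M.Reach w t c → c.pos 0 = min t (w.length + 1) ∧ t ≤ w.length + 2) ∧
  (∀ J t : ℕ, ∃ c : ℝ, 0 < c ∧ ∀ᶠ n : ℕ in Filter.atTop,
    ∃ H : Finset (List α), H.Nonempty ∧ (∀ w ∈ H, w ∈ L ∧ w.length = n) ∧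
      ∀ A : FA α J, (∀ w, w.length = n → A.Accepts w → w ∈ L) →
        (Nat.card A.Q : ℝ) * (n + 2) ^ J ≤ (n : ℝ) ^ (c * Real.log n) →
        ({w | w ∈ H ∧ AcceptsIn A w (t * n)}.ncard : ℝ) ≤
          (n : ℝ) ^ (-(c * Real.log n)) * H.card) ∧
  ∀ (J t : ℕ) (A : FA α J), A.lang = L →
    ∀ᶠ n : ℕ in Filter.atTop, ∃ w ∈ L, w.length = n ∧ ¬ AcceptsIn A w (t * n)

/-- FNA (250 lines; compare `FNB.lean`), hypotheses `S_RTP`, `S_LEA`, `S_LNA`, `S_SIM`, `S_COR`,
`S_NUM`, `S_PRA`. Proof: `α = LA`, `L = LangA` with the automaton of `S_RTP` (`stpA`,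
`q₀ = (false, none, true)`, `fin q o = q.2.2 && o.isNone`). For `J, t`: `K = J * (4 * t + 1)`,
`C, c, E` from `S_COR`, `g` from `S_NUM`, `M = 2 ^ g`, `D = 4 g + 16`, `γ`; `c' = γ / 2`. For large `n`:
`h, b, p` from `S_PRA`, `m` from `S_NUM`, `κ = h`, `T` from `S_LNA` (length by `S_LEA`),
`U = ((Fin h → Bool) × Fin h) × Fin b`, `N = 2 ^ h * h * b = card U`, `e : Fin N ≃ U`. For
`x : U → Fin M` let `r x : Fin p` be the number of its root value and `W x = List.ofFn (bword (T (r x))
encA x)`; all `W x` are in `L`, `W` is injective (all bits number `l < g` of all digits are visible at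
places which do not depend on `r`; `Nat.eq_of_testBit_eq`), `H = {W x}`, `H.card = M ^ N`. Let `A` be
sound on length `n`, `r : Fin p`, `A_r = {x | r x = r, AcceptsIn A (W x) (t n)}`. `S_SIM` for `T r`,
`τ = M ^ 2` gives `P`. Apply `S_COR` to `P`, alphabet `Fin M`, `n := N`, `dg = id`,
`T' i = inr (e i)` (so `word T' id x = x ∘ e`), `ρ = r`, `H = A_r`: soundness by `S_SIM` and soundness of
`A` and `S_LNA`; fast: `J (t n / τ + 1) ≤ J (4 t N + 1) ≤ K N` (`n ≤ 4 τ N`). Sum over `r`, use `S_NUM`
with `s = Nat.card P.S` bounded by `n ^ (γ log n)`: `Nat.card A.Q (n+2)^J ≤ n ^ (c' log n)` and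
`(N M + 1) ^ J (J + 1) + 1 ≤ n ^ (c' log n)` for large `n` (a polynomial in `n`; `N ≤ n`; the `P` for
different `r` are different but all have this bound: use `S_NUM` with the natural number
`s = Nat.card A.Q * (n + 2) ^ J * ((N M + 1) ^ J (J + 1) + 1)` and monotonicity). So
`|{x | AcceptsIn A (W x) (t n)}| * n ^ (γ log n) ≤ M ^ N`, and `n ^ (- γ log n) ≤ n ^ (- c' log n)`.
Last clause: for large `n`, `Nat.card A.Q (n + 2) ^ J ≤ n ^ (c log n)` and `n ^ (- c log n) < 1`, so not
all words of `H` are accepted in `t n` steps. -/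
def S_FNA : Prop := FinalA

end Pool.Agent.RLT
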