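import Pool.Agent.RLT.St6
import Pool.Agent.Lib_helper16.Time.Asymp

/-!
# MP_5e85fc_lc, project RLT: statements, part 7 (Theorem V: Theorem U together with the lower bound
`n log n` of helper16 for multihead finite automata with `2 ^ (n ^ (1 - ε))` states, for one and the
same language)
-/

set_option autoImplicit false

namespace Pool.Agent.RLT

open Pool.Agent.Heads


/-- The machine of `LangA` with four more letters: brackets of two kinds, which push and pop. -/
def stpB : LA ⊕ Time.Br → Bool × Option Bool × Bool → Option Bool →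
    (Bool × Option Bool × Bool) × Op Bool
  | .inl a, q, o => stpA a q o
  | .inr (true, b), q, _ => (q, .push b)
  | .inr (false, b), (lb, md, ok), o =>
    if o = some b then ((lb, md, ok), .pop) else ((lb, md, false), .none)

/-- The language: after the word the stack is empty and there was no error. -/
def LangB : Set (List (LA ⊕ Time.Br)) :=
  {w | (run stpB w ((false, none, true), [])).1.2.2 = true ∧
    (run stpB w ((false, none, true), [])).2 = []}

/-- DYK (100 lines). Proof: first clause: `run stpB (w.map inl) c = run stpA w c` by induction. Second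
clause: `Pool.Agent.Time.isDyck_iff`: `Time.IsDyck w ↔ Time.run w [] = some []`; by induction on
`w : List Time.Br`, for all `s`, `q = (false, none, true)`: if `Time.run w s = some s'` then
`run stpB (w.map inr) (q, s) = (q, s')`, and if `Time.run w s = none` then the state of
`run stpB (w.map inr) (q, s)` has `ok = false` (no letter changes `ok` from `false` to `true`). Third
clause: the letter `pad` changes nothing. -/
def S_DYK : Prop :=
  (∀ w : List LA, w.map Sum.inl ∈ LangB ↔ w ∈ LangA) ∧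
  (∀ w : List Time.Br, w.map Sum.inr ∈ LangB ↔ Time.IsDyck w) ∧
  ∀ w : List Time.Br, w.map Sum.inr ++ [Sum.inl LA.pad] ∈ LangB ↔ Time.IsDyck w

/-- MAP (80 lines), renaming of letters, for automata and machines. Proof: the same states (and
`pos`), `A'.δ q x = A.δ q (fun j => sm (x j))`, `P'.step s x = P.step s (fun j => sm (x j))` with
`sm : Sym α → Sym β` (`left ↦ left`, `letter a ↦ letter (φ a)`, `right ↦ right`);
`tape (w.map φ) p = sm (tape w p)`, `(w.map φ).length = w.length`. -/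
def S_MAP : Prop := ∀ (α β : Type) (φ : α → β) (k : ℕ),
  (∀ A : FA β k, ∃ A' : FA α k, Nat.card A'.Q = Nat.card A.Q ∧ ∀ w,
    (A'.Accepts w ↔ A.Accepts (w.map φ)) ∧ ∀ t, (AcceptsIn A' w t ↔ AcceptsIn A (w.map φ) t)) ∧
  ∀ P : Machine β k, ∃ P' : Machine α k, Nat.card P'.S = Nat.card P.S ∧ ∀ w,
    (P'.Accepts w ↔ P.Accepts (w.map φ)) ∧
    ∀ t r, (P'.AcceptsIn w t r ↔ P.AcceptsIn (w.map φ) t r)

/-- SUF (150 lines), one more letter at the end of the word. Proof: states `A.Q × (Fin k → Bool)`,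
`m = w.length`. The position `p` of a head of `A` on `w ++ [a]` (cells `0, …, m + 2`) is `p'`, flag
`false`, if `p ≤ m + 1`, `p' = p`, and `p' = m + 1`, flag `true`, if `p = m + 2`; the flag is `false`
if `p' ≤ m`. Symbol for `A`: if the head scans `right`: `letter a` if the flag is `false`, `right` if
it is `true`; otherwise the symbol itself. A step of `A` with direction `d`: if the scanned symbol
(of `w`) is not `right`, the direction is `d` and the new flag `false`; if it is `right` and the flag is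
`false`: `L` gives `L`, `false`; `S` gives `S`, `false`; `R` gives `S`, `true`; if the flag is `true`:
`L` gives `S`, `false`; `S` and `R` give `S`, `true`. One step of `A` on `w ++ [a]` is one step of `A'`
on `w` and conversely. -/
def S_SUF : Prop := ∀ (α : Type) (k : ℕ) (A : FA α k) (a : α), ∃ A' : FA α k,
  Nat.card A'.Q = Nat.card A.Q * 2 ^ k ∧ ∀ w, (A'.Accepts w ↔ A.Accepts (w ++ [a])) ∧
    ∀ t, (AcceptsIn A' w t ↔ AcceptsIn A (w ++ [a]) t)

/-- LOB (200 lines), hypotheses `S_DYK`, `S_MAP`, `S_SUF`. Proof: `q : ℕ` with `2 ≤ q`, `2 ≤ q * ε`;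
`n₀` from `Pool.Agent.Time.lower_bound k q`; `c = 1 / (8000 * q * k ^ 2)`. For large `n` let
`s = ⌈n ^ (1 - ε)⌉₊ + k`. `s ≤ (k + 2) * max (n ^ (1 - ε)) 1`, so
`s ^ q ≤ (k + 2) ^ q * n ^ (q - 2) ≤ (n / 2) ^ (q - 1) ≤ (n - 1) ^ (q - 1)` (`q * (1 - ε) ≤ q - 2`,
`(k + 2) ^ q * 2 ^ (q - 1) ≤ n`), in natural numbers `s ^ q ≤ (n - 1) ^ (q - 1) ≤ n ^ (q - 1)`. If `n`
is even: `A₁` from `S_MAP` with `φ = Sum.inr` has at most `2 ^ s` states and accepts only Dyck words of
length `n` (`S_DYK`); `lower_bound` gives a Dyck word `w` and `w.map inr` is the word wanted: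
`n * Nat.log 2 n ≤ 1000 q k² t` whenever `AcceptsIn A (w.map inr) t`. If `n` is odd: first `S_SUF` with
the letter `inl LA.pad`, then `S_MAP`: at most `card A.Q * 2 ^ k ≤ 2 ^ s` states; `lower_bound` for
`n - 1`. `Real.log m ≤ 2 * Nat.log 2 m` for `m ≥ 2` (`Pool.Agent.Poly.log_le` or directly),
`log (n - 1) ≥ log n / 2`, `n - 1 ≥ n / 2`. -/
def S_LOB : Prop := ∀ (k : ℕ) (ε : ℝ), 1 ≤ k → 0 < ε → ∃ c : ℝ, 0 < c ∧
  ∀ᶠ n : ℕ in Filter.atTop, ∀ A : FA (LA ⊕ Time.Br) k,
    (∀ w, w.length = n → A.Accepts w → w ∈ LangB) →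
    (Nat.card A.Q : ℝ) ≤ (2 : ℝ) ^ ((n : ℝ) ^ (1 - ε)) →
    ∃ w ∈ LangB, w.length = n ∧ ∀ t : ℕ, AcceptsIn A w t → c * (n * Real.log n) ≤ t

/-- LBA (copy of the first part of `t_FNU`), hypotheses `S_LEA`, `S_LNA`, `S_SIMJ`, `S_COR`, `S_NUM`,
`S_PRA`. -/
def S_LBA : Prop := ∀ k t : ℕ, ∃ τ : ℕ, 1 ≤ τ ∧ ∃ c : ℝ, 0 < c ∧ ∀ᶠ n : ℕ in Filter.atTop,
  ∃ H : Finset (List LA), H.Nonempty ∧ (∀ w ∈ H, w ∈ LangA ∧ w.length = n) ∧
    ∀ P : Machine LA k, (∀ w, w.length = n → P.Accepts w → w ∈ LangA) →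
      (Nat.card P.S : ℝ) ≤ (n : ℝ) ^ (c * Real.log n) →
      ({w | w ∈ H ∧ P.AcceptsIn w (t * n) (n / τ)}.ncard : ℝ) ≤
        (n : ℝ) ^ (-(c * Real.log n)) * H.card

/-- Theorem V. -/
def FinalV : Prop := ∃ (α : Type) (_ : Finite α) (L : Set (List α)),
  (∃ M : PDA α 1, M.Det ∧ M.lang = L ∧
    ∀ w t c, M.Reach w t c → c.pos 0 = min t (w.length + 1) ∧ t ≤ w.length + 2) ∧
  (∀ (k : ℕ) (ε : ℝ), 1 ≤ k → 0 < ε → ∃ c : ℝ, 0 < c ∧ ∀ᶠ n : ℕ in Filter.atTop,
    ∀ A : FA α k, (∀ w, w.length = n → A.Accepts w → w ∈ L) →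
      (Nat.card A.Q : ℝ) ≤ (2 : ℝ) ^ ((n : ℝ) ^ (1 - ε)) →
      ∃ w ∈ L, w.length = n ∧ ∀ t : ℕ, AcceptsIn A w t → c * (n * Real.log n) ≤ t) ∧
  (∀ k t : ℕ, ∃ τ : ℕ, 1 ≤ τ ∧ ∃ c : ℝ, 0 < c ∧ ∀ᶠ n : ℕ in Filter.atTop,
    ∃ H : Finset (List α), H.Nonempty ∧ (∀ w ∈ H, w ∈ L ∧ w.length = n) ∧
      ∀ P : Machine α k, (∀ w, w.length = n → P.Accepts w → w ∈ L) →
        (Nat.card P.S : ℝ) ≤ (n : ℝ) ^ (c * Real.log n) →
        ({w | w ∈ H ∧ P.AcceptsIn w (t * n) (n / τ)}.ncard : ℝ) ≤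
          (n : ℝ) ^ (-(c * Real.log n)) * H.card) ∧
  ∃ C : ℕ, ∀ n : ℕ, 2 ≤ n → ∃ P : Machine α 1,
    (Nat.card P.S : ℝ) ≤ (n : ℝ) ^ (C * Real.log n) ∧
    ∀ w, w.length = n → (P.Accepts w → w ∈ L) ∧
      (w ∈ L → P.AcceptsIn w (C * n) (C * n / Nat.log 2 n))

/-- FNV (150 lines), hypotheses `S_RTP`, `S_DYK`, `S_MAP`, `S_LOB`, `S_LBA`, `S_UPK`. Proof:
`α = LA ⊕ Time.Br` (finite: `FNA.finite_LA`), `L = LangB`; first clause `S_RTP` and last clause `S_UPK` for
`stpB`, `(false, none, true)`, `fin q o = q.2.2 && o.isNone` (as in `FNU.lean`). Second clause `S_LOB`.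
Third clause: `τ`, `c`, `H` from `S_LBA`; `H' = H.image (List.map Sum.inl)` (injective); for a sound `P`
over `LA ⊕ Time.Br` the machine `P'` over `LA` from `S_MAP` with `φ = Sum.inl` is sound for `LangA` by
`S_DYK`, and the words of `H'` accepted by `P` are the images of those of `H` accepted by `P'`. -/
def S_FNV : Prop := FinalV

end Pool.Agent.RLT
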